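import Pool.Agent.Helper96.RU.Defs

/-!
# Block RU-A1 (MP_a64d16_an): existence of maximal designs

Proof. For fixed `m ≤ M0`, `w ≤ W0` the tuples `(Y, Z, θ, s)` with the conditions of `Cfg.Adm` form
a compact subset of a finite dimensional space (closed conditions, `B` compact, `|θ k i| ≤ 1/t`),
nonempty (`0 ∈ B`, `θ = 0`), and `val` is continuous (determinant of a matrix with polynomial
entries; see `Pool.Agent.Cube.continuous_det_dmat`, `exists_isOpt`). Take a maximiser for each of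
the finitely many pairs `(m, w)` and the best of them. Its value is at least the value of the design
`m = 0, w = 0, Y i = Pi.single i r`, which is `(r ^ 2) ^ n > 0` (see `exists_design`), and
`val > 0` gives `det > 0`.
-/

namespace Pool.Agent.RU

open Matrix Module Pool.Agent.Cube

/-! ### helper94: compactness -/

/-- The data of a design with `m` clusters and `w` sinks. -/
abbrev h94D (n m w : ℕ) : Type :=
  (Fin n → Fin n → ℝ) × (Fin m → Fin n → ℝ) × (Fin m → Fin n → ℝ) × (Fin w → Fin n → ℝ)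

/-- The design with given data. -/
def h94mk {n m w : ℕ} (p : h94D n m w) : Cfg n where
  m := m
  w := w
  Y := p.1
  Z := p.2.1
  θ := p.2.2.1
  s := p.2.2.2

theorem h94_cont {n m w : ℕ} (E q : ℝ) :
    Continuous fun p : h94D n m w => (h94mk p).val E q := by
  have h1 : Continuous fun p : h94D n m w =>
      (Sum.elim (fun i => p.1 i + ∑ k, p.2.2.1 k i • p.2.1 k) p.2.2.2 :
        Fin n ⊕ Fin w → Fin n → ℝ) := by
    refine continuous_pi fun i => ?_
    rcases i with i | i
    · change Continuous fun p : h94D n m w => p.1 i + ∑ k, p.2.2.1 k i • p.2.1 k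
      fun_prop
    · change Continuous fun p : h94D n m w => p.2.2.2 i
      fun_prop
  have h2 : Continuous fun p : h94D n m w => ((h94mk p).S E).det :=
    (continuous_det_dmat (wt n w (1 / E))).comp h1
  change Continuous fun p : h94D n m w =>
    ((h94mk p).S E).det * (1 / 2 : ℝ) ^ w * (1 / q) ^ m
  exact (h2.mul continuous_const).mul continuous_const

theorem h94_compact {n : ℕ} {B : Set (Fin n → ℝ)} (hc : IsCompact B) {t : ℝ} (Q0 M0 W0 : ℕ)
    {m w : ℕ} (hm : m ≤ M0) (hw : w ≤ W0) :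
    IsCompact {p : h94D n m w | (h94mk p).Adm B t Q0 M0 W0} := by
  have hK : IsCompact ((Set.pi Set.univ fun _ : Fin n => B) ×ˢ
      ((Set.pi Set.univ fun _ : Fin m => B) ×ˢ
        ((Set.pi Set.univ fun _ : Fin m => Set.pi Set.univ fun _ : Fin n =>
          Set.Icc (-(1 / t)) (1 / t)) ×ˢ (Set.pi Set.univ fun _ : Fin w => B)))) :=
    (isCompact_univ_pi fun _ => hc).prod ((isCompact_univ_pi fun _ => hc).prod
      ((isCompact_univ_pi fun _ => isCompact_univ_pi fun _ => isCompact_Icc).prod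
        (isCompact_univ_pi fun _ => hc)))
  have hcl : IsClosed ({p : h94D n m w | ∀ k, ∑ i, |p.2.2.1 k i| ≤ Q0 / t} ∩
      {p : h94D n m w | ∀ i, ∑ k, |p.2.2.1 k i| ≤ 1}) := by
    apply IsClosed.inter
    · simp only [Set.ofPred_forall]
      refine isClosed_iInter fun k => isClosed_le ?_ continuous_const
      fun_prop
    · simp only [Set.ofPred_forall]
      refine isClosed_iInter fun k => isClosed_le ?_ continuous_const
      fun_prop
  have he : {p : h94D n m w | (h94mk p).Adm B t Q0 M0 W0} =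
      ((Set.pi Set.univ fun _ : Fin n => B) ×ˢ
      ((Set.pi Set.univ fun _ : Fin m => B) ×ˢ
        ((Set.pi Set.univ fun _ : Fin m => Set.pi Set.univ fun _ : Fin n =>
          Set.Icc (-(1 / t)) (1 / t)) ×ˢ (Set.pi Set.univ fun _ : Fin w => B)))) ∩
      ({p : h94D n m w | ∀ k, ∑ i, |p.2.2.1 k i| ≤ Q0 / t} ∩
      {p : h94D n m w | ∀ i, ∑ k, |p.2.2.1 k i| ≤ 1}) := by
    ext p
    constructor
    · intro h
      refine ⟨⟨fun i _ => h.hY i, fun k _ => h.hZ k, fun k _ i _ => abs_le.1 (h.hsup k i),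
        fun l _ => h.hs l⟩, h.hl1, h.hrow⟩
    · rintro ⟨⟨h1, h2, h3, h4⟩, h5, h6⟩
      exact
        { hm := hm
          hw := hw
          hY := fun i => h1 i trivial
          hZ := fun k => h2 k trivial
          hs := fun l => h4 l trivial
          hsup := fun k i => abs_le.2 (h3 k trivial i trivial)
          hl1 := h5
          hrow := h6 }
  rw [he]
  exact hK.inter_right hcl

theorem h94_nonempty {n : ℕ} {B : Set (Fin n → ℝ)} (h0 : (0 : Fin n → ℝ) ∈ B) {t : ℝ}
    (ht : 0 < t) (Q0 M0 W0 : ℕ) {m w : ℕ} (hm : m ≤ M0) (hw : w ≤ W0) :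
    ({p : h94D n m w | (h94mk p).Adm B t Q0 M0 W0}).Nonempty := by
  refine ⟨(0, 0, 0, 0), ?_⟩
  exact
    { hm := hm
      hw := hw
      hY := fun i => h0
      hZ := fun k => h0
      hs := fun l => h0
      hsup := fun k i => by
        change |(0 : ℝ)| ≤ 1 / t
        rw [abs_zero]
        positivity
      hl1 := fun k => by
        change ∑ i : Fin n, |(0 : ℝ)| ≤ Q0 / t
        simp only [abs_zero, Finset.sum_const_zero]
        positivity
      hrow := fun i => by
        change ∑ k : Fin m, |(0 : ℝ)| ≤ 1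
        simp }

/-- Block RU-A1. -/
theorem exists_max {n : ℕ} {B : Set (Fin n → ℝ)} (hc : IsCompact B) {r : ℝ} (hr : 0 < r)
    (hB : ∀ i : Fin n, Pi.single i r ∈ B) (h0 : (0 : Fin n → ℝ) ∈ B) {E t q : ℝ} (hE : 0 < E)
    (ht : 0 < t) (hq : 0 < q) (Q0 M0 W0 : ℕ) :
    ∃ c : Cfg n, c.IsMax B E t q Q0 M0 W0 := by
  have h1 : ∀ mw : Fin (M0 + 1) × Fin (W0 + 1), ∃ p : h94D n mw.1 mw.2,
      (h94mk p).Adm B t Q0 M0 W0 ∧ ∀ p' : h94D n mw.1 mw.2, (h94mk p').Adm B t Q0 M0 W0 →
        (h94mk p').val E q ≤ (h94mk p).val E q := by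
    rintro ⟨m, w⟩
    have hm : (m : ℕ) ≤ M0 := by have := m.2; omega
    have hw : (w : ℕ) ≤ W0 := by have := w.2; omega
    obtain ⟨p, hp, hmax⟩ := (h94_compact hc (t := t) Q0 M0 W0 hm hw).exists_isMaxOn
      (h94_nonempty h0 ht Q0 M0 W0 hm hw) (h94_cont E q).continuousOn
    exact ⟨p, hp, fun p' hp' => hmax hp'⟩
  choose P hP hmaxP using h1
  obtain ⟨mw, hmw⟩ := Finite.exists_max (fun mw : Fin (M0 + 1) × Fin (W0 + 1) =>
    (h94mk (P mw)).val E q)
  have hmax : ∀ c' : Cfg n, c'.Adm B t Q0 M0 W0 → c'.val E q ≤ (h94mk (P mw)).val E q := by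
    intro c' hc'
    obtain ⟨m, w, Y, Z, θ, s⟩ := c'
    have hm := hc'.hm
    have hw := hc'.hw
    simp only at hm hw
    have h2 := hmaxP ⟨⟨m, by omega⟩, ⟨w, by omega⟩⟩ (Y, Z, θ, s) hc'
    exact h2.trans (hmw ⟨⟨m, by omega⟩, ⟨w, by omega⟩⟩)
  refine ⟨h94mk (P mw), hP mw, ?_, hmax⟩
  obtain ⟨x, hx⟩ := exists_design hc hr hB h0 0 (1 / E)
  have hdes : (h94mk (n := n) (m := 0) (w := 0) (fun i => x (Sum.inl i), 0, 0, 0)).Adm
      B t Q0 M0 W0 :=
    { hm := Nat.zero_le _
      hw := Nat.zero_le _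
      hY := fun i => hx.mem _
      hZ := fun k => k.elim0
      hs := fun l => l.elim0
      hsup := fun k => k.elim0
      hl1 := fun k => k.elim0
      hrow := fun i => by
        change ∑ k : Fin 0, _ ≤ (1 : ℝ)
        simp }
  have h3 := hmax _ hdes
  have h4 : 0 < (h94mk (n := n) (m := 0) (w := 0) (fun i => x (Sum.inl i), 0, 0, 0)).val E q := by
    unfold Cfg.val
    have h5 : (h94mk (n := n) (m := 0) (w := 0) (fun i => x (Sum.inl i), 0, 0, 0)).col = x := by
      funext i
      rcases i with i | i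
      · change x (Sum.inl i) + ∑ k : Fin 0, _ = x (Sum.inl i)
        simp
      · exact i.elim0
    unfold Cfg.S
    rw [h5]
    change 0 < (dmat (wt n 0 (1 / E)) x).det * (1 / 2) ^ 0 * (1 / q) ^ 0
    rw [pow_zero, pow_zero, mul_one, mul_one]
    exact hx.pos
  have h5 := h4.trans_le h3
  unfold Cfg.val at h5
  have h6 : 0 < (1 / 2 : ℝ) ^ (h94mk (P mw)).w := by positivity
  have h7 : 0 < (1 / q) ^ (h94mk (P mw)).m := by positivity
  have h8 := (pos_iff_pos_of_mul_pos h5).2 h7
  exact (pos_iff_pos_of_mul_pos h8).2 h6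

end Pool.Agent.RU
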