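import Pool.Agent.Helper96.RU.A2

/-!
# Block RU-A3 (MP_a64d16_an): the inequalities of a maximal design

`S = c.S E`. All by comparing `val` with the value of a modified admissible design.
* `sink_lower`: remove the sink `l` (`w = w' + 1`, new sinks `c.s ∘ Fin.succAbove l`, everything
  else as before; best done after writing `c = ⟨m, w' + 1, Y, Z, θ, s⟩`, cases on `c.w`):
  `det (S - (1/E) s sᵀ) = det S (1 - (1/E) s S⁻¹ s)` (`Cube.det_rank_two` with `β = 0`), and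
  `val' = det' (1/2)^(w-1) (1/q)^m ≤ val` gives `2 (1 - (1/E) s S⁻¹ s) ≤ 1`.
* `w_le`: `∑ leverages = n` (`Cube.sum_leverage`) and each sink has leverage
  `(1/E) s S⁻¹ s ≥ 1/2`, the points have leverage `≥ 0`.
* `norm_le`: add the sink `z` (`Fin.cons z c.s` or `Fin.snoc`): `(1 + (1/E) z S⁻¹ z) / 2 ≤ 1`.
* `exchange`: replace `Y i` by `e z`, `e = ±1`: the column `x i` becomes `x i + v`,
  `v = e z - Y i`; average of the two inequalities.
* `cluster`: add the cluster `θ` with the point `z` (`Fin.cons z c.Z`, `Fin.cons θ c.θ`):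
  the columns become `x i + θ i z`, `S' = S + a zᵀ + z aᵀ + (∑ θ_i^2) z zᵀ`, `a = ∑ θ_i x_i`;
  RU-A2 and `val' ≤ val` give `(1 + ..)^2 + (∑ θ^2 - a S⁻¹ a) (z S⁻¹ z) ≤ q`.
-/

namespace Pool.Agent.RU

open Matrix Module Pool.Agent.Cube

variable {n : ℕ} {B : Set (Fin n → ℝ)} {E t q : ℝ} {Q0 M0 W0 : ℕ} {c : Cfg n}

namespace A3

theorem S_eq (c : Cfg n) (E : ℝ) : c.S E = (∑ i, vecMulVec (c.x i) (c.x i)) +
    ∑ l, (1 / E) • vecMulVec (c.s l) (c.s l) := by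
  unfold Cfg.S dmat wt Cfg.col
  simp only [Fintype.sum_sum_type, Sum.elim_inl, Sum.elim_inr, one_smul]

theorem S_symm (c : Cfg n) (E : ℝ) : (c.S E)ᵀ = c.S E := dmat_transpose _ _

/-- Comparison of the determinants from the comparison of the values. -/
theorem det_le {c c' : Cfg n} {E q : ℝ} (hm : c'.m = c.m) (hw : c'.w = c.w) (hq : 0 < q)
    (h : c'.val E q ≤ c.val E q) : (c'.S E).det ≤ (c.S E).det := by
  unfold Cfg.val at h
  rw [hm, hw, mul_assoc, mul_assoc] at h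
  exact le_of_mul_le_mul_right h (by positivity)

end A3

theorem A3.sink_aux {m w : ℕ} {Y : Fin n → Fin n → ℝ} {Z θ : Fin m → Fin n → ℝ}
    {s : Fin (w + 1) → Fin n → ℝ}
    (h : (⟨m, w + 1, Y, Z, θ, s⟩ : Cfg n).IsMax B E t q Q0 M0 W0) (hE : 0 < E) (hq : 0 < q)
    (l : Fin (w + 1)) :
    E / 2 ≤ s l ⬝ᵥ ((⟨m, w + 1, Y, Z, θ, s⟩ : Cfg n).S E)⁻¹ *ᵥ s l := by
  let c : Cfg n := ⟨m, w + 1, Y, Z, θ, s⟩
  have hpos : 0 < (c.S E).det := h.pos
  have hadmc : c.Adm B t Q0 M0 W0 := h.adm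
  let c' : Cfg n := ⟨m, w, Y, Z, θ, fun j => s (l.succAbove j)⟩
  have hadm : c'.Adm B t Q0 M0 W0 := ⟨hadmc.hm, (Nat.le_succ w).trans hadmc.hw, hadmc.hY,
    hadmc.hZ, fun j => hadmc.hs (l.succAbove j), hadmc.hsup, hadmc.hl1, hadmc.hrow⟩
  have hS : c'.S E = c.S E - (1 / E) • vecMulVec (s l) (s l) +
      (0 : ℝ) • vecMulVec (s l) (s l) := by
    rw [A3.S_eq, A3.S_eq, zero_smul, add_zero]
    have e1 : ∑ j : Fin (w + 1), (1 / E) • vecMulVec (s j) (s j) =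
        (1 / E) • vecMulVec (s l) (s l) +
          ∑ j : Fin w, (1 / E) • vecMulVec (s (l.succAbove j)) (s (l.succAbove j)) :=
      Fin.sum_univ_succAbove _ l
    change (∑ i, vecMulVec (c.x i) (c.x i)) + ∑ j : Fin w, (1 / E) •
        vecMulVec (s (l.succAbove j)) (s (l.succAbove j)) =
      (∑ i, vecMulVec (c.x i) (c.x i)) + ∑ j : Fin (w + 1), (1 / E) • vecMulVec (s j) (s j) -
        (1 / E) • vecMulVec (s l) (s l)
    rw [e1]
    abel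
  have hd := det_rank_two (c.S E) hpos.ne'.isUnit (A3.S_symm c E) (s l) (s l) (1 / E) 0
  rw [← hS] at hd
  have hv := h.max c' hadm
  change (c'.S E).det * (1 / 2) ^ w * (1 / q) ^ m ≤
    (c.S E).det * (1 / 2) ^ (w + 1) * (1 / q) ^ m at hv
  have hv2 : (c'.S E).det ≤ (c.S E).det * (1 / 2) := by
    have e2 : (c.S E).det * (1 / 2) ^ (w + 1) * (1 / q) ^ m =
        (c.S E).det * (1 / 2) * ((1 / 2) ^ w * (1 / q) ^ m) := by ring
    rw [e2, mul_assoc] at hv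
    exact le_of_mul_le_mul_right hv (by positivity)
  rw [hd] at hv2
  have h3 := le_of_mul_le_mul_left hv2 hpos
  change E / 2 ≤ s l ⬝ᵥ (c.S E)⁻¹ *ᵥ s l
  have h4 : 1 / E * (s l ⬝ᵥ (c.S E)⁻¹ *ᵥ s l) = (s l ⬝ᵥ (c.S E)⁻¹ *ᵥ s l) / E := by ring
  rw [h4] at h3
  have h5 : 1 / 2 ≤ (s l ⬝ᵥ (c.S E)⁻¹ *ᵥ s l) / E := by linarith
  rw [le_div_iff₀ hE] at h5
  linarith

/-- Block RU-A3a: a sink has a large norm. -/
theorem Cfg.IsMax.sink_lower (h : c.IsMax B E t q Q0 M0 W0) (hE : 0 < E) (hq : 0 < q)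
    (l : Fin c.w) : E / 2 ≤ c.s l ⬝ᵥ (c.S E)⁻¹ *ᵥ c.s l := by
  revert l
  obtain ⟨m, w, Y, Z, θ, s⟩ := c
  obtain _ | w := w
  · exact fun l => l.elim0
  · exact fun l => A3.sink_aux h hE hq l

theorem A3.quad_nonneg (h : c.IsMax B E t q Q0 M0 W0) (hE : 0 < E) (z : Fin n → ℝ) :
    0 ≤ z ⬝ᵥ (c.S E)⁻¹ *ᵥ z := by
  refine quad_inv_nonneg ?_ h.pos z
  rintro (i | i)
  · exact zero_le_one
  · exact (one_div_pos.2 hE).le

/-- Block RU-A3b: the number of sinks is at most `2 n`. -/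
theorem Cfg.IsMax.w_le (h : c.IsMax B E t q Q0 M0 W0) (hE : 0 < E) (hq : 0 < q) :
    c.w ≤ 2 * n := by
  have hs := sum_leverage h.pos
  rw [Fintype.sum_sum_type] at hs
  have h1 : 0 ≤ ∑ i : Fin n, wt n c.w (1 / E) (Sum.inl i) *
      (c.col (Sum.inl i) ⬝ᵥ (dmat (wt n c.w (1 / E)) c.col)⁻¹ *ᵥ c.col (Sum.inl i)) := by
    refine Finset.sum_nonneg fun i _ => mul_nonneg zero_le_one ?_
    exact A3.quad_nonneg h hE _
  have h2 : (c.w : ℝ) * (1 / 2) ≤ ∑ i : Fin c.w, wt n c.w (1 / E) (Sum.inr i) *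
      (c.col (Sum.inr i) ⬝ᵥ (dmat (wt n c.w (1 / E)) c.col)⁻¹ *ᵥ c.col (Sum.inr i)) := by
    calc (c.w : ℝ) * (1 / 2) = ∑ _i : Fin c.w, (1 / 2 : ℝ) := by simp
      _ ≤ _ := Finset.sum_le_sum fun i _ => by
          have h3 := h.sink_lower hE hq i
          change (1 / 2 : ℝ) ≤ 1 / E * (c.s i ⬝ᵥ (c.S E)⁻¹ *ᵥ c.s i)
          calc (1 / 2 : ℝ) = 1 / E * (E / 2) := by field_simp
            _ ≤ _ := mul_le_mul_of_nonneg_left h3 (one_div_pos.2 hE).le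
  have h3 : (c.w : ℝ) ≤ 2 * n := by linarith
  exact_mod_cast h3

/-- Block RU-A3c: all vectors of `B` have norm at most `√E`. -/
theorem Cfg.IsMax.norm_le (h : c.IsMax B E t q Q0 M0 W0) (hE : 0 < E) (hq : 0 < q)
    (hw : c.w < W0) {z : Fin n → ℝ} (hz : z ∈ B) : z ⬝ᵥ (c.S E)⁻¹ *ᵥ z ≤ E := by
  let c' : Cfg n := ⟨c.m, c.w + 1, c.Y, c.Z, c.θ, Fin.cons z c.s⟩
  have hadm : c'.Adm B t Q0 M0 W0 := ⟨h.adm.hm, hw, h.adm.hY,
    h.adm.hZ, fun j => by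
      refine Fin.cases ?_ (fun j => ?_) j
      · exact hz
      · exact h.adm.hs j, h.adm.hsup, h.adm.hl1, h.adm.hrow⟩
  have hS : c'.S E = c.S E - (0 : ℝ) • vecMulVec z z + (1 / E) • vecMulVec z z := by
    rw [A3.S_eq, A3.S_eq, zero_smul, sub_zero]
    have e1 : ∑ j : Fin (c.w + 1), (1 / E) • vecMulVec (c'.s j) (c'.s j) =
        (1 / E) • vecMulVec z z + ∑ j : Fin c.w, (1 / E) • vecMulVec (c.s j) (c.s j) := by
      rw [Fin.sum_univ_succ]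
      rfl
    change (∑ i, vecMulVec (c.x i) (c.x i)) +
      ∑ j : Fin (c.w + 1), (1 / E) • vecMulVec (c'.s j) (c'.s j) = _
    rw [e1]
    abel
  have hd := det_rank_two (c.S E) h.pos.ne'.isUnit (A3.S_symm c E) z z 0 (1 / E)
  rw [← hS] at hd
  have hv := h.max c' hadm
  change (c'.S E).det * (1 / 2) ^ (c.w + 1) * (1 / q) ^ c.m ≤
    (c.S E).det * (1 / 2) ^ c.w * (1 / q) ^ c.m at hv
  have hv2 : (c'.S E).det ≤ (c.S E).det * 2 := by
    have e2 : (c.S E).det * (1 / 2) ^ c.w * (1 / q) ^ c.m =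
        (c.S E).det * 2 * ((1 / 2) ^ (c.w + 1) * (1 / q) ^ c.m) := by ring
    rw [e2, mul_assoc] at hv
    exact le_of_mul_le_mul_right hv (by positivity)
  rw [hd] at hv2
  have h3 := le_of_mul_le_mul_left hv2 h.pos
  have h4 : 1 / E * (z ⬝ᵥ (c.S E)⁻¹ *ᵥ z) = (z ⬝ᵥ (c.S E)⁻¹ *ᵥ z) / E := by ring
  rw [h4] at h3
  have h5 : (z ⬝ᵥ (c.S E)⁻¹ *ᵥ z) / E ≤ 1 := by linarith
  rw [div_le_iff₀ hE] at h5
  linarith

/-- One exchange. -/
theorem A3.exch_one (h : c.IsMax B E t q Q0 M0 W0) (hq : 0 < q) {z : Fin n → ℝ} (hz : z ∈ B)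
    (i : Fin n) :
    (1 - c.x i ⬝ᵥ (c.S E)⁻¹ *ᵥ c.x i) *
        (1 + (c.x i - c.Y i + z) ⬝ᵥ (c.S E)⁻¹ *ᵥ (c.x i - c.Y i + z)) +
      (c.x i ⬝ᵥ (c.S E)⁻¹ *ᵥ (c.x i - c.Y i + z)) ^ 2 ≤ 1 := by
  classical
  let c' : Cfg n := ⟨c.m, c.w, Function.update c.Y i z, c.Z, c.θ, c.s⟩
  have hadm : c'.Adm B t Q0 M0 W0 := ⟨h.adm.hm, h.adm.hw, fun j => by
      change Function.update c.Y i z j ∈ B
      rcases eq_or_ne j i with rfl | hj
      · rw [Function.update_self]; exact hz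
      · rw [Function.update_of_ne hj]; exact h.adm.hY j,
    h.adm.hZ, h.adm.hs, h.adm.hsup, h.adm.hl1, h.adm.hrow⟩
  have hcol : c'.col = Function.update c.col (Sum.inl i) (c.x i - c.Y i + z) := by
    funext j
    rcases j with j | j
    · rcases eq_or_ne j i with rfl | hj
      · rw [Function.update_self]
        change Function.update c.Y j z j + ∑ k, c.θ k j • c.Z k = _
        rw [Function.update_self]
        unfold Cfg.x
        abel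
      · rw [Function.update_of_ne (by simpa using hj)]
        change Function.update c.Y i z j + ∑ k, c.θ k j • c.Z k = _
        rw [Function.update_of_ne hj]
        rfl
    · rw [Function.update_of_ne (by simp)]
      rfl
  have hS : c'.S E = c.S E - (1 : ℝ) • vecMulVec (c.x i) (c.x i) +
      (1 : ℝ) • vecMulVec (c.x i - c.Y i + z) (c.x i - c.Y i + z) := by
    change dmat (wt n c.w (1 / E)) c'.col = _
    rw [hcol, dmat_update]
    rfl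
  have hd := det_rank_two (c.S E) h.pos.ne'.isUnit (A3.S_symm c E) (c.x i)
    (c.x i - c.Y i + z) 1 1
  rw [← hS] at hd
  have hv := A3.det_le (c := c) (c' := c') rfl rfl hq (h.max c' hadm)
  rw [hd] at hv
  have h3 := le_of_mul_le_mul_left (hv.trans (mul_one _).ge) h.pos
  simpa using h3

/-- Block RU-A3d: the exchange inequality. -/
theorem Cfg.IsMax.exchange (h : c.IsMax B E t q Q0 M0 W0) (hsymm : ∀ z ∈ B, -z ∈ B) (hE : 0 < E)
    (hq : 0 < q) {z : Fin n → ℝ} (hz : z ∈ B) (i : Fin n) :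
    (1 - c.x i ⬝ᵥ (c.S E)⁻¹ *ᵥ c.x i) * (z ⬝ᵥ (c.S E)⁻¹ *ᵥ z) ≤ 1 := by
  have hz0 := A3.quad_nonneg h hE z
  rcases le_or_gt (1 - c.x i ⬝ᵥ (c.S E)⁻¹ *ᵥ c.x i) 0 with hl | hl
  · have := mul_nonpos_of_nonpos_of_nonneg hl hz0
    linarith
  have h1 := A3.exch_one h hq hz i
  have h2 := A3.exch_one h hq (hsymm z hz) i
  have hu0 := A3.quad_nonneg h hE (c.x i - c.Y i)
  set T := (c.S E)⁻¹ with hT
  set u := c.x i - c.Y i with hu
  have e1 : (u + z) ⬝ᵥ T *ᵥ (u + z) = u ⬝ᵥ T *ᵥ u + u ⬝ᵥ T *ᵥ z + z ⬝ᵥ T *ᵥ u + z ⬝ᵥ T *ᵥ z := by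
    rw [mulVec_add, dotProduct_add, add_dotProduct, add_dotProduct]
    ring
  have e2 : (u + -z) ⬝ᵥ T *ᵥ (u + -z) =
      u ⬝ᵥ T *ᵥ u - u ⬝ᵥ T *ᵥ z - z ⬝ᵥ T *ᵥ u + z ⬝ᵥ T *ᵥ z := by
    rw [mulVec_add, dotProduct_add, add_dotProduct, add_dotProduct, mulVec_neg, dotProduct_neg,
      neg_dotProduct, neg_dotProduct, dotProduct_neg]
    ring
  rw [e1] at h1
  rw [e2] at h2
  have s1 := sq_nonneg (c.x i ⬝ᵥ T *ᵥ (u + z))
  have s2 := sq_nonneg (c.x i ⬝ᵥ T *ᵥ (u + -z))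
  nlinarith [mul_nonneg hl.le hu0]

/-- Block RU-A3e: adding a cluster. -/
theorem Cfg.IsMax.cluster (h : c.IsMax B E t q Q0 M0 W0) (hE : 0 < E) (hq : 0 < q)
    (hm : c.m < M0) {θ : Fin n → ℝ} (h1 : ∀ i, |θ i| ≤ 1 / t) (h2 : ∑ i, |θ i| ≤ Q0 / t)
    (h3 : ∀ i, |θ i| + ∑ k, |c.θ k i| ≤ 1) {z : Fin n → ℝ} (hz : z ∈ B) :
    (θ ⬝ᵥ θ - (∑ i, θ i • c.x i) ⬝ᵥ (c.S E)⁻¹ *ᵥ (∑ i, θ i • c.x i)) *
      (z ⬝ᵥ (c.S E)⁻¹ *ᵥ z) ≤ q := by
  let c' : Cfg n := ⟨c.m + 1, c.w, c.Y, Fin.cons z c.Z, Fin.cons θ c.θ, c.s⟩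
  have hadm : c'.Adm B t Q0 M0 W0 := ⟨hm, h.adm.hw, h.adm.hY, fun j => by
      refine Fin.cases ?_ (fun j => ?_) j
      · exact hz
      · exact h.adm.hZ j, h.adm.hs, fun j => by
      refine Fin.cases ?_ (fun j => ?_) j
      · exact h1
      · exact h.adm.hsup j, fun j => by
      refine Fin.cases ?_ (fun j => ?_) j
      · exact h2
      · exact h.adm.hl1 j, fun i => by
      change ∑ k : Fin (c.m + 1), |(Fin.cons θ c.θ : Fin (c.m + 1) → Fin n → ℝ) k i| ≤ 1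
      rw [Fin.sum_univ_succ]
      exact h3 i⟩
  have hx : ∀ i, c'.x i = c.x i + θ i • z := by
    intro i
    change c.Y i + ∑ k : Fin (c.m + 1), (Fin.cons θ c.θ : Fin (c.m + 1) → Fin n → ℝ) k i •
      (Fin.cons z c.Z : Fin (c.m + 1) → Fin n → ℝ) k = _
    rw [Fin.sum_univ_succ]
    change c.Y i + (θ i • z + ∑ k : Fin c.m, c.θ k i • c.Z k) = _
    unfold Cfg.x
    abel
  set a : Fin n → ℝ := ∑ i, θ i • c.x i with ha
  have hS : c'.S E = c.S E + vecMulVec a z + vecMulVec z a + (θ ⬝ᵥ θ) • vecMulVec z z := by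
    have e1 : ∑ i, vecMulVec (c'.x i) (c'.x i) = (∑ i, vecMulVec (c.x i) (c.x i)) +
        vecMulVec a z + vecMulVec z a + (θ ⬝ᵥ θ) • vecMulVec z z := by
      ext p r
      simp only [hx, ha, Matrix.add_apply, Matrix.smul_apply, Matrix.sum_apply, vecMulVec_apply,
        Pi.add_apply, Pi.smul_apply, smul_eq_mul, Finset.sum_apply, dotProduct, Finset.sum_mul,
        Finset.mul_sum]
      rw [← Finset.sum_add_distrib, ← Finset.sum_add_distrib, ← Finset.sum_add_distrib]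
      exact Finset.sum_congr rfl fun i _ => by ring
    rw [A3.S_eq, A3.S_eq, e1]
    change _ + ∑ l : Fin c.w, (1 / E) • vecMulVec (c.s l) (c.s l) = _
    abel
  have hd := det_couple (c.S E) h.pos.ne'.isUnit (A3.S_symm c E) a z (θ ⬝ᵥ θ)
  rw [← hS] at hd
  have hv := h.max c' hadm
  change (c'.S E).det * (1 / 2) ^ c.w * (1 / q) ^ (c.m + 1) ≤
    (c.S E).det * (1 / 2) ^ c.w * (1 / q) ^ c.m at hv
  have hv2 : (c'.S E).det ≤ (c.S E).det * q := by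
    have e2 : (c.S E).det * (1 / 2) ^ c.w * (1 / q) ^ c.m =
        (c.S E).det * q * ((1 / 2) ^ c.w * (1 / q) ^ (c.m + 1)) := by
      rw [pow_succ (1 / q)]
      field_simp
    rw [e2, mul_assoc] at hv
    exact le_of_mul_le_mul_right hv (by positivity)
  rw [hd] at hv2
  have h4 := le_of_mul_le_mul_left hv2 h.pos
  have h5 := sq_nonneg (1 + a ⬝ᵥ (c.S E)⁻¹ *ᵥ z)
  linarith

end Pool.Agent.RU
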