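import Mathlib

/-!
# Blocks RU-A4a, RU-A4b (MP_a64d16_an)

Cauchy-Schwarz for determinants of products `A Bᵀ` (Cauchy-Binet, asymmetric form) and the
extraction of the top coefficient of `det (M + N diag e)` by signs.
-/

namespace Pool.Agent.RU

open Matrix Module

/-- Cauchy-Binet, without ordering: `n! det (A Bᵀ) = ∑_φ det (A_φ) det (B_φ)`. -/
theorem det_mul_transpose_expand {n : ℕ} {κ : Type} [Fintype κ] (A B : Matrix (Fin n) κ ℝ) :
    (A * Bᵀ).det * (n.factorial : ℝ) =
      ∑ φ : Fin n → κ, (Matrix.of fun i => Aᵀ (φ i)).det * (Matrix.of fun i => Bᵀ (φ i)).det := by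
  classical
  have h0 : (A * Bᵀ) = Matrix.of (fun i => ∑ k, A i k • Bᵀ k) := by
    ext i j
    rw [Matrix.mul_apply, Matrix.of_apply, Finset.sum_apply]
    exact Finset.sum_congr rfl fun k _ => rfl
  have h1 := (Matrix.detRowAlternating (n := Fin n) (R := ℝ)).toMultilinearMap.map_sum
    (g := fun i k => A i k • Bᵀ k)
  have h2 : ∀ φ : Fin n → κ,
      (Matrix.detRowAlternating (n := Fin n) (R := ℝ)).toMultilinearMap
        (fun i => A i (φ i) • Bᵀ (φ i)) =
      (∏ i, A i (φ i)) * (Matrix.of fun i => Bᵀ (φ i)).det := by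
    intro φ
    rw [MultilinearMap.map_smul_univ, smul_eq_mul]
    rfl
  set F : (Fin n → κ) → ℝ := fun φ =>
    (∏ i, A i (φ i)) * (Matrix.of fun i => Bᵀ (φ i)).det with hF
  have h3 : (A * Bᵀ).det = ∑ φ, F φ := by
    rw [h0]
    exact h1.trans (Finset.sum_congr rfl fun φ _ => h2 φ)
  have h4 : ∀ σ : Equiv.Perm (Fin n), ∑ φ, F φ = ∑ φ : Fin n → κ, F (φ ∘ σ) := by
    intro σ
    exact (Equiv.sum_comp (Equiv.arrowCongr σ.symm (Equiv.refl κ)) F).symm
  have h5 : ∀ (φ : Fin n → κ) (σ : Equiv.Perm (Fin n)), F (φ ∘ σ) =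
      (Matrix.of fun i => Bᵀ (φ i)).det *
        (((Equiv.Perm.sign σ : ℤ) : ℝ) * ∏ i, (Matrix.of fun i => Aᵀ (φ i)) (σ i) i) := by
    intro φ σ
    have e1 : (Matrix.of fun i => Bᵀ ((φ ∘ σ) i)).det =
        ((Equiv.Perm.sign σ : ℤ) : ℝ) * (Matrix.of fun i => Bᵀ (φ i)).det := by
      have := Matrix.det_permute σ (Matrix.of fun i => Bᵀ (φ i))
      rw [← this]
      rfl
    rw [hF]
    simp only
    rw [e1]
    simp only [Function.comp, Matrix.of_apply, Matrix.transpose_apply]
    ring
  have h6 : ∀ φ : Fin n → κ, ∑ σ : Equiv.Perm (Fin n), F (φ ∘ σ) =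
      (Matrix.of fun i => Aᵀ (φ i)).det * (Matrix.of fun i => Bᵀ (φ i)).det := by
    intro φ
    rw [Finset.sum_congr rfl fun σ _ => h5 φ σ, ← Finset.mul_sum, ← Matrix.det_apply', mul_comm]
  rw [h3, ← Finset.sum_congr rfl fun φ _ => h6 φ, Finset.sum_comm,
    ← Finset.sum_congr rfl fun σ _ => h4 σ, Finset.sum_const, Finset.card_univ,
    Fintype.card_perm, Fintype.card_fin, nsmul_eq_mul, mul_comm]

/-- Block RU-A4a: Cauchy-Schwarz for determinants. -/
theorem det_mul_transpose_sq_le {n : ℕ} {κ : Type} [Fintype κ] (A B : Matrix (Fin n) κ ℝ) :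
    (A * Bᵀ).det ^ 2 ≤ (A * Aᵀ).det * (B * Bᵀ).det := by
  have hf : (0 : ℝ) < (n.factorial : ℝ) := by exact_mod_cast n.factorial_pos
  have h1 := det_mul_transpose_expand A B
  have h2 := det_mul_transpose_expand A A
  have h3 := det_mul_transpose_expand B B
  have hcs := Finset.sum_mul_sq_le_sq_mul_sq Finset.univ
    (fun φ : Fin n → κ => (Matrix.of fun i => Aᵀ (φ i)).det)
    (fun φ : Fin n → κ => (Matrix.of fun i => Bᵀ (φ i)).det)
  have h4 : ((A * Bᵀ).det * (n.factorial : ℝ)) ^ 2 ≤
      ((A * Aᵀ).det * (n.factorial : ℝ)) * ((B * Bᵀ).det * (n.factorial : ℝ)) := by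
    rw [h1, h2, h3]
    calc _ ≤ _ := hcs
      _ = _ := by
        congr 1 <;> exact Finset.sum_congr rfl fun φ _ => sq _
  have h5 : (A * Bᵀ).det ^ 2 * (n.factorial : ℝ) ^ 2 ≤
      (A * Aᵀ).det * (B * Bᵀ).det * (n.factorial : ℝ) ^ 2 := by
    calc _ = ((A * Bᵀ).det * (n.factorial : ℝ)) ^ 2 := by ring
      _ ≤ _ := h4
      _ = _ := by ring
  exact le_of_mul_le_mul_right h5 (by positivity)

/-- Block RU-A4b: extraction of the top coefficient by signs. -/
theorem abs_det_le_of_signs {l : ℕ} (M N : Matrix (Fin l) (Fin l) ℝ)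
    (h : ∀ e : Fin l → ℝ, (∀ k, e k = 1 ∨ e k = -1) →
      |(Matrix.of fun j k => M j k + e k * N j k).det| ≤ 1) : |N.det| ≤ 1 := by
  classical
  have key : ∀ S : Finset (Fin l), ∀ e : Fin l → ℝ, (∀ k, e k = 1 ∨ e k = -1) →
      |(Matrix.of fun j k => if k ∈ S then N j k else M j k + e k * N j k).det| ≤ 1 := by
    intro S
    induction S using Finset.induction_on with
    | empty =>
      intro e he
      simpa using h e he
    | insert a s ha ih =>
      intro e he
      set X : Matrix (Fin l) (Fin l) ℝ :=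
        Matrix.of fun j k => if k ∈ insert a s then N j k else M j k + e k * N j k with hX
      have hcol : ∀ ε : ℝ, (ε = 1 ∨ ε = -1) →
          |(X.updateCol a fun j => M j a + ε * N j a).det| ≤ 1 := by
        intro ε hε
        have h1 := ih (Function.update e a ε) (by
          intro k
          by_cases hk : k = a
          · rw [hk, Function.update_self]; exact hε
          · rw [Function.update_of_ne hk]; exact he k)
        have h2 : (Matrix.of fun j k => if k ∈ s then N j k else
            M j k + Function.update e a ε k * N j k) = X.updateCol a fun j => M j a + ε * N j a := by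
          ext j k
          rw [Matrix.updateCol_apply, Matrix.of_apply]
          by_cases hk : k = a
          · rw [if_pos hk, hk, if_neg ha, Function.update_self]
          · rw [if_neg hk, hX, Matrix.of_apply, Function.update_of_ne hk]
            by_cases hs : k ∈ s
            · rw [if_pos hs, if_pos (Finset.mem_insert_of_mem hs)]
            · rw [if_neg hs, if_neg (by
                rw [Finset.mem_insert]; rintro (h' | h') <;> contradiction)]
        rw [h2] at h1
        exact h1
      have hp := hcol 1 (Or.inl rfl)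
      have hm := hcol (-1) (Or.inr rfl)
      have e0 : (fun j => M j a + 1 * N j a) = (fun j => M j a + -1 * N j a) + (2 : ℝ) • fun j => N j a := by
        ext j
        simp only [Pi.add_apply, Pi.smul_apply, smul_eq_mul]
        ring
      have eX : (X.updateCol a fun j => N j a) = X := by
        ext j k
        rw [Matrix.updateCol_apply]
        by_cases hk : k = a
        · rw [if_pos hk, hX, Matrix.of_apply, hk, if_pos (Finset.mem_insert_self a s)]
        · rw [if_neg hk]
      have e1 : (X.updateCol a fun j => M j a + 1 * N j a).det =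
          (X.updateCol a fun j => M j a + -1 * N j a).det + 2 * X.det := by
        rw [e0, Matrix.det_updateCol_add, Matrix.det_updateCol_smul, eX]
      rw [abs_le] at hp hm ⊢
      constructor
      · linarith [hp.1, hm.2]
      · linarith [hp.2, hm.1]
  have := key Finset.univ (fun _ => 1) (fun _ => Or.inl rfl)
  simp only [Finset.mem_univ, if_true] at this
  exact this

end Pool.Agent.RU
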