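import Pool.Agent.Helper96.RU.Defs
import Pool.Agent.Helper96.RU.A4a

/-!
# Block RU-A4 (MP_a64d16_an): all minors are at most one

Proof. If `I` is not injective the determinant is zero. Let `I` be injective, `S = c.S E`,
`G = gmat (wt n c.w (1/E)) c.col` (so `G Gᵀ = S`, `Cube.gmat_mul`). For signs `e : Fin l → {1,-1}`
let `c_e` be the design with `Y (I k)` replaced by `e_k z_k` (`B` is symmetric), the rest unchanged;
it is admissible, `c_e.m = c.m`, `c_e.w = c.w`, so `det S_e ≤ det S`. Let `H_e` be its matrix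
(`gmat`): its column `I k` is `e_k z_k + b_k`, `b_k = ∑ θ Z` the cluster part (independent of `e`).
Cauchy-Binet/Cauchy-Schwarz: `det (H_e Gᵀ)^2 ≤ det (H_e H_eᵀ) det (G Gᵀ) ≤ (det S)^2`
(block RU-A4a `det_mul_transpose_sq_le`).
`H_e Gᵀ = S + ∑_k (e_k z_k + b_k - x_(I k)) x_(I k)ᵀ`, so by `det (1 + A B) = det (1 + B A)`
`det (H_e Gᵀ) = det S * det (of fun j k => δ_jk + x_(I j) S⁻¹ (b_k - x_(I k)) + e_k x_(I j) S⁻¹ z_k)`.
Hence `|det (M + N diag e)| ≤ 1` for all signs `e`, with `N j k = x_(I j) S⁻¹ z_k`. The average over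
the signs of `(∏ e_k) det (M + N diag e)` is `det N` (multilinear in the columns; or by induction:
changing one column at a time, `2 det(.., N_k, ..) = det(.., M_k + N_k, ..) - det (.., M_k - N_k, ..)`).
-/

namespace Pool.Agent.RU

open Matrix Module Pool.Agent.Cube

/-- The design with some of the free points replaced. -/
noncomputable def Cfg.repl {n : ℕ} (c : Cfg n) {l : ℕ} (I : Fin l → Fin n)
    (y : Fin l → Fin n → ℝ) : Cfg n where
  m := c.m
  w := c.w
  Y := Function.extend I y c.Y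
  Z := c.Z
  θ := c.θ
  s := c.s

theorem Cfg.Adm.repl {n : ℕ} {B : Set (Fin n → ℝ)} {t : ℝ} {Q0 M0 W0 : ℕ} {c : Cfg n}
    (h : c.Adm B t Q0 M0 W0) {l : ℕ} (I : Fin l → Fin n) (hI : Function.Injective I)
    (y : Fin l → Fin n → ℝ) (hy : ∀ k, y k ∈ B) : (c.repl I y).Adm B t Q0 M0 W0 where
  hm := h.hm
  hw := h.hw
  hY := by
    intro i
    show Function.extend I y c.Y i ∈ B
    by_cases hi : ∃ k, I k = i
    · obtain ⟨k, rfl⟩ := hi
      rw [hI.extend_apply]
      exact hy k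
    · rw [Function.extend_apply' _ _ _ hi]
      exact h.hY i
  hZ := h.hZ
  hs := h.hs
  hsup := h.hsup
  hl1 := h.hl1
  hrow := h.hrow

theorem gmat_mul_gmat {n : ℕ} {ι : Type} [Fintype ι] {ω : ι → ℝ} (hω : ∀ i, 0 ≤ ω i)
    (x y : ι → Fin n → ℝ) :
    gmat ω x * (gmat ω y)ᵀ = ∑ i, ω i • vecMulVec (x i) (y i) := by
  ext p q
  rw [Matrix.mul_apply]
  simp only [gmat, Matrix.sum_apply, Matrix.smul_apply, vecMulVec_apply,
    Matrix.transpose_apply, Matrix.of_apply, smul_eq_mul]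
  refine Finset.sum_congr rfl fun i _ => ?_
  have := Real.mul_self_sqrt (hω i)
  calc Real.sqrt (ω i) * x i p * (Real.sqrt (ω i) * y i q) =
      (Real.sqrt (ω i) * Real.sqrt (ω i)) * (x i p * y i q) := by ring
    _ = _ := by rw [this]

theorem Cfg.repl_gram {n : ℕ} (c : Cfg n) {E : ℝ} {l : ℕ} (I : Fin l → Fin n)
    (hI : Function.Injective I) (y : Fin l → Fin n → ℝ) :
    ∑ i, wt n c.w (1 / E) i • vecMulVec ((c.repl I y).col i) (c.col i) =
      c.S E + ∑ k, vecMulVec (y k + ∑ m, c.θ m (I k) • c.Z m - c.x (I k)) (c.x (I k)) := by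
  unfold Cfg.S dmat
  rw [Fintype.sum_sum_type, Fintype.sum_sum_type]
  have h1 : ∀ k : Fin c.w, (c.repl I y).col (Sum.inr k) = c.col (Sum.inr k) := fun k => rfl
  have h2 : ∀ i : Fin n, wt n c.w (1 / E) (Sum.inl i) = 1 := fun i => rfl
  have h3 : ∀ i : Fin n, (c.repl I y).col (Sum.inl i) =
      Function.extend I y c.Y i + ∑ m, c.θ m i • c.Z m := fun i => rfl
  have h4 : ∀ i : Fin n, c.col (Sum.inl i) = c.x i := fun i => rfl
  have h6 : ∑ k, vecMulVec (y k + ∑ m, c.θ m (I k) • c.Z m - c.x (I k)) (c.x (I k)) =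
      ∑ i, vecMulVec (Function.extend I y c.Y i + ∑ m, c.θ m i • c.Z m - c.x i) (c.x i) := by
    refine Fintype.sum_of_injective I hI _ _ ?_ ?_
    · intro i hi
      have hi' : ¬ ∃ k, I k = i := hi
      rw [Function.extend_apply' _ _ _ hi']
      have : c.Y i + ∑ m, c.θ m i • c.Z m - c.x i = 0 := by
        unfold Cfg.x
        simp
      rw [this, Matrix.zero_vecMulVec]
    · intro k
      rw [hI.extend_apply]
  rw [h6]
  have h7 : ∑ i : Fin n, wt n c.w (1 / E) (Sum.inl i) •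
      vecMulVec ((c.repl I y).col (Sum.inl i)) (c.col (Sum.inl i)) =
      ∑ i : Fin n, wt n c.w (1 / E) (Sum.inl i) •
        vecMulVec (c.col (Sum.inl i)) (c.col (Sum.inl i)) +
      ∑ i, vecMulVec (Function.extend I y c.Y i + ∑ m, c.θ m i • c.Z m - c.x i) (c.x i) := by
    rw [← Finset.sum_add_distrib]
    refine Finset.sum_congr rfl fun i _ => ?_
    rw [h2, h3, h4, one_smul, one_smul, ← Matrix.add_vecMulVec]
    congr 1
    abel
  refine (congrArg₂ (fun a b : Matrix (Fin n) (Fin n) ℝ => a + b) h7 (rfl :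
    (∑ k : Fin c.w, wt n c.w (1 / E) (Sum.inr k) •
      vecMulVec ((c.repl I y).col (Sum.inr k)) (c.col (Sum.inr k))) =
    ∑ k : Fin c.w, wt n c.w (1 / E) (Sum.inr k) •
      vecMulVec (c.col (Sum.inr k)) (c.col (Sum.inr k)))).trans ?_
  show _ + _ + _ = _
  abel

/-- Block RU-A4. -/
theorem Cfg.IsMax.minors {n : ℕ} {B : Set (Fin n → ℝ)} {E t q : ℝ} {Q0 M0 W0 : ℕ} {c : Cfg n}
    (h : c.IsMax B E t q Q0 M0 W0) (hsymm : ∀ z ∈ B, -z ∈ B) (hE : 0 < E) (hq : 0 < q) {l : ℕ}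
    (I : Fin l → Fin n) (z : Fin l → Fin n → ℝ) (hz : ∀ k, z k ∈ B) :
    |(Matrix.of fun j k : Fin l => c.x (I j) ⬝ᵥ (c.S E)⁻¹ *ᵥ z k).det| ≤ 1 := by
  by_cases hI : Function.Injective I
  swap
  · unfold Function.Injective at hI
    push Not at hI
    obtain ⟨a, b, hab, hne⟩ := hI
    rw [Matrix.det_zero_of_row_eq hne]
    · simp
    · funext k
      simp only [Matrix.of_apply, hab]
  have hS : IsUnit (c.S E).det := h.pos.ne'.isUnit
  have hω : ∀ i, 0 ≤ wt n c.w (1 / E) i := by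
    rintro (i | i)
    · exact zero_le_one
    · exact (one_div_pos.2 hE).le
  set bb : Fin l → Fin n → ℝ := fun k => ∑ m, c.θ m (I k) • c.Z m with hbb
  refine abs_det_le_of_signs
    (Matrix.of fun j k : Fin l => (1 : Matrix (Fin l) (Fin l) ℝ) j k +
      c.x (I j) ⬝ᵥ (c.S E)⁻¹ *ᵥ (bb k - c.x (I k))) _ fun e he => ?_
  have hy : ∀ k, e k • z k ∈ B := by
    intro k
    rcases he k with h1 | h1
    · rw [h1, one_smul]; exact hz k
    · rw [h1, neg_one_smul]; exact hsymm _ (hz k)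
  set c' : Cfg n := c.repl I (fun k => e k • z k) with hc'
  have hmax := h.max c' (h.adm.repl I hI _ hy)
  have hdet : (c'.S E).det ≤ (c.S E).det := by
    have e1 : c'.val E q = (c'.S E).det * ((1 / 2) ^ c.w * (1 / q) ^ c.m) := by
      unfold Cfg.val
      rw [mul_assoc]
      rfl
    have e2 : c.val E q = (c.S E).det * ((1 / 2) ^ c.w * (1 / q) ^ c.m) := by
      unfold Cfg.val
      rw [mul_assoc]
    rw [e1, e2] at hmax
    exact le_of_mul_le_mul_right hmax (by positivity)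
  have hCS := det_mul_transpose_sq_le (gmat (wt n c.w (1 / E)) c'.col)
    (gmat (wt n c.w (1 / E)) c.col)
  rw [gmat_mul hω, gmat_mul hω, gmat_mul_gmat hω, c.repl_gram I hI] at hCS
  have e3 : dmat (wt n c.w (1 / E)) c'.col = c'.S E := rfl
  have e4 : dmat (wt n c.w (1 / E)) c.col = c.S E := rfl
  rw [e3, e4] at hCS
  -- the determinant of the mixed Gram matrix
  let U : Matrix (Fin n) (Fin l) ℝ := Matrix.of fun p k => (e k • z k + bb k - c.x (I k)) p
  let V : Matrix (Fin l) (Fin n) ℝ := Matrix.of fun k p => c.x (I k) p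
  have hUV : (∑ k, vecMulVec (e k • z k + ∑ m, c.θ m (I k) • c.Z m - c.x (I k)) (c.x (I k))) =
      U * V := by
    ext p r
    rw [Matrix.mul_apply, Matrix.sum_apply]
    rfl
  have hfac : c.S E + U * V = c.S E * (1 + ((c.S E)⁻¹ * U) * V) := by
    rw [Matrix.mul_add, Matrix.mul_one, ← Matrix.mul_assoc, ← Matrix.mul_assoc,
      Matrix.mul_nonsing_inv _ hS, Matrix.one_mul]
  have hDet : (1 + V * ((c.S E)⁻¹ * U)) = Matrix.of fun j k =>
      (Matrix.of fun j k : Fin l => (1 : Matrix (Fin l) (Fin l) ℝ) j k +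
        c.x (I j) ⬝ᵥ (c.S E)⁻¹ *ᵥ (bb k - c.x (I k))) j k +
      e k * (Matrix.of fun j k : Fin l => c.x (I j) ⬝ᵥ (c.S E)⁻¹ *ᵥ z k) j k := by
    ext j k
    simp only [Matrix.add_apply, Matrix.of_apply]
    have e5 : (V * ((c.S E)⁻¹ * U)) j k =
        c.x (I j) ⬝ᵥ (c.S E)⁻¹ *ᵥ (e k • z k + bb k - c.x (I k)) := rfl
    rw [e5, add_sub_assoc, Matrix.mulVec_add, dotProduct_add, Matrix.mulVec_smul,
      dotProduct_smul, smul_eq_mul]
    ring
  rw [hUV, hfac, Matrix.det_mul, Matrix.det_one_add_mul_comm, hDet] at hCS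
  set D := (Matrix.of fun j k =>
      (Matrix.of fun j k : Fin l => (1 : Matrix (Fin l) (Fin l) ℝ) j k +
        c.x (I j) ⬝ᵥ (c.S E)⁻¹ *ᵥ (bb k - c.x (I k))) j k +
      e k * (Matrix.of fun j k : Fin l => c.x (I j) ⬝ᵥ (c.S E)⁻¹ *ᵥ z k) j k).det with hD
  have hpos := h.pos
  have h5 : D ^ 2 ≤ 1 := by
    have h6 : ((c.S E).det * D) ^ 2 ≤ (c.S E).det * (c.S E).det :=
      hCS.trans (mul_le_mul_of_nonneg_right hdet hpos.le)
    have h7 : (c.S E).det ^ 2 * D ^ 2 ≤ (c.S E).det ^ 2 * 1 := by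
      rw [mul_one, ← mul_pow, sq (c.S E).det]
      exact h6
    exact le_of_mul_le_mul_left h7 (by positivity)
  exact (sq_le_one_iff_abs_le_one D).1 h5

end Pool.Agent.RU
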