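import Pool.Agent.Helper96.RU.Defs
import Pool.Agent.Helper88.TT.LogDet

/-!
# Block RU-A5 (MP_a64d16_an): widths from minors

Proof. `l = f + 1`. For `a : Fin l → A` the Gram determinant is, by Cauchy-Binet
(`Pool.Agent.TT.det_sum_vecMulVec` with `p = 1`, `v i = fun k => a k i`, `κ = Fin n`,
Pool/Agent/Helper47/TT/Minors.lean), `(1 / l!) ∑_{I : Fin l → Fin n} det (a k (I j))^2`, so it is at most
`n^l / l! ≤ (e n / l)^l`.
Take `a ∈ A^l` with maximal Gram determinant `g` (compactness). If `g = 0`, take a longest linearly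
independent family in `A` and the orthogonal projection on its span. If `g > 0`: for the Gram matrix `M` of `a`
and `H = M⁻¹` some `j` has `H j j ≥ tr H / l ≥ (det H) ^ (1/l) = g ^ (-1/l)`; let `v` be the family `a` without
`a j`, so `H j j = det (gr v) / g`. By maximality every `z ∈ A` has
`dist (z, span v)^2 * det (gr v) = det (gr (z, v)) ≤ g`, so `dist (z, span v)^2 ≤ 1 / H j j ≤ g^(1/l) ≤ e n / l`.
-/

namespace Pool.Agent.RU

open Matrix Module Pool.Agent.Cube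

/-! ### Gram matrices -/

/-- Gram matrix of a family of vectors. -/
def gr5 {n k : ℕ} (a : Fin k → Fin n → ℝ) : Matrix (Fin k) (Fin k) ℝ :=
  Matrix.of fun i j => a i ⬝ᵥ a j

lemma gr5_eq {n k : ℕ} (a : Fin k → Fin n → ℝ) : gr5 a = Matrix.of a * (Matrix.of a)ᵀ := by
  ext i j
  simp [gr5, Matrix.mul_apply, dotProduct]

lemma gr5_symm {n k : ℕ} (a : Fin k → Fin n → ℝ) : (gr5 a)ᵀ = gr5 a := by
  ext i j
  simp [gr5, dotProduct_comm]

lemma gr5_posSemidef {n k : ℕ} (a : Fin k → Fin n → ℝ) : (gr5 a).PosSemidef := by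
  rw [gr5_eq]
  have := Matrix.posSemidef_self_mul_conjTranspose (Matrix.of a)
  rwa [Matrix.conjTranspose_eq_transpose_of_trivial] at this

lemma gr5_posDef {n k : ℕ} (a : Fin k → Fin n → ℝ) (h : (gr5 a).det ≠ 0) : (gr5 a).PosDef := by
  exact (gr5_posSemidef a).posDef_iff_isUnit.2 ((Matrix.isUnit_iff_isUnit_det _).2 h.isUnit)

lemma gr5_sum {n k : ℕ} (a : Fin k → Fin n → ℝ) :
    gr5 a = ∑ b : Fin n, (1 : ℝ) • Matrix.vecMulVec (fun j => a j b) (fun j => a j b) := by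
  ext i j
  simp [gr5, Matrix.sum_apply, Matrix.vecMulVec_apply, dotProduct]

lemma gr5_det_le {n k : ℕ} (a : Fin k → Fin n → ℝ)
    (h : ∀ I : Fin k → Fin n, |(Matrix.of fun i j => a j (I i)).det| ≤ 1) :
    (gr5 a).det ≤ (n : ℝ) ^ k / k.factorial := by
  rw [gr5_sum, Pool.Agent.TT.det_sum_vecMulVec (fun _ => (1 : ℝ)) (fun b j => a j b), Fintype.card_fin]
  gcongr
  calc ∑ φ : Fin k → Fin n, (∏ i : Fin k, (1 : ℝ)) *
        (Matrix.of fun i => (fun b j => a j b) (φ i)).det ^ 2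
      ≤ ∑ _φ : Fin k → Fin n, (1 : ℝ) := by
        refine Finset.sum_le_sum fun φ _ => ?_
        rw [Finset.prod_const_one, one_mul, ← sq_abs]
        exact pow_le_one₀ (abs_nonneg _) (h φ)
    _ = (n : ℝ) ^ k := by simp

lemma pow_div_factorial_le5 {n : ℕ} (k : ℕ) :
    (n : ℝ) ^ (k + 1) / (k + 1).factorial ≤ (Real.exp 1 * n / (k + 1)) ^ (k + 1) := by
  have h1 : ((k + 1 : ℕ) : ℝ) ^ (k + 1) / (k + 1).factorial ≤ Real.exp ((k + 1 : ℕ) : ℝ) :=
    Real.pow_div_factorial_le_exp _ (by positivity) _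
  have h2 : Real.exp ((k + 1 : ℕ) : ℝ) = Real.exp 1 ^ (k + 1) := by
    rw [← Real.exp_nat_mul, mul_one]
  have hk : (0 : ℝ) < (k : ℝ) + 1 := by positivity
  rw [h2] at h1
  push_cast at h1
  have h3 : (n : ℝ) ^ (k + 1) / (k + 1).factorial =
      (n / ((k : ℝ) + 1)) ^ (k + 1) * (((k : ℝ) + 1) ^ (k + 1) / (k + 1).factorial) := by
    rw [div_pow]
    field_simp
  rw [h3]
  calc (n / ((k : ℝ) + 1)) ^ (k + 1) * (((k : ℝ) + 1) ^ (k + 1) / (k + 1).factorial)
      ≤ (n / ((k : ℝ) + 1)) ^ (k + 1) * Real.exp 1 ^ (k + 1) := by gcongr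
    _ = (Real.exp 1 * n / (k + 1)) ^ (k + 1) := by rw [← mul_pow]; congr 1; ring

/-! ### The projection on the span -/

/-- The orthogonal projection on the span of `v`. -/
noncomputable def pr5 {n k : ℕ} (v : Fin k → Fin n → ℝ) : Matrix (Fin n) (Fin n) ℝ :=
  (Matrix.of v)ᵀ * (gr5 v)⁻¹ * Matrix.of v

lemma pr5_isProj {n k : ℕ} (v : Fin k → Fin n → ℝ) (h : (gr5 v).det ≠ 0) : IsProj (pr5 v) := by
  constructor
  · unfold pr5
    rw [transpose_mul, transpose_mul, transpose_transpose, transpose_nonsing_inv, gr5_symm,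
      Matrix.mul_assoc]
  · unfold pr5
    calc (Matrix.of v)ᵀ * (gr5 v)⁻¹ * Matrix.of v * ((Matrix.of v)ᵀ * (gr5 v)⁻¹ * Matrix.of v)
        = (Matrix.of v)ᵀ * (gr5 v)⁻¹ * (Matrix.of v * (Matrix.of v)ᵀ) * (gr5 v)⁻¹ * Matrix.of v := by
          simp only [Matrix.mul_assoc]
      _ = (Matrix.of v)ᵀ * (gr5 v)⁻¹ * Matrix.of v := by
          rw [← gr5_eq, Matrix.mul_assoc (Matrix.of v)ᵀ, nonsing_inv_mul _ h.isUnit, Matrix.mul_one]

lemma pr5_trace {n k : ℕ} (v : Fin k → Fin n → ℝ) (h : (gr5 v).det ≠ 0) :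
    (pr5 v).trace = k := by
  unfold pr5
  rw [Matrix.mul_assoc, Matrix.trace_mul_comm, Matrix.mul_assoc, ← gr5_eq, nonsing_inv_mul _ h.isUnit]
  simp

lemma proj_dist {n : ℕ} {P : Matrix (Fin n) (Fin n) ℝ} (hP : IsProj P) (z : Fin n → ℝ) :
    ((1 - P) *ᵥ z) ⬝ᵥ ((1 - P) *ᵥ z) = z ⬝ᵥ z - z ⬝ᵥ (P *ᵥ z) := by
  have h1 : (1 - P)ᵀ * (1 - P) = 1 - P := by
    rw [transpose_sub, transpose_one, hP.symm, sub_mul, mul_sub, mul_sub, hP.idem]
    simp
  rw [dotProduct_mulVec, vecMul_mulVec, h1, ← dotProduct_mulVec, sub_mulVec, one_mulVec,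
    dotProduct_sub]

/-- The equivalence of `Fin k ⊕ Unit` and `Fin (k + 1)`. -/
def eq5 (k : ℕ) : Fin k ⊕ Unit ≃ Fin (k + 1) :=
  (Equiv.optionEquivSumPUnit (Fin k)).symm.trans (finSuccEquiv k).symm

lemma gr5_cons {n k : ℕ} (z : Fin n → ℝ) (v : Fin k → Fin n → ℝ) (h : (gr5 v).det ≠ 0) :
    (gr5 (Fin.cons z v : Fin (k + 1) → Fin n → ℝ)).det =
      (gr5 v).det * (((1 - pr5 v) *ᵥ z) ⬝ᵥ ((1 - pr5 v) *ᵥ z)) := by
  classical
  rw [proj_dist (pr5_isProj v h)]
  rw [← Matrix.det_submatrix_equiv_self (eq5 k)]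
  have h1 : (gr5 (Fin.cons z v : Fin (k + 1) → Fin n → ℝ)).submatrix (eq5 k) (eq5 k) =
      Matrix.fromBlocks (gr5 v) (Matrix.of fun i (_ : Unit) => v i ⬝ᵥ z)
        (Matrix.of fun (_ : Unit) i => v i ⬝ᵥ z) (Matrix.of fun _ _ : Unit => z ⬝ᵥ z) := by
    ext i j
    rcases i with i | i <;> rcases j with j | j
    · simp [gr5, eq5]
    · simp [gr5, eq5]
    · simp [gr5, eq5, dotProduct_comm]
    · simp [gr5, eq5]
  rw [h1]
  let _ : Invertible (gr5 v) := Matrix.invertibleOfIsUnitDet _ h.isUnit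
  rw [Matrix.det_fromBlocks₁₁]
  congr 1
  rw [Matrix.det_unique, Matrix.sub_apply, Matrix.of_apply, invOf_eq_nonsing_inv]
  congr 1
  unfold pr5
  have h2 : z ⬝ᵥ (((Matrix.of v)ᵀ * (gr5 v)⁻¹ * Matrix.of v) *ᵥ z) =
      (Matrix.of v *ᵥ z) ⬝ᵥ ((gr5 v)⁻¹ *ᵥ (Matrix.of v *ᵥ z)) := by
    rw [← mulVec_mulVec, ← mulVec_mulVec, dotProduct_mulVec, vecMul_transpose]
  rw [h2]
  have h3 : ∀ i, (Matrix.of v *ᵥ z) i = v i ⬝ᵥ z := fun i => rfl
  rw [Matrix.mul_assoc, Matrix.mul_apply]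
  simp only [dotProduct, mulVec, Matrix.mul_apply, Matrix.of_apply]

lemma gr5_perm {n k : ℕ} (a : Fin (k + 1) → Fin n → ℝ) (j : Fin (k + 1)) :
    (gr5 a).det = (gr5 (Fin.cons (a j) (fun i => a (j.succAbove i)) : Fin (k + 1) → Fin n → ℝ)).det := by
  classical
  rw [← Matrix.det_submatrix_equiv_self j.cycleRange.symm (gr5 a)]
  congr 1
  have h : ∀ i, a (j.cycleRange.symm i) =
      (Fin.cons (a j) (fun i => a (j.succAbove i)) : Fin (k + 1) → Fin n → ℝ) i := by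
    intro i
    refine Fin.cases ?_ (fun i => ?_) i
    · rw [Fin.cycleRange_symm_zero, Fin.cons_zero]
    · rw [Fin.cycleRange_symm_succ, Fin.cons_succ]
  ext i i'
  simp only [gr5, Matrix.submatrix_apply, Matrix.of_apply, h]

lemma gr5_sub {n k : ℕ} (a : Fin (k + 1) → Fin n → ℝ) (j : Fin (k + 1)) :
    (gr5 a).submatrix j.succAbove j.succAbove = gr5 (fun i => a (j.succAbove i)) := rfl

/-- Arithmetic-geometric mean for a positive definite matrix: some diagonal entry is large. -/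
lemma exists_diag5 {k : ℕ} {H : Matrix (Fin (k + 1)) (Fin (k + 1)) ℝ} (hH : H.PosDef) :
    ∃ j, H.det ≤ (H j j) ^ (k + 1) := by
  have htr : ∃ j, H.trace ≤ ((k : ℝ) + 1) * H j j := by
    by_contra hcon
    push Not at hcon
    have h1 : ∑ j : Fin (k + 1), ((k : ℝ) + 1) * H j j < ∑ _j : Fin (k + 1), H.trace :=
      Finset.sum_lt_sum_of_nonempty Finset.univ_nonempty fun j _ => hcon j
    rw [← Finset.mul_sum, Finset.sum_const, Finset.card_univ, Fintype.card_fin, nsmul_eq_mul] at h1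
    have h2 : ∑ j, H j j = H.trace := rfl
    rw [h2] at h1
    push_cast at h1
    exact lt_irrefl _ h1
  obtain ⟨j, hj⟩ := htr
  refine ⟨j, ?_⟩
  have hjj : 0 < H j j := hH.diag_pos
  have hC : (Matrix.PosDef ((H j j) • (1 : Matrix (Fin (k + 1)) (Fin (k + 1)) ℝ))) :=
    Matrix.PosDef.one.smul hjj
  have h1 := Pool.Agent.TT.log_det_le hH hC
  have h2 : (((H j j) • (1 : Matrix (Fin (k + 1)) (Fin (k + 1)) ℝ))⁻¹ *
      (H - (H j j) • (1 : Matrix (Fin (k + 1)) (Fin (k + 1)) ℝ))).trace =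
      (H j j)⁻¹ * H.trace - ((k : ℝ) + 1) := by
    have hinv : ((H j j) • (1 : Matrix (Fin (k + 1)) (Fin (k + 1)) ℝ))⁻¹ =
        (H j j)⁻¹ • (1 : Matrix (Fin (k + 1)) (Fin (k + 1)) ℝ) := by
      refine Matrix.inv_eq_right_inv ?_
      rw [smul_mul_smul_comm, Matrix.one_mul, mul_inv_cancel₀ hjj.ne', one_smul]
    rw [hinv, smul_mul_assoc, Matrix.one_mul, trace_smul, trace_sub, trace_smul, trace_one,
      Fintype.card_fin, smul_eq_mul, smul_eq_mul, mul_sub, ← mul_assoc (H j j)⁻¹,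
      inv_mul_cancel₀ hjj.ne', one_mul]
    push_cast
    ring
  rw [h2] at h1
  have h3 : (H j j)⁻¹ * H.trace ≤ (k : ℝ) + 1 := by
    rw [inv_mul_le_iff₀ hjj]
    linarith
  have h4 : Real.log H.det ≤ Real.log (((H j j) • (1 : Matrix (Fin (k + 1)) (Fin (k + 1)) ℝ)).det) := by
    linarith
  have h5 : ((H j j) • (1 : Matrix (Fin (k + 1)) (Fin (k + 1)) ℝ)).det = (H j j) ^ (k + 1) := by
    rw [det_smul, det_one, mul_one, Fintype.card_fin]
  rw [h5] at h4
  exact (Real.log_le_log_iff hH.det_pos (by positivity)).1 h4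

/-- Block RU-A5. -/
theorem width_of_minors {n : ℕ} {A : Set (Fin n → ℝ)} (hc : IsCompact A) (hne : A.Nonempty)
    (f : ℕ) (h : ∀ (I : Fin (f + 1) → Fin n) (a : Fin (f + 1) → Fin n → ℝ), (∀ k, a k ∈ A) →
      |(Matrix.of fun j k => a k (I j)).det| ≤ 1) :
    ∃ P : Matrix (Fin n) (Fin n) ℝ, IsProj P ∧ P.trace ≤ f ∧
      ∀ a ∈ A, ((1 - P) *ᵥ a) ⬝ᵥ ((1 - P) *ᵥ a) ≤ Real.exp 1 * n / (f + 1) := by
  classical
  have hR : (0 : ℝ) ≤ Real.exp 1 * n / (f + 1) := by positivity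
  by_cases hD : ∃ v : Fin (f + 1) → Fin n → ℝ, (∀ i, v i ∈ A) ∧ (gr5 v).det ≠ 0
  · -- a family of maximal Gram determinant
    have hcpt : IsCompact (Set.pi Set.univ (fun _ : Fin (f + 1) => A)) :=
      isCompact_univ_pi fun _ => hc
    have hcont : Continuous (fun a : Fin (f + 1) → Fin n → ℝ => (gr5 a).det) := by
      refine Continuous.matrix_det ?_
      unfold gr5
      refine continuous_matrix fun i j => ?_
      simp only [Matrix.of_apply, dotProduct]
      fun_prop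
    obtain ⟨v0, hv0, hv0'⟩ := hD
    obtain ⟨a, ha, hmax⟩ := hcpt.exists_isMaxOn ⟨v0, fun i _ => hv0 i⟩ hcont.continuousOn
    have haA : ∀ i, a i ∈ A := fun i => ha i (Set.mem_univ i)
    set g : ℝ := (gr5 a).det with hg
    have hg0 : 0 < g := by
      have h1 : 0 ≤ (gr5 v0).det := (gr5_posSemidef v0).det_nonneg
      have h2 : (gr5 v0).det ≤ g := hmax (fun i _ => hv0 i)
      exact (lt_of_le_of_ne h1 hv0'.symm).trans_le h2
    have hM : (gr5 a).PosDef := gr5_posDef a hg0.ne'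
    obtain ⟨j, hj⟩ := exists_diag5 hM.inv
    set v : Fin f → Fin n → ℝ := fun i => a (j.succAbove i) with hv
    have hHjj : (gr5 a)⁻¹ j j = (gr5 v).det / g := by
      rw [Matrix.inv_def, Matrix.smul_apply, Matrix.adjugate_fin_succ_eq_det_submatrix, gr5_sub,
        Ring.inverse_eq_inv', smul_eq_mul, ← hg]
      have h1 : (-1 : ℝ) ^ ((j : ℕ) + (j : ℕ)) = 1 := by
        rw [← two_mul, pow_mul]; simp
      rw [h1, one_mul, inv_mul_eq_div]
    have hHdet : (gr5 a)⁻¹.det = g⁻¹ := by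
      rw [det_nonsing_inv, Ring.inverse_eq_inv']
    have hgv : 0 < (gr5 v).det := by
      have h1 : 0 < (gr5 a)⁻¹ j j := hM.inv.diag_pos
      rw [hHjj] at h1
      exact (div_pos_iff_of_pos_right hg0).1 h1
    rw [hHjj, hHdet] at hj
    refine ⟨pr5 v, pr5_isProj v hgv.ne', (pr5_trace v hgv.ne').le, fun z hz => ?_⟩
    set D : ℝ := ((1 - pr5 v) *ᵥ z) ⬝ᵥ ((1 - pr5 v) *ᵥ z) with hDdef
    have hle : (gr5 v).det * D ≤ g := by
      have h1 : (gr5 (Function.update a j z)).det ≤ g := by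
        refine hmax fun i _ => ?_
        by_cases hi : i = j
        · subst hi; rw [Function.update_self]; exact hz
        · rw [Function.update_of_ne hi]; exact haA i
      rw [gr5_perm _ j, Function.update_self] at h1
      have h2 : (fun i => Function.update a j z (j.succAbove i)) = v := by
        funext i
        rw [Function.update_of_ne (Fin.succAbove_ne j i)]
      rw [h2, gr5_cons z v hgv.ne'] at h1
      exact h1
    have hD1 : D ≤ g / (gr5 v).det := by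
      rw [le_div_iff₀ hgv, mul_comm]; exact hle
    have hgle : g ≤ (Real.exp 1 * n / (f + 1)) ^ (f + 1) :=
      (gr5_det_le a fun I => h I a haA).trans (pow_div_factorial_le5 f)
    have hpow : (g / (gr5 v).det) ^ (f + 1) ≤ (Real.exp 1 * n / (f + 1)) ^ (f + 1) := by
      refine le_trans ?_ hgle
      have h1 : (g / (gr5 v).det) ^ (f + 1) = (((gr5 v).det / g) ^ (f + 1))⁻¹ := by
        rw [← inv_pow, inv_div]
      rw [h1]
      rw [inv_le_comm₀ (by positivity) hg0]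
      exact hj
    exact hD1.trans (le_of_pow_le_pow_left₀ (by omega) hR hpow)
  · -- a maximal linearly independent family
    have hdown : ∀ m : ℕ, (¬ ∃ v : Fin m → Fin n → ℝ, (∀ i, v i ∈ A) ∧ (gr5 v).det ≠ 0) →
        ∃ k < m, (∃ v : Fin k → Fin n → ℝ, (∀ i, v i ∈ A) ∧ (gr5 v).det ≠ 0) ∧
          ¬ ∃ v : Fin (k + 1) → Fin n → ℝ, (∀ i, v i ∈ A) ∧ (gr5 v).det ≠ 0 := by
      intro m
      induction m with
      | zero =>
        intro hm
        exact absurd ⟨fun i => i.elim0, fun i => i.elim0, by rw [Matrix.det_isEmpty]; exact one_ne_zero⟩ hm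
      | succ m ih =>
        intro hm
        by_cases hm' : ∃ v : Fin m → Fin n → ℝ, (∀ i, v i ∈ A) ∧ (gr5 v).det ≠ 0
        · exact ⟨m, Nat.lt_succ_self m, hm', hm⟩
        · obtain ⟨k, hk, h1⟩ := ih hm'
          exact ⟨k, hk.trans (Nat.lt_succ_self m), h1⟩
    obtain ⟨k, hk, ⟨v, hvA, hvd⟩, hnot⟩ := hdown (f + 1) hD
    refine ⟨pr5 v, pr5_isProj v hvd, ?_, fun z hz => ?_⟩
    · rw [pr5_trace v hvd]
      exact_mod_cast Nat.lt_succ_iff.1 hk
    · have h1 : (gr5 (Fin.cons z v : Fin (k + 1) → Fin n → ℝ)).det = 0 := by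
        by_contra hcon
        refine hnot ⟨Fin.cons z v, fun i => ?_, hcon⟩
        refine Fin.cases ?_ (fun i => ?_) i
        · rw [Fin.cons_zero]; exact hz
        · rw [Fin.cons_succ]; exact hvA i
      rw [gr5_cons z v hvd] at h1
      rcases mul_eq_zero.1 h1 with h2 | h2
      · exact absurd h2 hvd
      · rw [h2]; exact hR

end Pool.Agent.RU
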