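import Pool.Agent.Helper96.RU.Defs

/-!
# Block RU-A7 (MP_a64d16_an): Cauchy-Binet bound by the maximal volume, and a binomial sum

Proof of `det_le_volume`. `Pool.Agent.TT.det_sum_vecMulVec` (Pool/Agent/Helper47/TT/Minors.lean):
the determinant is `(1/n!) ∑_{φ : Fin n → ι ⊕ Fin w} ∏ ω(φ i) det (x_φ)^2`; non injective `φ`
contribute zero, the others at most `V2 ∏ ω(φ i)`. The injective `φ` with a given image occur `n!`
times, and the images with `j` elements in `Fin w` are `C(w,j) C(N, n-j)` many, with weight `τ^j`.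
Proof of `sum_choose_le`. `C(n+m, n-j) = C(n+m, m+j) ≤ C(n+m, m) n^j / j!` (ratio
`n (n-1) .. (n-j+1) / ((m+1) .. (m+j))`), so `(1/E)^j C(n+m,n-j) ≤ C(n+m,m) (n/E)^j/j! ≤
C(n+m,m) exp(n/E)`, and `(1/2)^w ∑_j C(w,j) ≤ 1`.
-/

namespace Pool.Agent.RU

open Matrix Module Pool.Agent.Cube

/-- The injective functions with a given image. -/
theorem card_fiberA7 {n : ℕ} {κ : Type} [Fintype κ] [DecidableEq κ] (A : Finset κ)
    (hA : A.card = n) :
    (Finset.univ.filter (fun φ : Fin n → κ => Function.Injective φ ∧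
      Finset.univ.image φ = A)).card = n.factorial := by
  classical
  have h1 : Fintype.card (Fin n ≃ A) = n.factorial := by
    have e : Fin n ≃ A := Fintype.equivOfCardEq (by simp [hA])
    rw [Fintype.card_equiv e, Fintype.card_fin]
  rw [← h1]
  symm
  refine Finset.card_bij (s := Finset.univ) (fun e _ => fun i => (e i : κ)) ?_ ?_ ?_
  · intro e _
    rw [Finset.mem_filter]
    refine ⟨Finset.mem_univ _, fun a b h => e.injective (Subtype.ext h), ?_⟩
    ext a
    rw [Finset.mem_image]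
    constructor
    · rintro ⟨i, _, rfl⟩
      exact (e i).2
    · intro ha
      exact ⟨e.symm ⟨a, ha⟩, Finset.mem_univ _, by simp⟩
  · intro e _ e' _ h
    ext i
    exact congrFun h i
  · intro φ hφ
    rw [Finset.mem_filter] at hφ
    obtain ⟨_, hinj, him⟩ := hφ
    have hmem : ∀ i, φ i ∈ A := fun i => by
      rw [← him]; exact Finset.mem_image_of_mem _ (Finset.mem_univ _)
    refine ⟨Equiv.ofBijective (fun i => (⟨φ i, hmem i⟩ : A)) ⟨?_, ?_⟩, Finset.mem_univ _, ?_⟩
    · intro a b h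
      exact hinj (congrArg Subtype.val h)
    · rintro ⟨a, ha⟩
      rw [← him, Finset.mem_image] at ha
      obtain ⟨i, _, rfl⟩ := ha
      exact ⟨i, rfl⟩
    · rfl

/-- Sum over the injective functions. -/
theorem sum_injectiveA7 {n : ℕ} {κ : Type} [Fintype κ] [DecidableEq κ] (ω : κ → ℝ) :
    ∑ φ ∈ Finset.univ.filter (fun φ : Fin n → κ => Function.Injective φ), ∏ i, ω (φ i) =
      n.factorial * ∑ A ∈ Finset.powersetCard n Finset.univ, ∏ a ∈ A, ω a := by
  classical
  rw [← Finset.sum_fiberwise_of_maps_to (g := fun φ : Fin n → κ => Finset.univ.image φ)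
    (t := Finset.powersetCard n Finset.univ)]
  · rw [Finset.mul_sum]
    refine Finset.sum_congr rfl fun A hA => ?_
    rw [Finset.mem_powersetCard] at hA
    rw [Finset.filter_filter]
    have h : ∀ φ ∈ Finset.univ.filter (fun φ : Fin n → κ => Function.Injective φ ∧
        Finset.univ.image φ = A), ∏ i, ω (φ i) = ∏ a ∈ A, ω a := by
      intro φ hφ
      rw [Finset.mem_filter] at hφ
      rw [← hφ.2.2, Finset.prod_image fun a _ b _ h => hφ.2.1 h]
    rw [Finset.sum_congr rfl h, Finset.sum_const, card_fiberA7 A hA.2, nsmul_eq_mul]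
  · intro φ hφ
    rw [Finset.mem_filter] at hφ
    rw [Finset.mem_powersetCard]
    refine ⟨Finset.subset_univ _, ?_⟩
    rw [Finset.card_image_of_injective _ hφ.2, Finset.card_univ, Fintype.card_fin]

open Polynomial in
/-- Coefficients of `(1 + τ X) ^ w`. -/
theorem coeff_powA7 (τ : ℝ) (w j : ℕ) :
    ((1 + C τ * X : ℝ[X]) ^ w).coeff j = (w.choose j : ℝ) * τ ^ j := by
  have h : (1 + C τ * X : ℝ[X]) ^ w = ((1 + X : ℝ[X]) ^ w).comp (C τ * X) := by
    simp
  rw [h, comp_C_mul_X_coeff, coeff_one_add_X_pow]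

open Polynomial in
/-- Elementary symmetric function of the weights. -/
theorem esymmA7 {n N w : ℕ} {τ : ℝ} {ι : Type} [Fintype ι] [DecidableEq ι]
    (hι : Fintype.card ι = N) :
    ∑ A ∈ Finset.powersetCard n (Finset.univ : Finset (ι ⊕ Fin w)),
      ∏ a ∈ A, Sum.elim (fun _ => (1 : ℝ)) (fun _ => τ) a =
      ∑ j ∈ Finset.range (n + 1), (w.choose j : ℝ) * τ ^ j * (N.choose (n - j) : ℝ) := by
  classical
  set ω : ι ⊕ Fin w → ℝ := Sum.elim (fun _ => (1 : ℝ)) (fun _ => τ) with hω
  have h1 : ∏ b : ι ⊕ Fin w, (1 + C (ω b) * X : ℝ[X]) = (1 + C τ * X) ^ w * (1 + X) ^ N := by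
    rw [Fintype.prod_sum_type]
    simp only [hω, Sum.elim_inl, Sum.elim_inr, Finset.prod_const, Finset.card_univ, hι,
      Fintype.card_fin, map_one, one_mul]
    rw [mul_comm]
  have h2 : ∏ b : ι ⊕ Fin w, (1 + C (ω b) * X : ℝ[X]) =
      ∑ t ∈ (Finset.univ : Finset (ι ⊕ Fin w)).powerset, C (∏ b ∈ t, ω b) * X ^ t.card := by
    rw [Finset.prod_one_add]
    refine Finset.sum_congr rfl fun t _ => ?_
    rw [Finset.prod_mul_distrib, map_prod, Finset.prod_const]
  have h3 := congrArg (fun p : ℝ[X] => p.coeff n) (h2.symm.trans h1)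
  simp only [finsetSum_coeff, coeff_C_mul_X_pow] at h3
  rw [coeff_mul, Finset.Nat.sum_antidiagonal_eq_sum_range_succ_mk] at h3
  simp only [coeff_powA7, coeff_one_add_X_pow] at h3
  rw [← h3, ← Finset.sum_filter, Finset.powersetCard_eq_filter]
  refine Finset.sum_congr ?_ fun _ _ => rfl
  ext t
  simp only [Finset.mem_filter, Finset.mem_powerset]
  constructor
  · rintro ⟨h, h'⟩; exact ⟨h, h'.symm⟩
  · rintro ⟨h, h'⟩; exact ⟨h, h'.symm⟩

/-- Block RU-A7a. -/
theorem det_le_volume {n N w : ℕ} {B : Set (Fin n → ℝ)} {V2 τ : ℝ} (hτ : 0 ≤ τ)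
    (hV : ∀ b : Fin n → Fin n → ℝ, (∀ i, b i ∈ B) → (Matrix.of b).det ^ 2 ≤ V2)
    {ι : Type} [Fintype ι] (hι : Fintype.card ι = N) (x : ι ⊕ Fin w → Fin n → ℝ)
    (hx : ∀ i, x i ∈ B) :
    (dmat (Sum.elim (fun _ => 1) (fun _ => τ)) x).det ≤
      V2 * ∑ j ∈ Finset.range (n + 1), (w.choose j : ℝ) * τ ^ j * (N.choose (n - j) : ℝ) := by
  classical
  unfold dmat
  rw [Pool.Agent.TT.det_sum_vecMulVec, Fintype.card_fin, ← esymmA7 hι,
    div_le_iff₀ (by positivity)]
  set ω : ι ⊕ Fin w → ℝ := Sum.elim (fun _ => (1 : ℝ)) (fun _ => τ) with hω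
  have hω0 : ∀ b, 0 ≤ ω b := by
    intro b
    rcases b with b | b
    · simp [hω]
    · simpa [hω] using hτ
  have h1 := sum_injectiveA7 (n := n) ω
  calc ∑ φ : Fin n → ι ⊕ Fin w, (∏ i, ω (φ i)) * (Matrix.of fun i => x (φ i)).det ^ 2
      = ∑ φ ∈ Finset.univ.filter (fun φ : Fin n → ι ⊕ Fin w => Function.Injective φ),
          (∏ i, ω (φ i)) * (Matrix.of fun i => x (φ i)).det ^ 2 := by
        symm
        refine Finset.sum_subset (Finset.filter_subset _ _) fun φ _ hφ => ?_
        rw [Finset.mem_filter, not_and] at hφ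
        have h2 := hφ (Finset.mem_univ _)
        rw [Function.Injective] at h2
        push Not at h2
        obtain ⟨a, b, hab, hne⟩ := h2
        have h3 : (Matrix.of fun i => x (φ i)).det = 0 :=
          Matrix.det_zero_of_row_eq hne (by
            ext j
            simp [hab])
        rw [h3]; ring
    _ ≤ ∑ φ ∈ Finset.univ.filter (fun φ : Fin n → ι ⊕ Fin w => Function.Injective φ),
          (∏ i, ω (φ i)) * V2 := by
        refine Finset.sum_le_sum fun φ _ => ?_
        exact mul_le_mul_of_nonneg_left (hV _ fun i => hx _)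
          (Finset.prod_nonneg fun i _ => hω0 _)
    _ = _ := by
        rw [← Finset.sum_mul, h1]
        ring

/-- The ratio of binomial coefficients. -/
theorem choose_le_A7 (n m j : ℕ) :
    (((n + m).choose (m + j) : ℕ) : ℝ) ≤ ((n + m).choose m : ℝ) * ((n : ℝ) ^ j / j.factorial) := by
  induction j with
  | zero => simp
  | succ j ih =>
    have h1 : ((n + m).choose (m + j + 1) : ℝ) * (m + j + 1) =
        ((n + m).choose (m + j) : ℝ) * ((n + m - (m + j) : ℕ) : ℝ) := by
      have := Nat.choose_succ_right_eq (n + m) (m + j)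
      exact_mod_cast this
    have h2 : ((n + m - (m + j) : ℕ) : ℝ) ≤ n := by
      exact_mod_cast (by omega : n + m - (m + j) ≤ n)
    have h3 : ((n + m).choose (m + j + 1) : ℝ) * (j + 1) ≤
        ((n + m).choose m : ℝ) * ((n : ℝ) ^ j / j.factorial) * n := by
      calc ((n + m).choose (m + j + 1) : ℝ) * (j + 1)
          ≤ ((n + m).choose (m + j + 1) : ℝ) * (m + j + 1) := by
            have : (0 : ℝ) ≤ m := Nat.cast_nonneg m
            gcongr
            linarith
        _ = ((n + m).choose (m + j) : ℝ) * ((n + m - (m + j) : ℕ) : ℝ) := h1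
        _ ≤ ((n + m).choose m : ℝ) * ((n : ℝ) ^ j / j.factorial) * n := by gcongr
    rw [← add_assoc]
    have h4 : (0 : ℝ) < (j : ℝ) + 1 := by positivity
    rw [← le_div_iff₀ h4] at h3
    refine h3.trans (le_of_eq ?_)
    rw [Nat.factorial_succ, pow_succ]
    push_cast
    field_simp

/-- Block RU-A7b. -/
theorem sum_choose_le {n m w : ℕ} {E : ℝ} (hE : 0 < E) :
    (1 / 2 : ℝ) ^ w * ∑ j ∈ Finset.range (n + 1),
      (w.choose j : ℝ) * (1 / E) ^ j * ((n + m).choose (n - j) : ℝ) ≤
      ((n + m).choose m : ℝ) * Real.exp (n / E) := by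
  have h1 : ∀ j ∈ Finset.range (n + 1),
      (w.choose j : ℝ) * (1 / E) ^ j * ((n + m).choose (n - j) : ℝ) ≤
        (w.choose j : ℝ) * (((n + m).choose m : ℝ) * Real.exp (n / E)) := by
    intro j hj
    rw [Finset.mem_range] at hj
    rw [mul_assoc]
    refine mul_le_mul_of_nonneg_left ?_ (Nat.cast_nonneg _)
    have h2 : (n + m).choose (n - j) = (n + m).choose (m + j) := by
      rw [← Nat.choose_symm (n := n + m) (k := m + j) (by omega)]
      congr 1
      omega
    rw [h2]
    have h3 := choose_le_A7 n m j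
    have h4 : ((n : ℝ) / E) ^ j / j.factorial ≤ Real.exp (n / E) :=
      Real.pow_div_factorial_le_exp _ (by positivity) j
    calc (1 / E) ^ j * ((n + m).choose (m + j) : ℝ)
        ≤ (1 / E) ^ j * (((n + m).choose m : ℝ) * ((n : ℝ) ^ j / j.factorial)) := by gcongr
      _ = ((n + m).choose m : ℝ) * (((n : ℝ) / E) ^ j / j.factorial) := by
        rw [div_pow, div_pow, one_pow]; ring
      _ ≤ _ := by gcongr
  have h5 : ∑ j ∈ Finset.range (n + 1), (w.choose j : ℝ) ≤ 2 ^ w := by
    have h6 : ∑ j ∈ Finset.range (n + 1), (w.choose j : ℝ) ≤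
        ∑ j ∈ Finset.range (w + 1), (w.choose j : ℝ) := by
      rw [← Finset.sum_filter_add_sum_filter_not (Finset.range (n + 1)) (fun j => j < w + 1)]
      have h7 : ∑ j ∈ (Finset.range (n + 1)).filter (fun j => ¬ j < w + 1), (w.choose j : ℝ) = 0 := by
        refine Finset.sum_eq_zero fun j hj => ?_
        rw [Finset.mem_filter] at hj
        rw [Nat.choose_eq_zero_of_lt (by omega)]
        simp
      rw [h7, add_zero]
      refine Finset.sum_le_sum_of_subset_of_nonneg ?_ fun _ _ _ => Nat.cast_nonneg _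
      intro j hj
      rw [Finset.mem_filter] at hj
      exact Finset.mem_range.2 hj.2
    refine h6.trans (le_of_eq ?_)
    exact_mod_cast Nat.sum_range_choose w
  have h8 : (0 : ℝ) ≤ ((n + m).choose m : ℝ) * Real.exp (n / E) := by positivity
  calc (1 / 2 : ℝ) ^ w * ∑ j ∈ Finset.range (n + 1),
      (w.choose j : ℝ) * (1 / E) ^ j * ((n + m).choose (n - j) : ℝ)
      ≤ (1 / 2 : ℝ) ^ w * ∑ j ∈ Finset.range (n + 1),
        (w.choose j : ℝ) * (((n + m).choose m : ℝ) * Real.exp (n / E)) := by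
        exact mul_le_mul_of_nonneg_left (Finset.sum_le_sum h1) (by positivity)
    _ = (1 / 2 : ℝ) ^ w * (∑ j ∈ Finset.range (n + 1), (w.choose j : ℝ)) *
        (((n + m).choose m : ℝ) * Real.exp (n / E)) := by rw [← Finset.sum_mul]; ring
    _ ≤ (1 / 2 : ℝ) ^ w * 2 ^ w * (((n + m).choose m : ℝ) * Real.exp (n / E)) := by gcongr
    _ = _ := by rw [← mul_pow]; norm_num

end Pool.Agent.RU
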