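import Pool.Agent.Helper96.RU.A6
import Pool.Agent.Helper96.RU.A7

/-!
# Block RU-A8 (MP_a64d16_an): the number of clusters of a maximal design

Blocks A6, A7 are used as given. Proof. Let `V2` be the maximum of `det (of b)^2` over `b : Fin n → B`
(compactness; `> 0` because of `Pi.single i r`). The design `m = 0, w = 0, Y = b` is admissible with
`val = det (∑ b_i b_iᵀ) = det (of b)^2 = V2` (`dmat` with weights one `= (of b)ᵀ * (of b)`), so
`V2 ≤ c.val E q`. On the other side (A6, A7a with `ι = Fin n ⊕ Fin c.m`, A7b), with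
`A2 = Q0/t^2 ≥ 1` and `|θ_k|^2 ≤ (1/t)(Q0/t) = A2`:
`c.val ≤ (1/q)^m (1 + A2)^m V2 C(n+m,m) exp(n/E)`. Hence
`1 ≤ ((1+A2)/q)^m C(n+m,m) exp(n/E)`; `(1+A2)/q ≤ 2 A2/(A2 δ E/2) = 4/(δE)`;
`C(n+m,m) ≤ ((n+m)e/m)^m ≤ (2 e n/m)^m` for `1 ≤ m ≤ n` (`C(N,m) ≤ N^m/m!`, `m! ≥ (m/e)^m`).
If `m = M0 ≥ 60 n/(δE)` then `4/(δE) · 2en/m ≤ 8e/60 < 1/e`, so `1 < e^(-m) e^(n/E)`, `m < n/E`,
contradiction to `m ≥ 60 n/(δE) ≥ n/E` (`δ ≤ 1`). Since `c.m ≤ M0`, `c.m < M0`. (`n ≥ 1`.)
-/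

namespace Pool.Agent.RU

open Matrix Module Pool.Agent.Cube

/-- The maximal determinant. -/
lemma exists_max_det {n : ℕ} {B : Set (Fin n → ℝ)} (hc : IsCompact B) {r : ℝ}
    (hr : 0 < r) (hB : ∀ i : Fin n, Pi.single i r ∈ B) :
    ∃ b0 : Fin n → Fin n → ℝ, (∀ i, b0 i ∈ B) ∧ 0 < (Matrix.of b0).det ^ 2 ∧
      ∀ b : Fin n → Fin n → ℝ, (∀ i, b i ∈ B) → (Matrix.of b).det ^ 2 ≤ (Matrix.of b0).det ^ 2 := by
  have hcomp : IsCompact (Set.univ.pi fun _ : Fin n => B) := isCompact_univ_pi fun _ => hc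
  have hne : (Set.univ.pi fun _ : Fin n => B).Nonempty :=
    ⟨fun i => Pi.single i r, fun i _ => hB i⟩
  have hcont : Continuous fun b : Fin n → Fin n → ℝ => (Matrix.of b).det ^ 2 := by
    have h1 : Continuous fun b : Fin n → Fin n → ℝ => (Matrix.of b : Matrix (Fin n) (Fin n) ℝ) :=
      continuous_id
    exact (h1.matrix_det).pow 2
  obtain ⟨b0, hb0, hmax⟩ := hcomp.exists_isMaxOn hne hcont.continuousOn
  refine ⟨b0, fun i => hb0 i (Set.mem_univ i), ?_, fun b hb => hmax fun i _ => hb i⟩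
  have h1 : (Matrix.of fun i : Fin n => (Pi.single i r : Fin n → ℝ)).det ^ 2 ≤
      (Matrix.of b0).det ^ 2 := hmax (fun i _ => hB i)
  have h2 : (Matrix.of fun i : Fin n => (Pi.single i r : Fin n → ℝ)) =
      Matrix.diagonal fun _ => r := by
    ext i j
    rw [Matrix.of_apply, Matrix.diagonal_apply, Pi.single_apply]
    by_cases hij : i = j
    · rw [if_pos hij, if_pos hij.symm]
    · rw [if_neg hij, if_neg (fun h => hij h.symm)]
  rw [h2, Matrix.det_diagonal, Finset.prod_const] at h1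
  refine lt_of_lt_of_le ?_ h1
  positivity

lemma choose_le_exp {n m : ℕ} (hm : 0 < m) (hmn : m ≤ n) :
    ((n + m).choose m : ℝ) ≤ (2 * Real.exp 1 * n / m) ^ m := by
  have hm' : (0 : ℝ) < m := by exact_mod_cast hm
  have h1 : ((n + m).choose m : ℝ) ≤ ((n + m : ℕ) : ℝ) ^ m / (m.factorial : ℝ) :=
    Nat.choose_le_pow_div m (n + m)
  have h2 : (m : ℝ) ^ m / (m.factorial : ℝ) ≤ Real.exp m :=
    Real.pow_div_factorial_le_exp _ (by positivity) m
  have h3 : ((n + m : ℕ) : ℝ) ≤ 2 * n := by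
    have : n + m ≤ 2 * n := by omega
    exact_mod_cast this
  have hf : (0 : ℝ) < (m.factorial : ℝ) := by exact_mod_cast m.factorial_pos
  have h4 : 1 / (m.factorial : ℝ) ≤ Real.exp 1 ^ m / (m : ℝ) ^ m := by
    rw [← Real.exp_nat_mul, mul_one, le_div_iff₀ (by positivity)]
    calc 1 / (m.factorial : ℝ) * (m : ℝ) ^ m = (m : ℝ) ^ m / (m.factorial : ℝ) := by ring
      _ ≤ _ := h2
  calc ((n + m).choose m : ℝ) ≤ ((n + m : ℕ) : ℝ) ^ m / (m.factorial : ℝ) := h1
    _ ≤ (2 * n : ℝ) ^ m / (m.factorial : ℝ) := by gcongr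
    _ = (2 * n : ℝ) ^ m * (1 / (m.factorial : ℝ)) := by ring
    _ ≤ (2 * n : ℝ) ^ m * (Real.exp 1 ^ m / (m : ℝ) ^ m) := by gcongr
    _ = _ := by rw [← mul_div_assoc, ← mul_pow, ← div_pow]; ring_nf

/-- Block RU-A8. -/
theorem cluster_count {n : ℕ} (hn : 0 < n) {B : Set (Fin n → ℝ)} (hc : IsCompact B) {r : ℝ}
    (hr : 0 < r) (hB : ∀ i : Fin n, Pi.single i r ∈ B) {E t q δ : ℝ} {Q0 M0 W0 : ℕ} {c : Cfg n}
    (h : c.IsMax B E t q Q0 M0 W0) (hE : 0 < E) (ht : 0 < t) (hδ : 0 < δ) (hδ1 : δ ≤ 1)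
    (hQ : t ^ 2 ≤ Q0) (hq : q = Q0 * δ * E / (2 * t ^ 2)) (hM0 : M0 ≤ n)
    (h60 : 60 * n / (δ * E) ≤ M0) : c.m < M0 := by
  have hn' : (0 : ℝ) < n := by exact_mod_cast hn
  have hQ0 : (0 : ℝ) < Q0 := lt_of_lt_of_le (by positivity) hQ
  have hqpos : 0 < q := by rw [hq]; positivity
  obtain ⟨b0, hb0, hV, hmax⟩ := exists_max_det hc hr hB
  set V2 := (Matrix.of b0).det ^ 2 with hV2
  -- lower bound of the value
  have hlow : V2 ≤ c.val E q := by
    let c' : Cfg n := ⟨0, 0, b0, fun k => k.elim0, fun k => k.elim0, fun k => k.elim0⟩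
    have hadm : c'.Adm B t Q0 M0 W0 := by
      refine ⟨Nat.zero_le _, Nat.zero_le _, hb0, fun k => k.elim0, fun l => l.elim0,
        fun k => k.elim0, fun k => k.elim0, fun i => ?_⟩
      have : ∑ k : Fin c'.m, |c'.θ k i| = 0 := Finset.sum_eq_zero fun k _ => Fin.elim0 k
      rw [this]; norm_num
    have h1 := h.max c' hadm
    have h2 : c'.val E q = V2 := by
      have e1 : c'.S E = (Matrix.of b0)ᵀ * Matrix.of b0 := by
        unfold Cfg.S dmat Cfg.col wt
        rw [Fintype.sum_sum_type]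
        have e2 : ∀ i, c'.x i = b0 i := by
          intro i
          unfold Cfg.x
          have : ∑ k : Fin c'.m, c'.θ k i • c'.Z k = 0 := Finset.sum_eq_zero fun k _ => Fin.elim0 k
          rw [this, add_zero]
        have e3 : (∑ l : Fin c'.w, Sum.elim (fun _ : Fin n => (1 : ℝ)) (fun _ : Fin c'.w => 1 / E)
            (Sum.inr l) • vecMulVec (Sum.elim c'.x c'.s (Sum.inr l))
              (Sum.elim c'.x c'.s (Sum.inr l))) = 0 := Finset.sum_eq_zero fun k _ => Fin.elim0 k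
        rw [e3, add_zero]
        ext p s
        rw [Matrix.sum_apply, Matrix.mul_apply]
        refine Finset.sum_congr rfl fun i _ => ?_
        simp only [Sum.elim_inl, one_smul, e2, vecMulVec_apply, transpose_apply, of_apply]
      unfold Cfg.val
      have e4 : (1 / 2 : ℝ) ^ c'.w = 1 := pow_zero _
      have e5 : (1 / q : ℝ) ^ c'.m = 1 := pow_zero _
      rw [e1, det_mul, det_transpose, e4, e5, mul_one, mul_one, hV2, sq]
    rw [h2] at h1
    exact h1
  -- upper bound of the value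
  set m := c.m with hm
  set A2 : ℝ := Q0 / t ^ 2 with hA2
  have hA21 : 1 ≤ A2 := by rw [hA2, le_div_iff₀ (by positivity), one_mul]; exact hQ
  have hθ : ∀ k, 1 + c.θ k ⬝ᵥ c.θ k ≤ 2 * A2 := by
    intro k
    have h1 : c.θ k ⬝ᵥ c.θ k ≤ A2 := by
      calc c.θ k ⬝ᵥ c.θ k = ∑ i, |c.θ k i| * |c.θ k i| := by
            unfold dotProduct
            exact Finset.sum_congr rfl fun i _ => (abs_mul_abs_self _).symm
        _ ≤ ∑ i, 1 / t * |c.θ k i| := by
            refine Finset.sum_le_sum fun i _ => ?_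
            exact mul_le_mul_of_nonneg_right (h.adm.hsup k i) (abs_nonneg _)
        _ = 1 / t * ∑ i, |c.θ k i| := by rw [Finset.mul_sum]
        _ ≤ 1 / t * (Q0 / t) := by
            exact mul_le_mul_of_nonneg_left (h.adm.hl1 k) (by positivity)
        _ = A2 := by rw [hA2]; field_simp
    linarith
  have hprod : ∏ k, (1 + c.θ k ⬝ᵥ c.θ k) ≤ (2 * A2) ^ m := by
    calc ∏ k, (1 + c.θ k ⬝ᵥ c.θ k) ≤ ∏ _k : Fin c.m, (2 * A2) := by
          refine Finset.prod_le_prod (fun k _ => ?_) fun k _ => hθ k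
          have : 0 ≤ c.θ k ⬝ᵥ c.θ k := Finset.sum_nonneg fun i _ => mul_self_nonneg _
          linarith
      _ = (2 * A2) ^ m := by rw [Finset.prod_const, Finset.card_univ, Fintype.card_fin]
  have hup1 := remove_clusters c hE
  have hup2 := det_le_volume (n := n) (N := n + m) (w := c.w) (B := B) (V2 := V2) (τ := 1 / E)
    (by positivity) hmax (ι := Fin n ⊕ Fin c.m) (by simp [hm])
    (Sum.elim (Sum.elim c.Y c.Z) c.s) (by
      rintro ((i | k) | l)
      · exact h.adm.hY i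
      · exact h.adm.hZ k
      · exact h.adm.hs l)
  have hup3 := sum_choose_le (n := n) (m := m) (w := c.w) hE
  have hval : c.val E q ≤ (2 * A2 / q) ^ m * (V2 * (((n + m).choose m : ℝ) * Real.exp (n / E))) := by
    unfold Cfg.val
    have h0 : 0 ≤ ∏ k, (1 + c.θ k ⬝ᵥ c.θ k) := Finset.prod_nonneg fun k _ => by
      have : 0 ≤ c.θ k ⬝ᵥ c.θ k := Finset.sum_nonneg fun i _ => mul_self_nonneg _
      linarith
    have hsum0 : (0 : ℝ) ≤ ∑ j ∈ Finset.range (n + 1),
      (c.w.choose j : ℝ) * (1 / E) ^ j * ((n + m).choose (n - j) : ℝ) :=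
      Finset.sum_nonneg fun j _ => by positivity
    have h1 : (c.S E).det ≤ (2 * A2) ^ m * (V2 * ∑ j ∈ Finset.range (n + 1),
      (c.w.choose j : ℝ) * (1 / E) ^ j * ((n + m).choose (n - j) : ℝ)) := by
      refine hup1.trans ?_
      calc _ ≤ (∏ k, (1 + c.θ k ⬝ᵥ c.θ k)) * (V2 * ∑ j ∈ Finset.range (n + 1),
            (c.w.choose j : ℝ) * (1 / E) ^ j * ((n + m).choose (n - j) : ℝ)) :=
            mul_le_mul_of_nonneg_left hup2 h0
        _ ≤ _ := mul_le_mul_of_nonneg_right hprod (mul_nonneg hV.le hsum0)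
    calc (c.S E).det * (1 / 2) ^ c.w * (1 / q) ^ c.m
        ≤ ((2 * A2) ^ m * (V2 * ∑ j ∈ Finset.range (n + 1),
            (c.w.choose j : ℝ) * (1 / E) ^ j * ((n + m).choose (n - j) : ℝ))) * (1 / 2) ^ c.w *
            (1 / q) ^ m := by gcongr
      _ = (2 * A2 / q) ^ m * (V2 * ((1 / 2) ^ c.w * ∑ j ∈ Finset.range (n + 1),
            (c.w.choose j : ℝ) * (1 / E) ^ j * ((n + m).choose (n - j) : ℝ))) := by
          rw [div_eq_mul_one_div (2 * A2) q, mul_pow (2 * A2) (1 / q)]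
          ring
      _ ≤ _ := by gcongr
  have hratio : 2 * A2 / q = 4 / (δ * E) := by
    rw [hA2, hq]
    field_simp
    ring
  rw [hratio] at hval
  have hmain : 1 ≤ (4 / (δ * E)) ^ m * (((n + m).choose m : ℝ) * Real.exp (n / E)) := by
    have h1 : V2 * 1 ≤ V2 * ((4 / (δ * E)) ^ m * (((n + m).choose m : ℝ) * Real.exp (n / E))) := by
      calc V2 * 1 = V2 := mul_one _
        _ ≤ c.val E q := hlow
        _ ≤ _ := hval
        _ = _ := by ring
    exact le_of_mul_le_mul_left h1 hV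
  -- the contradiction
  by_contra hcon
  have hmM : m = M0 := le_antisymm h.adm.hm (not_lt.mp hcon)
  have hmn : m ≤ n := by rw [hmM]; exact hM0
  have h60' : 60 * n / (δ * E) ≤ m := by rw [hmM]; exact h60
  have hm0 : (0 : ℝ) < m := lt_of_lt_of_le (by positivity) h60'
  have hm0' : 0 < m := by exact_mod_cast hm0
  have h2 := choose_le_exp hm0' hmn
  have hbase : 4 / (δ * E) * (2 * Real.exp 1 * n / m) ≤ Real.exp (-1) := by
    have h3 : n / (δ * E) ≤ m / 60 := by
      rw [mul_div_assoc] at h60'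
      linarith
    have h4 : n / (δ * E) / m ≤ 1 / 60 := by
      rw [div_le_iff₀ hm0]
      linarith
    have h5 : 4 / (δ * E) * (2 * Real.exp 1 * n / m) = 8 * Real.exp 1 * (n / (δ * E) / m) := by
      field_simp
      ring
    have h6 : Real.exp 1 * Real.exp 1 ≤ 7.5 := by
      have := Real.exp_one_lt_d9
      have h0 := Real.exp_pos 1
      nlinarith
    have h7 : Real.exp 1 * Real.exp (-1) = 1 := by rw [← Real.exp_add]; norm_num
    have h8 := Real.exp_pos 1
    have h9 : 8 * Real.exp 1 * (n / (δ * E) / m) ≤ 8 * Real.exp 1 * (1 / 60) := by gcongr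
    rw [h5]
    refine h9.trans ?_
    have h10 : (8 * Real.exp 1 * (1 / 60)) * Real.exp 1 ≤ Real.exp (-1) * Real.exp 1 := by
      rw [mul_comm (Real.exp (-1)), h7]
      nlinarith
    exact le_of_mul_le_mul_right h10 h8
  have h11 : (4 / (δ * E)) ^ m * ((n + m).choose m : ℝ) ≤ Real.exp (-1) ^ m := by
    calc (4 / (δ * E)) ^ m * ((n + m).choose m : ℝ)
        ≤ (4 / (δ * E)) ^ m * (2 * Real.exp 1 * n / m) ^ m := by gcongr
      _ = (4 / (δ * E) * (2 * Real.exp 1 * n / m)) ^ m := by rw [mul_pow]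
      _ ≤ _ := by gcongr
  have h12 : 1 ≤ Real.exp (-(m : ℝ) + n / E) := by
    calc 1 ≤ (4 / (δ * E)) ^ m * (((n + m).choose m : ℝ) * Real.exp (n / E)) := hmain
      _ = ((4 / (δ * E)) ^ m * ((n + m).choose m : ℝ)) * Real.exp (n / E) := by ring
      _ ≤ Real.exp (-1) ^ m * Real.exp (n / E) := by gcongr
      _ = _ := by
        rw [← Real.exp_nat_mul, ← Real.exp_add]
        congr 1
        ring
  have h13 : 0 ≤ -(m : ℝ) + n / E := by
    rwa [← Real.one_le_exp_iff] at *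
  have h14 : n / E ≤ n / (δ * E) := by
    have : δ * E ≤ E := by nlinarith
    exact div_le_div_of_nonneg_left hn'.le (by positivity) this
  have h15 : 0 < n / E := by positivity
  rw [mul_div_assoc] at h60'
  linarith

end Pool.Agent.RU
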