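import Pool.Agent.Helper96.RU.Defs

/-!
# Block RU-A9 (MP_a64d16_an): the kernel of a design

Proof: `G = gmat (wt n w τ) x` (`G Gᵀ = S`, `Cube.gmat_mul`), `Cube.exists_max_frame` (kernel frame
`k`, `kᵀ k = 1`, `G k = 0`, maximal trace of the sink part), `C`, `D` = point and sink part of `k`,
`D` symmetric and positive semidefinite by `Cube.polar_symm`, `polar_nonneg`: copy from the proof of
`Cube.kernel_solve` (Pool/Agent/Helper71/Cube/Kernel.lean). `k kᵀ = 1 - Gᵀ S⁻¹ G` with EQUALITY: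
`Q = 1 - Gᵀ S⁻¹ G - k kᵀ` is a projection (in the file) with trace `(n + w) - n - w = 0`, so `Q = 0`.
`proj`: `|Cᵀ θ|^2 = (θ;0) · k kᵀ (θ;0)`.
-/

namespace Pool.Agent.RU

open Matrix Module Pool.Agent.Cube

/-- The kernel frame `(C; D)` of a design `x` with weights `1` and `τ`. -/
structure IsFrame {n w : ℕ} (τ : ℝ) (x : Fin n ⊕ Fin w → Fin n → ℝ)
    (C : Matrix (Fin n) (Fin w) ℝ) (D : Matrix (Fin w) (Fin w) ℝ) : Prop where
  psd : D.PosSemidef
  frame : Cᵀ * C + D * D = 1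
  row : ∀ i, ∑ l, C i l ^ 2 = 1 - x (Sum.inl i) ⬝ᵥ (dmat (wt n w τ) x)⁻¹ *ᵥ x (Sum.inl i)
  diag : ∀ l, (D * D) l l = 1 - τ * (x (Sum.inr l) ⬝ᵥ (dmat (wt n w τ) x)⁻¹ *ᵥ x (Sum.inr l))
  proj : ∀ θ : Fin n → ℝ, (Cᵀ *ᵥ θ) ⬝ᵥ (Cᵀ *ᵥ θ) = θ ⬝ᵥ θ -
    (∑ i, θ i • x (Sum.inl i)) ⬝ᵥ (dmat (wt n w τ) x)⁻¹ *ᵥ (∑ i, θ i • x (Sum.inl i))
  ker : ∀ v : Fin w → ℝ, ∑ i, (C *ᵥ v) i • x (Sum.inl i) +
    ∑ l, (Real.sqrt τ * (D *ᵥ v) l) • x (Sum.inr l) = 0
  orth : ∀ z : Fin n → ℝ, (Cᵀ *ᵥ fun i => x (Sum.inl i) ⬝ᵥ (dmat (wt n w τ) x)⁻¹ *ᵥ z) +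
    (D *ᵥ fun l => Real.sqrt τ * (x (Sum.inr l) ⬝ᵥ (dmat (wt n w τ) x)⁻¹ *ᵥ z)) = 0
  rep : ∀ z : Fin n → ℝ, z = ∑ i, (x (Sum.inl i) ⬝ᵥ (dmat (wt n w τ) x)⁻¹ *ᵥ z) • x (Sum.inl i) +
    ∑ l, (Real.sqrt τ * (Real.sqrt τ * (x (Sum.inr l) ⬝ᵥ (dmat (wt n w τ) x)⁻¹ *ᵥ z))) •
      x (Sum.inr l)
  norm : ∀ z : Fin n → ℝ, ∑ i, (x (Sum.inl i) ⬝ᵥ (dmat (wt n w τ) x)⁻¹ *ᵥ z) ^ 2 +
    ∑ l, (Real.sqrt τ * (x (Sum.inr l) ⬝ᵥ (dmat (wt n w τ) x)⁻¹ *ᵥ z)) ^ 2 =
      z ⬝ᵥ (dmat (wt n w τ) x)⁻¹ *ᵥ z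

/-- Block RU-A9. -/
theorem exists_frame {n w : ℕ} {τ : ℝ} (hτ : 0 ≤ τ) (x : Fin n ⊕ Fin w → Fin n → ℝ)
    (hdet : 0 < (dmat (wt n w τ) x).det) :
    ∃ (C : Matrix (Fin n) (Fin w) ℝ) (D : Matrix (Fin w) (Fin w) ℝ), IsFrame τ x C D := by
  have hω : ∀ i, 0 ≤ wt n w τ i := by
    rintro (i | i)
    · exact zero_le_one
    · exact hτ
  set S := dmat (wt n w τ) x with hSdef
  set G := gmat (wt n w τ) x with hGdef
  have hGS : G * Gᵀ = S := gmat_mul hω x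
  have hu : IsUnit S.det := hdet.ne'.isUnit
  obtain ⟨k, hk1, hk0, hmax⟩ := exists_max_frame G (by rw [hGS]; exact hu)
  have hSt : Sᵀ = S := by rw [← hGS, transpose_mul, transpose_transpose]
  have hSit : (S⁻¹)ᵀ = S⁻¹ := by rw [transpose_nonsing_inv, hSt]
  let C : Matrix (Fin n) (Fin w) ℝ := Matrix.of fun i l => k (Sum.inl i) l
  let D : Matrix (Fin w) (Fin w) ℝ := Matrix.of fun i l => k (Sum.inr i) l
  -- the sink part is symmetric and positive semidefinite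
  have hO : ∀ O : Matrix (Fin w) (Fin w) ℝ, Oᵀ * O = 1 → (D * O).trace ≤ D.trace := by
    intro O hO
    have h1 := hmax (k * O) (by
      rw [transpose_mul, Matrix.mul_assoc, ← Matrix.mul_assoc kᵀ, hk1, Matrix.one_mul, hO])
      (by rw [← Matrix.mul_assoc, hk0, Matrix.zero_mul])
    exact h1
  have hs := polar_symm hO
  have hp := polar_nonneg hO
  have hDt : Dᵀ = D := by
    ext i j
    have := hs (Pi.single i 1) (Pi.single j 1)
    simpa using this.symm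
  -- the projection `k kᵀ`
  set M := Gᵀ * S⁻¹ * G with hM
  have hMM : M * M = M := by
    calc M * M = Gᵀ * (S⁻¹ * (G * Gᵀ)) * S⁻¹ * G := by
          rw [hM]; simp only [Matrix.mul_assoc]
      _ = M := by rw [hGS, Matrix.nonsing_inv_mul _ hu, Matrix.mul_one, hM]
  have hMk : M * k = 0 := by
    rw [hM, Matrix.mul_assoc, hk0, Matrix.mul_zero]
  have hMt : Mᵀ = M := by
    rw [hM, transpose_mul, transpose_mul, transpose_transpose, hSit, Matrix.mul_assoc]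
  have hkM : kᵀ * M = 0 := by
    rw [← hMt, ← transpose_mul, hMk, transpose_zero]
  have hkk : k * kᵀ = 1 - M := by
    set Q := 1 - M - k * kᵀ with hQ
    have hQt : Qᵀ = Q := by
      rw [hQ, transpose_sub, transpose_sub, transpose_one, hMt, transpose_mul,
        transpose_transpose]
    have hQQ : Q * Q = Q := by
      rw [hQ]
      have e1 : M * (k * kᵀ) = 0 := by rw [← Matrix.mul_assoc, hMk, Matrix.zero_mul]
      have e2 : (k * kᵀ) * M = 0 := by rw [Matrix.mul_assoc, hkM, Matrix.mul_zero]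
      have e3 : (k * kᵀ) * (k * kᵀ) = k * kᵀ := by
        rw [Matrix.mul_assoc, ← Matrix.mul_assoc kᵀ, hk1, Matrix.one_mul]
      simp only [Matrix.sub_mul, Matrix.mul_sub, Matrix.one_mul, Matrix.mul_one, hMM, e1, e2, e3]
      abel
    have htr : Q.trace = 0 := by
      have h1 : M.trace = n := by
        rw [hM, Matrix.trace_mul_comm, ← Matrix.mul_assoc, hGS, Matrix.mul_nonsing_inv _ hu,
          trace_one, Fintype.card_fin]
      have h2 : (k * kᵀ).trace = w := by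
        rw [Matrix.trace_mul_comm, hk1, trace_one, Fintype.card_fin]
      rw [hQ, trace_sub, trace_sub, h1, h2, trace_one, Fintype.card_sum, Fintype.card_fin,
        Fintype.card_fin]
      push_cast
      ring
    have hQ0 : Q = 0 := by
      have h1 : (Qᵀ * Q).trace = 0 := by rw [hQt, hQQ, htr]
      have h2 : ∑ j, ∑ i, Q i j * Q i j = 0 := by
        rw [← h1]
        rfl
      have h3 := (Finset.sum_eq_zero_iff_of_nonneg (fun j _ =>
        Finset.sum_nonneg fun i _ => mul_self_nonneg (Q i j))).1 h2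
      ext i j
      have h4 := (Finset.sum_eq_zero_iff_of_nonneg (fun i _ => mul_self_nonneg (Q i j))).1
        (h3 j (Finset.mem_univ j)) i (Finset.mem_univ i)
      exact mul_self_eq_zero.1 h4
    rw [hQ] at hQ0
    exact (sub_eq_zero.1 hQ0).symm
  -- columns of `G`
  have hcl : ∀ i : Fin n, (fun p => G p (Sum.inl i)) = x (Sum.inl i) := by
    intro i
    funext p
    show Real.sqrt 1 * x (Sum.inl i) p = x (Sum.inl i) p
    rw [Real.sqrt_one, one_mul]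
  have hcr : ∀ l : Fin w, (fun p => G p (Sum.inr l)) = Real.sqrt τ • x (Sum.inr l) := fun l => rfl
  have hGv : ∀ v : Fin n ⊕ Fin w → ℝ, G *ᵥ v = ∑ i, v (Sum.inl i) • x (Sum.inl i) +
      ∑ l, (Real.sqrt τ * v (Sum.inr l)) • x (Sum.inr l) := by
    intro v
    funext p
    have h1 : (G *ᵥ v) p = ∑ i, G p (Sum.inl i) * v (Sum.inl i) +
        ∑ l, G p (Sum.inr l) * v (Sum.inr l) := by
      have h0 : (G *ᵥ v) p = ∑ j, G p j * v j := rfl
      rw [h0, Fintype.sum_sum_type]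
    rw [h1]
    simp only [Pi.add_apply, Finset.sum_apply, Pi.smul_apply, smul_eq_mul]
    congr 1
    · refine Finset.sum_congr rfl fun i _ => ?_
      have h2 : G p (Sum.inl i) = x (Sum.inl i) p := congrFun (hcl i) p
      rw [h2, mul_comm]
    · refine Finset.sum_congr rfl fun l _ => ?_
      have h2 : G p (Sum.inr l) = Real.sqrt τ * x (Sum.inr l) p := congrFun (hcr l) p
      rw [h2]
      ring
  have hGt : ∀ y : Fin n → ℝ, ∀ i : Fin n, (Gᵀ *ᵥ y) (Sum.inl i) = x (Sum.inl i) ⬝ᵥ y := by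
    intro y i
    show (fun p => G p (Sum.inl i)) ⬝ᵥ y = _
    rw [hcl]
  have hGt' : ∀ y : Fin n → ℝ, ∀ l : Fin w, (Gᵀ *ᵥ y) (Sum.inr l) =
      Real.sqrt τ * (x (Sum.inr l) ⬝ᵥ y) := by
    intro y l
    show (fun p => G p (Sum.inr l)) ⬝ᵥ y = _
    rw [hcr, smul_dotProduct, smul_eq_mul]
  have hMd : ∀ j, M j j = wt n w τ j * (x j ⬝ᵥ S⁻¹ *ᵥ x j) := fun j => gmat_diag hω x S⁻¹ j
  have hkkd : ∀ j, ∑ l, k j l ^ 2 = 1 - wt n w τ j * (x j ⬝ᵥ S⁻¹ *ᵥ x j) := by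
    intro j
    have h1 : (k * kᵀ) j j = ∑ l, k j l ^ 2 := by
      rw [Matrix.mul_apply]
      refine Finset.sum_congr rfl fun l _ => ?_
      rw [Matrix.transpose_apply, pow_two]
    rw [← h1, hkk, Matrix.sub_apply, Matrix.one_apply_eq, hMd]
  refine ⟨C, D, ?_⟩
  refine
    { psd := ?_, frame := ?_, row := ?_, diag := ?_, proj := ?_, ker := ?_, orth := ?_,
      rep := ?_, norm := ?_ }
  · refine posSemidef_iff_dotProduct_mulVec.2 ⟨?_, fun v => ?_⟩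
    · rw [Matrix.IsHermitian, Matrix.conjTranspose_eq_transpose_of_trivial]
      exact hDt
    · rw [star_trivial]
      exact hp v
  · rw [← hk1]
    nth_rewrite 1 [← hDt]
    ext l l'
    rw [Matrix.add_apply, Matrix.mul_apply, Matrix.mul_apply, Matrix.mul_apply,
      Fintype.sum_sum_type]
    rfl
  · intro i
    have h1 := hkkd (Sum.inl i)
    have hw1 : wt n w τ (Sum.inl i) = 1 := rfl
    rw [hw1, one_mul] at h1
    exact h1
  · intro l
    have h1 := hkkd (Sum.inr l)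
    have hw1 : wt n w τ (Sum.inr l) = τ := rfl
    rw [hw1] at h1
    rw [← h1, Matrix.mul_apply]
    refine Finset.sum_congr rfl fun m _ => ?_
    have h2 : D m l = D l m := by
      conv_lhs => rw [← hDt]
      rfl
    rw [h2, pow_two]
    rfl
  · intro θ
    set th : Fin n ⊕ Fin w → ℝ := Sum.elim θ 0 with hth
    have h1 : Cᵀ *ᵥ θ = kᵀ *ᵥ th := by
      funext l
      simp only [mulVec, dotProduct]
      rw [Fintype.sum_sum_type]
      simp only [hth, Sum.elim_inl, Sum.elim_inr, Pi.zero_apply, mul_zero, Finset.sum_const_zero,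
        add_zero]
      rfl
    have h2 : G *ᵥ th = ∑ i, θ i • x (Sum.inl i) := by
      rw [hGv]
      simp [hth]
    have h3 : th ⬝ᵥ th = θ ⬝ᵥ θ := by
      simp only [dotProduct]
      rw [Fintype.sum_sum_type]
      simp [hth]
    have h4 : (kᵀ *ᵥ th) ⬝ᵥ (kᵀ *ᵥ th) = th ⬝ᵥ (k * kᵀ) *ᵥ th := by
      rw [dotProduct_mulVec, ← mulVec_transpose, transpose_transpose, mulVec_mulVec, dotProduct_comm]
    have h5 : th ⬝ᵥ M *ᵥ th = (G *ᵥ th) ⬝ᵥ S⁻¹ *ᵥ (G *ᵥ th) := by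
      rw [hM, ← mulVec_mulVec, ← mulVec_mulVec, dotProduct_mulVec, vecMul_transpose]
    rw [h1, h4, hkk, Matrix.sub_mulVec, dotProduct_sub, one_mulVec, h3, h5, h2]
  · intro v
    have h1 : G *ᵥ (k *ᵥ v) = 0 := by rw [mulVec_mulVec, hk0, zero_mulVec]
    rw [hGv] at h1
    exact h1
  · intro z
    have h1 : kᵀ *ᵥ (Gᵀ *ᵥ S⁻¹ *ᵥ z) = 0 := by
      rw [mulVec_mulVec, ← transpose_mul, hk0, transpose_zero, zero_mulVec]
    rw [← h1]
    nth_rewrite 1 [← hDt]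
    funext l
    simp only [Pi.add_apply]
    simp only [mulVec, dotProduct]
    rw [Fintype.sum_sum_type]
    congr 1
    · refine Finset.sum_congr rfl fun i _ => ?_
      have h2 := hGt (S⁻¹ *ᵥ z) i
      simp only [mulVec, dotProduct] at h2
      rw [h2]
      rfl
    · refine Finset.sum_congr rfl fun i _ => ?_
      have h2 := hGt' (S⁻¹ *ᵥ z) i
      simp only [mulVec, dotProduct] at h2
      rw [h2]
      rfl
  · intro z
    have h1 : G *ᵥ (Gᵀ *ᵥ S⁻¹ *ᵥ z) = z := by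
      rw [mulVec_mulVec, mulVec_mulVec, hGS, Matrix.mul_nonsing_inv _ hu, one_mulVec]
    rw [hGv] at h1
    conv_lhs => rw [← h1]
    congr 1
    · refine Finset.sum_congr rfl fun i _ => ?_
      rw [hGt]
    · refine Finset.sum_congr rfl fun l _ => ?_
      rw [hGt']
  · intro z
    have h1 : (Gᵀ *ᵥ S⁻¹ *ᵥ z) ⬝ᵥ (Gᵀ *ᵥ S⁻¹ *ᵥ z) = z ⬝ᵥ S⁻¹ *ᵥ z := by
      rw [dotProduct_mulVec, vecMul_transpose, mulVec_mulVec, mulVec_mulVec, hGS,
        Matrix.mul_nonsing_inv _ hu, one_mulVec]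
    rw [← h1]
    conv_rhs => rw [dotProduct]
    rw [Fintype.sum_sum_type]
    congr 1
    · refine Finset.sum_congr rfl fun i _ => ?_
      rw [hGt, pow_two]
    · refine Finset.sum_congr rfl fun l _ => ?_
      rw [hGt', pow_two]

end Pool.Agent.RU
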