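import Pool.Agent.Helper96.RU.A1
import Pool.Agent.Helper96.RU.A3
import Pool.Agent.Helper96.RU.A4
import Pool.Agent.Helper96.RU.A5
import Pool.Agent.Helper96.RU.A8
import Pool.Agent.Helper96.RU.A9

/-!
# Block RU-A10 (MP_a64d16_an): assembly of Part A (tamed designs)

Blocks A1-A9 are used as given. `q = Q0 δ E/(2 t^2)`, `W0 = 2 n + 1`, `c` maximal (A1), `c.m < M0`
(A8), `c.w ≤ 2 n < W0` (A3b). `w = c.w`, `x = c.x`, `s = c.s`, frame `C, D` from A9 (`τ = 1/E`,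
`x = c.col`). `hx`: `(1/2)(Y i + ∑ θ Z)` (`Cube.abs_comb_mem`, `hrow`).
`diag`: A3a: `1 - (1/E) s S⁻¹ s ≤ 1/2`. `row`: if `w ≥ 1` A3d with `z = s 0`, `|s_0|^2 ≥ E/2`:
`∑ C_il^2 = 1 - x S⁻¹ x ≤ 2/E` (trivial if `w = 0`). `hw`: trace of `Cᵀ C + D D = 1`:
`w = ∑_i ∑_l C_il^2 + ∑_l (D D)_ll ≤ 2n/E + w/2`.
`Sat = {i : 1 - 1/t < ∑_k |θ k i|}`: `|Sat| (1 - 1/t) ≤ ∑_k ∑_i |θ k i| ≤ M0 Q0/t`, `t ≥ 2`:
`|Sat| ≤ 2 M0 Q0/t`. `light`: `w ≥ 1` since `v ≠ 0`; `θ i = sign((C v) i)/t` for `i ∈ Q`, `0` otherwise,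
A3e with `z = s 0`: `|Cᵀ θ|^2 (E/2) ≤ q` (A9 `proj`), and `|Cᵀ θ| ≥ ⟨Cᵀ θ, v⟩ = ⟨θ, C v⟩ =
(1/t) ∑_Q |(C v) i|`. So `(∑_Q |C v|)^2 ≤ 2 t^2 q/E = Q0 δ`.
`rep`: `α i = x_i S⁻¹ z`, `β l = √(1/E) s_l S⁻¹ z` (A9 `rep`, `orth`, `norm`, A3c), and the width from
A5 applied to the compact set `{α(z) : z ∈ B}`, whose minors are `≤ 1` by A4.
-/

namespace Pool.Agent.RU

open Matrix Module Pool.Agent.Cube

/-- The output of Part A. -/
structure IsTamed {n w : ℕ} (B : Set (Fin n → ℝ)) (E δ σ : ℝ) (Q0 f : ℕ)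
    (x : Fin n → Fin n → ℝ) (s : Fin w → Fin n → ℝ) (C : Matrix (Fin n) (Fin w) ℝ)
    (D : Matrix (Fin w) (Fin w) ℝ) (Sat : Finset (Fin n)) (F : Matrix (Fin n) (Fin n) ℝ) :
    Prop where
  hx : ∀ i, (1 / 2 : ℝ) • x i ∈ B
  hs : ∀ l, s l ∈ B
  psd : D.PosSemidef
  frame : Cᵀ * C + D * D = 1
  diag : ∀ l, (D * D) l l ≤ 1 / 2
  row : ∀ i, ∑ l, C i l ^ 2 ≤ 2 / E
  hw : (w : ℝ) ≤ 4 * n / E
  light : ∀ v : Fin w → ℝ, v ⬝ᵥ v = 1 → ∀ Q : Finset (Fin n), Disjoint Q Sat → Q.card ≤ Q0 →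
      ∑ i ∈ Q, |(C *ᵥ v) i| ≤ Real.sqrt (δ * Q0)
  sat : (Sat.card : ℝ) ≤ σ
  ker : ∀ v : Fin w → ℝ, ∑ i, (C *ᵥ v) i • x i + ∑ l, (Real.sqrt (1 / E) * (D *ᵥ v) l) • s l = 0
  projF : IsProj F
  trF : F.trace ≤ f
  rep : ∀ z ∈ B, ∃ (α : Fin n → ℝ) (β : Fin w → ℝ),
    z = ∑ i, α i • x i + ∑ l, (Real.sqrt (1 / E) * β l) • s l ∧ Cᵀ *ᵥ α + D *ᵥ β = 0 ∧
    α ⬝ᵥ α + β ⬝ᵥ β ≤ E ∧
    ((1 - F) *ᵥ α) ⬝ᵥ ((1 - F) *ᵥ α) ≤ Real.exp 1 * n / (f + 1)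

/-- The sign, never zero. -/
noncomputable def sg10 (a : ℝ) : ℝ := if 0 ≤ a then 1 else -1

theorem sg10_abs (a : ℝ) : |sg10 a| = 1 := by
  unfold sg10
  split_ifs
  · exact abs_one
  · rw [abs_neg, abs_one]

theorem sg10_mul (a : ℝ) : sg10 a * a = |a| := by
  unfold sg10
  split_ifs with h
  · rw [one_mul, abs_of_nonneg h]
  · rw [neg_one_mul, abs_of_neg (not_le.1 h)]

theorem cs10 {w : ℕ} (a b : Fin w → ℝ) : (a ⬝ᵥ b) ^ 2 ≤ (a ⬝ᵥ a) * (b ⬝ᵥ b) := by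
  have := Finset.sum_mul_sq_le_sq_mul_sq Finset.univ a b
  have e1 : a ⬝ᵥ a = ∑ i, a i ^ 2 := Finset.sum_congr rfl fun i _ => (pow_two (a i)).symm
  have e2 : b ⬝ᵥ b = ∑ i, b i ^ 2 := Finset.sum_congr rfl fun i _ => (pow_two (b i)).symm
  rw [e1, e2]
  exact this

/-- Block RU-A10. -/
theorem exists_tamed {n : ℕ} (hn : 0 < n) {B : Set (Fin n → ℝ)} (hc : IsCompact B)
    (hconv : Convex ℝ B) (hsymm : ∀ z ∈ B, -z ∈ B) {r : ℝ} (hr : 0 < r)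
    (hB : ∀ i : Fin n, Pi.single i r ∈ B) {E t δ : ℝ} {Q0 M0 : ℕ} (f : ℕ) (hE : 0 < E)
    (ht : 2 ≤ t) (hδ : 0 < δ) (hδ1 : δ ≤ 1) (hQ : t ^ 2 ≤ Q0) (hM0 : M0 ≤ n)
    (h60 : 60 * n / (δ * E) ≤ M0) :
    ∃ (w : ℕ) (x : Fin n → Fin n → ℝ) (s : Fin w → Fin n → ℝ) (C : Matrix (Fin n) (Fin w) ℝ)
      (D : Matrix (Fin w) (Fin w) ℝ) (Sat : Finset (Fin n)) (F : Matrix (Fin n) (Fin n) ℝ),
      IsTamed B E δ (2 * M0 * Q0 / t) Q0 f x s C D Sat F := by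
  classical
  have ht0 : 0 < t := by linarith
  have hQ0 : (0 : ℝ) < Q0 := lt_of_lt_of_le (by positivity) hQ
  have h0 : (0 : Fin n → ℝ) ∈ B := by
    have h1 := hB ⟨0, hn⟩
    have h2 := hconv h1 (hsymm _ h1) (by norm_num : (0 : ℝ) ≤ 1 / 2) (by norm_num : (0 : ℝ) ≤ 1 / 2)
      (by norm_num)
    simpa using h2
  obtain ⟨q, hq⟩ : ∃ q, q = Q0 * δ * E / (2 * t ^ 2) := ⟨_, rfl⟩
  have hq0 : 0 < q := by rw [hq]; positivity
  obtain ⟨c, h⟩ := exists_max hc hr hB h0 hE ht0 hq0 Q0 M0 (2 * n + 1)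
  have hm : c.m < M0 := cluster_count hn hc hr hB h hE ht0 hδ hδ1 hQ hq hM0 h60
  have hw2 : c.w ≤ 2 * n := h.w_le hE hq0
  have hw3 : c.w < 2 * n + 1 := by omega
  have hτ : (0 : ℝ) ≤ 1 / E := by positivity
  obtain ⟨C, D, hF⟩ := exists_frame hτ c.col h.pos
  have hSdef : dmat (wt n c.w (1 / E)) c.col = c.S E := rfl
  have hs : ∀ l, E / 2 ≤ c.s l ⬝ᵥ (c.S E)⁻¹ *ᵥ c.s l := h.sink_lower hE hq0
  have hnorm : ∀ z ∈ B, z ⬝ᵥ (c.S E)⁻¹ *ᵥ z ≤ E := fun z hz => h.norm_le hE hq0 hw3 hz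
  have hrow' : ∀ i, ∑ l, C i l ^ 2 = 1 - c.x i ⬝ᵥ (c.S E)⁻¹ *ᵥ c.x i := fun i => hF.row i
  have hdiag' : ∀ l, (D * D) l l = 1 - 1 / E * (c.s l ⬝ᵥ (c.S E)⁻¹ *ᵥ c.s l) := fun l => hF.diag l
  -- diag
  have hdiag : ∀ l, (D * D) l l ≤ 1 / 2 := by
    intro l
    rw [hdiag' l]
    have h1 : 1 / E * (E / 2) ≤ 1 / E * (c.s l ⬝ᵥ (c.S E)⁻¹ *ᵥ c.s l) :=
      mul_le_mul_of_nonneg_left (hs l) hτ
    have h2 : 1 / E * (E / 2) = 1 / 2 := by field_simp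
    linarith
  -- row
  have hrow : ∀ i, ∑ l, C i l ^ 2 ≤ 2 / E := by
    intro i
    rcases Nat.eq_zero_or_pos c.w with hw0 | hw0
    · have : ∑ l, C i l ^ 2 = 0 := by
        apply Finset.sum_eq_zero
        intro l _
        exact absurd l.2 (by omega)
      rw [this]; positivity
    · have h1 := h.exchange hsymm hE hq0 (h.adm.hs ⟨0, hw0⟩) i
      rw [← hrow' i] at h1
      have h2 := hs ⟨0, hw0⟩
      have h3 : 0 ≤ ∑ l, C i l ^ 2 := Finset.sum_nonneg fun _ _ => sq_nonneg _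
      rw [le_div_iff₀ hE]
      have h4 : (∑ l, C i l ^ 2) * (E / 2) ≤ 1 := (mul_le_mul_of_nonneg_left h2 h3).trans h1
      linarith
  -- the number of sinks
  have hw : (c.w : ℝ) ≤ 4 * n / E := by
    have h1 : (Cᵀ * C + D * D).trace = c.w := by
      rw [hF.frame, trace_one, Fintype.card_fin]
    rw [trace_add] at h1
    have h2 : (Cᵀ * C).trace = ∑ i, ∑ l, C i l ^ 2 := by
      simp only [Matrix.trace, Matrix.diag, Matrix.mul_apply, Matrix.transpose_apply]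
      rw [Finset.sum_comm]
      refine Finset.sum_congr rfl fun i _ => Finset.sum_congr rfl fun l _ => ?_
      rw [pow_two]
    have h3 : (Cᵀ * C).trace ≤ n * (2 / E) := by
      rw [h2]
      calc ∑ i, ∑ l, C i l ^ 2 ≤ ∑ _i : Fin n, 2 / E := Finset.sum_le_sum fun i _ => hrow i
        _ = n * (2 / E) := by simp
    have h4 : (D * D).trace ≤ c.w * (1 / 2) := by
      simp only [Matrix.trace, Matrix.diag]
      calc ∑ l, (D * D) l l ≤ ∑ _l : Fin c.w, (1 / 2 : ℝ) := Finset.sum_le_sum fun l _ => hdiag l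
        _ = c.w * (1 / 2) := by simp
    have h5 : 4 * n / E = 2 * (n * (2 / E)) := by ring
    linarith
  obtain ⟨Sat, hSat⟩ : ∃ Sat : Finset (Fin n),
      Sat = Finset.univ.filter (fun i => 1 - 1 / t < ∑ k, |c.θ k i|) := ⟨_, rfl⟩
  -- saturated indices
  have hsat : (Sat.card : ℝ) ≤ 2 * M0 * Q0 / t := by
    have h1 : (Sat.card : ℝ) * (1 - 1 / t) ≤ M0 * (Q0 / t) := by
      calc (Sat.card : ℝ) * (1 - 1 / t) = ∑ _i ∈ Sat, (1 - 1 / t) := by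
            rw [Finset.sum_const, nsmul_eq_mul]
        _ ≤ ∑ i ∈ Sat, ∑ k, |c.θ k i| := by
            refine Finset.sum_le_sum fun i hi => ?_
            rw [hSat, Finset.mem_filter] at hi
            exact hi.2.le
        _ ≤ ∑ i, ∑ k, |c.θ k i| := Finset.sum_le_sum_of_subset_of_nonneg (Finset.subset_univ _)
            fun i _ _ => Finset.sum_nonneg fun k _ => abs_nonneg _
        _ = ∑ k, ∑ i, |c.θ k i| := Finset.sum_comm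
        _ ≤ ∑ _k : Fin c.m, (Q0 : ℝ) / t := Finset.sum_le_sum fun k _ => h.adm.hl1 k
        _ = c.m * (Q0 / t) := by simp
        _ ≤ M0 * (Q0 / t) := by
            have : (c.m : ℝ) ≤ M0 := by exact_mod_cast hm.le
            gcongr
    have h2 : 1 / 2 ≤ 1 - 1 / t := by
      have : 1 / t ≤ 1 / 2 := one_div_le_one_div_of_le (by norm_num) ht
      linarith
    have h3 : (Sat.card : ℝ) * (1 / 2) ≤ Sat.card * (1 - 1 / t) := by gcongr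
    have h4 : 2 * M0 * Q0 / t = 2 * (M0 * (Q0 / t)) := by ring
    rw [h4]
    linarith
  -- light
  have hlight : ∀ v : Fin c.w → ℝ, v ⬝ᵥ v = 1 → ∀ Q : Finset (Fin n), Disjoint Q Sat →
      Q.card ≤ Q0 → ∑ i ∈ Q, |(C *ᵥ v) i| ≤ Real.sqrt (δ * Q0) := by
    intro v hv Q hdis hcard
    have hw0 : 0 < c.w := by
      by_contra hcon
      have : v ⬝ᵥ v = 0 := Finset.sum_eq_zero fun l _ => absurd l.2 (by omega)
      rw [this] at hv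
      norm_num at hv
    obtain ⟨θ, hθ⟩ : ∃ θ : Fin n → ℝ, θ = fun i => if i ∈ Q then sg10 ((C *ᵥ v) i) / t else 0 :=
      ⟨_, rfl⟩
    have habs : ∀ i, |θ i| = if i ∈ Q then 1 / t else 0 := by
      intro i
      rw [hθ]
      show |if i ∈ Q then sg10 ((C *ᵥ v) i) / t else 0| = _
      split_ifs
      · rw [abs_div, sg10_abs, abs_of_pos ht0]
      · exact abs_zero
    have h1 : ∀ i, |θ i| ≤ 1 / t := by
      intro i
      rw [habs i]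
      split_ifs
      · exact le_refl _
      · positivity
    have h2 : ∑ i, |θ i| ≤ Q0 / t := by
      simp only [habs]
      rw [Finset.sum_ite_mem, Finset.univ_inter, Finset.sum_const, nsmul_eq_mul]
      have : (Q.card : ℝ) ≤ Q0 := by exact_mod_cast hcard
      calc (Q.card : ℝ) * (1 / t) ≤ Q0 * (1 / t) := by gcongr
        _ = Q0 / t := by ring
    have h3 : ∀ i, |θ i| + ∑ k, |c.θ k i| ≤ 1 := by
      intro i
      rw [habs i]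
      split_ifs with hi
      · have h4 : i ∉ Sat := Finset.disjoint_left.1 hdis hi
        rw [hSat, Finset.mem_filter, not_and, not_lt] at h4
        have := h4 (Finset.mem_univ _)
        linarith
      · rw [zero_add]
        exact h.adm.hrow i
    have h4 := h.cluster hE hq0 hm h1 h2 h3 (h.adm.hs ⟨0, hw0⟩)
    have h5 : (Cᵀ *ᵥ θ) ⬝ᵥ (Cᵀ *ᵥ θ) = θ ⬝ᵥ θ -
      (∑ i, θ i • c.x i) ⬝ᵥ (c.S E)⁻¹ *ᵥ (∑ i, θ i • c.x i) := hF.proj θ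
    rw [← h5] at h4
    have h6 : 0 ≤ (Cᵀ *ᵥ θ) ⬝ᵥ (Cᵀ *ᵥ θ) := Finset.sum_nonneg fun _ _ => mul_self_nonneg _
    have h7 : (Cᵀ *ᵥ θ) ⬝ᵥ (Cᵀ *ᵥ θ) * (E / 2) ≤ q :=
      (mul_le_mul_of_nonneg_left (hs ⟨0, hw0⟩) h6).trans h4
    have h8 : (Cᵀ *ᵥ θ) ⬝ᵥ v = 1 / t * ∑ i ∈ Q, |(C *ᵥ v) i| := by
      have e1 : (Cᵀ *ᵥ θ) ⬝ᵥ v = θ ⬝ᵥ (C *ᵥ v) := by
        rw [mulVec_transpose, ← dotProduct_mulVec]
      rw [e1, dotProduct, Finset.mul_sum]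
      have e2 : ∀ i, θ i * (C *ᵥ v) i = if i ∈ Q then 1 / t * |(C *ᵥ v) i| else 0 := by
        intro i
        rw [hθ]
        show (if i ∈ Q then sg10 ((C *ᵥ v) i) / t else 0) * (C *ᵥ v) i = _
        split_ifs
        · rw [← sg10_mul]; ring
        · exact zero_mul _
      simp only [e2]
      rw [Finset.sum_ite_mem, Finset.univ_inter]
    have h9 := cs10 (Cᵀ *ᵥ θ) v
    rw [hv, mul_one, h8] at h9
    have h10 : 0 ≤ ∑ i ∈ Q, |(C *ᵥ v) i| := Finset.sum_nonneg fun _ _ => abs_nonneg _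
    apply Real.le_sqrt_of_sq_le
    have h11 : (1 / t * ∑ i ∈ Q, |(C *ᵥ v) i|) ^ 2 = (∑ i ∈ Q, |(C *ᵥ v) i|) ^ 2 / t ^ 2 := by
      rw [mul_pow, div_pow, one_pow]; ring
    rw [h11] at h9
    have h12 : (∑ i ∈ Q, |(C *ᵥ v) i|) ^ 2 / t ^ 2 * (E / 2) ≤ Q0 * δ * E / (2 * t ^ 2) := by
      rw [← hq]
      exact (mul_le_mul_of_nonneg_right h9 (by positivity)).trans h7
    have h13 : (∑ i ∈ Q, |(C *ᵥ v) i|) ^ 2 * (E / (2 * t ^ 2)) ≤ (δ * Q0) * (E / (2 * t ^ 2)) := by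
      calc (∑ i ∈ Q, |(C *ᵥ v) i|) ^ 2 * (E / (2 * t ^ 2))
          = (∑ i ∈ Q, |(C *ᵥ v) i|) ^ 2 / t ^ 2 * (E / 2) := by ring
        _ ≤ Q0 * δ * E / (2 * t ^ 2) := h12
        _ = (δ * Q0) * (E / (2 * t ^ 2)) := by ring
    exact le_of_mul_le_mul_right h13 (by positivity)
  -- the widths
  obtain ⟨al, hal⟩ : ∃ al : (Fin n → ℝ) → Fin n → ℝ,
      al = fun z i => c.x i ⬝ᵥ (c.S E)⁻¹ *ᵥ z := ⟨_, rfl⟩
  have halc : Continuous al := by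
    rw [hal]
    refine continuous_pi fun i => ?_
    refine Continuous.dotProduct continuous_const ?_
    exact Continuous.matrix_mulVec continuous_const continuous_id
  obtain ⟨F, hFp, hFt, hFd⟩ := width_of_minors (hc.image halc) (⟨_, Set.mem_image_of_mem al h0⟩) f
    (by
      intro I a ha
      choose z hz hza using ha
      have h1 := h.minors hsymm hE hq0 I z hz
      have h2 : (Matrix.of fun j k => a k (I j)) =
          Matrix.of fun j k : Fin (f + 1) => c.x (I j) ⬝ᵥ (c.S E)⁻¹ *ᵥ z k := by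
        ext j k
        rw [Matrix.of_apply, Matrix.of_apply, ← hza k, hal]
      rw [h2]
      exact h1)
  refine ⟨c.w, c.x, c.s, C, D, Sat, F, ?_⟩
  constructor
  · intro i
    have h1 : ∑ k, c.θ k i • c.Z k ∈ B := abs_comb_mem hconv hsymm h0 h.adm.hZ (h.adm.hrow i)
    have h2 := hconv (h.adm.hY i) h1 (by norm_num : (0 : ℝ) ≤ 1 / 2)
      (by norm_num : (0 : ℝ) ≤ 1 / 2) (by norm_num)
    have h3 : (1 / 2 : ℝ) • c.x i = (1 / 2 : ℝ) • c.Y i + (1 / 2 : ℝ) • ∑ k, c.θ k i • c.Z k := by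
      unfold Cfg.x
      rw [smul_add]
    rw [h3]
    exact h2
  · exact h.adm.hs
  · exact hF.psd
  · exact hF.frame
  · exact hdiag
  · exact hrow
  · exact hw
  · exact hlight
  · exact hsat
  · exact hF.ker
  · exact hFp
  · exact hFt
  · intro z hz
    refine ⟨al z, fun l => Real.sqrt (1 / E) * (c.s l ⬝ᵥ (c.S E)⁻¹ *ᵥ z), ?_, ?_, ?_, ?_⟩
    · have := hF.rep z
      rw [hal]
      exact this
    · have := hF.orth z
      rw [hal]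
      exact this
    · have h1 := hF.norm z
      have h2 := hnorm z hz
      have e1 : al z ⬝ᵥ al z = ∑ i, (c.x i ⬝ᵥ (c.S E)⁻¹ *ᵥ z) ^ 2 := by
        rw [hal]
        exact Finset.sum_congr rfl fun i _ => (pow_two _).symm
      have e2 : (fun l => Real.sqrt (1 / E) * (c.s l ⬝ᵥ (c.S E)⁻¹ *ᵥ z)) ⬝ᵥ
          (fun l => Real.sqrt (1 / E) * (c.s l ⬝ᵥ (c.S E)⁻¹ *ᵥ z)) =
          ∑ l, (Real.sqrt (1 / E) * (c.s l ⬝ᵥ (c.S E)⁻¹ *ᵥ z)) ^ 2 :=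
        Finset.sum_congr rfl fun i _ => (pow_two _).symm
      rw [e1, e2]
      exact h1.le.trans h2
    · exact hFd _ (Set.mem_image_of_mem al hz)

end Pool.Agent.RU
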