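import Pool.Agent.Helper96.RU.Defs

/-!
# Block RU-A2 (MP_a64d16_an): the determinant after a coupled change of many columns

Proof. `S + a vᵀ + v aᵀ + c v vᵀ = S (1 + U V)` with `U` of two columns `S⁻¹ a, S⁻¹ v`; use
`Matrix.det_one_add_mul_comm` and `det_fin_two` as in `Pool.Agent.Cube.det_rank_two`
(Pool/Agent/Helper71/Cube/Rank.lean, copy its proof). Check: with `p = a S⁻¹ v`, `A = a S⁻¹ a`,
`Z = v S⁻¹ v` the 2 x 2 determinant is `(1 + p) (1 + p + c Z) - Z (A + c p) = (1+p)^2 + (c - A) Z`.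
-/

namespace Pool.Agent.RU

open Matrix Module Pool.Agent.Cube

/-- Block RU-A2. -/
theorem det_couple {n : ℕ} (S : Matrix (Fin n) (Fin n) ℝ) (hS : IsUnit S.det) (hsymm : Sᵀ = S)
    (a v : Fin n → ℝ) (c : ℝ) :
    (S + vecMulVec a v + vecMulVec v a + c • vecMulVec v v).det =
      S.det * ((1 + a ⬝ᵥ S⁻¹ *ᵥ v) ^ 2 + (c - a ⬝ᵥ S⁻¹ *ᵥ a) * (v ⬝ᵥ S⁻¹ *ᵥ v)) := by
  have hinv : (S⁻¹)ᵀ = S⁻¹ := by rw [transpose_nonsing_inv, hsymm]
  have hza : v ⬝ᵥ S⁻¹ *ᵥ a = a ⬝ᵥ S⁻¹ *ᵥ v := by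
    rw [dotProduct_mulVec, ← mulVec_transpose, hinv, dotProduct_comm]
  let U : Matrix (Fin n) (Fin 2) ℝ := of fun p j => ![(S⁻¹ *ᵥ a) p, (S⁻¹ *ᵥ v) p] j
  let V : Matrix (Fin 2) (Fin n) ℝ := of fun j p => ![v p, a p + c * v p] j
  have h1 : S + vecMulVec a v + vecMulVec v a + c • vecMulVec v v = S * (1 + U * V) := by
    have hUV : U * V = vecMulVec (S⁻¹ *ᵥ a) v + vecMulVec (S⁻¹ *ᵥ v) a +
        c • vecMulVec (S⁻¹ *ᵥ v) v := by
      ext p q
      simp only [U, V, mul_apply, Fin.sum_univ_two, of_apply, cons_val_zero, cons_val_one,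
        Matrix.add_apply, Matrix.smul_apply, vecMulVec_apply, smul_eq_mul]
      ring
    rw [hUV, Matrix.mul_add, Matrix.mul_add, Matrix.mul_add, Matrix.mul_one,
      Matrix.mul_smul, mul_vecMulVec, mul_vecMulVec, mul_vecMulVec, mulVec_mulVec, mulVec_mulVec,
      Matrix.mul_nonsing_inv _ hS, one_mulVec, one_mulVec]
    abel
  rw [h1, det_mul, Matrix.det_one_add_mul_comm, det_fin_two]
  congr 1
  have e00 : (V * U) 0 0 = a ⬝ᵥ S⁻¹ *ᵥ v := by
    rw [← hza]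
    simp only [U, V, mul_apply, of_apply, cons_val_zero, dotProduct]
  have e01 : (V * U) 0 1 = v ⬝ᵥ S⁻¹ *ᵥ v := by
    simp only [U, V, mul_apply, of_apply, cons_val_zero, cons_val_one, dotProduct]
  have e10 : (V * U) 1 0 = a ⬝ᵥ S⁻¹ *ᵥ a + c * (a ⬝ᵥ S⁻¹ *ᵥ v) := by
    rw [← hza]
    simp only [U, V, mul_apply, of_apply, cons_val_zero, cons_val_one, dotProduct,
      Finset.mul_sum, ← Finset.sum_add_distrib]
    exact Finset.sum_congr rfl fun p _ => by ring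
  have e11 : (V * U) 1 1 = a ⬝ᵥ S⁻¹ *ᵥ v + c * (v ⬝ᵥ S⁻¹ *ᵥ v) := by
    simp only [U, V, mul_apply, of_apply, cons_val_one, cons_val_fin_one,
      dotProduct, Finset.mul_sum, ← Finset.sum_add_distrib]
    exact Finset.sum_congr rfl fun p _ => by ring
  rw [Matrix.add_apply, Matrix.add_apply, Matrix.add_apply, Matrix.add_apply, e00, e01, e10, e11]
  simp
  ring

end Pool.Agent.RU
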