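import Pool.Agent.Helper96.RU.A2

/-!
# Block RU-A6 (MP_a64d16_an): replacing the clusters by points

Proof. One step (`one_cluster`): for `R` positive definite let `S = R + ∑ x_i x_iᵀ`,
`a = ∑ θ_i x_i`. Then `R + ∑ (x_i + θ_i z)(x_i + θ_i z)ᵀ = S + a zᵀ + z aᵀ + |θ|^2 z zᵀ`, and by
RU-A2 its determinant is `det S ((1+p)^2 + (T - A) Z)`, `p = a S⁻¹ z`, `A = a S⁻¹ a`, `Z = z S⁻¹ z`,
`T = |θ|^2`. Since `p^2 ≤ A Z` and `A ≤ T` (`S ≥ X Xᵀ`, `X = (x_i)`, `a = X θ`):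
`(1+p)^2 + (T - A) Z ≤ 1 + 2 p + T Z ≤ 1 + A + Z + T Z ≤ (1+T)(1+Z)`, and
`det (S + z zᵀ) = det S (1 + Z)`. For `R` only positive semidefinite replace `R` by `R + ε 1` and let
`ε → 0` (determinants are continuous). Induction over the clusters (`m`, `Fin.sum_univ_succ`), with
`R` = sinks + the `Z_k Z_kᵀ` already separated.
-/

namespace Pool.Agent.RU

open Matrix Module Pool.Agent.Cube

lemma a6_expand {n N : ℕ} (R : Matrix (Fin n) (Fin n) ℝ)
    (x : Fin N → Fin n → ℝ) (θ : Fin N → ℝ) (z : Fin n → ℝ) :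
    R + ∑ i, vecMulVec (x i + θ i • z) (x i + θ i • z) =
      (R + ∑ i, vecMulVec (x i) (x i)) + vecMulVec (∑ i, θ i • x i) z +
        vecMulVec z (∑ i, θ i • x i) + (θ ⬝ᵥ θ) • vecMulVec z z := by
  ext p q
  simp only [Matrix.add_apply, Matrix.sum_apply, vecMulVec_apply, Pi.add_apply, Pi.smul_apply,
    smul_eq_mul, Matrix.smul_apply, Finset.sum_apply, dotProduct, Finset.sum_mul, Finset.mul_sum]
  rw [add_assoc, add_assoc, add_assoc, ← Finset.sum_add_distrib, ← Finset.sum_add_distrib,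
    ← Finset.sum_add_distrib]
  congr 1
  exact Finset.sum_congr rfl fun i _ => by ring

lemma a6_quad {n N : ℕ} (x : Fin N → Fin n → ℝ) (u : Fin n → ℝ) :
    u ⬝ᵥ (∑ i, vecMulVec (x i) (x i)) *ᵥ u = ∑ i, (x i ⬝ᵥ u) ^ 2 := by
  rw [sum_mulVec, dotProduct_sum]
  refine Finset.sum_congr rfl fun i _ => ?_
  rw [vecMulVec_mulVec, dotProduct_smul, dotProduct_comm u (x i)]
  simp only [MulOpposite.smul_eq_mul_unop, MulOpposite.unop_op]
  ring

lemma a6_psd {n N : ℕ} (x : Fin N → Fin n → ℝ) :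
    (∑ i, vecMulVec (x i) (x i)).PosSemidef := by
  refine Matrix.posSemidef_sum _ fun i _ => ?_
  have := Matrix.posSemidef_vecMulVec_self_star (x i)
  simpa using this

theorem one_cluster_pos {n N : ℕ} {R : Matrix (Fin n) (Fin n) ℝ} (hR : R.PosDef)
    (x : Fin N → Fin n → ℝ) (θ : Fin N → ℝ) (z : Fin n → ℝ) :
    (R + ∑ i, vecMulVec (x i + θ i • z) (x i + θ i • z)).det ≤
      (1 + θ ⬝ᵥ θ) * (R + ∑ i, vecMulVec (x i) (x i) + vecMulVec z z).det := by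
  obtain ⟨S, hSdef⟩ : ∃ S, S = R + ∑ i, vecMulVec (x i) (x i) := ⟨_, rfl⟩
  have hS : S.PosDef := by rw [hSdef]; exact hR.add_posSemidef (a6_psd x)
  have hdet : 0 < S.det := hS.det_pos
  have hu : IsUnit S.det := hdet.ne'.isUnit
  have hsymm : Sᵀ = S := by
    have := hS.isHermitian
    rwa [Matrix.IsHermitian, Matrix.conjTranspose_eq_transpose_of_trivial] at this
  have hinv : (S⁻¹)ᵀ = S⁻¹ := by rw [transpose_nonsing_inv, hsymm]
  have hT : (S⁻¹).PosDef := hS.inv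
  have hTn : ∀ v : Fin n → ℝ, 0 ≤ v ⬝ᵥ S⁻¹ *ᵥ v := by
    intro v
    have := hT.posSemidef.dotProduct_mulVec_nonneg v
    simpa using this
  have hRn : ∀ v : Fin n → ℝ, 0 ≤ v ⬝ᵥ R *ᵥ v := by
    intro v
    have := hR.posSemidef.dotProduct_mulVec_nonneg v
    simpa using this
  rw [a6_expand, ← hSdef]
  obtain ⟨a, ha⟩ : ∃ a, a = ∑ i, θ i • x i := ⟨_, rfl⟩
  rw [← ha, det_couple S hu hsymm]
  have h1 : (S + vecMulVec z z).det = S.det * (1 + z ⬝ᵥ S⁻¹ *ᵥ z) := by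
    have := det_couple S hu hsymm 0 z 1
    simpa using this
  rw [h1]
  have hza : z ⬝ᵥ S⁻¹ *ᵥ a = a ⬝ᵥ S⁻¹ *ᵥ z := by
    rw [dotProduct_mulVec, ← mulVec_transpose, hinv, dotProduct_comm]
  obtain ⟨p, hp⟩ : ∃ p, p = a ⬝ᵥ S⁻¹ *ᵥ z := ⟨_, rfl⟩
  obtain ⟨A, hA⟩ : ∃ A, A = a ⬝ᵥ S⁻¹ *ᵥ a := ⟨_, rfl⟩
  obtain ⟨Z, hZ⟩ : ∃ Z, Z = z ⬝ᵥ S⁻¹ *ᵥ z := ⟨_, rfl⟩
  obtain ⟨c, hc⟩ : ∃ c, c = θ ⬝ᵥ θ := ⟨_, rfl⟩
  have hA0 : 0 ≤ A := by rw [hA]; exact hTn a
  have hZ0 : 0 ≤ Z := by rw [hZ]; exact hTn z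
  -- Cauchy-Schwarz
  have hcs : p ^ 2 ≤ A * Z := by
    have hq : ∀ s : ℝ, 0 ≤ Z * (s * s) + (2 * p) * s + A := by
      intro s
      have := hTn (a + s • z)
      have e : (a + s • z) ⬝ᵥ S⁻¹ *ᵥ (a + s • z) = Z * (s * s) + (2 * p) * s + A := by
        rw [Matrix.mulVec_add, Matrix.mulVec_smul, add_dotProduct, dotProduct_add, dotProduct_add,
          smul_dotProduct, smul_dotProduct, dotProduct_smul, dotProduct_smul, hza, ← hp, ← hA, ← hZ]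
        simp only [smul_eq_mul]
        ring
      rwa [e] at this
    have := discrim_le_zero hq
    unfold discrim at this
    nlinarith
  -- A ≤ c
  have hAc : A ≤ c := by
    obtain ⟨u, hu'⟩ : ∃ u, u = S⁻¹ *ᵥ a := ⟨_, rfl⟩
    have e1 : S *ᵥ u = a := by
      rw [hu', mulVec_mulVec, Matrix.mul_nonsing_inv _ hu, one_mulVec]
    have e2 : u ⬝ᵥ S *ᵥ u = A := by rw [e1, hA, hu', dotProduct_comm]
    have e3 : u ⬝ᵥ S *ᵥ u = u ⬝ᵥ R *ᵥ u + ∑ i, (x i ⬝ᵥ u) ^ 2 := by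
      rw [hSdef, Matrix.add_mulVec, dotProduct_add, a6_quad]
    have e4 : A = ∑ i, θ i * (x i ⬝ᵥ u) := by
      rw [hA, ← hu', ha, sum_dotProduct]
      refine Finset.sum_congr rfl fun i _ => ?_
      rw [smul_dotProduct, smul_eq_mul]
    have e5 : ∑ i, (θ i - x i ⬝ᵥ u) ^ 2 = c - 2 * A + ∑ i, (x i ⬝ᵥ u) ^ 2 := by
      rw [hc, e4, dotProduct, Finset.mul_sum, ← Finset.sum_sub_distrib, ← Finset.sum_add_distrib]
      exact Finset.sum_congr rfl fun i _ => by ring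
    have e6 : 0 ≤ ∑ i, (θ i - x i ⬝ᵥ u) ^ 2 := Finset.sum_nonneg fun i _ => sq_nonneg _
    have e7 := hRn u
    linarith
  have h2p : 2 * p ≤ A + Z := by
    have h3 : (2 * p) ^ 2 ≤ (A + Z) ^ 2 := by nlinarith [sq_nonneg (A - Z)]
    exact (abs_le.mp (abs_le_of_sq_le_sq h3 (by linarith))).2
  rw [← hp, ← hA, ← hZ, ← hc]
  have hfin : (1 + p) ^ 2 + (c - A) * Z ≤ (1 + c) * (1 + Z) := by nlinarith
  calc S.det * ((1 + p) ^ 2 + (c - A) * Z) ≤ S.det * ((1 + c) * (1 + Z)) :=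
        mul_le_mul_of_nonneg_left hfin hdet.le
    _ = (1 + c) * (S.det * (1 + Z)) := by ring

/-- Block RU-A6a. -/
theorem one_cluster {n N : ℕ} {R : Matrix (Fin n) (Fin n) ℝ} (hR : R.PosSemidef)
    (x : Fin N → Fin n → ℝ) (θ : Fin N → ℝ) (z : Fin n → ℝ) :
    (R + ∑ i, vecMulVec (x i + θ i • z) (x i + θ i • z)).det ≤
      (1 + θ ⬝ᵥ θ) * (R + ∑ i, vecMulVec (x i) (x i) + vecMulVec z z).det := by
  have hc1 : Continuous fun ε : ℝ => (R + ε • (1 : Matrix (Fin n) (Fin n) ℝ) +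
      ∑ i, vecMulVec (x i + θ i • z) (x i + θ i • z)).det := by
    refine Continuous.matrix_det ?_
    fun_prop
  have hc2 : Continuous fun ε : ℝ => (1 + θ ⬝ᵥ θ) * (R + ε • (1 : Matrix (Fin n) (Fin n) ℝ) +
      ∑ i, vecMulVec (x i) (x i) + vecMulVec z z).det := by
    refine continuous_const.mul (Continuous.matrix_det ?_)
    fun_prop
  have h1 := (hc1.tendsto 0).mono_left (nhdsWithin_le_nhds (s := Set.Ioi (0 : ℝ)))
  have h2 := (hc2.tendsto 0).mono_left (nhdsWithin_le_nhds (s := Set.Ioi (0 : ℝ)))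
  simp only [zero_smul, add_zero] at h1 h2
  refine le_of_tendsto_of_tendsto h1 h2 ?_
  filter_upwards [self_mem_nhdsWithin] with ε hε
  refine one_cluster_pos ?_ x θ z
  have : (ε • (1 : Matrix (Fin n) (Fin n) ℝ)).PosDef := Matrix.PosDef.one.smul hε
  exact Matrix.PosDef.posSemidef_add hR this

lemma a6_induct {n : ℕ} : ∀ (m : ℕ) (Z θ : Fin m → Fin n → ℝ) {R : Matrix (Fin n) (Fin n) ℝ}
    (_ : R.PosSemidef) (x : Fin n → Fin n → ℝ),
    (R + ∑ i, vecMulVec (x i + ∑ k, θ k i • Z k) (x i + ∑ k, θ k i • Z k)).det ≤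
      (∏ k, (1 + θ k ⬝ᵥ θ k)) *
        (R + ∑ i, vecMulVec (x i) (x i) + ∑ k, vecMulVec (Z k) (Z k)).det := by
  intro m
  induction m with
  | zero =>
    intro Z θ R hR x
    simp
  | succ m ih =>
    intro Z θ R hR x
    have hz : (vecMulVec (Z 0) (Z 0)).PosSemidef := by
      have := Matrix.posSemidef_vecMulVec_self_star (Z 0)
      simpa using this
    have h1 := one_cluster hR (fun i => x i + ∑ k : Fin m, θ k.succ i • Z k.succ) (θ 0) (Z 0)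
    have h2 := ih (fun k => Z k.succ) (fun k => θ k.succ) (hR.add hz) x
    have e1 : ∀ i, x i + ∑ k, θ k i • Z k =
        (x i + ∑ k : Fin m, θ k.succ i • Z k.succ) + θ 0 i • Z 0 := by
      intro i
      rw [Fin.sum_univ_succ]
      abel
    simp_rw [e1]
    have hpos : 0 ≤ 1 + θ 0 ⬝ᵥ θ 0 := by
      have : 0 ≤ θ 0 ⬝ᵥ θ 0 := Finset.sum_nonneg fun i _ => mul_self_nonneg _
      linarith
    refine h1.trans ?_
    rw [Fin.prod_univ_succ, mul_assoc]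
    refine mul_le_mul_of_nonneg_left ?_ hpos
    have e2 : R + ∑ i, vecMulVec (x i + ∑ k : Fin m, θ k.succ i • Z k.succ)
        (x i + ∑ k : Fin m, θ k.succ i • Z k.succ) + vecMulVec (Z 0) (Z 0) =
        R + vecMulVec (Z 0) (Z 0) + ∑ i, vecMulVec (x i + ∑ k : Fin m, θ k.succ i • Z k.succ)
        (x i + ∑ k : Fin m, θ k.succ i • Z k.succ) := by abel
    have e3 : R + ∑ i, vecMulVec (x i) (x i) + ∑ k, vecMulVec (Z k) (Z k) =
        R + vecMulVec (Z 0) (Z 0) + ∑ i, vecMulVec (x i) (x i) +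
          ∑ k : Fin m, vecMulVec (Z k.succ) (Z k.succ) := by
      rw [Fin.sum_univ_succ]
      abel
    rw [e2, e3]
    exact h2

/-- Block RU-A6. -/
theorem remove_clusters {n : ℕ} (c : Cfg n) {E : ℝ} (hE : 0 < E) :
    (c.S E).det ≤ (∏ k, (1 + c.θ k ⬝ᵥ c.θ k)) *
      (dmat (Sum.elim (fun _ => 1) (fun _ => 1 / E) : (Fin n ⊕ Fin c.m) ⊕ Fin c.w → ℝ)
        (Sum.elim (Sum.elim c.Y c.Z) c.s)).det := by
  have hR : (∑ l, (1 / E) • vecMulVec (c.s l) (c.s l)).PosSemidef := by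
    refine Matrix.posSemidef_sum _ fun i _ => ?_
    have := Matrix.posSemidef_vecMulVec_self_star (c.s i)
    have h2 : (vecMulVec (c.s i) (c.s i)).PosSemidef := by simpa using this
    exact h2.smul (by positivity)
  have h := a6_induct c.m c.Z c.θ hR c.Y
  have e1 : c.S E = ∑ l, (1 / E) • vecMulVec (c.s l) (c.s l) +
      ∑ i, vecMulVec (c.Y i + ∑ k, c.θ k i • c.Z k) (c.Y i + ∑ k, c.θ k i • c.Z k) := by
    unfold Cfg.S dmat Cfg.col wt
    rw [Fintype.sum_sum_type, add_comm]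
    congr 1
    refine Finset.sum_congr rfl fun i _ => ?_
    simp only [Sum.elim_inl, one_smul]
    rfl
  have e2 : dmat (Sum.elim (fun _ => 1) (fun _ => 1 / E) : (Fin n ⊕ Fin c.m) ⊕ Fin c.w → ℝ)
        (Sum.elim (Sum.elim c.Y c.Z) c.s) = ∑ l, (1 / E) • vecMulVec (c.s l) (c.s l) +
      ∑ i, vecMulVec (c.Y i) (c.Y i) + ∑ k, vecMulVec (c.Z k) (c.Z k) := by
    unfold dmat
    rw [Fintype.sum_sum_type, Fintype.sum_sum_type]
    simp only [Sum.elim_inl, Sum.elim_inr, one_smul]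
    abel
  rw [e1, e2]
  exact h

end Pool.Agent.RU
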