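import Pool.Agent.Helper96.RU.Defs

/-!
# Block RU-B1 (MP_a64d16_an): splitting of the spectrum of `D`

Proof. Spectral theorem for the symmetric matrix `D` (orthonormal eigenvectors, eigenvalues
`μ_j ≥ 0`): the columns of `J` are the eigenvectors with `μ_j^2 < 3/4` (an enumeration by `Fin d`).
`Jᵀ J = 1`; `J Jᵀ` commutes with `D`; `|D J v|^2 = ∑ μ_j^2 v_j^2 ≤ (3/4) |v|^2`; if `Jᵀ v = 0`, then
`v` is a combination of the other eigenvectors, `|D v|^2 ≥ (3/4)|v|^2`. With `v = e_l`: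
`1/2 ≥ (D D)_ll = |D e_l|^2 ≥ (3/4) |(1 - J Jᵀ) e_l|^2 = (3/4) (1 - ∑_a J_la^2)`, so
`∑_a J_la^2 ≥ 1/3`; summing over `l`: `d = tr (Jᵀ J) = ∑_l ∑_a J_la^2 ≥ w/3`.
(Compare Pool/Agent/Helper88/BM/Svd.lean; Matrix.IsHermitian.eigenvectorBasis.)

# Block RU-B2: the main linear map
`v = J a + v1`, `a = Jᵀ v`, `Jᵀ v1 = 0`. `D` maps the two parts into themselves:
`J Qᵀ Jᵀ (1 - D D) v = J Qᵀ (a - b)` with `b = Jᵀ D D v = Jᵀ D D J a`, and
`M v = J (8 Qᵀ (a - b) - Jᵀ D J a) - D v1`, orthogonal parts. `|a - b| ≥ (1/4)|a|` (because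
`⟨a, a - b⟩ = |a|^2 - |D J a|^2 ≥ |a|^2 / 4`), `|Jᵀ D J a| ≤ |D J a| ≤ √(3/4) |a|`, so the first part
has norm at least `(2 - √(3/4)) |a| ≥ √(3/4) |a|`, and `|D v1|^2 ≥ (3/4) |v1|^2`.
-/

namespace Pool.Agent.RU

open Matrix Module

/-- The splitting of the kernel. -/
structure IsSplit {w d : ℕ} (D : Matrix (Fin w) (Fin w) ℝ) (J : Matrix (Fin w) (Fin d) ℝ) :
    Prop where
  orth : Jᵀ * J = 1
  comm : D * (J * Jᵀ) = J * Jᵀ * D
  low : ∀ v : Fin d → ℝ, (D *ᵥ J *ᵥ v) ⬝ᵥ (D *ᵥ J *ᵥ v) ≤ 3 / 4 * (v ⬝ᵥ v)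
  high : ∀ v : Fin w → ℝ, Jᵀ *ᵥ v = 0 → 3 / 4 * (v ⬝ᵥ v) ≤ (D *ᵥ v) ⬝ᵥ (D *ᵥ v)
  row : ∀ l, 1 / 3 ≤ J l ⬝ᵥ J l
  dim : (w : ℝ) ≤ 3 * d
  dim' : d ≤ w

namespace B1Aux

theorem adj {p q : ℕ} (A : Matrix (Fin p) (Fin q) ℝ) (x : Fin q → ℝ) (y : Fin p → ℝ) :
    (A *ᵥ x) ⬝ᵥ y = x ⬝ᵥ (Aᵀ *ᵥ y) := by
  rw [Matrix.mulVec_transpose, dotProduct_comm, Matrix.dotProduct_mulVec, dotProduct_comm]

theorem iso {p q : ℕ} (A : Matrix (Fin p) (Fin q) ℝ) (hA : Aᵀ * A = 1) (x y : Fin q → ℝ) :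
    (A *ᵥ x) ⬝ᵥ (A *ᵥ y) = x ⬝ᵥ y := by
  rw [adj, Matrix.mulVec_mulVec, hA, Matrix.one_mulVec]

theorem qexp {n : ℕ} (p q : Fin n → ℝ) (t : ℝ) :
    (p - t • q) ⬝ᵥ (p - t • q) = p ⬝ᵥ p - 2 * t * (p ⬝ᵥ q) + t ^ 2 * (q ⬝ᵥ q) := by
  simp only [dotProduct, Pi.sub_apply, Pi.smul_apply, smul_eq_mul, Finset.mul_sum,
    ← Finset.sum_sub_distrib, ← Finset.sum_add_distrib]
  exact Finset.sum_congr rfl fun i _ => by ring

theorem spec {w : ℕ} {D : Matrix (Fin w) (Fin w) ℝ} (hD : D.IsHermitian) :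
    ∃ (U : Matrix (Fin w) (Fin w) ℝ) (μ : Fin w → ℝ), Uᵀ * U = 1 ∧ U * Uᵀ = 1 ∧
      D = U * diagonal μ * Uᵀ := by
  refine ⟨hD.eigenvectorUnitary, hD.eigenvalues, ?_, ?_, ?_⟩
  · have := Unitary.coe_star_mul_self hD.eigenvectorUnitary
    rw [Matrix.star_eq_conjTranspose, conjTranspose_eq_transpose_of_trivial] at this
    exact this
  · have := Unitary.coe_mul_star_self hD.eigenvectorUnitary
    rw [Unitary.coe_star, Matrix.star_eq_conjTranspose, conjTranspose_eq_transpose_of_trivial] at this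
    exact this
  · have := hD.spectral_theorem
    rw [Unitary.conjStarAlgAut_apply, Matrix.star_eq_conjTranspose,
      conjTranspose_eq_transpose_of_trivial] at this
    exact this

theorem diag_entry {w : ℕ} (U : Matrix (Fin w) (Fin w) ℝ) (c : Fin w → ℝ) (l : Fin w) :
    (U * diagonal c * Uᵀ) l l = ∑ j, U l j ^ 2 * c j := by
  rw [Matrix.mul_apply]
  refine Finset.sum_congr rfl fun j _ => ?_
  rw [Matrix.mul_diagonal, Matrix.transpose_apply]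
  ring

end B1Aux

open B1Aux

/-- Block RU-B1. -/
theorem exists_split {w : ℕ} {D : Matrix (Fin w) (Fin w) ℝ} (hD : D.PosSemidef)
    (hdiag : ∀ l, (D * D) l l ≤ 1 / 2) :
    ∃ (d : ℕ) (J : Matrix (Fin w) (Fin d) ℝ), IsSplit D J := by
  classical
  obtain ⟨U, μ, hU1, hU2, hDU⟩ := spec hD.1
  set S := {j : Fin w // μ j ^ 2 < 3 / 4} with hS
  set d := Fintype.card S with hd
  set e : Fin d → Fin w := fun a => ((Fintype.equivFin S).symm a).1 with he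
  have hinj : Function.Injective e := by
    intro a b h
    exact (Fintype.equivFin S).symm.injective (Subtype.ext h)
  have hlt : ∀ a, μ (e a) ^ 2 < 3 / 4 := fun a => ((Fintype.equivFin S).symm a).2
  have hsurj : ∀ j, μ j ^ 2 < 3 / 4 → ∃ a, e a = j := by
    intro j hj
    refine ⟨Fintype.equivFin S ⟨j, hj⟩, ?_⟩
    simp [he]
  set E : Matrix (Fin w) (Fin d) ℝ := fun j a => if j = e a then 1 else 0 with hE
  set χ : Fin w → ℝ := fun j => if μ j ^ 2 < 3 / 4 then 1 else 0 with hχ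
  have hE1 : ∀ c : Fin w → ℝ, Eᵀ * diagonal c * E = diagonal (fun a => c (e a)) := by
    intro c
    ext a b
    rw [Matrix.mul_apply]
    simp only [Matrix.mul_diagonal, Matrix.transpose_apply, hE, Matrix.diagonal_apply]
    rw [Finset.sum_eq_single (e a)]
    · by_cases h : a = b
      · subst h; simp
      · have : e a ≠ e b := fun h' => h (hinj h')
        simp [h, this]
    · intro j _ hj
      simp [hj]
    · intro h
      exact absurd (Finset.mem_univ _) h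
  have hE2 : E * Eᵀ = diagonal χ := by
    ext j k
    rw [Matrix.mul_apply]
    simp only [Matrix.transpose_apply, hE, hχ, Matrix.diagonal_apply]
    by_cases h : j = k
    · subst h
      rw [if_pos rfl]
      by_cases hj : μ j ^ 2 < 3 / 4
      · obtain ⟨a, ha⟩ := hsurj j hj
        rw [if_pos hj, Finset.sum_eq_single a]
        · simp [ha]
        · intro b _ hb
          have : j ≠ e b := by
            rw [← ha]
            exact fun h' => hb (hinj h').symm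
          simp [this]
        · intro h
          exact absurd (Finset.mem_univ _) h
      · rw [if_neg hj]
        apply Finset.sum_eq_zero
        intro a _
        have : j ≠ e a := by
          rintro rfl
          exact hj (hlt a)
        simp [this]
    · rw [if_neg h]
      apply Finset.sum_eq_zero
      intro a _
      by_cases h1 : j = e a
      · have : k ≠ e a := by
          rw [← h1]
          exact fun h' => h h'.symm
        simp [this]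
      · simp [h1]
  have hJJ : (U * E) * (U * E)ᵀ = U * diagonal χ * Uᵀ := by
    rw [Matrix.transpose_mul, ← hE2]
    simp only [Matrix.mul_assoc]
  have horth : (U * E)ᵀ * (U * E) = 1 := by
    have h1 := hE1 (fun _ => 1)
    rw [Matrix.transpose_mul]
    have h2 : Eᵀ * Uᵀ * (U * E) = Eᵀ * (Uᵀ * U) * E := by simp only [Matrix.mul_assoc]
    rw [h2, hU1]
    simpa using h1
  have hχ0 : ∀ j, 3 / 4 * (1 - χ j) ≤ μ j ^ 2 := by
    intro j
    simp only [hχ]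
    split_ifs with h
    · nlinarith [sq_nonneg (μ j)]
    · push Not at h
      linarith
  have hrow : ∀ l, 1 / 3 ≤ (U * E) l ⬝ᵥ (U * E) l := by
    intro l
    have h1 : (U * E) l ⬝ᵥ (U * E) l = ((U * E) * (U * E)ᵀ) l l := by
      rw [Matrix.mul_apply]
      rfl
    rw [h1, hJJ, diag_entry]
    have h2 := hdiag l
    have h3 : D * D = U * diagonal (fun j => μ j ^ 2) * Uᵀ := by
      rw [hDU]
      have : U * diagonal μ * Uᵀ * (U * diagonal μ * Uᵀ)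
        = U * diagonal μ * (Uᵀ * U) * diagonal μ * Uᵀ := by simp only [Matrix.mul_assoc]
      rw [this, hU1, Matrix.mul_one, Matrix.mul_assoc U, Matrix.diagonal_mul_diagonal]
      congr 3
      funext j
      ring
    rw [h3, diag_entry] at h2
    have h4 : ∑ j, U l j ^ 2 = 1 := by
      have := congrFun (congrFun hU2 l) l
      rw [Matrix.mul_apply, Matrix.one_apply_eq] at this
      rw [← this]
      refine Finset.sum_congr rfl fun j _ => ?_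
      rw [Matrix.transpose_apply]
      ring
    have h5 : 3 / 4 * (∑ j, U l j ^ 2 - ∑ j, U l j ^ 2 * χ j) ≤ ∑ j, U l j ^ 2 * μ j ^ 2 := by
      rw [← Finset.sum_sub_distrib, Finset.mul_sum]
      refine Finset.sum_le_sum fun j _ => ?_
      have := mul_le_mul_of_nonneg_left (hχ0 j) (sq_nonneg (U l j))
      linarith
    rw [h4] at h5
    linarith
  refine ⟨d, U * E, horth, ?_, ?_, ?_, hrow, ?_, ?_⟩
  · rw [hJJ, hDU]
    have a1 : U * diagonal μ * Uᵀ * (U * diagonal χ * Uᵀ)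
      = U * (diagonal μ * ((Uᵀ * U) * diagonal χ)) * Uᵀ := by simp only [Matrix.mul_assoc]
    have a2 : U * diagonal χ * Uᵀ * (U * diagonal μ * Uᵀ)
      = U * (diagonal χ * ((Uᵀ * U) * diagonal μ)) * Uᵀ := by simp only [Matrix.mul_assoc]
    rw [a1, a2, hU1, Matrix.one_mul, Matrix.one_mul, Matrix.diagonal_mul_diagonal,
      Matrix.diagonal_mul_diagonal]
    congr 3
    funext j
    ring
  · intro v
    rw [Matrix.mulVec_mulVec, adj, Matrix.mulVec_mulVec]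
    have h1 : (D * (U * E))ᵀ * (D * (U * E)) = diagonal (fun a => μ (e a) ^ 2) := by
      have h2 : D * (U * E) = U * (diagonal μ * E) := by
        rw [hDU]
        have : U * diagonal μ * Uᵀ * (U * E) = U * (diagonal μ * ((Uᵀ * U) * E)) := by
          simp only [Matrix.mul_assoc]
        rw [this, hU1, Matrix.one_mul]
      rw [h2, Matrix.transpose_mul, Matrix.transpose_mul, Matrix.diagonal_transpose]
      have h3 : Eᵀ * diagonal μ * Uᵀ * (U * (diagonal μ * E))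
        = Eᵀ * (diagonal μ * ((Uᵀ * U) * diagonal μ)) * E := by simp only [Matrix.mul_assoc]
      rw [h3, hU1, Matrix.one_mul, Matrix.diagonal_mul_diagonal, hE1]
      congr 1
      funext a
      ring
    rw [h1]
    unfold dotProduct
    rw [Finset.mul_sum]
    refine Finset.sum_le_sum fun a _ => ?_
    rw [Matrix.mulVec_diagonal]
    have := mul_le_mul_of_nonneg_left (hlt a).le (mul_self_nonneg (v a))
    nlinarith
  · intro v hv
    set y := Uᵀ *ᵥ v with hy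
    have h1 : v = U *ᵥ y := by
      rw [hy, Matrix.mulVec_mulVec, hU2, Matrix.one_mulVec]
    have h2 : D *ᵥ v = U *ᵥ (diagonal μ *ᵥ y) := by
      rw [hDU, ← Matrix.mulVec_mulVec, ← Matrix.mulVec_mulVec]
    have h3 : ∀ a, y (e a) = 0 := by
      intro a
      have h4 := congrFun hv a
      rw [Matrix.transpose_mul, ← Matrix.mulVec_mulVec, ← hy] at h4
      have h5 : (Eᵀ *ᵥ y) a = y (e a) := by
        simp [Matrix.mulVec, dotProduct, hE]
      rw [h5] at h4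
      exact h4
    rw [h2, iso U hU1]
    conv_lhs => rw [h1, iso U hU1]
    unfold dotProduct
    rw [Finset.mul_sum]
    refine Finset.sum_le_sum fun j _ => ?_
    rw [Matrix.mulVec_diagonal]
    by_cases hj : μ j ^ 2 < 3 / 4
    · obtain ⟨a, ha⟩ := hsurj j hj
      have : y j = 0 := by rw [← ha]; exact h3 a
      rw [this]
      simp
    · push Not at hj
      have := mul_le_mul_of_nonneg_left hj (mul_self_nonneg (y j))
      nlinarith
  · have h1 : ∑ l, (U * E) l ⬝ᵥ (U * E) l = (d : ℝ) := by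
      have h2 : ∑ l, (U * E) l ⬝ᵥ (U * E) l = ((U * E) * (U * E)ᵀ).trace := by
        rw [Matrix.trace]
        refine Finset.sum_congr rfl fun l _ => ?_
        rw [Matrix.diag_apply, Matrix.mul_apply]
        rfl
      rw [h2, Matrix.trace_mul_comm, horth, Matrix.trace_one]
      simp
    have h3 : ∑ _l : Fin w, (1 / 3 : ℝ) ≤ ∑ l, (U * E) l ⬝ᵥ (U * E) l :=
      Finset.sum_le_sum fun l _ => hrow l
    rw [h1] at h3
    simp at h3
    linarith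
  · have := Fintype.card_le_of_injective e hinj
    simpa using this

/-- Block RU-B2. -/
theorem mfull_bound {w d : ℕ} {D : Matrix (Fin w) (Fin w) ℝ} (hD : D.PosSemidef)
    {J : Matrix (Fin w) (Fin d) ℝ} (hJ : IsSplit D J) {Q : Matrix (Fin d) (Fin d) ℝ}
    (hQ : Qᵀ * Q = 1) (v : Fin w → ℝ) :
    3 / 4 * (v ⬝ᵥ v) ≤
      (((8 : ℝ) • (J * Qᵀ * Jᵀ * (1 - D * D)) - D) *ᵥ v) ⬝ᵥ
        (((8 : ℝ) • (J * Qᵀ * Jᵀ * (1 - D * D)) - D) *ᵥ v) := by
  have hDt : Dᵀ = D := by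
    have := hD.1
    unfold Matrix.IsHermitian at this
    rwa [conjTranspose_eq_transpose_of_trivial] at this
  have hQ2 : Q * Qᵀ = 1 := mul_eq_one_comm.mp hQ
  set a := Jᵀ *ᵥ v with ha
  set v1 := v - J *ᵥ a with hv1
  have hv : v = J *ᵥ a + v1 := by rw [hv1]; abel
  -- vectors orthogonal to the columns of `J`
  have hker : ∀ u : Fin w → ℝ, Jᵀ *ᵥ u = 0 → Jᵀ *ᵥ (D *ᵥ u) = 0 := by
    intro u hu
    have h1 : J *ᵥ (Jᵀ *ᵥ (D *ᵥ u)) = 0 := by
      rw [Matrix.mulVec_mulVec, Matrix.mulVec_mulVec, ← hJ.comm, ← Matrix.mulVec_mulVec,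
        ← Matrix.mulVec_mulVec, hu, Matrix.mulVec_zero, Matrix.mulVec_zero]
    have h2 : Jᵀ *ᵥ (J *ᵥ (Jᵀ *ᵥ (D *ᵥ u))) = Jᵀ *ᵥ (D *ᵥ u) := by
      rw [Matrix.mulVec_mulVec, hJ.orth, Matrix.one_mulVec]
    rw [← h2, h1, Matrix.mulVec_zero]
  have hJv1 : Jᵀ *ᵥ v1 = 0 := by
    rw [hv1, Matrix.mulVec_sub, Matrix.mulVec_mulVec, hJ.orth, Matrix.one_mulVec, ← ha, sub_self]
  have hJDv1 : Jᵀ *ᵥ (D *ᵥ v1) = 0 := hker v1 hJv1
  have hJDDv1 : Jᵀ *ᵥ (D *ᵥ (D *ᵥ v1)) = 0 := hker _ hJDv1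
  -- `D J a`
  set c := Jᵀ *ᵥ (D *ᵥ (J *ᵥ a)) with hc
  have hDJ : D *ᵥ (J *ᵥ a) = J *ᵥ c := by
    rw [hc]
    have h1 : J *ᵥ (Jᵀ *ᵥ (D *ᵥ (J *ᵥ a))) = (J * Jᵀ * D) *ᵥ (J *ᵥ a) := by
      rw [Matrix.mulVec_mulVec, Matrix.mulVec_mulVec]
    rw [h1, ← hJ.comm, ← Matrix.mulVec_mulVec, Matrix.mulVec_mulVec _ (J * Jᵀ)]
    have h2 : J * Jᵀ * J = J := by rw [Matrix.mul_assoc, hJ.orth, Matrix.mul_one]
    rw [h2]
  set b := Jᵀ *ᵥ (D *ᵥ (D *ᵥ (J *ᵥ a))) with hb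
  -- the map
  set x := (8 : ℝ) • (Qᵀ *ᵥ (a - b)) with hx
  have hM : ((8 : ℝ) • (J * Qᵀ * Jᵀ * (1 - D * D)) - D) *ᵥ v = J *ᵥ (x - c) - D *ᵥ v1 := by
    rw [Matrix.sub_mulVec, Matrix.smul_mulVec, ← Matrix.mulVec_mulVec, ← Matrix.mulVec_mulVec,
      ← Matrix.mulVec_mulVec, Matrix.sub_mulVec, Matrix.one_mulVec, Matrix.mulVec_sub,
      ← ha, ← Matrix.mulVec_mulVec]
    have h1 : Jᵀ *ᵥ (D *ᵥ (D *ᵥ v)) = b := by
      conv_lhs => rw [hv]
      rw [Matrix.mulVec_add, Matrix.mulVec_add, Matrix.mulVec_add, hJDDv1, add_zero]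
    have h2 : D *ᵥ v = J *ᵥ c + D *ᵥ v1 := by
      conv_lhs => rw [hv]
      rw [Matrix.mulVec_add, hDJ]
    rw [h1, h2, Matrix.mulVec_sub J x c, hx, Matrix.mulVec_smul]
    abel
  have hort : (J *ᵥ (x - c)) ⬝ᵥ (D *ᵥ v1) = 0 := by
    rw [adj, hJDv1, dotProduct_zero]
  have hMM : (J *ᵥ (x - c) - D *ᵥ v1) ⬝ᵥ (J *ᵥ (x - c) - D *ᵥ v1)
      = (x - c) ⬝ᵥ (x - c) + (D *ᵥ v1) ⬝ᵥ (D *ᵥ v1) := by
    rw [sub_dotProduct, dotProduct_sub, dotProduct_sub, hort, iso J hJ.orth,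
      dotProduct_comm (D *ᵥ v1), hort]
    ring
  have hvv : v ⬝ᵥ v = a ⬝ᵥ a + v1 ⬝ᵥ v1 := by
    have h1 : (J *ᵥ a) ⬝ᵥ v1 = 0 := by rw [adj, hJv1, dotProduct_zero]
    conv_lhs => rw [hv]
    rw [add_dotProduct, dotProduct_add, dotProduct_add, h1, iso J hJ.orth, dotProduct_comm v1, h1]
    ring
  rw [hM, hMM, hvv]
  have hhigh := hJ.high v1 hJv1
  have hlow := hJ.low a
  rw [hDJ, iso J hJ.orth] at hlow
  -- `⟨a, b⟩ = |D J a| ^ 2`
  have hab : a ⬝ᵥ b = c ⬝ᵥ c := by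
    rw [hb]
    have h1 := adj J a (D *ᵥ (D *ᵥ (J *ᵥ a)))
    rw [← h1]
    have h2 := adj D (J *ᵥ a) (D *ᵥ (J *ᵥ a))
    rw [hDt] at h2
    rw [← h2, hDJ, iso J hJ.orth]
  have hxx : x ⬝ᵥ x = 64 * ((a - b) ⬝ᵥ (a - b)) := by
    rw [hx, smul_dotProduct, dotProduct_smul, iso Qᵀ (by rw [Matrix.transpose_transpose]; exact hQ2)]
    simp only [smul_eq_mul]
    ring
  have hA0 : 0 ≤ a ⬝ᵥ a := by
    unfold dotProduct
    exact Finset.sum_nonneg fun i _ => mul_self_nonneg _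
  have e1 : 1 / 16 * (a ⬝ᵥ a) ≤ (a - b) ⬝ᵥ (a - b) := by
    have h1 : 0 ≤ ((a - b) - (1 / 4 : ℝ) • a) ⬝ᵥ ((a - b) - (1 / 4 : ℝ) • a) := by
      unfold dotProduct
      exact Finset.sum_nonneg fun i _ => mul_self_nonneg _
    have h2 : ((a - b) - (1 / 4 : ℝ) • a) ⬝ᵥ ((a - b) - (1 / 4 : ℝ) • a)
        = (a - b) ⬝ᵥ (a - b) - 1 / 2 * (a ⬝ᵥ (a - b)) + 1 / 16 * (a ⬝ᵥ a) := by
      rw [qexp, dotProduct_comm (a - b) a]
      ring
    rw [h2] at h1
    have h3 : a ⬝ᵥ (a - b) = a ⬝ᵥ a - c ⬝ᵥ c := by rw [dotProduct_sub, hab]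
    rw [h3] at h1
    linarith
  have e2 : 1 / 2 * (x ⬝ᵥ x) - c ⬝ᵥ c ≤ (x - c) ⬝ᵥ (x - c) := by
    have h1 : 0 ≤ (x - (2 : ℝ) • c) ⬝ᵥ (x - (2 : ℝ) • c) := by
      unfold dotProduct
      exact Finset.sum_nonneg fun i _ => mul_self_nonneg _
    have h2 : (x - (2 : ℝ) • c) ⬝ᵥ (x - (2 : ℝ) • c) = x ⬝ᵥ x - 4 * (x ⬝ᵥ c) + 4 * (c ⬝ᵥ c) := by
      rw [qexp]
      ring
    have h3 : (x - c) ⬝ᵥ (x - c) = x ⬝ᵥ x - 2 * (x ⬝ᵥ c) + c ⬝ᵥ c := by
      rw [sub_dotProduct, dotProduct_sub, dotProduct_sub, dotProduct_comm c x]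
      ring
    rw [h2] at h1
    rw [h3]
    linarith
  linarith

end Pool.Agent.RU
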