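import Pool.Agent.Helper96.RU.P1

/-!
# Block RU-B4 (MP_a64d16_an): second moments of the noise

Data: unit vectors `a i` (`i ∈ I`) with lengths `ν i ≥ 0`, unit vectors `b l` with lengths `π l`,
`∑ π l^2 = d`. The noise matrix of the rotation `x` is `π l ν i psi (a i · Q x b l)`, `i ∈ I`.
Proof. RU-P1 with `e = b l`: summed over `l` (`∑ π_l^2 / d = 1`) the expectation of
`∑_l (∑_i y_i ν_i π_l psi)^2` is
`-c |∑ y_i ν_i a_i|^2 + ∑_r k_r ∑_{i,j ∈ I} y_i y_j ν_i ν_j R_ij^r ≤ ∑_r k_r ∑ |y_i y_j| ν_i ν_j |R_ij|^3`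
(`k_r = 0` for `r < 3`, `|R_ij| ≤ 1`), and `|y_i y_j| ≤ (y_i^2 + y_j^2)/2` with the row sums `≤ σ`
(symmetric kernel) gives `≤ 2^p σ ∑_{i ∈ I} y_i^2`. The second claim is the diagonal:
`∑_l ∑_i ν_i^2 π_l^2 E psi^2 = ∑_i ν_i^2 (-c + ∑ k_r) ≤ 2^p ∑ ν_i^2`.
-/

namespace Pool.Agent.RU

open Matrix Module

theorem abs_dot_le_one {d : ℕ} {a b : Fin d → ℝ} (ha : a ⬝ᵥ a = 1) (hb : b ⬝ᵥ b = 1) :
    |a ⬝ᵥ b| ≤ 1 := by
  have h := Finset.sum_mul_sq_le_sq_mul_sq Finset.univ a b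
  have h1 : ∑ i, a i ^ 2 = 1 := by rw [← ha]; exact Finset.sum_congr rfl fun i _ => sq (a i)
  have h2 : ∑ i, b i ^ 2 = 1 := by rw [← hb]; exact Finset.sum_congr rfl fun i _ => sq (b i)
  rw [h1, h2, mul_one] at h
  exact (sq_le_one_iff_abs_le_one _).mp h

theorem kernel_le {p : ℕ} {k : ℕ → ℝ} (hk0 : ∀ r, 0 ≤ k r) (hk3 : ∀ r, r < 3 → k r = 0)
    (hks : ∑ r ∈ Finset.range (p + 1), k r ≤ 2 ^ p) {R : ℝ} (hR : |R| ≤ 1) :
    |∑ r ∈ Finset.range (p + 1), k r * R ^ r| ≤ 2 ^ p * |R| ^ 3 := by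
  calc |∑ r ∈ Finset.range (p + 1), k r * R ^ r| ≤ ∑ r ∈ Finset.range (p + 1), |k r * R ^ r| :=
        Finset.abs_sum_le_sum_abs _ _
    _ ≤ ∑ r ∈ Finset.range (p + 1), k r * |R| ^ 3 := by
        refine Finset.sum_le_sum fun r _ => ?_
        rw [abs_mul, abs_of_nonneg (hk0 r), abs_pow]
        rcases lt_or_ge r 3 with h | h
        · rw [hk3 r h, zero_mul, zero_mul]
        · exact mul_le_mul_of_nonneg_left (pow_le_pow_of_le_one (abs_nonneg R) hR h) (hk0 r)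
    _ = (∑ r ∈ Finset.range (p + 1), k r) * |R| ^ 3 := by rw [Finset.sum_mul]
    _ ≤ _ := mul_le_mul_of_nonneg_right hks (by positivity)

/-- Block RU-B4. -/
theorem noise_bounds {n w d N p : ℕ} (hd : 0 < d) (hp : Odd p) (hN : 2 * p ≤ N) {ι : Type}
    [Fintype ι] {ω : ι → ℝ} {Q : ι → Matrix (Fin d) (Fin d) ℝ} (h : IsRot d N ω Q)
    (I : Finset (Fin n)) (a : Fin n → Fin d → ℝ) (ha : ∀ i ∈ I, a i ⬝ᵥ a i = 1) (ν : Fin n → ℝ)
    (hν : ∀ i, 0 ≤ ν i) (b : Fin w → Fin d → ℝ) (hb : ∀ l, b l ⬝ᵥ b l = 1) (π : Fin w → ℝ)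
    (hπ : ∑ l, π l ^ 2 = d) {σ : ℝ}
    (hσ : ∀ i ∈ I, ∑ j ∈ I, ν i * ν j * |a i ⬝ᵥ a j| ^ 3 ≤ σ) :
    (∀ y : Fin n → ℝ, ∑ x, ω x * ∑ l, (∑ i ∈ I, y i * (ν i * π l * psi d p (a i ⬝ᵥ Q x *ᵥ b l))) ^ 2
      ≤ 2 ^ p * σ * ∑ i ∈ I, y i ^ 2) ∧
    ∑ x, ω x * ∑ l, ∑ i ∈ I, (ν i * π l * psi d p (a i ⬝ᵥ Q x *ᵥ b l)) ^ 2 ≤
      2 ^ p * ∑ i ∈ I, ν i ^ 2 := by
  obtain ⟨c, k, hc, hk0, hk3, hks, hker⟩ := noise_kernel hd hp hN h
  have hd' : (0:ℝ) < d := by exact_mod_cast hd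
  have hR1 : ∀ i ∈ I, ∀ j ∈ I, |a i ⬝ᵥ a j| ≤ 1 := fun i hi j hj =>
    abs_dot_le_one (ha i hi) (ha j hj)
  constructor
  · intro y
    -- the expectation
    have e1 : ∑ x, ω x * ∑ l, (∑ i ∈ I, y i * (ν i * π l * psi d p (a i ⬝ᵥ Q x *ᵥ b l))) ^ 2 =
        ∑ i ∈ I, ∑ j ∈ I, y i * y j * (ν i * ν j) *
          (-(c * (a i ⬝ᵥ a j)) + ∑ r ∈ Finset.range (p + 1), k r * (a i ⬝ᵥ a j) ^ r) := by
      calc ∑ x, ω x * ∑ l, (∑ i ∈ I, y i * (ν i * π l * psi d p (a i ⬝ᵥ Q x *ᵥ b l))) ^ 2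
          = ∑ x, ∑ l, ∑ i ∈ I, ∑ j ∈ I, (y i * y j * (ν i * ν j) * π l ^ 2) *
              (ω x * (psi d p (a i ⬝ᵥ Q x *ᵥ b l) * psi d p (a j ⬝ᵥ Q x *ᵥ b l))) := by
            refine Finset.sum_congr rfl fun x _ => ?_
            rw [Finset.mul_sum]
            refine Finset.sum_congr rfl fun l _ => ?_
            rw [sq, Finset.sum_mul_sum, Finset.mul_sum]
            refine Finset.sum_congr rfl fun i _ => ?_
            rw [Finset.mul_sum]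
            refine Finset.sum_congr rfl fun j _ => ?_
            ring
        _ = ∑ l, ∑ i ∈ I, ∑ j ∈ I, (y i * y j * (ν i * ν j) * π l ^ 2) *
              ∑ x, (ω x * (psi d p (a i ⬝ᵥ Q x *ᵥ b l) * psi d p (a j ⬝ᵥ Q x *ᵥ b l))) := by
            rw [Finset.sum_comm]
            refine Finset.sum_congr rfl fun l _ => ?_
            rw [Finset.sum_comm]
            refine Finset.sum_congr rfl fun i _ => ?_
            rw [Finset.sum_comm]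
            refine Finset.sum_congr rfl fun j _ => ?_
            rw [Finset.mul_sum]
        _ = ∑ l, π l ^ 2 * (1 / d * ∑ i ∈ I, ∑ j ∈ I, y i * y j * (ν i * ν j) *
              (-(c * (a i ⬝ᵥ a j)) + ∑ r ∈ Finset.range (p + 1), k r * (a i ⬝ᵥ a j) ^ r)) := by
            refine Finset.sum_congr rfl fun l _ => ?_
            rw [Finset.mul_sum, Finset.mul_sum]
            refine Finset.sum_congr rfl fun i hi => ?_
            rw [Finset.mul_sum, Finset.mul_sum]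
            refine Finset.sum_congr rfl fun j hj => ?_
            rw [hker (a i) (a j) (b l) (ha i hi) (ha j hj) (hb l)]
            ring
        _ = _ := by
            rw [← Finset.sum_mul, hπ, ← mul_assoc, mul_one_div_cancel hd'.ne', one_mul]
    rw [e1]
    -- the linear part
    have e2 : 0 ≤ ∑ i ∈ I, ∑ j ∈ I, y i * y j * (ν i * ν j) * (a i ⬝ᵥ a j) := by
      have h1 : (∑ i ∈ I, (y i * ν i) • a i) ⬝ᵥ (∑ j ∈ I, (y j * ν j) • a j) =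
          ∑ i ∈ I, ∑ j ∈ I, y i * y j * (ν i * ν j) * (a i ⬝ᵥ a j) := by
        rw [sum_dotProduct]
        refine Finset.sum_congr rfl fun i _ => ?_
        rw [dotProduct_sum]
        refine Finset.sum_congr rfl fun j _ => ?_
        rw [smul_dotProduct, dotProduct_smul, smul_eq_mul, smul_eq_mul]
        ring
      rw [← h1]
      exact Finset.sum_nonneg fun i _ => mul_self_nonneg _
    have e3 : ∑ i ∈ I, ∑ j ∈ I, y i * y j * (ν i * ν j) *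
          (-(c * (a i ⬝ᵥ a j)) + ∑ r ∈ Finset.range (p + 1), k r * (a i ⬝ᵥ a j) ^ r) =
        -c * (∑ i ∈ I, ∑ j ∈ I, y i * y j * (ν i * ν j) * (a i ⬝ᵥ a j)) +
        ∑ i ∈ I, ∑ j ∈ I, y i * y j * (ν i * ν j) *
          ∑ r ∈ Finset.range (p + 1), k r * (a i ⬝ᵥ a j) ^ r := by
      rw [Finset.mul_sum, ← Finset.sum_add_distrib]
      refine Finset.sum_congr rfl fun i _ => ?_
      rw [Finset.mul_sum, ← Finset.sum_add_distrib]
      refine Finset.sum_congr rfl fun j _ => ?_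
      ring
    rw [e3]
    -- the kernel of order three
    have e4 : ∑ i ∈ I, ∑ j ∈ I, y i * y j * (ν i * ν j) *
          ∑ r ∈ Finset.range (p + 1), k r * (a i ⬝ᵥ a j) ^ r ≤
        ∑ i ∈ I, ∑ j ∈ I, (2 ^ p * (y i ^ 2 / 2 * (ν i * ν j * |a i ⬝ᵥ a j| ^ 3)) +
          2 ^ p * (y j ^ 2 / 2 * (ν i * ν j * |a i ⬝ᵥ a j| ^ 3))) := by
      refine Finset.sum_le_sum fun i hi => Finset.sum_le_sum fun j hj => ?_
      have hkl := kernel_le hk0 hk3 hks (hR1 i hi j hj)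
      have hνν : 0 ≤ ν i * ν j := mul_nonneg (hν i) (hν j)
      have hy : |y i * y j| ≤ y i ^ 2 / 2 + y j ^ 2 / 2 := by
        rw [abs_mul]
        nlinarith [sq_nonneg (|y i| - |y j|), sq_abs (y i), sq_abs (y j)]
      calc y i * y j * (ν i * ν j) * ∑ r ∈ Finset.range (p + 1), k r * (a i ⬝ᵥ a j) ^ r
          ≤ |y i * y j * (ν i * ν j) * ∑ r ∈ Finset.range (p + 1), k r * (a i ⬝ᵥ a j) ^ r| :=
            le_abs_self _
        _ = |y i * y j| * (ν i * ν j) * |∑ r ∈ Finset.range (p + 1), k r * (a i ⬝ᵥ a j) ^ r| := by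
            rw [abs_mul, abs_mul, abs_of_nonneg hνν]
        _ ≤ (y i ^ 2 / 2 + y j ^ 2 / 2) * (ν i * ν j) * (2 ^ p * |a i ⬝ᵥ a j| ^ 3) := by
            gcongr
        _ = _ := by ring
    have e5 : ∑ i ∈ I, ∑ j ∈ I, (2 ^ p * (y i ^ 2 / 2 * (ν i * ν j * |a i ⬝ᵥ a j| ^ 3)) +
          2 ^ p * (y j ^ 2 / 2 * (ν i * ν j * |a i ⬝ᵥ a j| ^ 3))) =
        2 ^ p * ∑ i ∈ I, y i ^ 2 * ∑ j ∈ I, ν i * ν j * |a i ⬝ᵥ a j| ^ 3 := by
      have h1 : ∑ i ∈ I, ∑ j ∈ I, 2 ^ p * (y j ^ 2 / 2 * (ν i * ν j * |a i ⬝ᵥ a j| ^ 3)) =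
          ∑ i ∈ I, ∑ j ∈ I, 2 ^ p * (y i ^ 2 / 2 * (ν i * ν j * |a i ⬝ᵥ a j| ^ 3)) := by
        rw [Finset.sum_comm]
        refine Finset.sum_congr rfl fun i _ => Finset.sum_congr rfl fun j _ => ?_
        rw [dotProduct_comm (a j) (a i)]
        ring
      have h2 : ∑ i ∈ I, ∑ j ∈ I, (2 ^ p * (y i ^ 2 / 2 * (ν i * ν j * |a i ⬝ᵥ a j| ^ 3)) +
          2 ^ p * (y j ^ 2 / 2 * (ν i * ν j * |a i ⬝ᵥ a j| ^ 3))) =
          ∑ i ∈ I, ∑ j ∈ I, 2 ^ p * (y i ^ 2 / 2 * (ν i * ν j * |a i ⬝ᵥ a j| ^ 3)) +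
          ∑ i ∈ I, ∑ j ∈ I, 2 ^ p * (y j ^ 2 / 2 * (ν i * ν j * |a i ⬝ᵥ a j| ^ 3)) := by
        rw [← Finset.sum_add_distrib]
        exact Finset.sum_congr rfl fun i _ => Finset.sum_add_distrib
      rw [h2, h1, ← Finset.sum_add_distrib, Finset.mul_sum]
      refine Finset.sum_congr rfl fun i _ => ?_
      rw [← Finset.sum_add_distrib, Finset.mul_sum, Finset.mul_sum]
      refine Finset.sum_congr rfl fun j _ => ?_
      ring
    have e6 : ∑ i ∈ I, y i ^ 2 * ∑ j ∈ I, ν i * ν j * |a i ⬝ᵥ a j| ^ 3 ≤ ∑ i ∈ I, y i ^ 2 * σ :=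
      Finset.sum_le_sum fun i hi => mul_le_mul_of_nonneg_left (hσ i hi) (sq_nonneg _)
    rw [← Finset.sum_mul] at e6
    have e7 : (2:ℝ) ^ p * (∑ i ∈ I, y i ^ 2 * ∑ j ∈ I, ν i * ν j * |a i ⬝ᵥ a j| ^ 3) ≤
        2 ^ p * ((∑ i ∈ I, y i ^ 2) * σ) := mul_le_mul_of_nonneg_left e6 (by positivity)
    have e8 : -c * (∑ i ∈ I, ∑ j ∈ I, y i * y j * (ν i * ν j) * (a i ⬝ᵥ a j)) ≤ 0 := by
      have := mul_nonneg hc e2
      linarith
    calc _ ≤ 0 + 2 ^ p * ((∑ i ∈ I, y i ^ 2) * σ) := add_le_add e8 (e4.trans (e5.le.trans e7))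
      _ = _ := by ring
  · have e1 : ∑ x, ω x * ∑ l, ∑ i ∈ I, (ν i * π l * psi d p (a i ⬝ᵥ Q x *ᵥ b l)) ^ 2 =
        ∑ i ∈ I, ν i ^ 2 * (-c + ∑ r ∈ Finset.range (p + 1), k r) := by
      calc ∑ x, ω x * ∑ l, ∑ i ∈ I, (ν i * π l * psi d p (a i ⬝ᵥ Q x *ᵥ b l)) ^ 2
          = ∑ x, ∑ l, ∑ i ∈ I, (ν i ^ 2 * π l ^ 2) *
              (ω x * (psi d p (a i ⬝ᵥ Q x *ᵥ b l) * psi d p (a i ⬝ᵥ Q x *ᵥ b l))) := by
            refine Finset.sum_congr rfl fun x _ => ?_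
            rw [Finset.mul_sum]
            refine Finset.sum_congr rfl fun l _ => ?_
            rw [Finset.mul_sum]
            refine Finset.sum_congr rfl fun i _ => ?_
            ring
        _ = ∑ l, ∑ i ∈ I, (ν i ^ 2 * π l ^ 2) *
              ∑ x, (ω x * (psi d p (a i ⬝ᵥ Q x *ᵥ b l) * psi d p (a i ⬝ᵥ Q x *ᵥ b l))) := by
            rw [Finset.sum_comm]
            refine Finset.sum_congr rfl fun l _ => ?_
            rw [Finset.sum_comm]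
            refine Finset.sum_congr rfl fun i _ => ?_
            rw [Finset.mul_sum]
        _ = ∑ l, π l ^ 2 * (1 / d * ∑ i ∈ I, ν i ^ 2 *
              (-c + ∑ r ∈ Finset.range (p + 1), k r)) := by
            refine Finset.sum_congr rfl fun l _ => ?_
            rw [Finset.mul_sum, Finset.mul_sum]
            refine Finset.sum_congr rfl fun i hi => ?_
            rw [hker (a i) (a i) (b l) (ha i hi) (ha i hi) (hb l), ha i hi]
            simp only [one_pow, mul_one]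
            ring
        _ = _ := by
            rw [← Finset.sum_mul, hπ, ← mul_assoc, mul_one_div_cancel hd'.ne', one_mul]
    rw [e1, Finset.mul_sum]
    refine Finset.sum_le_sum fun i _ => ?_
    have h1 : -c + ∑ r ∈ Finset.range (p + 1), k r ≤ 2 ^ p := by linarith
    nlinarith [mul_le_mul_of_nonneg_left h1 (sq_nonneg (ν i))]

end Pool.Agent.RU
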