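import Pool.Agent.Helper96.RU.P2

/-!
# Block RU-B5 (MP_a64d16_an): rows with a large budget are rare

`F x = ∑_l γ ν π_l bud (a · Q x b l) ≥ ∑_l γ ν π_l |phi|` (RU-P2a). Mean (RU-P2b):
`≤ γ ν (∑ π_l) 1.01/√(dp) ≤ γ ν √(w d) 1.01/√(dp) = 1.01 γ ν √(w/p) ≤ 1/2` (hypothesis `hm`).
Variance (RU-P2c): `γ^2 ν^2 ∑_{l,l'} π_l π_l' cov ≤ γ^2 ν^2 (1.6 2^p/d) ∑ π_l π_l' (b_l·b_l')^2` and
`π_l π_l' (b_l·b_l')^2 ≤ 3 (π_l π_l' b_l·b_l')^2` (`π_l^2 ≥ 1/3`), total `≤ 4.8 2^p γ^2 ν^2` by `hfr`.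
Chebyshev: the weight of `{x : F x > 1}` is at most `4 · 4.8 · 2^p γ^2 ν^2 ≤ 20 2^p γ^2 ν^2`.
Conclusion in the form: the expected number of bad rows.
-/

namespace Pool.Agent.RU

open Matrix Module

/-- Block RU-B5: the weight of the rotations for which the budget of a row is exceeded. -/
theorem bad_weight {w d N p : ℕ} (hp : Odd p) (hpd : 50 * p ≤ d) (hN : 2 * p + 2 ≤ N) {ι : Type}
    [Fintype ι] {ω : ι → ℝ} {Q : ι → Matrix (Fin d) (Fin d) ℝ} (h : IsRot d N ω Q)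
    {a : Fin d → ℝ} (ha : a ⬝ᵥ a = 1) (b : Fin w → Fin d → ℝ) (hb : ∀ l, b l ⬝ᵥ b l = 1)
    (π : Fin w → ℝ) (hπ0 : ∀ l, 0 ≤ π l) (hπ3 : ∀ l, 1 / 3 ≤ π l ^ 2) (hπ : ∑ l, π l ^ 2 = d)
    (hfr : ∑ l, ∑ l', (π l * π l' * (b l ⬝ᵥ b l')) ^ 2 = d) {γ ν : ℝ} (hγ : 0 ≤ γ) (hν : 0 ≤ ν)
    (hm : 1.01 ^ 2 * (γ * ν) ^ 2 * w ≤ 1 / 4 * p) :
    ∑ x ∈ Finset.univ.filter (fun x => 1 < ∑ l, |γ * (ν * π l * phi d p (a ⬝ᵥ Q x *ᵥ b l))|), ω x ≤
      20 * 2 ^ p * (γ * ν) ^ 2 := by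
  classical
  have hp1 : 1 ≤ p := hp.pos
  have hd : 0 < d := by omega
  have hdR : (0 : ℝ) < (d : ℝ) := by exact_mod_cast hd
  have hpR : (0 : ℝ) < (p : ℝ) := by exact_mod_cast (by omega : 0 < p)
  set c : Fin w → ℝ := fun l => γ * (ν * π l) with hc
  have hc0 : ∀ l, 0 ≤ c l := fun l => mul_nonneg hγ (mul_nonneg hν (hπ0 l))
  set v : Fin w → ι → ℝ := fun l x => bud d p (a ⬝ᵥ Q x *ᵥ b l) with hv
  set F : ι → ℝ := fun x => ∑ l, c l * v l x with hF
  set M : Fin w → ℝ := fun l => ∑ x, ω x * v l x with hM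
  set μ : ℝ := ∑ l, c l * M l with hμ
  have hFm : ∑ x, ω x * F x = μ := by
    rw [hμ, hF]
    simp only [hM, Finset.mul_sum]
    rw [Finset.sum_comm]
    refine Finset.sum_congr rfl fun l _ => Finset.sum_congr rfl fun x _ => ?_
    ring
  -- the mean
  have hμ2 : μ ≤ 1 / 2 := by
    have h1 : μ ≤ (γ * ν) * (∑ l, π l) * (1.01 / Real.sqrt (d * p)) := by
      rw [hμ, mul_assoc, Finset.sum_mul, Finset.mul_sum]
      refine Finset.sum_le_sum fun l _ => ?_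
      have h2 := bud_mean hp hpd hN h ha (hb l)
      calc c l * M l ≤ c l * (1.01 / Real.sqrt (d * p)) := mul_le_mul_of_nonneg_left h2 (hc0 l)
        _ = _ := by simp only [hc]; ring
    refine h1.trans ?_
    apply le_of_pow_le_pow_left₀ two_ne_zero (by norm_num)
    have hcs : (∑ l, π l) ^ 2 ≤ (w : ℝ) * d := by
      have h3 := sq_sum_le_card_mul_sum_sq (s := (Finset.univ : Finset (Fin w))) (f := π)
      rw [hπ, Finset.card_univ, Fintype.card_fin] at h3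
      exact h3
    have hsq : (Real.sqrt ((d : ℝ) * p)) ^ 2 = (d : ℝ) * p := Real.sq_sqrt (by positivity)
    rw [mul_pow, mul_pow, div_pow, hsq]
    calc (γ * ν) ^ 2 * (∑ l, π l) ^ 2 * (1.01 ^ 2 / ((d : ℝ) * p))
        ≤ (γ * ν) ^ 2 * ((w : ℝ) * d) * (1.01 ^ 2 / ((d : ℝ) * p)) := by gcongr
      _ = (1.01 ^ 2 * (γ * ν) ^ 2 * w) / p := by field_simp
      _ ≤ (1 / 4 * p) / p := by gcongr
      _ = (1 / 2) ^ 2 := by field_simp; norm_num
  -- the variance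
  have hvar : ∑ x, ω x * (F x - μ) ^ 2 ≤ 4.8 * 2 ^ p * (γ * ν) ^ 2 := by
    have e1 : ∑ x, ω x * (F x - μ) ^ 2 = ∑ x, ω x * (F x * F x) - μ * μ := by
      have : ∀ x, ω x * (F x - μ) ^ 2 = ω x * (F x * F x) - 2 * μ * (ω x * F x) + μ ^ 2 * ω x := by
        intro x; ring
      simp only [this]
      rw [Finset.sum_add_distrib, Finset.sum_sub_distrib, ← Finset.mul_sum, ← Finset.mul_sum, hFm,
        h.sum_one]
      ring
    have e2 : ∑ x, ω x * (F x * F x) = ∑ l, ∑ l', c l * c l' * (∑ x, ω x * (v l x * v l' x)) := by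
      have : ∀ x, ω x * (F x * F x) = ∑ l, ∑ l', c l * c l' * (ω x * (v l x * v l' x)) := by
        intro x
        simp only [hF]
        rw [Finset.sum_mul_sum, Finset.mul_sum]
        refine Finset.sum_congr rfl fun l _ => ?_
        rw [Finset.mul_sum]
        refine Finset.sum_congr rfl fun l' _ => ?_
        ring
      simp only [this]
      rw [Finset.sum_comm]
      refine Finset.sum_congr rfl fun l _ => ?_
      rw [Finset.sum_comm]
      refine Finset.sum_congr rfl fun l' _ => ?_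
      rw [Finset.mul_sum]
    have e3 : μ * μ = ∑ l, ∑ l', c l * c l' * (M l * M l') := by
      rw [hμ, Finset.sum_mul_sum]
      refine Finset.sum_congr rfl fun l _ => Finset.sum_congr rfl fun l' _ => ?_
      ring
    rw [e1, e2, e3, ← Finset.sum_sub_distrib]
    simp only [← Finset.sum_sub_distrib, ← mul_sub]
    have hterm : ∀ l l', c l * c l' * ((∑ x, ω x * (v l x * v l' x)) - M l * M l') ≤
        (γ * ν) ^ 2 * (4.8 * 2 ^ p / d) * (π l * π l' * (b l ⬝ᵥ b l')) ^ 2 := by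
      intro l l'
      have h4 := bud_cov hp hpd hN h ha (hb l) (hb l')
      have h5 : c l * c l' * ((∑ x, ω x * (v l x * v l' x)) - M l * M l') ≤
          c l * c l' * (1.6 * 2 ^ p / d * (b l ⬝ᵥ b l') ^ 2) :=
        mul_le_mul_of_nonneg_left h4 (mul_nonneg (hc0 l) (hc0 l'))
      refine h5.trans ?_
      have h6 : 1 / 3 ≤ π l * π l' := by
        have h7 : (1 / 3) ^ 2 ≤ (π l * π l') ^ 2 := by
          rw [mul_pow]
          nlinarith [hπ3 l, hπ3 l']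
        exact le_of_pow_le_pow_left₀ two_ne_zero (mul_nonneg (hπ0 l) (hπ0 l')) h7
      have h8 : π l * π l' ≤ 3 * (π l * π l') ^ 2 := by nlinarith
      have e4 : c l * c l' = (γ * ν) ^ 2 * (π l * π l') := by simp only [hc]; ring
      rw [e4]
      calc (γ * ν) ^ 2 * (π l * π l') * (1.6 * 2 ^ p / d * (b l ⬝ᵥ b l') ^ 2)
          ≤ (γ * ν) ^ 2 * (3 * (π l * π l') ^ 2) * (1.6 * 2 ^ p / d * (b l ⬝ᵥ b l') ^ 2) := by
            gcongr
        _ = _ := by ring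
    refine (Finset.sum_le_sum fun l _ => Finset.sum_le_sum fun l' _ => hterm l l').trans ?_
    simp only [← Finset.mul_sum]
    rw [hfr]
    apply le_of_eq
    field_simp
  -- Chebyshev
  have hsub : Finset.univ.filter (fun x => 1 < ∑ l, |γ * (ν * π l * phi d p (a ⬝ᵥ Q x *ᵥ b l))|) ⊆
      Finset.univ.filter (fun x => 1 < F x) := by
    intro x hx
    rw [Finset.mem_filter] at hx ⊢
    refine ⟨hx.1, lt_of_lt_of_le hx.2 ?_⟩
    simp only [hF]
    refine Finset.sum_le_sum fun l _ => ?_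
    have h9 := abs_phi_le hd hp (a ⬝ᵥ Q x *ᵥ b l)
    have e5 : γ * (ν * π l * phi d p (a ⬝ᵥ Q x *ᵥ b l)) = c l * phi d p (a ⬝ᵥ Q x *ᵥ b l) := by
      simp only [hc]; ring
    rw [e5, abs_mul, abs_of_nonneg (hc0 l)]
    exact mul_le_mul_of_nonneg_left h9 (hc0 l)
  calc ∑ x ∈ Finset.univ.filter (fun x => 1 < ∑ l, |γ * (ν * π l * phi d p (a ⬝ᵥ Q x *ᵥ b l))|), ω x
      ≤ ∑ x ∈ Finset.univ.filter (fun x => 1 < F x), ω x :=
        Finset.sum_le_sum_of_subset_of_nonneg hsub fun x _ _ => h.nonneg x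
    _ ≤ ∑ x ∈ Finset.univ.filter (fun x => 1 < F x), 4 * (ω x * (F x - μ) ^ 2) := by
        refine Finset.sum_le_sum fun x hx => ?_
        have h10 := (Finset.mem_filter.mp hx).2
        have h11 : 1 / 4 ≤ (F x - μ) ^ 2 := by nlinarith
        have h12 := h.nonneg x
        nlinarith
    _ ≤ ∑ x, 4 * (ω x * (F x - μ) ^ 2) :=
        Finset.sum_le_sum_of_subset_of_nonneg (Finset.filter_subset _ _) fun x _ _ => by
          have := h.nonneg x
          positivity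
    _ = 4 * ∑ x, ω x * (F x - μ) ^ 2 := by rw [← Finset.mul_sum]
    _ ≤ 4 * (4.8 * 2 ^ p * (γ * ν) ^ 2) := by gcongr
    _ ≤ 20 * 2 ^ p * (γ * ν) ^ 2 := by
        have : 0 ≤ 2 ^ p * (γ * ν) ^ 2 := by positivity
        nlinarith

end Pool.Agent.RU
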