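import Pool.Agent.Helper96.RU.Defs

/-!
# Blocks RU-B7, B8 (MP_a64d16_an): exceptional output spaces

B7: spectral decomposition of `N Nᵀ` (orthonormal eigenvectors `v_j`, eigenvalues `λ_j ≥ 0`,
`∑ λ_j = ∑ N_ij^2`); `U` = projection on the span of the `v_j` with `λ_j > h^2`, so
`trace U h^2 ≤ ∑ λ_j`; for `y`: `|(1-U) N y|^2`: with `u = (1-U) N y`, `|u|^2 = ⟨u, N y⟩ =
⟨Nᵀ u, y⟩ ≤ |Nᵀ u| |y|`, `|Nᵀ u|^2 = ⟨u, N Nᵀ u⟩ ≤ h^2 |u|^2`.
B8a: projection on the sum of the ranges (Submodule sup; orthogonal projection as a matrix in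
coordinates, `trace = finrank`, `finrank (A ⊔ B) ≤ finrank A + finrank B`).
B8b: projection on the span of the columns of `T` with index in `S`.
B8c: traces and ranks: the range of `U` has dimension `trace U` (used for the submodule `L`).
-/

namespace Pool.Agent.RU

open Matrix Module

/-! ### Projections on the span of orthonormal vectors -/

/-- Projection on the span of orthonormal vectors. -/
noncomputable def projB7 {w : ℕ} {ι : Type} [Fintype ι] (v : ι → Fin w → ℝ) :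
    Matrix (Fin w) (Fin w) ℝ := ∑ j, vecMulVec (v j) (v j)

theorem projB7_mulVec {w : ℕ} {ι : Type} [Fintype ι] (v : ι → Fin w → ℝ) (y : Fin w → ℝ) :
    projB7 v *ᵥ y = ∑ j, (v j ⬝ᵥ y) • v j := by
  unfold projB7
  rw [Matrix.sum_mulVec]
  refine Finset.sum_congr rfl fun j _ => ?_
  rw [Matrix.vecMulVec_mulVec]
  ext i
  simp [mul_comm]

theorem projB7_isProj {w : ℕ} {ι : Type} [Fintype ι] [DecidableEq ι] {v : ι → Fin w → ℝ}
    (hv : ∀ j k, v j ⬝ᵥ v k = if j = k then 1 else 0) : IsProj (projB7 v) := by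
  constructor
  · unfold projB7
    rw [Matrix.transpose_sum]
    refine Finset.sum_congr rfl fun j _ => ?_
    ext a b
    simp [vecMulVec_apply, mul_comm]
  · ext a b
    have h : ∀ y : Fin w → ℝ, projB7 v *ᵥ (projB7 v *ᵥ y) = projB7 v *ᵥ y := by
      intro y
      rw [projB7_mulVec v y, projB7_mulVec]
      refine Finset.sum_congr rfl fun j _ => ?_
      congr 1
      rw [dotProduct_sum]
      simp only [dotProduct_smul, hv, smul_eq_mul, mul_ite, mul_one, mul_zero,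
        Finset.sum_ite_eq, Finset.mem_univ, if_true]
    have h2 := congrFun (h (Pi.single b 1)) a
    rw [Matrix.mulVec_mulVec, Matrix.mulVec_single_one, Matrix.mulVec_single_one] at h2
    exact h2

theorem projB7_trace {w : ℕ} {ι : Type} [Fintype ι] [DecidableEq ι] {v : ι → Fin w → ℝ}
    (hv : ∀ j k, v j ⬝ᵥ v k = if j = k then 1 else 0) :
    (projB7 v).trace = Fintype.card ι := by
  unfold projB7
  rw [Matrix.trace_sum]
  simp only [Matrix.trace_vecMulVec, hv, if_true, Finset.sum_const, Finset.card_univ, nsmul_eq_mul,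
    mul_one]

theorem inner_toLpB7 {w : ℕ} (x y : EuclideanSpace ℝ (Fin w)) :
    inner ℝ x y = x.ofLp ⬝ᵥ y.ofLp := by
  rw [PiLp.inner_apply]
  refine Finset.sum_congr rfl fun i _ => ?_
  simp [mul_comm]

/-- Projection on a submodule. -/
theorem exists_projB7 {w : ℕ} (K : Submodule ℝ (Fin w → ℝ)) :
    ∃ U : Matrix (Fin w) (Fin w) ℝ, IsProj U ∧ (∀ x ∈ K, U *ᵥ x = x) ∧ (∀ x, U *ᵥ x ∈ K) ∧
      U.trace = finrank ℝ K := by
  classical
  set e := (WithLp.linearEquiv 2 ℝ (Fin w → ℝ)) with he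
  set K' : Submodule ℝ (EuclideanSpace ℝ (Fin w)) := K.comap e.toLinearMap with hK'
  set b := stdOrthonormalBasis ℝ K' with hb
  set v : Fin (finrank ℝ K') → Fin w → ℝ := fun j => ((b j : EuclideanSpace ℝ (Fin w))).ofLp
    with hvdef
  have hv : ∀ j k, v j ⬝ᵥ v k = if j = k then 1 else 0 := by
    intro j k
    have h := orthonormal_iff_ite.mp b.orthonormal j k
    rw [← h]
    exact (inner_toLpB7 _ _).symm
  have hfin : finrank ℝ K' = finrank ℝ K := by
    have h1 : K'.map e.toLinearMap = K := by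
      rw [hK']
      exact Submodule.map_comap_eq_of_surjective e.surjective K
    have h2 := LinearEquiv.finrank_map_eq e K'
    rw [← h2, h1]
  refine ⟨projB7 v, projB7_isProj hv, ?_, ?_, ?_⟩
  · intro x hx
    rw [projB7_mulVec]
    have hx' : (WithLp.toLp 2 x : EuclideanSpace ℝ (Fin w)) ∈ K' := by
      rw [hK', Submodule.mem_comap]
      exact hx
    have h1 := b.sum_repr' ⟨_, hx'⟩
    have h2 := congrArg (fun z : K' => ((z : EuclideanSpace ℝ (Fin w))).ofLp) h1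
    simp only at h2
    rw [AddSubmonoidClass.coe_finsetSum, WithLp.ofLp_sum] at h2
    refine Eq.trans ?_ h2
    refine Finset.sum_congr rfl fun j _ => ?_
    have h3 : (inner ℝ (b j) (⟨_, hx'⟩ : K') : ℝ) = v j ⬝ᵥ x := inner_toLpB7 _ _
    rw [h3]
    rfl
  · intro x
    rw [projB7_mulVec]
    refine Submodule.sum_mem _ fun j _ => Submodule.smul_mem _ _ ?_
    exact (b j).2
  · rw [projB7_trace hv, Fintype.card_fin, hfin]

theorem ext_mulVecB7 {w m : ℕ} {A B : Matrix (Fin w) (Fin m) ℝ}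
    (h : ∀ x : Fin m → ℝ, A *ᵥ x = B *ᵥ x) : A = B := by
  ext a b
  have h2 := congrFun (h (Pi.single b 1)) a
  rw [Matrix.mulVec_single_one, Matrix.mulVec_single_one] at h2
  exact h2

theorem eq_projB7 {w : ℕ} {U W : Matrix (Fin w) (Fin w) ℝ} (hU : IsProj U) (hW : IsProj W)
    (h1 : W * U = U) (h2 : U * W = W) : W = U := by
  have h3 : (W * U)ᵀ = Uᵀ := by rw [h1]
  rw [transpose_mul, hU.symm, hW.symm] at h3
  rw [← h2, h3]

/-- Block RU-B8c. -/
theorem finrank_range_eq {w : ℕ} {U : Matrix (Fin w) (Fin w) ℝ} (hU : IsProj U) :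
    (finrank ℝ (LinearMap.range U.mulVecLin) : ℝ) = U.trace := by
  obtain ⟨W, hW, h1, h2, h3⟩ := exists_projB7 (LinearMap.range U.mulVecLin)
  have hWU : W * U = U := by
    refine ext_mulVecB7 fun x => ?_
    rw [← Matrix.mulVec_mulVec]
    exact h1 _ ⟨x, rfl⟩
  have hUW : U * W = W := by
    refine ext_mulVecB7 fun x => ?_
    rw [← Matrix.mulVec_mulVec]
    obtain ⟨y, hy⟩ := h2 x
    rw [← hy, Matrix.mulVecLin_apply, Matrix.mulVec_mulVec, hU.idem]
  have h4 := eq_projB7 hU hW hWU hUW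
  rw [← h3, h4]

/-- Block RU-B7. -/
theorem exists_exceptional {w m : ℕ} (N : Matrix (Fin w) (Fin m) ℝ) {h : ℝ} (hh : 0 < h) :
    ∃ U : Matrix (Fin w) (Fin w) ℝ, IsProj U ∧ U.trace * h ^ 2 ≤ ∑ i, ∑ j, N i j ^ 2 ∧
      ∀ y : Fin m → ℝ, ((1 - U) *ᵥ N *ᵥ y) ⬝ᵥ ((1 - U) *ᵥ N *ᵥ y) ≤ h ^ 2 * (y ⬝ᵥ y) := by
  classical
  have hM : (N * Nᵀ).IsHermitian := by
    unfold Matrix.IsHermitian
    ext i j
    simp [Matrix.mul_apply, mul_comm]
  set e := hM.eigenvectorBasis with he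
  set μ := hM.eigenvalues with hμ
  set v : Fin w → Fin w → ℝ := fun j => (e j).ofLp with hvdef
  have hv : ∀ j k, v j ⬝ᵥ v k = if j = k then 1 else 0 := by
    intro j k
    have h := orthonormal_iff_ite.mp e.orthonormal j k
    rw [← h]
    exact (inner_toLpB7 _ _).symm
  have hev : ∀ j, (N * Nᵀ) *ᵥ v j = μ j • v j := fun j => hM.mulVec_eigenvectorBasis j
  have hrep : ∀ x : Fin w → ℝ, x = ∑ j, (v j ⬝ᵥ x) • v j := by
    intro x
    have h1 := e.sum_repr' (WithLp.toLp 2 x : EuclideanSpace ℝ (Fin w))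
    have h2 := congrArg (fun z : EuclideanSpace ℝ (Fin w) => z.ofLp) h1
    simp only at h2
    rw [WithLp.ofLp_sum] at h2
    refine Eq.trans h2.symm ?_
    refine Finset.sum_congr rfl fun j _ => ?_
    have h3 : (inner ℝ (e j) (WithLp.toLp 2 x : EuclideanSpace ℝ (Fin w)) : ℝ) = v j ⬝ᵥ x :=
      inner_toLpB7 _ _
    rw [h3]
    rfl
  have hμ0 : ∀ j, 0 ≤ μ j := by
    intro j
    have h1 : v j ⬝ᵥ ((N * Nᵀ) *ᵥ v j) = μ j := by
      rw [hev, dotProduct_smul, hv, if_pos rfl, smul_eq_mul, mul_one]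
    have h2 : v j ⬝ᵥ ((N * Nᵀ) *ᵥ v j) = (Nᵀ *ᵥ v j) ⬝ᵥ (Nᵀ *ᵥ v j) := by
      rw [← Matrix.mulVec_mulVec, Matrix.dotProduct_mulVec, ← Matrix.mulVec_transpose]
    rw [← h1, h2]
    exact Finset.sum_nonneg fun i _ => mul_self_nonneg _
  have htr : ∑ j, μ j = ∑ i, ∑ j, N i j ^ 2 := by
    have h1 := hM.trace_eq_sum_eigenvalues
    have h2 : (N * Nᵀ).trace = ∑ i, ∑ j, N i j ^ 2 := by
      simp only [Matrix.trace, Matrix.diag_apply, Matrix.mul_apply, Matrix.transpose_apply]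
      exact Finset.sum_congr rfl fun i _ => Finset.sum_congr rfl fun j _ => by ring
    rw [← h2, h1]
    rfl
  set J := {j : Fin w // h ^ 2 < μ j} with hJ
  set vJ : J → Fin w → ℝ := fun j => v j.1 with hvJ
  have hvv : ∀ j k : J, vJ j ⬝ᵥ vJ k = if j = k then 1 else 0 := by
    intro j k
    rw [hvJ]
    simp only [hv]
    by_cases hjk : j = k
    · simp [hjk]
    · have : j.1 ≠ k.1 := fun hc => hjk (Subtype.ext hc)
      rw [if_neg this, if_neg hjk]
  have hP := projB7_isProj hvv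
  refine ⟨projB7 vJ, hP, ?_, ?_⟩
  · rw [projB7_trace hvv, ← htr]
    have h1 : (Fintype.card J : ℝ) * h ^ 2 = ∑ _j : J, h ^ 2 := by simp
    have h2 : ∑ j : J, μ j.1 = ∑ j ∈ Finset.univ.filter (fun j => h ^ 2 < μ j), μ j := by
      rw [Finset.sum_subtype (Finset.univ.filter (fun j => h ^ 2 < μ j))
        (p := fun j => h ^ 2 < μ j) (by simp) μ]
    calc (Fintype.card J : ℝ) * h ^ 2 = ∑ _j : J, h ^ 2 := h1
      _ ≤ ∑ j : J, μ j.1 := Finset.sum_le_sum fun j _ => j.2.le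
      _ = _ := h2
      _ ≤ ∑ j, μ j := Finset.sum_le_sum_of_subset_of_nonneg (Finset.filter_subset _ _)
        fun j _ _ => hμ0 j
  · intro y
    set U := projB7 vJ with hU
    set u := (1 - U) *ᵥ N *ᵥ y with hu
    have hUu : U *ᵥ u = 0 := by
      rw [hu, Matrix.mulVec_mulVec, Matrix.mul_sub, Matrix.mul_one, hP.idem, sub_self,
        Matrix.zero_mulVec]
    have hzero : ∀ j, h ^ 2 < μ j → v j ⬝ᵥ u = 0 := by
      intro j hj
      have h1 : vJ ⟨j, hj⟩ ⬝ᵥ (U *ᵥ u) = vJ ⟨j, hj⟩ ⬝ᵥ u := by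
        rw [hU, projB7_mulVec, dotProduct_sum]
        rw [Finset.sum_eq_single (⟨j, hj⟩ : J)]
        · rw [dotProduct_smul, hvv, if_pos rfl, smul_eq_mul, mul_one]
        · intro k _ hk
          rw [dotProduct_smul, hvv, if_neg hk.symm, smul_eq_mul, mul_zero]
        · intro h0
          exact absurd (Finset.mem_univ _) h0
      rw [hUu, dotProduct_zero] at h1
      exact h1.symm
    have huu : u ⬝ᵥ u = ∑ j, (v j ⬝ᵥ u) ^ 2 := by
      conv_lhs => rw [hrep u]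
      rw [sum_dotProduct]
      refine Finset.sum_congr rfl fun j _ => ?_
      rw [smul_dotProduct, smul_eq_mul]
      conv_lhs => rw [← hrep u]
      ring
    have hMu : (N * Nᵀ) *ᵥ u = ∑ j, ((v j ⬝ᵥ u) * μ j) • v j := by
      conv_lhs => rw [hrep u]
      rw [Matrix.mulVec_sum]
      refine Finset.sum_congr rfl fun j _ => ?_
      rw [Matrix.mulVec_smul, hev, smul_smul]
    have huM : u ⬝ᵥ ((N * Nᵀ) *ᵥ u) = ∑ j, μ j * (v j ⬝ᵥ u) ^ 2 := by
      rw [hMu, dotProduct_sum]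
      refine Finset.sum_congr rfl fun j _ => ?_
      rw [dotProduct_smul, smul_eq_mul, dotProduct_comm u (v j)]
      ring
    have hle : u ⬝ᵥ ((N * Nᵀ) *ᵥ u) ≤ h ^ 2 * (u ⬝ᵥ u) := by
      rw [huM, huu, Finset.mul_sum]
      refine Finset.sum_le_sum fun j _ => ?_
      by_cases hj : h ^ 2 < μ j
      · rw [hzero j hj]
        simp
      · exact mul_le_mul_of_nonneg_right (not_lt.mp hj) (sq_nonneg _)
    have hNu : (Nᵀ *ᵥ u) ⬝ᵥ (Nᵀ *ᵥ u) = u ⬝ᵥ ((N * Nᵀ) *ᵥ u) := by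
      rw [← Matrix.mulVec_mulVec, Matrix.dotProduct_mulVec u, ← Matrix.mulVec_transpose]
    have hP1 : (1 - U)ᵀ = 1 - U := by
      rw [Matrix.transpose_sub, Matrix.transpose_one, hP.symm]
    have hPu : (1 - U) *ᵥ u = u := by
      rw [Matrix.sub_mulVec, Matrix.one_mulVec, hUu, sub_zero]
    have huy : u ⬝ᵥ u = (Nᵀ *ᵥ u) ⬝ᵥ y := by
      have h1 : u ⬝ᵥ u = u ⬝ᵥ ((1 - U) *ᵥ N *ᵥ y) := by rw [← hu]
      rw [h1, Matrix.dotProduct_mulVec u, ← Matrix.mulVec_transpose, hP1, hPu,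
        Matrix.dotProduct_mulVec u, ← Matrix.mulVec_transpose]
    have hcs : ((Nᵀ *ᵥ u) ⬝ᵥ y) ^ 2 ≤ ((Nᵀ *ᵥ u) ⬝ᵥ (Nᵀ *ᵥ u)) * (y ⬝ᵥ y) := by
      have h1 := Finset.sum_mul_sq_le_sq_mul_sq Finset.univ (Nᵀ *ᵥ u) y
      simp only [dotProduct]
      simpa only [sq] using h1
    have huu0 : 0 ≤ u ⬝ᵥ u := Finset.sum_nonneg fun i _ => mul_self_nonneg _
    have hyy0 : 0 ≤ y ⬝ᵥ y := Finset.sum_nonneg fun i _ => mul_self_nonneg _
    rw [← huy, hNu] at hcs
    have h5 : (u ⬝ᵥ u) ^ 2 ≤ (h ^ 2 * (u ⬝ᵥ u)) * (y ⬝ᵥ y) :=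
      hcs.trans (mul_le_mul_of_nonneg_right hle hyy0)
    rcases huu0.eq_or_lt with h6 | h6
    · rw [← h6]
      positivity
    · nlinarith [h5, h6]

/-- Block RU-B8a. -/
theorem exists_join {w : ℕ} {U V : Matrix (Fin w) (Fin w) ℝ} (hU : IsProj U) (hV : IsProj V) :
    ∃ W : Matrix (Fin w) (Fin w) ℝ, IsProj W ∧ W * U = U ∧ W * V = V ∧
      W.trace ≤ U.trace + V.trace := by
  obtain ⟨W, hW, h1, h2, h3⟩ := exists_projB7
    (LinearMap.range U.mulVecLin ⊔ LinearMap.range V.mulVecLin)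
  refine ⟨W, hW, ?_, ?_, ?_⟩
  · refine ext_mulVecB7 fun x => ?_
    rw [← Matrix.mulVec_mulVec]
    exact h1 _ (Submodule.mem_sup_left ⟨x, rfl⟩)
  · refine ext_mulVecB7 fun x => ?_
    rw [← Matrix.mulVec_mulVec]
    exact h1 _ (Submodule.mem_sup_right ⟨x, rfl⟩)
  · rw [h3, ← finrank_range_eq hU, ← finrank_range_eq hV]
    exact_mod_cast Submodule.finrank_add_le_finrank_add_finrank _ _

/-- Block RU-B8b. -/
theorem exists_range {w m : ℕ} (T : Matrix (Fin w) (Fin m) ℝ) (S : Finset (Fin m)) :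
    ∃ U : Matrix (Fin w) (Fin w) ℝ, IsProj U ∧ U.trace ≤ S.card ∧
      ∀ y : Fin m → ℝ, (∀ i, i ∉ S → y i = 0) → U *ᵥ T *ᵥ y = T *ᵥ y := by
  classical
  set F : Finset (Fin w → ℝ) := S.image fun i => T *ᵥ Pi.single i 1 with hF
  obtain ⟨U, hU, h1, h2, h3⟩ := exists_projB7 (Submodule.span ℝ (F : Set (Fin w → ℝ)))
  refine ⟨U, hU, ?_, ?_⟩
  · rw [h3]
    have h4 : finrank ℝ (Submodule.span ℝ (F : Set (Fin w → ℝ))) ≤ F.card :=
      finrank_span_finset_le_card F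
    exact_mod_cast h4.trans Finset.card_image_le
  · intro y hy
    apply h1
    have h4 : T *ᵥ y = ∑ i ∈ S, y i • (T *ᵥ Pi.single i 1) := by
      have h5 : y = ∑ i ∈ S, y i • (Pi.single i 1 : Fin m → ℝ) := by
        ext k
        rw [Finset.sum_apply]
        simp only [Pi.smul_apply, smul_eq_mul, Pi.single_apply, mul_ite, mul_one, mul_zero]
        rw [Finset.sum_ite_eq]
        by_cases hk : k ∈ S
        · rw [if_pos hk]
        · rw [if_neg hk, hy k hk]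
      conv_lhs => rw [h5]
      rw [Matrix.mulVec_sum]
      exact Finset.sum_congr rfl fun i _ => Matrix.mulVec_smul _ _ _
    rw [h4]
    refine Submodule.sum_mem _ fun i hi => Submodule.smul_mem _ _ ?_
    exact Submodule.subset_span (Finset.mem_coe.mpr (Finset.mem_image_of_mem _ hi))

end Pool.Agent.RU
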