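import Pool.Agent.Helper96.RU.B1

/-!
# Block RU-B9 (MP_a64d16_an): the final linear equation of Part B

Notation `|u|^2 = u ⬝ᵥ u`. `M_full = 8 J Qᵀ Jᵀ (1 - D D) - D`, `|M_full v|^2 ≥ (3/4)|v|^2` (RU-B2).
Put `Err = (1-U) (-8 X C + Ξ C)` (`X` = the dropped part). `PF C = C`, so
`Ξ C v = Ξ PF (C v)`, and `|C v| ≤ |v|` (`Cᵀ C = 1 - D D ≤ 1`): `|Err v| ≤ (8/36 + 1/36)|v| = |v|/4`
(`(1-U)` of both parts is bounded by `hX`, `hΞF`; triangle inequality, e.g. in EuclideanSpace or by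
`√`). So `N := M_full + Err` has `|N v| ≥ (√3/2 - 1/4)|v| ≥ (3/5)|v|`, it is invertible (square).
`r = β - T' α`, `r0 = (1-U) r`. `T' α = 8 J Qᵀ Jᵀ Cᵀ α - 8 X α + Ξ PF α + Ξ (1-PF) α - TB α`,
`Cᵀ α = - D β`, `|D β| ≤ |β|`. `|r0| ≤ √E + 8 √E + (8/36) √E + (1/36) √E + h √gf ≤ 10.25 √E`
(`h^2 gf ≤ E`, `(1-U) TB = 0`). `v = N⁻¹ r0`, `|v| ≤ (5/3) 10.25 √E`, hmm: use the sharper
`√3/2 - 1/4 ≥ 0.61`: `|v| ≤ 10.25/0.61 √E ≤ 16.9 √E`, so `|v|^2 ≤ 289 E`.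
`(1-U)(T'(α + C v) - β - D v) = (1-U)(M v - r)`, `M = T' C - D`, and
`(1-U) M = (1-U)(M_full + Err)` because `Cᵀ C = 1 - D D` and `(1-U) TB = 0`; `(1-U) N v = (1-U) r0`.
-/

namespace Pool.Agent.RU

open Matrix Module

/-- the euclidean norm of a vector -/
noncomputable def nrB {m : ℕ} (v : Fin m → ℝ) : ℝ := ‖(WithLp.toLp 2 v : EuclideanSpace ℝ (Fin m))‖

lemma nrB_nonneg {m : ℕ} (v : Fin m → ℝ) : 0 ≤ nrB v := norm_nonneg _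

lemma nrB_sq {m : ℕ} (v : Fin m → ℝ) : nrB v ^ 2 = v ⬝ᵥ v := by
  unfold nrB
  rw [EuclideanSpace.norm_sq_eq]
  simp only [Real.norm_eq_abs, sq_abs, dotProduct]
  exact Finset.sum_congr rfl fun i _ => by ring

lemma nrB_add {m : ℕ} (v w : Fin m → ℝ) : nrB (v + w) ≤ nrB v + nrB w := by
  unfold nrB
  rw [WithLp.toLp_add]
  exact norm_add_le _ _

lemma nrB_sub {m : ℕ} (v w : Fin m → ℝ) : nrB (v - w) ≤ nrB v + nrB w := by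
  unfold nrB
  rw [WithLp.toLp_sub]
  exact norm_sub_le _ _

lemma nrB_smul {m : ℕ} (c : ℝ) (v : Fin m → ℝ) : nrB (c • v) = |c| * nrB v := by
  unfold nrB
  rw [WithLp.toLp_smul, norm_smul, Real.norm_eq_abs]

lemma nrB_le_of_sq {m k : ℕ} {v : Fin m → ℝ} {w : Fin k → ℝ} {c : ℝ} (hc : 0 ≤ c)
    (h : v ⬝ᵥ v ≤ c ^ 2 * (w ⬝ᵥ w)) : nrB v ≤ c * nrB w := by
  rw [← nrB_sq, ← nrB_sq, ← mul_pow] at h
  exact le_of_sq_le_sq h (mul_nonneg hc (nrB_nonneg w))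

lemma nrB_le_sqrt {m : ℕ} {v : Fin m → ℝ} {E : ℝ} (h : v ⬝ᵥ v ≤ E) : nrB v ≤ Real.sqrt E := by
  apply Real.le_sqrt_of_sq_le
  rw [nrB_sq]
  exact h

lemma dotB {m k : ℕ} (A : Matrix (Fin k) (Fin m) ℝ) (v : Fin m → ℝ) :
    (A *ᵥ v) ⬝ᵥ (A *ᵥ v) = v ⬝ᵥ ((Aᵀ * A) *ᵥ v) := by
  rw [← mulVec_mulVec, dotProduct_mulVec v Aᵀ, vecMul_transpose]

lemma nrB_split {m a b : ℕ} {A : Matrix (Fin a) (Fin m) ℝ} {B : Matrix (Fin b) (Fin m) ℝ}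
    (h : Aᵀ * A + Bᵀ * B = 1) (v : Fin m → ℝ) : nrB (A *ᵥ v) ^ 2 + nrB (B *ᵥ v) ^ 2 = nrB v ^ 2 := by
  rw [nrB_sq, nrB_sq, nrB_sq, dotB, dotB, ← dotProduct_add, ← add_mulVec, h, one_mulVec]

lemma nrB_le_of_split {m a b : ℕ} {A : Matrix (Fin a) (Fin m) ℝ} {B : Matrix (Fin b) (Fin m) ℝ}
    (h : Aᵀ * A + Bᵀ * B = 1) (v : Fin m → ℝ) : nrB (A *ᵥ v) ≤ nrB v := by
  apply le_of_sq_le_sq _ (nrB_nonneg v)
  have := nrB_split h v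
  have h2 := sq_nonneg (nrB (B *ᵥ v))
  linarith

lemma nrB_le_of_split' {m a b : ℕ} {A : Matrix (Fin a) (Fin m) ℝ} {B : Matrix (Fin b) (Fin m) ℝ}
    (h : Aᵀ * A + Bᵀ * B = 1) (v : Fin m → ℝ) : nrB (B *ᵥ v) ≤ nrB v :=
  nrB_le_of_split (by rw [add_comm]; exact h) v

/-- Block RU-B9. -/
theorem solve_final {n w d : ℕ} {C : Matrix (Fin n) (Fin w) ℝ} {D : Matrix (Fin w) (Fin w) ℝ}
    (hD : D.PosSemidef) (hCD : Cᵀ * C + D * D = 1) {J : Matrix (Fin w) (Fin d) ℝ}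
    (hJ : IsSplit D J) {Q : Matrix (Fin d) (Fin d) ℝ} (hQ : Qᵀ * Q = 1)
    {T X Ξ TB : Matrix (Fin w) (Fin n) ℝ} {U : Matrix (Fin w) (Fin w) ℝ} (hU : IsProj U)
    {PF : Matrix (Fin n) (Fin n) ℝ} (hPFC : PF * C = C) {E h gf : ℝ} (hE : 0 < E) (hh : 0 < h)
    (hT : T = (8 : ℝ) • (J * Qᵀ * Jᵀ * Cᵀ) - (8 : ℝ) • X + Ξ - TB)
    (hTB : (1 - U) * TB = 0)
    (hX : ∀ y, ((1 - U) *ᵥ X *ᵥ y) ⬝ᵥ ((1 - U) *ᵥ X *ᵥ y) ≤ (1 / 36) ^ 2 * (y ⬝ᵥ y))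
    (hΞF : ∀ y, ((1 - U) *ᵥ Ξ *ᵥ PF *ᵥ y) ⬝ᵥ ((1 - U) *ᵥ Ξ *ᵥ PF *ᵥ y) ≤
      (1 / 36) ^ 2 * (y ⬝ᵥ y))
    (hΞ : ∀ y, ((1 - U) *ᵥ Ξ *ᵥ y) ⬝ᵥ ((1 - U) *ᵥ Ξ *ᵥ y) ≤ h ^ 2 * (y ⬝ᵥ y))
    (hgf : h ^ 2 * gf ≤ E) {α : Fin n → ℝ} {β : Fin w → ℝ} (h1 : Cᵀ *ᵥ α + D *ᵥ β = 0)
    (h2 : α ⬝ᵥ α + β ⬝ᵥ β ≤ E) (h3 : ((1 - PF) *ᵥ α) ⬝ᵥ ((1 - PF) *ᵥ α) ≤ gf) :
    ∃ v : Fin w → ℝ, v ⬝ᵥ v ≤ 289 * E ∧ (1 - U) *ᵥ (T *ᵥ (α + C *ᵥ v) - β - D *ᵥ v) = 0 := by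
  set P : Matrix (Fin w) (Fin w) ℝ := 1 - U with hP
  have hDt : Dᵀ = D := by
    have := hD.1
    rwa [IsHermitian, conjTranspose_eq_transpose_of_trivial] at this
  have hPt : Pᵀ = P := by rw [hP, transpose_sub, transpose_one, hU.symm]
  have hPP : P * P = P := by
    rw [hP, sub_mul, mul_sub, mul_sub, one_mul, mul_one, one_mul, hU.idem]
    abel
  have sP : Pᵀ * P + Uᵀ * U = 1 := by
    rw [hPt, hPP, hU.symm, hU.idem, hP]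
    abel
  clear_value P
  have sCD : Cᵀ * C + Dᵀ * D = 1 := by rw [hDt]; exact hCD
  have sJt : (Jᵀ)ᵀ * Jᵀ + (1 - J * Jᵀ)ᵀ * (1 - J * Jᵀ) = 1 := by
    have e1 : (J * Jᵀ) * (J * Jᵀ) = J * Jᵀ := by
      calc (J * Jᵀ) * (J * Jᵀ) = J * (Jᵀ * J) * Jᵀ := by simp only [Matrix.mul_assoc]
        _ = J * Jᵀ := by rw [hJ.orth, Matrix.mul_one]
    rw [transpose_sub, transpose_one, transpose_mul, transpose_transpose, sub_mul, mul_sub, mul_sub,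
      one_mul, mul_one, one_mul, e1]
    abel
  have sJ : Jᵀ * J + (0 : Matrix (Fin 1) (Fin d) ℝ)ᵀ * (0 : Matrix (Fin 1) (Fin d) ℝ) = 1 := by
    rw [hJ.orth]
    simp
  have sQ : (Qᵀ)ᵀ * Qᵀ + (0 : Matrix (Fin 1) (Fin d) ℝ)ᵀ * (0 : Matrix (Fin 1) (Fin d) ℝ) = 1 := by
    rw [transpose_transpose, mul_eq_one_comm.mp hQ]
    simp
  have bP : ∀ v, nrB (P *ᵥ v) ≤ nrB v := nrB_le_of_split sP
  have bC : ∀ v, nrB (C *ᵥ v) ≤ nrB v := nrB_le_of_split sCD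
  have bD : ∀ v, nrB (D *ᵥ v) ≤ nrB v := nrB_le_of_split' sCD
  have bJQJ : ∀ v, nrB ((J * Qᵀ * Jᵀ) *ᵥ v) ≤ nrB v := by
    intro v
    rw [← mulVec_mulVec, ← mulVec_mulVec]
    exact (nrB_le_of_split sJ _).trans ((nrB_le_of_split sQ _).trans (nrB_le_of_split sJt _))
  have bX : ∀ y, nrB (P *ᵥ X *ᵥ y) ≤ 1 / 36 * nrB y := fun y => nrB_le_of_sq (by norm_num) (hX y)
  have bΞF : ∀ y, nrB (P *ᵥ Ξ *ᵥ PF *ᵥ y) ≤ 1 / 36 * nrB y := fun y => nrB_le_of_sq (by norm_num) (hΞF y)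
  have bΞ : ∀ y, nrB (P *ᵥ Ξ *ᵥ y) ≤ h * nrB y := fun y => nrB_le_of_sq hh.le (hΞ y)
  -- the linear map
  set M : Matrix (Fin w) (Fin w) ℝ := (8 : ℝ) • (J * Qᵀ * Jᵀ * (1 - D * D)) - D with hM
  set N : Matrix (Fin w) (Fin w) ℝ := M + P * (Ξ * C - (8 : ℝ) • (X * C)) with hN
  have bM : ∀ v, 43 / 50 * nrB v ≤ nrB (M *ᵥ v) := by
    intro v
    apply le_of_sq_le_sq _ (nrB_nonneg _)
    have e := mfull_bound hD hJ hQ v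
    rw [← nrB_sq, ← nrB_sq] at e
    rw [mul_pow]
    have := sq_nonneg (nrB v)
    calc (43 / 50) ^ 2 * nrB v ^ 2 ≤ 3 / 4 * nrB v ^ 2 := by
          apply mul_le_mul_of_nonneg_right _ this
          norm_num
      _ ≤ _ := e
  clear_value M
  have bErr : ∀ v, nrB ((P * (Ξ * C - (8 : ℝ) • (X * C))) *ᵥ v) ≤ 1 / 4 * nrB v := by
    intro v
    have e1 : (P * (Ξ * C - (8 : ℝ) • (X * C))) *ᵥ v =
        P *ᵥ Ξ *ᵥ PF *ᵥ (C *ᵥ v) - (8 : ℝ) • (P *ᵥ X *ᵥ (C *ᵥ v)) := by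
      have e2 : PF *ᵥ (C *ᵥ v) = C *ᵥ v := by rw [mulVec_mulVec, hPFC]
      rw [e2, ← mulVec_mulVec, sub_mulVec, mulVec_sub, smul_mulVec, mulVec_smul, ← mulVec_mulVec,
        ← mulVec_mulVec]
    rw [e1]
    have e3 := nrB_sub (P *ᵥ Ξ *ᵥ PF *ᵥ (C *ᵥ v)) ((8 : ℝ) • (P *ᵥ X *ᵥ (C *ᵥ v)))
    rw [nrB_smul, abs_of_nonneg (by norm_num : (0:ℝ) ≤ 8)] at e3
    have e4 := bΞF (C *ᵥ v)
    have e5 := bX (C *ᵥ v)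
    have e6 := bC v
    linarith
  have bN : ∀ v, 61 / 100 * nrB v ≤ nrB (N *ᵥ v) := by
    intro v
    have e1 : M *ᵥ v = N *ᵥ v - (P * (Ξ * C - (8 : ℝ) • (X * C))) *ᵥ v := by
      rw [hN, add_mulVec]
      abel
    have e2 := bM v
    rw [e1] at e2
    have e3 := nrB_sub (N *ᵥ v) ((P * (Ξ * C - (8 : ℝ) • (X * C))) *ᵥ v)
    have e4 := bErr v
    linarith
  have hinj : Function.Injective N.mulVec := by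
    intro x y hxy
    have e1 : N *ᵥ (x - y) = 0 := by
      rw [mulVec_sub, sub_eq_zero]
      exact hxy
    have e2 := bN (x - y)
    rw [e1] at e2
    have e3 : nrB (0 : Fin w → ℝ) = 0 := by
      have := nrB_sq (0 : Fin w → ℝ)
      simpa using this
    rw [e3] at e2
    have e4 : nrB (x - y) = 0 := le_antisymm (by linarith) (nrB_nonneg _)
    have e5 := nrB_sq (x - y)
    rw [e4] at e5
    have e6 : x - y = 0 := by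
      apply dotProduct_self_eq_zero.mp
      rw [← e5]
      norm_num
    exact sub_eq_zero.mp e6
  have hsurj : Function.Surjective N.mulVec :=
    mulVec_surjective_iff_isUnit.mpr (mulVec_injective_iff_isUnit.mp hinj)
  obtain ⟨v, hv⟩ := hsurj (P *ᵥ (β - T *ᵥ α))
  change N *ᵥ v = P *ᵥ (β - T *ᵥ α) at hv
  have hsE : 0 ≤ Real.sqrt E := Real.sqrt_nonneg _
  have hα : nrB α ≤ Real.sqrt E := nrB_le_sqrt (by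
    have := dotProduct_self_star_nonneg β
    simp only [star_trivial] at this
    linarith)
  have hβ : nrB β ≤ Real.sqrt E := nrB_le_sqrt (by
    have := dotProduct_self_star_nonneg α
    simp only [star_trivial] at this
    linarith)
  have hf : h * nrB ((1 - PF) *ᵥ α) ≤ Real.sqrt E := by
    apply Real.le_sqrt_of_sq_le
    rw [mul_pow, nrB_sq]
    calc h ^ 2 * (((1 - PF) *ᵥ α) ⬝ᵥ ((1 - PF) *ᵥ α)) ≤ h ^ 2 * gf := by gcongr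
      _ ≤ E := hgf
  have hr0 : nrB (P *ᵥ (β - T *ᵥ α)) ≤ 41 / 4 * Real.sqrt E := by
    have e1 : P *ᵥ (β - T *ᵥ α) = P *ᵥ β + (8 : ℝ) • (P *ᵥ ((J * Qᵀ * Jᵀ) *ᵥ (D *ᵥ β))) +
        (8 : ℝ) • (P *ᵥ X *ᵥ α) - P *ᵥ Ξ *ᵥ PF *ᵥ α - P *ᵥ Ξ *ᵥ ((1 - PF) *ᵥ α) := by
      have f1 : Cᵀ *ᵥ α = -(D *ᵥ β) := eq_neg_of_add_eq_zero_left h1
      have f2 : P *ᵥ (TB *ᵥ α) = 0 := by rw [mulVec_mulVec, hTB, zero_mulVec]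
      have f3 : Ξ *ᵥ α = Ξ *ᵥ PF *ᵥ α + Ξ *ᵥ ((1 - PF) *ᵥ α) := by
        rw [sub_mulVec, one_mulVec, mulVec_sub]
        abel
      have f4 : (J * Qᵀ * Jᵀ * Cᵀ) *ᵥ α = -((J * Qᵀ * Jᵀ) *ᵥ (D *ᵥ β)) := by
        rw [← mulVec_mulVec, f1, mulVec_neg]
      rw [hT, sub_mulVec, add_mulVec, sub_mulVec, smul_mulVec, smul_mulVec, f4, f3, mulVec_sub,
        mulVec_sub, mulVec_add, mulVec_sub, mulVec_smul, mulVec_smul, f2, mulVec_neg, mulVec_add]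
      rw [smul_neg]
      abel
    rw [e1]
    have g1 := nrB_sub (P *ᵥ β + (8 : ℝ) • (P *ᵥ ((J * Qᵀ * Jᵀ) *ᵥ (D *ᵥ β))) +
        (8 : ℝ) • (P *ᵥ X *ᵥ α) - P *ᵥ Ξ *ᵥ PF *ᵥ α) (P *ᵥ Ξ *ᵥ ((1 - PF) *ᵥ α))
    have g2 := nrB_sub (P *ᵥ β + (8 : ℝ) • (P *ᵥ ((J * Qᵀ * Jᵀ) *ᵥ (D *ᵥ β))) +
        (8 : ℝ) • (P *ᵥ X *ᵥ α)) (P *ᵥ Ξ *ᵥ PF *ᵥ α)
    have g3 := nrB_add (P *ᵥ β + (8 : ℝ) • (P *ᵥ ((J * Qᵀ * Jᵀ) *ᵥ (D *ᵥ β))))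
        ((8 : ℝ) • (P *ᵥ X *ᵥ α))
    have g4 := nrB_add (P *ᵥ β) ((8 : ℝ) • (P *ᵥ ((J * Qᵀ * Jᵀ) *ᵥ (D *ᵥ β))))
    rw [nrB_smul, abs_of_nonneg (by norm_num : (0:ℝ) ≤ 8)] at g3 g4
    have k1 := bΞ ((1 - PF) *ᵥ α)
    have k2 := bΞF α
    have k3 := bX α
    have k4 := (bP ((J * Qᵀ * Jᵀ) *ᵥ (D *ᵥ β))).trans ((bJQJ (D *ᵥ β)).trans (bD β))
    have k5 := bP β
    linarith
  refine ⟨v, ?_, ?_⟩
  · have e1 := bN v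
    rw [hv] at e1
    have e2 : nrB v ≤ 17 * Real.sqrt E := by linarith
    rw [← nrB_sq]
    calc nrB v ^ 2 ≤ (17 * Real.sqrt E) ^ 2 := by
          have := nrB_nonneg v
          gcongr
      _ = 289 * E := by rw [mul_pow, Real.sq_sqrt hE.le]; norm_num
  · have e1 : P * (T * C - D) = P * N := by
      have f1 : Cᵀ * C = 1 - D * D := eq_sub_of_add_eq hCD
      have f2 : P * (TB * C) = 0 := by rw [← Matrix.mul_assoc, hTB, Matrix.zero_mul]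
      rw [hN, hM, hT, Matrix.sub_mul ((8 : ℝ) • (J * Qᵀ * Jᵀ * Cᵀ) - (8 : ℝ) • X + Ξ) TB C, Matrix.add_mul,
        Matrix.sub_mul, Matrix.smul_mul, Matrix.smul_mul, Matrix.mul_assoc (J * Qᵀ * Jᵀ) Cᵀ C, f1,
        Matrix.mul_add P _ (P * _), ← Matrix.mul_assoc P P, hPP]
      simp only [Matrix.mul_sub, Matrix.mul_add, f2]
      abel
    have e2 : P *ᵥ (T *ᵥ (α + C *ᵥ v) - β - D *ᵥ v) = (P * (T * C - D)) *ᵥ v - P *ᵥ (β - T *ᵥ α) := by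
      rw [← mulVec_mulVec, sub_mulVec, ← mulVec_mulVec]
      simp only [mulVec_add, mulVec_sub]
      abel
    rw [e2, e1, ← mulVec_mulVec, hv, mulVec_mulVec, hPP, sub_self]

end Pool.Agent.RU
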