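import Pool.Agent.Helper96.RU.Defs
import Pool.Agent.Helper32.UBD.Rot4

/-!
# Block RU-H (MP_a64d16_an): finitely supported rotations with the Haar moments (helper32)

Proof. (1) Haar probability on `O(d)` (compact group), two-sided invariant.
For a unit vector `e` the vector `ω = Q e` is a unit vector with an invariant law. Infinitesimal
invariance under `exp (t (a e_k^T - e_k a^T))` gives
`(d + r + s - 1) M(r+1, s) = r M(r-1, s) + s ⟨a,b⟩ M(r, s-1)`, which is the recursion of `gm`, `den`.
(2) Finite support: the vector of all integrals of the monomials of degree `≤ N` in the entries lies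
in the convex hull of the compact set of values (`Convex.integral_mem`), so it is a finite convex
combination.
-/

namespace Pool.Agent.RU

open Matrix Module Pool.Agent.Cube MeasureTheory
open Pool.Agent.UBD (gM gM_zero_zero gM_zero_one gM_zero_add_two gM_succ gM_odd mf mf_succ mf_zero
  OG hp Jm Jm_eq Jm_formula rotInv_left rotInv_right exists_finite_design)

lemma gm_eval (R : ℝ) : ∀ n r s : ℕ, r + s = n → (gm r s).eval R = gM R r s := by
  intro n
  induction n using Nat.strong_induction_on with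
  | _ n ih =>
    intro r s hrs
    rcases r with _ | _ | r
    · rcases s with _ | _ | s
      · simp [gm, gM_zero_zero]
      · simp [gm, gM_zero_one]
      · have h := ih s (by omega) 0 s (by omega)
        rw [gM_zero_add_two, ← h]
        by_cases he : Even s
        · have he2 : Even (s + 2) := by
            rw [Nat.even_add]; simp [he]
          simp only [gm, if_pos he, if_pos he2, Polynomial.eval_C]
          rcases s with _ | s
          · simp
          · have e1 : s + 1 + 2 - 1 = s + 2 := by omega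
            rw [e1, Nat.add_sub_cancel, Nat.doubleFactorial_add_two]
            push_cast; ring
        · have he2 : ¬ Even (s + 2) := by
            rw [Nat.even_add]; simp [he]
          simp only [gm, if_neg he, if_neg he2]
          simp
    · rw [gM_succ]
      have h : (s : ℝ) * R * (gm 0 (s - 1)).eval R = s * R * gM R 0 (s - 1) := by
        rcases s with _ | s
        · simp
        · rw [ih s (by omega) 0 (s + 1 - 1) (by omega)]
      rw [zero_add, gm, Polynomial.eval_mul, Polynomial.eval_mul, Polynomial.eval_natCast,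
        Polynomial.eval_X, h]
      simp
    · rw [gM_succ]
      have h : (s : ℝ) * R * (gm (r + 1) (s - 1)).eval R = s * R * gM R (r + 1) (s - 1) := by
        rcases s with _ | s
        · simp
        · rw [ih (r + 1 + s) (by omega) (r + 1) (s + 1 - 1) (by omega)]
      rw [gm, Polynomial.eval_add, Polynomial.eval_mul, Polynomial.eval_mul, Polynomial.eval_mul,
        Polynomial.eval_natCast, Polynomial.eval_natCast, Polynomial.eval_X, h,
        ih (r + s) (by omega) r s rfl, Nat.add_sub_cancel]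

lemma mf_eq_den (d m : ℕ) : mf d m = (d : ℝ) ^ m / den d (2 * m) := by
  unfold mf den
  rw [Nat.mul_div_cancel_left _ (by norm_num), Finset.prod_div_distrib, Finset.prod_const,
    Finset.card_range]

/-- The unscaled moments. -/
lemma moment_eq {d : ℕ} (hd : 0 < d) {Ω : Type*} [MeasurableSpace Ω] {P : Measure Ω}
    [IsProbabilityMeasure P] {ω : Ω → Fin d → ℝ} (h : Pool.Agent.UBD.RotInv P ω)
    (a b : Fin d → ℝ) (ha : a ⬝ᵥ a = 1) (hb : b ⬝ᵥ b = 1) (r s : ℕ) :
    ∫ q, (a ⬝ᵥ ω q) ^ r * (b ⬝ᵥ ω q) ^ s ∂P = (gm r s).eval (a ⬝ᵥ b) / den d (r + s) := by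
  have h1 := Jm_formula (w := d) hd h a b ha hb (r + s) r s rfl
  rw [Jm_eq] at h1
  rw [gm_eval _ (r + s) r s rfl]
  have hd' : (0 : ℝ) < d := by exact_mod_cast hd
  have hs : Real.sqrt d ^ (r + s) ≠ 0 := by positivity
  by_cases ho : Odd (r + s)
  · rw [gM_odd _ (r + s) r s rfl ho, zero_mul] at h1
    rw [gM_odd _ (r + s) r s rfl ho, zero_div]
    rcases mul_eq_zero.mp h1 with h2 | h2
    · exact absurd h2 hs
    · exact h2
  · rw [Nat.not_odd_iff_even] at ho
    obtain ⟨m, hm⟩ := ho
    have e1 : r + s = 2 * m := by omega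
    have e2 : (r + s) / 2 = m := by omega
    rw [e2, mf_eq_den, e1, pow_mul, Real.sq_sqrt hd'.le] at h1
    rw [e1]
    have hdm : (d : ℝ) ^ m ≠ 0 := by positivity
    have h2 : (d : ℝ) ^ m * ∫ q, (a ⬝ᵥ ω q) ^ r * (b ⬝ᵥ ω q) ^ s ∂P =
        (d : ℝ) ^ m * (gM (a ⬝ᵥ b) r s / den d (2 * m)) := by
      rw [h1]; ring
    exact mul_left_cancel₀ hdm h2

lemma dot_mulVec_eq_sum {d : ℕ} (x y : Fin d → ℝ) (M : Matrix (Fin d) (Fin d) ℝ) :
    x ⬝ᵥ M *ᵥ y = ∑ z : Fin d × Fin d, (x z.1 * y z.2) * M z.1 z.2 := by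
  rw [Fintype.sum_prod_type]
  simp only [dotProduct, Matrix.mulVec, Finset.mul_sum]
  exact Finset.sum_congr rfl fun i _ => Finset.sum_congr rfl fun j _ => by ring

lemma prod_dot_eq_sum {d m : ℕ} (x y : Fin m → Fin d → ℝ) (M : Matrix (Fin d) (Fin d) ℝ) :
    ∏ l, (x l ⬝ᵥ M *ᵥ y l) = ∑ σ : Fin m → Fin d × Fin d,
      (∏ l, (x l (σ l).1 * y l (σ l).2)) * ∏ l, M (σ l).1 (σ l).2 := by
  simp only [dot_mulVec_eq_sum]
  rw [Finset.prod_univ_sum, Fintype.piFinset_univ]
  exact Finset.sum_congr rfl fun σ _ => Finset.prod_mul_distrib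

/-- A finite design with the integrals of all products of at most `N` bilinear forms. -/
theorem exists_design (d N : ℕ) :
    ∃ (k : ℕ) (ω : Fin k → ℝ) (Q : Fin k → OG d), (∀ t, 0 ≤ ω t) ∧ ∑ t, ω t = 1 ∧
      ∀ m, m ≤ N → ∀ x y : Fin m → Fin d → ℝ,
        ∑ t, ω t * ∏ l, (x l ⬝ᵥ (Q t).mat *ᵥ y l) =
          ∫ q, ∏ l, (x l ⬝ᵥ q.mat *ᵥ y l) ∂(hp d) := by
  let Φ : OG d → (Σ m : Fin (N + 1), (Fin (m : ℕ) → Fin d × Fin d)) → ℝ := fun q z =>
    ∏ l, q.mat (z.2 l).1 (z.2 l).2
  have hent : ∀ i j : Fin d, Continuous fun q : OG d => q.mat i j := fun i j =>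
    (continuous_apply j).comp ((continuous_apply i).comp OG.continuous_mat)
  have hΦ : Continuous Φ := by
    refine continuous_pi fun z => ?_
    exact continuous_finsetProd _ fun l _ => hent _ _
  obtain ⟨k, ω, Q, hω0, hω1, hQ⟩ := exists_finite_design Φ hΦ
  refine ⟨k, ω, Q, hω0, hω1, ?_⟩
  intro m hm x y
  have hcont : ∀ σ : Fin m → Fin d × Fin d,
      Continuous fun q : OG d => ∏ l, q.mat (σ l).1 (σ l).2 := fun σ =>
    continuous_finsetProd _ fun l _ => hent _ _
  have hint : ∀ σ : Fin m → Fin d × Fin d,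
      Integrable (fun q : OG d => (∏ l, (x l (σ l).1 * y l (σ l).2)) *
        ∏ l, q.mat (σ l).1 (σ l).2) (hp d) := by
    intro σ
    have hc : Continuous (fun q : OG d => (∏ l, (x l (σ l).1 * y l (σ l).2)) *
        ∏ l, q.mat (σ l).1 (σ l).2) := continuous_const.mul (hcont σ)
    exact (hc.continuousOn.integrableOn_compact isCompact_univ).integrable_of_forall_notMem_eq_zero
      (fun x hx => absurd (Set.mem_univ x) hx)
  simp only [prod_dot_eq_sum]
  rw [integral_finsetSum _ (fun σ _ => hint σ)]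
  simp only [Finset.mul_sum]
  rw [Finset.sum_comm]
  refine Finset.sum_congr rfl fun σ _ => ?_
  rw [integral_const_mul]
  have h1 := hQ ⟨⟨m, by omega⟩, σ⟩
  have h2 : ∑ t, ω t * ((∏ l, (x l (σ l).1 * y l (σ l).2)) * ∏ l, (Q t).mat (σ l).1 (σ l).2) =
      (∏ l, (x l (σ l).1 * y l (σ l).2)) * ∑ t, ω t * Φ (Q t) ⟨⟨m, by omega⟩, σ⟩ := by
    rw [Finset.mul_sum]
    exact Finset.sum_congr rfl fun t _ => by ring
  rw [h2, h1]

/-- Block RU-H. -/
theorem exists_rot {d : ℕ} (hd : 0 < d) (N : ℕ) :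
    ∃ (k : ℕ) (ω : Fin k → ℝ) (Q : Fin k → Matrix (Fin d) (Fin d) ℝ), IsRot d N ω Q := by
  obtain ⟨k, ω, Q, hω0, hω1, hQ⟩ := exists_design d N
  refine ⟨k, ω, fun t => (Q t).mat, hω0, hω1, fun t => (Q t).transpose_mul, ?_, ?_⟩
  · intro r s hrs a b e ha hb he
    have h1 := hQ (r + s) hrs (Fin.append (fun _ : Fin r => a) (fun _ : Fin s => b)) (fun _ => e)
    simp only [Fin.prod_univ_add, Fin.append_left, Fin.append_right, Finset.prod_const,
      Finset.card_univ, Fintype.card_fin] at h1
    rw [h1]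
    exact moment_eq hd (rotInv_left e he) a b ha hb r s
  · intro r s hrs a e e' ha he he'
    have h1 := hQ (r + s) hrs (fun _ => a) (Fin.append (fun _ : Fin r => e) (fun _ : Fin s => e'))
    simp only [Fin.prod_univ_add, Fin.append_left, Fin.append_right, Finset.prod_const,
      Finset.card_univ, Fintype.card_fin] at h1
    rw [h1]
    have h2 := moment_eq hd (rotInv_right a ha) e e' he he' r s
    rw [← h2]
    congr 1
    funext q
    have e1 : ∀ y : Fin d → ℝ, a ⬝ᵥ q.mat *ᵥ y = y ⬝ᵥ q.matᵀ *ᵥ a := by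
      intro y
      rw [Matrix.dotProduct_mulVec, ← Matrix.mulVec_transpose, dotProduct_comm]
    rw [e1, e1]

end Pool.Agent.RU
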