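import Pool.Agent.Helper96.RU.B3
import Pool.Agent.Helper96.RU.B4
import Pool.Agent.Helper96.RU.B5
import Pool.Agent.Helper96.RU.B7
import Pool.Agent.Helper96.RU.B9
import Pool.Agent.Helper96.RU.H

/-!
# Block RU-B10 (MP_a64d16_an): assembly of the signals (Part B)

All the pieces are blocks (used as given): B1 (`exists_split`), H (`exists_rot`), B3, B4, B5, B7, B8,
B9. Proof.
Case `w < 150 p`: `ρ = 0`, `U = 1`, `v = 0` (`1 - U = 0`, `trace = w ≤ 150 p`).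
Case `w ≥ 150 p`: `exists_split` gives `d`, `J` (`50 p ≤ d`, `d > 0`). `exists_rot d (2 p + 2)`.
`W = C * J` (n x d), rows `u_i = W i`; `|u_i|^2 ≤ ∑_l C_il^2 ≤ 2/E` (`J Jᵀ ≤ 1`);
`I = {i ∉ Sat : η/E ≤ |u_i|^2}`; `ν i = |u_i|` (`√(u_i ⬝ᵥ u_i)`), `a i = (ν i)⁻¹ • u_i`;
`π l = |J l|`, `b l = (π l)⁻¹ • J l` (`π l ^2 ≥ 1/3`), `∑ π l^2 = tr (Jᵀ J) = d`,
`∑∑ (J l ⬝ᵥ J l')^2 = tr ((J Jᵀ)^2) = d`. `γ = 8/√E`.
`ρ_x i l = γ (ν i π l phi (a i ⬝ᵥ Q_x *ᵥ b l))` for `i ∈ I \ Bad_x`, `0` otherwise,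
`Bad_x = {i ∈ I : 1 < ∑_l |γ (ν π phi)|}` (B5: `∑ ω_x |Bad_x| ≤ n · 20 · 2^p · 128/E^2`,
`(γ ν)^2 ≤ 128/E^2`; hypothesis `hm` from `w ≤ 4n/E` and `4608 n ≤ p E^3`).
`Ξ_x l i = 8 ν π psi` for `i ∈ I`, else `0`. B3 for each `i ∈ I` with `κ j = (C *ᵥ (J *ᵥ a i)) j =
u_j ⬝ᵥ a i = ν j (a i ⬝ᵥ a j)`, `v = J *ᵥ a i` unit vector, `∑ κ^2 ≤ |C v|^2 ≤ 1`: `σ = 4 √δ/η`.
B4: `∑ ω |Ξ_x y|^2 ≤ 64 2^p σ |y|^2`, `∑ ω |Ξ_x|_HS^2 ≤ 64 2^p w` (`∑ ν_i^2 ≤ ∑_i |u_i|^2 =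
tr (Jᵀ Cᵀ C J) ≤ d ≤ w`). `PF` = join (B8a) of `F` and the range of `C` (B8b with `S = univ`,
`w` columns): `PF * C = C`, trace `≤ f + w`, `|(1-PF) α|^2 ≤ |(1-F) α|^2`.
`∑ ω |Ξ_x PF|_HS^2 = ∑_j ∑ ω |Ξ_x (PF e_j)|^2 ≤ 64 2^p σ ∑_j |PF e_j|^2 = 64 2^p σ tr PF`.
Three nonnegative quantities with weighted means `≤ m1, m2, m3`: one `x` has all three `≤ 4 m_i`
(otherwise `1 = ∑ ω < ∑ ω (q1/(4 m1) + ..) ≤ 3/4`; treat `m_i = 0` by adding small or by `≤`).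
For this `x`: `T' = √E ρᵀ = 8 J Qᵀ Jᵀ Cᵀ - 8 X + Ξ - TB` with `X = (J Qᵀ Jᵀ Cᵀ) restricted to the
columns `i ∉ I``, `TB` = `√E γ ν π phi` in the columns `i ∈ Bad`. (`8 ν_i π_l (a_i·Q b_l) =
8 u_i · Q J_l = 8 (J Qᵀ Jᵀ Cᵀ)_{l i}`.) `∑ X_li^2 = ∑_{i ∉ I} |u_i|^2 ≤ 2|Sat|/E + n η/E`.
`U` = join of: range of `TB` (B8b, `S = Bad`), exceptional spaces (B7) of `X` with `h = 1/36`, of
`Ξ * PF` with `1/36`, of `Ξ` with `h`; `W * U_j = U_j` gives `|(1-W) y| ≤ |(1-U_j) y|`. B9 concludes.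
-/

namespace Pool.Agent.RU

open Matrix Module

/-! ### Elementary facts -/

/-- Three nonnegative quantities are at most four times their means at the same time. -/
lemma b10_three {ι : Type} [Fintype ι] {ω q1 q2 q3 : ι → ℝ} {m1 m2 m3 : ℝ}
    (h0 : ∀ x, 0 ≤ ω x) (h1 : ∑ x, ω x = 1) (hq1 : ∀ x, 0 ≤ q1 x) (hq2 : ∀ x, 0 ≤ q2 x)
    (hq3 : ∀ x, 0 ≤ q3 x) (hm1 : ∑ x, ω x * q1 x ≤ m1) (hm2 : ∑ x, ω x * q2 x ≤ m2)
    (hm3 : ∑ x, ω x * q3 x ≤ m3) :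
    ∃ x, q1 x ≤ 4 * m1 ∧ q2 x ≤ 4 * m2 ∧ q3 x ≤ 4 * m3 := by
  classical
  have key : ∀ (q : ι → ℝ) (m : ℝ), (∀ x, 0 ≤ q x) → ∑ x, ω x * q x ≤ m →
      ∑ x, (if 4 * m < q x then ω x else 0) ≤ 1 / 4 := by
    intro q m hq hm
    have hm0 : 0 ≤ m := le_trans (Finset.sum_nonneg fun x _ => mul_nonneg (h0 x) (hq x)) hm
    rcases hm0.eq_or_lt with h | h
    · have h2 : ∀ x ∈ (Finset.univ : Finset ι), (if 4 * m < q x then ω x else 0) = 0 := by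
        intro x _
        split_ifs with hx
        · have hqx : 0 < q x := by linarith
          have h3 : ω x * q x ≤ 0 := by
            have := Finset.single_le_sum (f := fun x => ω x * q x)
              (fun x _ => mul_nonneg (h0 x) (hq x)) (Finset.mem_univ x)
            linarith
          have h4 : ω x * q x = 0 := le_antisymm h3 (mul_nonneg (h0 x) (hq x))
          rcases mul_eq_zero.1 h4 with h5 | h5
          · exact h5
          · exact absurd h5 hqx.ne'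
        · rfl
      rw [Finset.sum_eq_zero h2]; norm_num
    · have h2 : (4 * m) * ∑ x, (if 4 * m < q x then ω x else 0) ≤ m := by
        rw [Finset.mul_sum]
        refine le_trans (Finset.sum_le_sum fun x _ => ?_) hm
        split_ifs with hx
        · rw [mul_comm]
          exact mul_le_mul_of_nonneg_left hx.le (h0 x)
        · rw [mul_zero]
          exact mul_nonneg (h0 x) (hq x)
      have h3 : m * (4 * ∑ x, (if 4 * m < q x then ω x else 0)) ≤ m * 1 := by linarith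
      have h4 := le_of_mul_le_mul_left h3 h
      linarith
  by_contra hcon
  push Not at hcon
  have k1 := key q1 m1 hq1 hm1
  have k2 := key q2 m2 hq2 hm2
  have k3 := key q3 m3 hq3 hm3
  have hcov : ∑ x, ω x ≤ ∑ x, ((if 4 * m1 < q1 x then ω x else 0) +
      (if 4 * m2 < q2 x then ω x else 0) + (if 4 * m3 < q3 x then ω x else 0)) := by
    refine Finset.sum_le_sum fun x _ => ?_
    have hx := h0 x
    by_cases c1 : 4 * m1 < q1 x
    · rw [if_pos c1]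
      split_ifs <;> linarith
    · by_cases c2 : 4 * m2 < q2 x
      · rw [if_neg c1, if_pos c2]
        split_ifs <;> linarith
      · have c3 := hcon x (not_lt.1 c1) (not_lt.1 c2)
        rw [if_neg c1, if_neg c2, if_pos c3]
        linarith
  rw [h1, Finset.sum_add_distrib, Finset.sum_add_distrib] at hcov
  linarith

lemma b10_sq {m k : ℕ} (A : Matrix (Fin m) (Fin k) ℝ) (v : Fin k → ℝ) :
    (A *ᵥ v) ⬝ᵥ (A *ᵥ v) = v ⬝ᵥ ((Aᵀ * A) *ᵥ v) := by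
  rw [← mulVec_mulVec, dotProduct_mulVec v, vecMul_transpose]

lemma b10_nn {m : ℕ} (v : Fin m → ℝ) : 0 ≤ v ⬝ᵥ v := by
  unfold dotProduct
  exact Finset.sum_nonneg fun i _ => mul_self_nonneg _

lemma b10_proj {m : ℕ} {U : Matrix (Fin m) (Fin m) ℝ} (hU : IsProj U) (y : Fin m → ℝ) :
    ((1 - U) *ᵥ y) ⬝ᵥ ((1 - U) *ᵥ y) + (U *ᵥ y) ⬝ᵥ (U *ᵥ y) = y ⬝ᵥ y := by
  rw [b10_sq, b10_sq, hU.symm, hU.idem]
  have h1 : (1 - U)ᵀ * (1 - U) = 1 - U := by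
    rw [transpose_sub, transpose_one, hU.symm, sub_mul, mul_sub, mul_sub, hU.idem]
    simp
  rw [h1, ← dotProduct_add, ← add_mulVec]
  simp

lemma b10_join {m : ℕ} {W U : Matrix (Fin m) (Fin m) ℝ} (hW : IsProj W) (hWU : W * U = U)
    (y : Fin m → ℝ) :
    ((1 - W) *ᵥ y) ⬝ᵥ ((1 - W) *ᵥ y) ≤ ((1 - U) *ᵥ y) ⬝ᵥ ((1 - U) *ᵥ y) := by
  have h1 : (1 - W) *ᵥ y = (1 - W) *ᵥ ((1 - U) *ᵥ y) := by
    rw [mulVec_mulVec, sub_mul, mul_sub, mul_sub, hWU]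
    simp
  rw [h1]
  have h2 := b10_proj hW ((1 - U) *ᵥ y)
  have h3 := b10_nn (W *ᵥ ((1 - U) *ᵥ y))
  linarith

lemma b10_trace {m : ℕ} {U : Matrix (Fin m) (Fin m) ℝ} (hU : IsProj U) :
    U.trace = ∑ i, ∑ j, U i j ^ 2 := by
  have h1 : U.trace = (U * Uᵀ).trace := by rw [hU.symm, hU.idem]
  rw [h1]
  unfold Matrix.trace
  refine Finset.sum_congr rfl fun i _ => ?_
  rw [diag_apply, mul_apply]
  refine Finset.sum_congr rfl fun j _ => ?_
  rw [transpose_apply, sq]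

lemma b10_trace_nonneg {m : ℕ} {U : Matrix (Fin m) (Fin m) ℝ} (hU : IsProj U) : 0 ≤ U.trace := by
  rw [b10_trace hU]
  positivity

lemma b10_iso {m k : ℕ} {J : Matrix (Fin m) (Fin k) ℝ} (hJ : Jᵀ * J = 1) (v : Fin k → ℝ) :
    (J *ᵥ v) ⬝ᵥ (J *ᵥ v) = v ⬝ᵥ v := by
  rw [b10_sq, hJ, one_mulVec]

lemma b10_JJ {m k : ℕ} {J : Matrix (Fin m) (Fin k) ℝ} (hJ : Jᵀ * J = 1) : IsProj (J * Jᵀ) := by
  constructor
  · rw [transpose_mul, transpose_transpose]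
  · rw [Matrix.mul_assoc, ← Matrix.mul_assoc Jᵀ, hJ, Matrix.one_mul]

lemma b10_coiso {m k : ℕ} {J : Matrix (Fin m) (Fin k) ℝ} (hJ : Jᵀ * J = 1) (v : Fin m → ℝ) :
    (Jᵀ *ᵥ v) ⬝ᵥ (Jᵀ *ᵥ v) ≤ v ⬝ᵥ v := by
  have h1 : (Jᵀ *ᵥ v) ⬝ᵥ (Jᵀ *ᵥ v) = ((J * Jᵀ) *ᵥ v) ⬝ᵥ ((J * Jᵀ) *ᵥ v) := by
    rw [b10_sq, b10_sq, (b10_JJ hJ).symm, (b10_JJ hJ).idem, transpose_transpose]
  have h2 := b10_proj (b10_JJ hJ) v
  have h3 := b10_nn ((1 - J * Jᵀ) *ᵥ v)
  linarith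

lemma b10_orth {d : ℕ} {Q : Matrix (Fin d) (Fin d) ℝ} (hQ : Qᵀ * Q = 1) (v : Fin d → ℝ) :
    (Qᵀ *ᵥ v) ⬝ᵥ (Qᵀ *ᵥ v) = v ⬝ᵥ v := by
  rw [b10_sq, transpose_transpose, mul_eq_one_comm.1 hQ, one_mulVec]

lemma b10_C {n w : ℕ} {C : Matrix (Fin n) (Fin w) ℝ} {D : Matrix (Fin w) (Fin w) ℝ}
    (hD : D.PosSemidef) (hCD : Cᵀ * C + D * D = 1) (v : Fin w → ℝ) :
    (C *ᵥ v) ⬝ᵥ (C *ᵥ v) ≤ v ⬝ᵥ v := by
  have hDt : Dᵀ = D := by
    have := hD.isHermitian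
    rwa [Matrix.IsHermitian, conjTranspose_eq_transpose_of_trivial] at this
  have h1 : (C *ᵥ v) ⬝ᵥ (C *ᵥ v) + (D *ᵥ v) ⬝ᵥ (D *ᵥ v) = v ⬝ᵥ v := by
    rw [b10_sq, b10_sq, hDt, ← dotProduct_add, ← add_mulVec, hCD, one_mulVec]
  have h2 := b10_nn (D *ᵥ v)
  linarith

lemma b10_cs {d : ℕ} {a b : Fin d → ℝ} (ha : a ⬝ᵥ a = 1) (hb : b ⬝ᵥ b = 1) : |a ⬝ᵥ b| ≤ 1 := by
  rw [abs_le]
  have h1 : 0 ≤ (a + b) ⬝ᵥ (a + b) := b10_nn _
  have h2 : 0 ≤ (a - b) ⬝ᵥ (a - b) := b10_nn _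
  rw [add_dotProduct, dotProduct_add, dotProduct_add, ha, hb, dotProduct_comm b a] at h1
  rw [sub_dotProduct, dotProduct_sub, dotProduct_sub, ha, hb, dotProduct_comm b a] at h2
  constructor <;> linarith

lemma b10_sum_row {m k : ℕ} (A : Matrix (Fin m) (Fin k) ℝ) :
    ∑ l, A l ⬝ᵥ A l = (Aᵀ * A).trace := by
  rw [trace_mul_comm]
  unfold Matrix.trace
  refine Finset.sum_congr rfl fun l _ => ?_
  rw [diag_apply, mul_apply]
  rfl

lemma b10_frame {m k : ℕ} {J : Matrix (Fin m) (Fin k) ℝ} (hJ : Jᵀ * J = 1) :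
    ∑ l, ∑ l', (J l ⬝ᵥ J l') ^ 2 = k := by
  have h1 : ∀ l l', J l ⬝ᵥ J l' = (J * Jᵀ) l l' := fun l l' => by rw [mul_apply]; rfl
  simp_rw [h1]
  rw [← b10_trace (b10_JJ hJ), trace_mul_comm, hJ, trace_one, Fintype.card_fin]

/-! ### Normalisation -/

/-- The length of a vector. -/
noncomputable def b10len {d : ℕ} (v : Fin d → ℝ) : ℝ := Real.sqrt (v ⬝ᵥ v)

/-- The direction of a vector. -/
noncomputable def b10dir {d : ℕ} (v : Fin d → ℝ) : Fin d → ℝ := (b10len v)⁻¹ • v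

lemma b10len_sq {d : ℕ} (v : Fin d → ℝ) : b10len v ^ 2 = v ⬝ᵥ v := Real.sq_sqrt (b10_nn v)

lemma b10len_nonneg {d : ℕ} (v : Fin d → ℝ) : 0 ≤ b10len v := Real.sqrt_nonneg _

lemma b10len_pos {d : ℕ} {v : Fin d → ℝ} (h : 0 < v ⬝ᵥ v) : 0 < b10len v := Real.sqrt_pos.2 h

lemma b10dir_unit {d : ℕ} {v : Fin d → ℝ} (h : 0 < v ⬝ᵥ v) : b10dir v ⬝ᵥ b10dir v = 1 := by
  have h1 := b10len_pos h
  unfold b10dir
  rw [smul_dotProduct, dotProduct_smul, smul_eq_mul, smul_eq_mul, ← b10len_sq]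
  field_simp

lemma b10len_smul {d : ℕ} {v : Fin d → ℝ} (h : 0 < v ⬝ᵥ v) : b10len v • b10dir v = v := by
  have h1 := b10len_pos h
  unfold b10dir
  rw [smul_smul, mul_inv_cancel₀ h1.ne', one_smul]

/-- The bilinear form of the directions. -/
lemma b10_form {d : ℕ} {u v : Fin d → ℝ} (hu : 0 < u ⬝ᵥ u) (hv : 0 < v ⬝ᵥ v)
    (Q : Matrix (Fin d) (Fin d) ℝ) :
    b10len u * b10len v * (b10dir u ⬝ᵥ Q *ᵥ b10dir v) = u ⬝ᵥ Q *ᵥ v := by
  conv_rhs => rw [← b10len_smul hu, ← b10len_smul hv]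
  rw [smul_dotProduct, mulVec_smul, dotProduct_smul, smul_eq_mul, smul_eq_mul]
  ring

/-- The matrix of the signals. -/
lemma b10_entry {n w d : ℕ} (C : Matrix (Fin n) (Fin w) ℝ) (J : Matrix (Fin w) (Fin d) ℝ)
    (Q : Matrix (Fin d) (Fin d) ℝ) (i : Fin n) (l : Fin w) :
    (C * J) i ⬝ᵥ Q *ᵥ (J l) = (J * Qᵀ * Jᵀ * Cᵀ) l i := by
  have h1 : (J * Qᵀ * Jᵀ * Cᵀ) = (C * J * Q * Jᵀ)ᵀ := by
    simp only [transpose_mul, transpose_transpose, Matrix.mul_assoc]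
  rw [h1, transpose_apply, Matrix.mul_assoc (C * J), mul_apply]
  unfold dotProduct
  refine Finset.sum_congr rfl fun a _ => ?_
  congr 1

/-- The columns of the signals. -/
lemma b10_col {n w d : ℕ} (C : Matrix (Fin n) (Fin w) ℝ) {J : Matrix (Fin w) (Fin d) ℝ}
    (hJ : Jᵀ * J = 1) {Q : Matrix (Fin d) (Fin d) ℝ} (hQ : Qᵀ * Q = 1) (i : Fin n) :
    ∑ l, (J * Qᵀ * Jᵀ * Cᵀ) l i ^ 2 = (C * J) i ⬝ᵥ (C * J) i := by
  have h1 : ∀ l, (J * Qᵀ * Jᵀ * Cᵀ) l i = (J *ᵥ (Qᵀ *ᵥ ((C * J) i))) l := by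
    intro l
    rw [Matrix.mul_assoc (J * Qᵀ), ← transpose_mul, mulVec_mulVec]
    rfl
  have h2 : ∑ l, (J * Qᵀ * Jᵀ * Cᵀ) l i ^ 2 =
      (J *ᵥ (Qᵀ *ᵥ ((C * J) i))) ⬝ᵥ (J *ᵥ (Qᵀ *ᵥ ((C * J) i))) := by
    unfold dotProduct
    refine Finset.sum_congr rfl fun l _ => ?_
    rw [h1, sq]
  rw [h2, b10_iso hJ, b10_orth hQ]

/-- The lengths of the rows. -/
lemma b10_len_le {n w d : ℕ} (C : Matrix (Fin n) (Fin w) ℝ) {J : Matrix (Fin w) (Fin d) ℝ}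
    (hJ : Jᵀ * J = 1) (i : Fin n) : (C * J) i ⬝ᵥ (C * J) i ≤ ∑ l, C i l ^ 2 := by
  have h1 : (C * J) i = Jᵀ *ᵥ (C i) := by
    funext a
    rw [mul_apply]
    show _ = ∑ l, J l a * C i l
    exact Finset.sum_congr rfl fun l _ => mul_comm _ _
  rw [h1]
  refine (b10_coiso hJ _).trans (le_of_eq ?_)
  unfold dotProduct
  exact Finset.sum_congr rfl fun l _ => (sq _).symm

lemma b10_sum_len {n w d : ℕ} {C : Matrix (Fin n) (Fin w) ℝ} {D : Matrix (Fin w) (Fin w) ℝ}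
    (hD : D.PosSemidef) (hCD : Cᵀ * C + D * D = 1) {J : Matrix (Fin w) (Fin d) ℝ}
    (hJ : Jᵀ * J = 1) : ∑ i, (C * J) i ⬝ᵥ (C * J) i ≤ d := by
  have hDt : Dᵀ = D := by
    have := hD.isHermitian
    rwa [Matrix.IsHermitian, conjTranspose_eq_transpose_of_trivial] at this
  have h1 : ∑ i, (C * J) i ⬝ᵥ (C * J) i + ∑ l, (D * J) l ⬝ᵥ (D * J) l = d := by
    rw [b10_sum_row, b10_sum_row, ← trace_add]
    have h2 : (C * J)ᵀ * (C * J) + (D * J)ᵀ * (D * J) = 1 := by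
      rw [transpose_mul, transpose_mul, hDt]
      have h3 : Jᵀ * Cᵀ * (C * J) + Jᵀ * D * (D * J) = Jᵀ * (Cᵀ * C + D * D) * J := by
        rw [Matrix.mul_add, Matrix.add_mul]
        simp only [Matrix.mul_assoc]
      rw [h3, hCD, Matrix.mul_one, hJ]
    rw [h2, trace_one, Fintype.card_fin]
  have h2 : 0 ≤ ∑ l, (D * J) l ⬝ᵥ (D * J) l := Finset.sum_nonneg fun l _ => b10_nn _
  linarith

/-- The light families. -/
lemma b10_kappa {n w d : ℕ} (C : Matrix (Fin n) (Fin w) ℝ) (J : Matrix (Fin w) (Fin d) ℝ)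
    (a : Fin d → ℝ) (j : Fin n) : (C *ᵥ (J *ᵥ a)) j = (C * J) j ⬝ᵥ a := by
  rw [mulVec_mulVec]
  rfl

/-! ### Noise and bad rows -/

/-- The good indices. -/
noncomputable def b10I {n w d : ℕ} (C : Matrix (Fin n) (Fin w) ℝ) (J : Matrix (Fin w) (Fin d) ℝ)
    (Sat : Finset (Fin n)) (s : ℝ) : Finset (Fin n) :=
  (Finset.univ \ Sat).filter (fun i => s ≤ (C * J) i ⬝ᵥ (C * J) i)

/-- The entries of the noise. -/
noncomputable def b10G {n w d : ℕ} (p : ℕ) (C : Matrix (Fin n) (Fin w) ℝ)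
    (J : Matrix (Fin w) (Fin d) ℝ) (Q : Matrix (Fin d) (Fin d) ℝ) (i : Fin n) (l : Fin w) : ℝ :=
  b10len ((C * J) i) * b10len (J l) * psi d p (b10dir ((C * J) i) ⬝ᵥ Q *ᵥ b10dir (J l))

/-- The entries of the signals. -/
noncomputable def b10P {n w d : ℕ} (p : ℕ) (C : Matrix (Fin n) (Fin w) ℝ)
    (J : Matrix (Fin w) (Fin d) ℝ) (Q : Matrix (Fin d) (Fin d) ℝ) (i : Fin n) (l : Fin w) : ℝ :=
  b10len ((C * J) i) * b10len (J l) * phi d p (b10dir ((C * J) i) ⬝ᵥ Q *ᵥ b10dir (J l))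

/-- The noise matrix. -/
noncomputable def b10Xi {n w d : ℕ} (p : ℕ) (C : Matrix (Fin n) (Fin w) ℝ)
    (J : Matrix (Fin w) (Fin d) ℝ) (I : Finset (Fin n)) (Q : Matrix (Fin d) (Fin d) ℝ) :
    Matrix (Fin w) (Fin n) ℝ :=
  Matrix.of fun l i => if i ∈ I then 8 * b10G p C J Q i l else 0

/-- The bad rows. -/
noncomputable def b10Bad {n w d : ℕ} (p : ℕ) (C : Matrix (Fin n) (Fin w) ℝ)
    (J : Matrix (Fin w) (Fin d) ℝ) (I : Finset (Fin n)) (γ : ℝ) (Q : Matrix (Fin d) (Fin d) ℝ) :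
    Finset (Fin n) :=
  I.filter (fun i => 1 < ∑ l, |γ * b10P p C J Q i l|)

lemma b10_PG {n w d : ℕ} (p : ℕ) (C : Matrix (Fin n) (Fin w) ℝ) (J : Matrix (Fin w) (Fin d) ℝ)
    (Q : Matrix (Fin d) (Fin d) ℝ) {i : Fin n} {l : Fin w} (hi : 0 < (C * J) i ⬝ᵥ (C * J) i)
    (hl : 0 < J l ⬝ᵥ J l) :
    b10P p C J Q i l = b10G p C J Q i l + (J * Qᵀ * Jᵀ * Cᵀ) l i := by
  unfold b10P b10G psi
  rw [← b10_entry, ← b10_form hi hl]
  ring

lemma b10_xi_sq {n w d : ℕ} (p : ℕ) (C : Matrix (Fin n) (Fin w) ℝ) (J : Matrix (Fin w) (Fin d) ℝ)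
    (I : Finset (Fin n)) (Q : Matrix (Fin d) (Fin d) ℝ) (y : Fin n → ℝ) :
    ∑ l, (b10Xi p C J I Q *ᵥ y) l ^ 2 = 64 * ∑ l, (∑ i ∈ I, y i * b10G p C J Q i l) ^ 2 := by
  rw [Finset.mul_sum]
  refine Finset.sum_congr rfl fun l _ => ?_
  have h1 : (b10Xi p C J I Q *ᵥ y) l = 8 * ∑ i ∈ I, y i * b10G p C J Q i l := by
    show ∑ i, (if i ∈ I then 8 * b10G p C J Q i l else 0) * y i = _
    rw [Finset.mul_sum]
    simp_rw [ite_mul, zero_mul]
    rw [Finset.sum_ite_mem, Finset.univ_inter]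
    exact Finset.sum_congr rfl fun i _ => by ring
  rw [h1]; ring

lemma b10_xi_hs {n w d : ℕ} (p : ℕ) (C : Matrix (Fin n) (Fin w) ℝ) (J : Matrix (Fin w) (Fin d) ℝ)
    (I : Finset (Fin n)) (Q : Matrix (Fin d) (Fin d) ℝ) :
    ∑ l, ∑ j, b10Xi p C J I Q l j ^ 2 = 64 * ∑ l, ∑ i ∈ I, b10G p C J Q i l ^ 2 := by
  rw [Finset.mul_sum]
  refine Finset.sum_congr rfl fun l _ => ?_
  have h1 : ∀ j, b10Xi p C J I Q l j ^ 2 = if j ∈ I then 64 * b10G p C J Q j l ^ 2 else 0 := by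
    intro j
    show (if j ∈ I then 8 * b10G p C J Q j l else 0) ^ 2 = _
    split_ifs <;> ring
  simp_rw [h1]
  rw [Finset.sum_ite_mem, Finset.univ_inter, Finset.mul_sum]

/-- The two means of the noise. -/
lemma b10_mean {n w d N p : ℕ} (hd : 0 < d) (hp : Odd p) (hN : 2 * p ≤ N) {ι : Type}
    [Fintype ι] {ω : ι → ℝ} {Q : ι → Matrix (Fin d) (Fin d) ℝ} (h : IsRot d N ω Q)
    {C : Matrix (Fin n) (Fin w) ℝ} {J : Matrix (Fin w) (Fin d) ℝ} (hJ : Jᵀ * J = 1)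
    (hl : ∀ l, 0 < J l ⬝ᵥ J l) (I : Finset (Fin n)) (hI : ∀ i ∈ I, 0 < (C * J) i ⬝ᵥ (C * J) i)
    {σ : ℝ} (hσ0 : 0 ≤ σ)
    (hσ : ∀ i ∈ I, ∑ j ∈ I, b10len ((C * J) i) * b10len ((C * J) j) *
      |b10dir ((C * J) i) ⬝ᵥ b10dir ((C * J) j)| ^ 3 ≤ σ)
    {PF : Matrix (Fin n) (Fin n) ℝ} (hPF : IsProj PF) :
    ∑ x, ω x * ∑ l, ∑ j, (b10Xi p C J I (Q x) * PF) l j ^ 2 ≤ 64 * (2 ^ p * σ * PF.trace) ∧
    ∑ x, ω x * ∑ l, ∑ j, b10Xi p C J I (Q x) l j ^ 2 ≤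
      64 * (2 ^ p * ∑ i, (C * J) i ⬝ᵥ (C * J) i) := by
  have hπ : ∑ l, b10len (J l) ^ 2 = d := by
    simp_rw [b10len_sq]
    rw [b10_sum_row, hJ, trace_one, Fintype.card_fin]
  obtain ⟨n1, n2⟩ := noise_bounds hd hp hN h I (fun i => b10dir ((C * J) i))
    (fun i hi => b10dir_unit (hI i hi)) (fun i => b10len ((C * J) i)) (fun i => b10len_nonneg _)
    (fun l => b10dir (J l)) (fun l => b10dir_unit (hl l)) (fun l => b10len (J l)) hπ hσ
  constructor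
  · have h1 : ∑ x, ω x * ∑ l, ∑ j, (b10Xi p C J I (Q x) * PF) l j ^ 2 =
        ∑ j, 64 * ∑ x, ω x * ∑ l, (∑ i ∈ I, PF i j * b10G p C J (Q x) i l) ^ 2 := by
      have h2 : ∀ x, ∑ l, ∑ j, (b10Xi p C J I (Q x) * PF) l j ^ 2 =
          ∑ j, 64 * ∑ l, (∑ i ∈ I, PF i j * b10G p C J (Q x) i l) ^ 2 := by
        intro x
        rw [Finset.sum_comm]
        refine Finset.sum_congr rfl fun j _ => ?_
        rw [← b10_xi_sq p C J I (Q x) (fun i => PF i j)]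
        exact Finset.sum_congr rfl fun l _ => by rw [mul_apply]; rfl
      simp_rw [h2, Finset.mul_sum]
      rw [Finset.sum_comm]
      refine Finset.sum_congr rfl fun j _ => Finset.sum_congr rfl fun x _ =>
        Finset.sum_congr rfl fun l _ => ?_
      ring
    rw [h1, b10_trace hPF]
    calc ∑ j, 64 * ∑ x, ω x * ∑ l, (∑ i ∈ I, PF i j * b10G p C J (Q x) i l) ^ 2
        ≤ ∑ j, 64 * (2 ^ p * σ * ∑ i, PF i j ^ 2) := by
          refine Finset.sum_le_sum fun j _ => ?_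
          refine mul_le_mul_of_nonneg_left ((n1 (fun i => PF i j)).trans ?_) (by norm_num)
          refine mul_le_mul_of_nonneg_left ?_ (by positivity)
          exact Finset.sum_le_sum_of_subset_of_nonneg (Finset.subset_univ _)
            fun i _ _ => sq_nonneg _
      _ = 64 * (2 ^ p * σ * ∑ i, ∑ j, PF i j ^ 2) := by
          rw [Finset.sum_comm (f := fun i j => PF i j ^ 2), Finset.mul_sum, Finset.mul_sum]
  · calc ∑ x, ω x * ∑ l, ∑ j, b10Xi p C J I (Q x) l j ^ 2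
        = 64 * ∑ x, ω x * ∑ l, ∑ i ∈ I, b10G p C J (Q x) i l ^ 2 := by
          rw [Finset.mul_sum]
          refine Finset.sum_congr rfl fun x _ => ?_
          rw [b10_xi_hs]
          ring
      _ ≤ 64 * (2 ^ p * ∑ i ∈ I, b10len ((C * J) i) ^ 2) :=
          mul_le_mul_of_nonneg_left n2 (by norm_num)
      _ ≤ 64 * (2 ^ p * ∑ i, (C * J) i ⬝ᵥ (C * J) i) := by
          simp_rw [b10len_sq]
          refine mul_le_mul_of_nonneg_left (mul_le_mul_of_nonneg_left ?_ (by positivity))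
            (by norm_num)
          exact Finset.sum_le_sum_of_subset_of_nonneg (Finset.subset_univ _)
            fun i _ _ => b10_nn _

/-- The mean number of bad rows. -/
lemma b10_bad {n w d N p : ℕ} (hp : Odd p) (hpd : 50 * p ≤ d) (hN : 2 * p + 2 ≤ N) {ι : Type}
    [Fintype ι] {ω : ι → ℝ} {Q : ι → Matrix (Fin d) (Fin d) ℝ} (h : IsRot d N ω Q)
    {C : Matrix (Fin n) (Fin w) ℝ} {J : Matrix (Fin w) (Fin d) ℝ} (hJ : Jᵀ * J = 1)
    (hl : ∀ l, 1 / 3 ≤ J l ⬝ᵥ J l) (I : Finset (Fin n))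
    (hI : ∀ i ∈ I, 0 < (C * J) i ⬝ᵥ (C * J) i) {γ μ : ℝ} (hγ : 0 ≤ γ)
    (hμ : ∀ i, (C * J) i ⬝ᵥ (C * J) i ≤ μ) (hm : 1.01 ^ 2 * (γ ^ 2 * μ) * w ≤ 1 / 4 * p) :
    ∑ x, ω x * ((b10Bad p C J I γ (Q x)).card : ℝ) ≤ n * (20 * 2 ^ p * (γ ^ 2 * μ)) := by
  have hl0 : ∀ l, 0 < J l ⬝ᵥ J l := fun l => lt_of_lt_of_le (by norm_num) (hl l)
  have hπ : ∑ l, b10len (J l) ^ 2 = d := by
    simp_rw [b10len_sq]
    rw [b10_sum_row, hJ, trace_one, Fintype.card_fin]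
  have hfr : ∑ l, ∑ l', (b10len (J l) * b10len (J l') * (b10dir (J l) ⬝ᵥ b10dir (J l'))) ^ 2 = d := by
    rw [← b10_frame hJ]
    refine Finset.sum_congr rfl fun l _ => Finset.sum_congr rfl fun l' _ => ?_
    have h1 := b10_form (hl0 l) (hl0 l') 1
    rw [one_mulVec, one_mulVec] at h1
    rw [h1]
  have hkey : ∀ i ∈ I, ∑ x, ω x * (if 1 < ∑ l, |γ * b10P p C J (Q x) i l| then (1 : ℝ) else 0) ≤
      20 * 2 ^ p * (γ ^ 2 * μ) := by
    intro i hi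
    have hν : b10len ((C * J) i) ^ 2 ≤ μ := by rw [b10len_sq]; exact hμ i
    have h1 := bad_weight hp hpd hN h (b10dir_unit (hI i hi)) (fun l => b10dir (J l))
      (fun l => b10dir_unit (hl0 l)) (fun l => b10len (J l)) (fun l => b10len_nonneg _)
      (fun l => by rw [b10len_sq]; exact hl l) hπ hfr hγ (b10len_nonneg ((C * J) i)) (by
        refine le_trans ?_ hm
        rw [mul_pow]
        gcongr)
    have h2 : ∑ x, ω x * (if 1 < ∑ l, |γ * b10P p C J (Q x) i l| then (1 : ℝ) else 0) =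
        ∑ x ∈ Finset.univ.filter (fun x => 1 < ∑ l, |γ * (b10len ((C * J) i) * b10len (J l) *
          phi d p (b10dir ((C * J) i) ⬝ᵥ Q x *ᵥ b10dir (J l)))|), ω x := by
      rw [Finset.sum_filter]
      refine Finset.sum_congr rfl fun x _ => ?_
      rw [mul_ite, mul_one, mul_zero]
      rfl
    rw [h2]
    refine h1.trans ?_
    rw [mul_pow]
    gcongr
  have hcard : ∀ x, ((b10Bad p C J I γ (Q x)).card : ℝ) =
      ∑ i ∈ I, (if 1 < ∑ l, |γ * b10P p C J (Q x) i l| then (1 : ℝ) else 0) := by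
    intro x
    unfold b10Bad
    rw [Finset.card_filter]
    push_cast
    rfl
  simp_rw [hcard, Finset.mul_sum]
  rw [Finset.sum_comm]
  have hc0 : 0 ≤ 20 * 2 ^ p * (γ ^ 2 * μ) ∨ I = ∅ := by
    rcases I.eq_empty_or_nonempty with h1 | ⟨i, hi⟩
    · exact Or.inr h1
    · left
      have : 0 < μ := (hI i hi).trans_le (hμ i)
      positivity
  rcases hc0 with hc0 | hc0
  · calc ∑ i ∈ I, ∑ x, ω x * (if 1 < ∑ l, |γ * b10P p C J (Q x) i l| then (1 : ℝ) else 0)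
        ≤ ∑ _i ∈ I, 20 * 2 ^ p * (γ ^ 2 * μ) := Finset.sum_le_sum hkey
      _ = I.card * (20 * 2 ^ p * (γ ^ 2 * μ)) := by rw [Finset.sum_const, nsmul_eq_mul]
      _ ≤ n * (20 * 2 ^ p * (γ ^ 2 * μ)) := by
          refine mul_le_mul_of_nonneg_right ?_ hc0
          have := Finset.card_le_univ I
          rw [Fintype.card_fin] at this
          exact_mod_cast this
  · subst hc0
    rw [Finset.sum_empty]
    rcases Nat.eq_zero_or_pos n with h1 | h1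
    · subst h1; simp
    · have h2 : 0 ≤ μ := (b10_nn _).trans (hμ ⟨0, h1⟩)
      positivity

/-! ### The assembly -/

/-- The row sums of the cubes. -/
lemma b10_sigma {n w d : ℕ} {C : Matrix (Fin n) (Fin w) ℝ} {D : Matrix (Fin w) (Fin w) ℝ}
    (hD : D.PosSemidef) (hCD : Cᵀ * C + D * D = 1) {E δ η : ℝ} {Q0 : ℕ} (hE : 0 < E)
    (Sat : Finset (Fin n))
    (hlight : ∀ v : Fin w → ℝ, v ⬝ᵥ v = 1 → ∀ Q : Finset (Fin n), Disjoint Q Sat → Q.card ≤ Q0 →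
      ∑ i ∈ Q, |(C *ᵥ v) i| ≤ Real.sqrt (δ * Q0))
    (hδ : 0 ≤ δ) (hQ0 : 0 < Q0) (hQ1 : E ≤ Q0) (hQ2 : (Q0 : ℝ) ≤ 2 * E) (hη : 0 < η) (hη1 : η ≤ 1)
    {J : Matrix (Fin w) (Fin d) ℝ} (hJ : Jᵀ * J = 1)
    (hμ : ∀ i, (C * J) i ⬝ᵥ (C * J) i ≤ 2 / E) :
    ∀ i ∈ b10I C J Sat (η / E), ∑ j ∈ b10I C J Sat (η / E),
      b10len ((C * J) i) * b10len ((C * J) j) *
        |b10dir ((C * J) i) ⬝ᵥ b10dir ((C * J) j)| ^ 3 ≤ 4 * Real.sqrt δ / η := by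
  intro i hi
  have hpos : ∀ j ∈ b10I C J Sat (η / E), 0 < (C * J) j ⬝ᵥ (C * J) j := by
    intro j hj
    have h1 := (Finset.mem_filter.1 hj).2
    exact lt_of_lt_of_le (by positivity) h1
  have hai := b10dir_unit (hpos i hi)
  have hv : (J *ᵥ b10dir ((C * J) i)) ⬝ᵥ (J *ᵥ b10dir ((C * J) i)) = 1 := by
    rw [b10_iso hJ, hai]
  refine cubic_sum (b10I C J Sat (η / E)) (fun j => (C *ᵥ (J *ᵥ b10dir ((C * J) i))) j)
    (fun j => b10len ((C * J) j)) (fun j => b10dir ((C * J) i) ⬝ᵥ b10dir ((C * J) j)) hE hδ hη hη1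
    hQ1 hQ2 hQ0 ?_ (fun j => b10len_nonneg _) ?_ ?_ ?_ ?_ (b10len_nonneg _) ?_
  · intro j hj
    rw [b10_kappa]
    conv_lhs => rw [← b10len_smul (hpos j hj)]
    rw [smul_dotProduct, smul_eq_mul, dotProduct_comm (b10dir ((C * J) j))]
  · intro j hj
    rw [b10len_sq]
    exact (Finset.mem_filter.1 hj).2
  · intro j hj
    exact b10_cs hai (b10dir_unit (hpos j hj))
  · have h1 := b10_C hD hCD (J *ᵥ b10dir ((C * J) i))
    rw [hv] at h1
    refine le_trans ?_ h1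
    unfold dotProduct
    calc ∑ j ∈ b10I C J Sat (η / E), (C *ᵥ (J *ᵥ b10dir ((C * J) i))) j ^ 2
        ≤ ∑ j, (C *ᵥ (J *ᵥ b10dir ((C * J) i))) j ^ 2 :=
          Finset.sum_le_sum_of_subset_of_nonneg (Finset.subset_univ _) fun j _ _ => sq_nonneg _
      _ = _ := Finset.sum_congr rfl fun j _ => sq _
  · intro Q hQ hcard
    refine hlight _ hv Q ?_ hcard
    refine Finset.disjoint_left.2 fun j hj hjS => ?_
    have h1 := (Finset.mem_filter.1 (hQ hj)).1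
    exact (Finset.mem_sdiff.1 h1).2 hjS
  · rw [b10len_sq]; exact hμ i

/-- Block RU-B10. -/
theorem signals {n w : ℕ} {C : Matrix (Fin n) (Fin w) ℝ} {D : Matrix (Fin w) (Fin w) ℝ}
    (hD : D.PosSemidef) (hCD : Cᵀ * C + D * D = 1) (hdiag : ∀ l, (D * D) l l ≤ 1 / 2)
    {E δ η h gf f : ℝ} {Q0 p : ℕ} (hE : 0 < E) (hrow : ∀ i, ∑ l, C i l ^ 2 ≤ 2 / E)
    (hw : (w : ℝ) ≤ 4 * n / E) (Sat : Finset (Fin n))
    (hlight : ∀ v : Fin w → ℝ, v ⬝ᵥ v = 1 → ∀ Q : Finset (Fin n), Disjoint Q Sat → Q.card ≤ Q0 →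
      ∑ i ∈ Q, |(C *ᵥ v) i| ≤ Real.sqrt (δ * Q0))
    (hδ : 0 ≤ δ) (hQ0 : 0 < Q0) (hQ1 : E ≤ Q0) (hQ2 : (Q0 : ℝ) ≤ 2 * E)
    {F : Matrix (Fin n) (Fin n) ℝ} (hF : IsProj F) (hFt : F.trace ≤ f)
    (hp : Odd p) (hpE : 4608 * (n : ℝ) ≤ p * E ^ 3) (hη : 0 < η) (hη1 : η ≤ 1) (hh : 0 < h)
    (hgf : h ^ 2 * gf ≤ E) :
    ∃ (ρ : Matrix (Fin n) (Fin w) ℝ) (U : Matrix (Fin w) (Fin w) ℝ),
      (∀ i, ∑ l, |ρ i l| ≤ 1) ∧ IsProj U ∧
      U.trace ≤ 150 * p + 10240 * 2 ^ p * n / E ^ 2 + 1296 * (2 * Sat.card / E + n * η / E) +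
        1296 * (256 * 2 ^ p * (f + w) * (4 * Real.sqrt δ / η)) + 256 * 2 ^ p * w / h ^ 2 ∧
      ∀ (α : Fin n → ℝ) (β : Fin w → ℝ), Cᵀ *ᵥ α + D *ᵥ β = 0 → α ⬝ᵥ α + β ⬝ᵥ β ≤ E →
        ((1 - F) *ᵥ α) ⬝ᵥ ((1 - F) *ᵥ α) ≤ gf →
        ∃ v : Fin w → ℝ, v ⬝ᵥ v ≤ 289 * E ∧
          (1 - U) *ᵥ ((Real.sqrt E • ρᵀ) *ᵥ (α + C *ᵥ v) - β - D *ᵥ v) = 0 := by
  classical
  have hf0 : 0 ≤ f := (b10_trace_nonneg hF).trans hFt
  have hδη : 0 ≤ 4 * Real.sqrt δ / η := by positivity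
  rcases lt_or_ge w (150 * p) with hwp | hwp
  · -- few sinks
    refine ⟨0, 1, ?_, ⟨transpose_one, Matrix.one_mul 1⟩, ?_, ?_⟩
    · intro i
      simp
    · rw [trace_one, Fintype.card_fin]
      have h1 : (w : ℝ) ≤ 150 * p := by exact_mod_cast hwp.le
      have h2 : 0 ≤ 10240 * 2 ^ p * (n : ℝ) / E ^ 2 := by positivity
      have h3 : 0 ≤ 1296 * (2 * (Sat.card : ℝ) / E + n * η / E) := by positivity
      have h4 : 0 ≤ 1296 * (256 * 2 ^ p * (f + w) * (4 * Real.sqrt δ / η)) := by positivity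
      have h5 : 0 ≤ 256 * 2 ^ p * (w : ℝ) / h ^ 2 := by positivity
      linarith
    · intro α β _ _ _
      refine ⟨0, ?_, ?_⟩
      · rw [dotProduct_zero]; positivity
      · rw [sub_self, zero_mulVec]
  -- many sinks
  obtain ⟨d, J, hJ⟩ := exists_split hD hdiag
  have hp1 : 1 ≤ p := hp.pos
  have hpd : 50 * p ≤ d := by
    have h1 : (150 * p : ℝ) ≤ 3 * d := le_trans (by exact_mod_cast hwp) hJ.dim
    have h2 : 150 * p ≤ 3 * d := by exact_mod_cast h1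
    omega
  have hd : 0 < d := by omega
  have hl0 : ∀ l, 0 < J l ⬝ᵥ J l := fun l => lt_of_lt_of_le (by norm_num) (hJ.row l)
  obtain ⟨k, ω, Q, hrot⟩ := exists_rot hd (2 * p + 2)
  set I := b10I C J Sat (η / E) with hIdef
  have hI : ∀ i ∈ I, 0 < (C * J) i ⬝ᵥ (C * J) i := by
    intro i hi
    have h1 := (Finset.mem_filter.1 hi).2
    exact lt_of_lt_of_le (by positivity) h1
  have hμ : ∀ i, (C * J) i ⬝ᵥ (C * J) i ≤ 2 / E := fun i =>
    (b10_len_le C hJ.orth i).trans (hrow i)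
  -- the space
  obtain ⟨UC, hUC, hUCt, hUCc⟩ := exists_range C Finset.univ
  obtain ⟨PF, hPF, hPF1, hPF2, hPFt⟩ := exists_join hF hUC
  have hUCC : UC * C = C := by
    ext i j
    have h1 := congrFun (hUCc (Pi.single j 1) (fun i hi => absurd (Finset.mem_univ i) hi)) i
    rw [mulVec_mulVec, mulVec_single_one, mulVec_single_one] at h1
    exact h1
  have hPFC : PF * C = C := by
    rw [← hUCC, ← Matrix.mul_assoc, hPF2]
  have hPFtr : PF.trace ≤ f + w := by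
    rw [Finset.card_univ, Fintype.card_fin] at hUCt
    linarith
  -- the means
  have hσ := b10_sigma hD hCD hE Sat hlight hδ hQ0 hQ1 hQ2 hη hη1 hJ.orth hμ
  obtain ⟨hmean2, hmean3⟩ := b10_mean (N := 2 * p + 2) hd hp (by omega) hrot hJ.orth hl0 I hI hδη hσ hPF
  have hsE : 0 < Real.sqrt E := Real.sqrt_pos.2 hE
  have hsE2 : Real.sqrt E ^ 2 = E := Real.sq_sqrt hE.le
  have hγ2 : (8 / Real.sqrt E) ^ 2 * (2 / E) = 128 / E ^ 2 := by
    rw [div_pow, hsE2]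
    field_simp
    norm_num
  have hmean1 := b10_bad (N := 2 * p + 2) (γ := 8 / Real.sqrt E) (μ := 2 / E) hp hpd le_rfl hrot
    hJ.orth hJ.row I hI (by positivity) hμ (by
      rw [hγ2]
      have h1 : (w : ℝ) * E ≤ 4 * n := by
        rw [le_div_iff₀ hE] at hw
        exact hw
      have h2 : 1.01 ^ 2 * (128 / E ^ 2) * (w : ℝ) = 1.01 ^ 2 * 128 * (w * E) / E ^ 3 := by
        field_simp
      rw [h2, div_le_iff₀ (by positivity)]
      have h3 : (0 : ℝ) ≤ n := by positivity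
      nlinarith)
  rw [hγ2] at hmean1
  obtain ⟨x, hx1, hx2, hx3⟩ := b10_three hrot.nonneg hrot.sum_one
    (q1 := fun x => ((b10Bad p C J I (8 / Real.sqrt E) (Q x)).card : ℝ))
    (q2 := fun x => ∑ l, ∑ j, (b10Xi p C J I (Q x) * PF) l j ^ 2)
    (q3 := fun x => ∑ l, ∑ j, b10Xi p C J I (Q x) l j ^ 2)
    (fun x => by positivity) (fun x => by positivity) (fun x => by positivity) hmean1 hmean2 hmean3
  have hQx := hrot.orth x
  set Bad := b10Bad p C J I (8 / Real.sqrt E) (Q x) with hBad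
  set Ξ := b10Xi p C J I (Q x) with hΞdef
  set Z : Matrix (Fin w) (Fin n) ℝ := J * (Q x)ᵀ * Jᵀ * Cᵀ with hZ
  -- the pieces
  set X : Matrix (Fin w) (Fin n) ℝ := Matrix.of fun l i => if i ∈ I then 0 else Z l i with hX
  set TB : Matrix (Fin w) (Fin n) ℝ :=
    Matrix.of fun l i => if i ∈ Bad then 8 * b10P p C J (Q x) i l else 0 with hTB
  set ρ : Matrix (Fin n) (Fin w) ℝ := Matrix.of fun i l =>
    if i ∈ I ∧ i ∉ Bad then 8 / Real.sqrt E * b10P p C J (Q x) i l else 0 with hρ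
  obtain ⟨U1, hU1, hU1t, hU1r⟩ := exists_range TB Bad
  obtain ⟨U2, hU2, hU2t, hU2r⟩ := exists_exceptional X (h := 1 / 36) (by norm_num)
  obtain ⟨U3, hU3, hU3t, hU3r⟩ := exists_exceptional (Ξ * PF) (h := 1 / 36) (by norm_num)
  obtain ⟨U4, hU4, hU4t, hU4r⟩ := exists_exceptional Ξ hh
  obtain ⟨Va, hVa, hVa1, hVa2, hVat⟩ := exists_join hU1 hU2
  obtain ⟨Vb, hVb, hVb1, hVb2, hVbt⟩ := exists_join hU3 hU4
  obtain ⟨U, hU, hUa, hUb, hUt⟩ := exists_join hVa hVb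
  have hUU1 : U * U1 = U1 := by rw [← hVa1, ← Matrix.mul_assoc, hUa]
  have hUU2 : U * U2 = U2 := by rw [← hVa2, ← Matrix.mul_assoc, hUa]
  have hUU3 : U * U3 = U3 := by rw [← hVb1, ← Matrix.mul_assoc, hUb]
  have hUU4 : U * U4 = U4 := by rw [← hVb2, ← Matrix.mul_assoc, hUb]
  refine ⟨ρ, U, ?_, hU, ?_, ?_⟩
  · -- the budget
    intro i
    by_cases hi : i ∈ I ∧ i ∉ Bad
    · have h1 : ∀ l, ρ i l = 8 / Real.sqrt E * b10P p C J (Q x) i l := fun l => by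
        show (if i ∈ I ∧ i ∉ Bad then _ else _) = _
        rw [if_pos hi]
      simp_rw [h1]
      by_contra hcon
      push Not at hcon
      exact hi.2 (Finset.mem_filter.2 ⟨hi.1, hcon⟩)
    · have h1 : ∀ l, ρ i l = 0 := fun l => by
        show (if i ∈ I ∧ i ∉ Bad then _ else _) = _
        rw [if_neg hi]
      simp [h1]
  · -- the dimension
    have t1 : U1.trace ≤ 10240 * 2 ^ p * n / E ^ 2 := by
      refine hU1t.trans (hx1.trans (le_of_eq ?_))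
      ring
    have t2 : U2.trace ≤ 1296 * (2 * Sat.card / E + n * η / E) := by
      have h1 : ∑ l, ∑ i, X l i ^ 2 ≤ 2 * Sat.card / E + n * η / E := by
        rw [Finset.sum_comm]
        have h2 : ∀ i, ∑ l, X l i ^ 2 ≤ (if i ∈ Sat then 2 / E else 0) + η / E := by
          intro i
          have hηE : 0 ≤ η / E := by positivity
          by_cases hi : i ∈ I
          · have h3 : ∀ l, X l i = 0 := fun l => by
              show (if i ∈ I then (0 : ℝ) else _) = _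
              rw [if_pos hi]
            simp only [h3]
            have h4 : (0 : ℝ) ≤ if i ∈ Sat then 2 / E else 0 := by split_ifs <;> positivity
            have h5 : ∑ _l : Fin w, (0 : ℝ) ^ 2 = 0 := by simp
            rw [h5]
            linarith
          · have h3 : ∀ l, X l i = Z l i := fun l => by
              show (if i ∈ I then (0 : ℝ) else _) = _
              rw [if_neg hi]
            simp only [h3]
            rw [hZ, b10_col C hJ.orth hQx i]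
            by_cases hS : i ∈ Sat
            · rw [if_pos hS]
              linarith [hμ i]
            · rw [if_neg hS]
              have h6 : ¬ (η / E ≤ (C * J) i ⬝ᵥ (C * J) i) := fun h7 =>
                hi (Finset.mem_filter.2 ⟨Finset.mem_sdiff.2 ⟨Finset.mem_univ _, hS⟩, h7⟩)
              linarith
        refine (Finset.sum_le_sum fun i _ => h2 i).trans (le_of_eq ?_)
        rw [Finset.sum_add_distrib, Finset.sum_const, Finset.card_univ, Fintype.card_fin,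
          Finset.sum_ite_mem, Finset.univ_inter, Finset.sum_const, nsmul_eq_mul, nsmul_eq_mul]
        ring
      have h3 := hU2t.trans h1
      linarith
    have t3 : U3.trace ≤ 1296 * (256 * 2 ^ p * (f + w) * (4 * Real.sqrt δ / η)) := by
      have h1 := hU3t.trans hx2
      have h2 : 4 * (64 * (2 ^ p * (4 * Real.sqrt δ / η) * PF.trace)) ≤
          256 * 2 ^ p * (f + w) * (4 * Real.sqrt δ / η) := by
        have h3 : 4 * (64 * (2 ^ p * (4 * Real.sqrt δ / η) * PF.trace)) =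
            256 * 2 ^ p * PF.trace * (4 * Real.sqrt δ / η) := by ring
        rw [h3]
        gcongr
      linarith
    have t4 : U4.trace ≤ 256 * 2 ^ p * w / h ^ 2 := by
      rw [le_div_iff₀ (by positivity)]
      refine (hU4t.trans hx3).trans ?_
      have h1 : ∑ i, (C * J) i ⬝ᵥ (C * J) i ≤ w :=
        (b10_sum_len hD hCD hJ.orth).trans (by exact_mod_cast hJ.dim')
      have h2 : 4 * (64 * (2 ^ p * ∑ i, (C * J) i ⬝ᵥ (C * J) i)) =
          256 * 2 ^ p * ∑ i, (C * J) i ⬝ᵥ (C * J) i := by ring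
      rw [h2]
      gcongr
    have hp0 : (0 : ℝ) ≤ 150 * p := by positivity
    linarith
  · -- the equation
    intro α β h1 h2 h3
    have hTBU : (1 - U) * TB = 0 := by
      have h4 : U1 * TB = TB := by
        ext l i
        by_cases hi : i ∈ Bad
        · have h5 := congrFun (hU1r (Pi.single i 1) (fun j hj => by
            rw [Pi.single_apply, if_neg]
            rintro rfl
            exact hj hi)) l
          rw [mulVec_mulVec, mulVec_single_one, mulVec_single_one] at h5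
          exact h5
        · have h5 : ∀ l, TB l i = 0 := fun l => by
            show (if i ∈ Bad then _ else _) = _
            rw [if_neg hi]
          rw [mul_apply, h5]
          exact Finset.sum_eq_zero fun l' _ => by rw [h5, mul_zero]
      rw [← h4, ← Matrix.mul_assoc, sub_mul, hUU1, Matrix.one_mul, sub_self, Matrix.zero_mul]
    have hTeq : Real.sqrt E • ρᵀ = (8 : ℝ) • (J * (Q x)ᵀ * Jᵀ * Cᵀ) - (8 : ℝ) • X + Ξ - TB := by
      ext l i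
      rw [← hZ]
      show Real.sqrt E * (if i ∈ I ∧ i ∉ Bad then 8 / Real.sqrt E * b10P p C J (Q x) i l else 0) =
        8 * Z l i - 8 * (if i ∈ I then 0 else Z l i) +
          (if i ∈ I then 8 * b10G p C J (Q x) i l else 0) -
            (if i ∈ Bad then 8 * b10P p C J (Q x) i l else 0)
      by_cases hi : i ∈ I
      · have h4 := b10_PG p C J (Q x) (hI i hi) (hl0 l)
        rw [← hZ] at h4
        by_cases hb : i ∈ Bad
        · rw [if_neg (fun h5 => h5.2 hb), if_pos hi, if_pos hi, if_pos hb, h4]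
          ring
        · rw [if_pos ⟨hi, hb⟩, if_pos hi, if_pos hi, if_neg hb, h4]
          field_simp
          ring
      · have hb : i ∉ Bad := fun h5 => hi (Finset.mem_filter.1 h5).1
        rw [if_neg (fun h5 => hi h5.1), if_neg hi, if_neg hi, if_neg hb]
        ring
    refine solve_final hD hCD hJ hQx hU hPFC hE hh hTeq hTBU (fun y => ?_) (fun y => ?_)
      (fun y => ?_) hgf h1 h2 ?_
    · exact (b10_join hU hUU2 _).trans (hU2r y)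
    · have h4 := hU3r y
      rw [← mulVec_mulVec] at h4
      exact (b10_join hU hUU3 _).trans h4
    · exact (b10_join hU hUU4 _).trans (hU4r y)
    · exact (b10_join hPF hPF1 _).trans h3

end Pool.Agent.RU
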