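import Pool.Agent.Helper96.RU.Defs

/-!
# Block RU-B3 (MP_a64d16_an): the cubic row sum of a light family

`κ j = ν j R j`, `ν j^2 ≥ η/E`, `|R j| ≤ 1`, `∑ κ^2 ≤ 1`, and every set `Q ⊆ I` of at most `Q0`
indices has `∑_Q |κ| ≤ √(δ Q0)`. Claim: `∑_I μ ν_j |R_j|^3 ≤ 4 √δ/η` for `0 ≤ μ ≤ √(2/E)`.
Proof. Let `Q ⊆ I` be the set of the `min(Q0, |I|)` largest `|κ j|` (e.g. `Q` of maximal sum among
the subsets of cardinality `≤ Q0`, or of that cardinality exactly). On `Q`: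
`ν |R|^3 ≤ ν |R| = |κ|`, total `≤ √(δ Q0)`. Outside `Q` (then `|Q| = Q0 ≥ 1`):
`Q0 |κ j| ≤ ∑_Q |κ| ≤ √(δ Q0)`, so `|κ j| ≤ √(δ/Q0)`, and
`ν |R|^3 = |κ| R^2 = κ^2 |κ| / ν^2 ≤ κ^2 √(δ/Q0) E/η`, total `≤ √(δ/Q0) E/η`. With `E ≤ Q0 ≤ 2E`:
`√(2/E) (√(2 δ E) + √(δ/E) E/η) = 2 √δ + √2 √δ/η ≤ 4 √δ/η`.
-/

namespace Pool.Agent.RU

open Matrix Module

/-- Block RU-B3. -/
theorem cubic_sum {n : ℕ} (I : Finset (Fin n)) (κ ν R : Fin n → ℝ) {E δ η μ : ℝ} {Q0 : ℕ}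
    (hE : 0 < E) (hδ : 0 ≤ δ) (hη : 0 < η) (hη1 : η ≤ 1) (hQ1 : E ≤ Q0) (hQ2 : (Q0 : ℝ) ≤ 2 * E)
    (hQ0 : 0 < Q0) (hκ : ∀ j ∈ I, κ j = ν j * R j) (hν0 : ∀ j, 0 ≤ ν j)
    (hν : ∀ j ∈ I, η / E ≤ ν j ^ 2) (hR : ∀ j ∈ I, |R j| ≤ 1) (hsum : ∑ j ∈ I, κ j ^ 2 ≤ 1)
    (hlight : ∀ Q ⊆ I, Q.card ≤ Q0 → ∑ j ∈ Q, |κ j| ≤ Real.sqrt (δ * Q0))
    (hμ0 : 0 ≤ μ) (hμ : μ ^ 2 ≤ 2 / E) :
    ∑ j ∈ I, μ * ν j * |R j| ^ 3 ≤ 4 * Real.sqrt δ / η := by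
  classical
  have hQ0' : (0 : ℝ) < Q0 := by exact_mod_cast hQ0
  have hs : μ * Real.sqrt (δ * Q0) ≤ 2 * Real.sqrt δ := by
    have e1 : μ = Real.sqrt (μ ^ 2) := (Real.sqrt_sq hμ0).symm
    rw [e1, ← Real.sqrt_mul (sq_nonneg μ)]
    have e2 : 2 * Real.sqrt δ = Real.sqrt (4 * δ) := by
      rw [show (4:ℝ) * δ = 2 ^ 2 * δ by ring, Real.sqrt_mul (by norm_num), Real.sqrt_sq (by norm_num)]
    rw [e2]
    apply Real.sqrt_le_sqrt
    calc μ ^ 2 * (δ * Q0) ≤ (2 / E) * (δ * (2 * E)) := by gcongr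
      _ = 4 * δ := by field_simp; ring
  have hs0 : 0 ≤ Real.sqrt (δ * Q0) := Real.sqrt_nonneg _
  have hd0 : 0 ≤ Real.sqrt δ := Real.sqrt_nonneg _
  have hd1 : Real.sqrt δ ≤ Real.sqrt δ / η := by
    rw [le_div_iff₀ hη]
    exact mul_le_of_le_one_right hd0 hη1
  have habs : ∀ j ∈ I, |κ j| = ν j * |R j| := by
    intro j hj
    rw [hκ j hj, abs_mul, abs_of_nonneg (hν0 j)]
  have hpt : ∀ j ∈ I, μ * ν j * |R j| ^ 3 ≤ μ * |κ j| := by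
    intro j hj
    rw [habs j hj, mul_assoc]
    apply mul_le_mul_of_nonneg_left _ hμ0
    apply mul_le_mul_of_nonneg_left _ (hν0 j)
    exact pow_le_of_le_one (abs_nonneg _) (hR j hj) (by norm_num)
  -- sums over small sets
  have hsmall : ∀ Q ⊆ I, Q.card ≤ Q0 → ∑ j ∈ Q, μ * ν j * |R j| ^ 3 ≤ 2 * Real.sqrt δ := by
    intro Q hQ hc
    calc ∑ j ∈ Q, μ * ν j * |R j| ^ 3 ≤ ∑ j ∈ Q, μ * |κ j| := Finset.sum_le_sum fun j hj => hpt j (hQ hj)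
      _ = μ * ∑ j ∈ Q, |κ j| := by rw [Finset.mul_sum]
      _ ≤ μ * Real.sqrt (δ * Q0) := mul_le_mul_of_nonneg_left (hlight Q hQ hc) hμ0
      _ ≤ _ := hs
  have hfin : 4 * Real.sqrt δ / η = 4 * (Real.sqrt δ / η) := by ring
  rcases le_or_gt I.card Q0 with hI | hI
  · have := hsmall I (Finset.Subset.refl I) hI
    rw [hfin]
    linarith
  · obtain ⟨Q, hQ, hmax⟩ := Finset.exists_max_image (I.powersetCard Q0) (fun Q => ∑ j ∈ Q, |κ j|)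
      (Finset.powersetCard_nonempty.mpr hI.le)
    rw [Finset.mem_powersetCard] at hQ
    obtain ⟨hQI, hQc⟩ := hQ
    have hswap : ∀ j ∈ I \ Q, ∀ i ∈ Q, |κ j| ≤ |κ i| := by
      intro j hj i hi
      rw [Finset.mem_sdiff] at hj
      have hji : j ∉ Q.erase i := fun h => hj.2 (Finset.mem_of_mem_erase h)
      have h1 := hmax (insert j (Q.erase i)) (by
        rw [Finset.mem_powersetCard]
        refine ⟨?_, ?_⟩
        · intro x hx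
          rw [Finset.mem_insert] at hx
          rcases hx with rfl | hx
          · exact hj.1
          · exact hQI (Finset.mem_of_mem_erase hx)
        · rw [Finset.card_insert_of_notMem hji, Finset.card_erase_of_mem hi, hQc]
          omega)
      rw [Finset.sum_insert hji, ← Finset.add_sum_erase Q (fun j => |κ j|) hi] at h1
      linarith
    have hout : ∀ j ∈ I \ Q, (Q0 : ℝ) * |κ j| ≤ Real.sqrt (δ * Q0) := by
      intro j hj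
      have h1 : ∑ i ∈ Q, |κ j| ≤ ∑ i ∈ Q, |κ i| := Finset.sum_le_sum fun i hi => hswap j hj i hi
      rw [Finset.sum_const, hQc, nsmul_eq_mul] at h1
      exact h1.trans (hlight Q hQI hQc.le)
    have hpt2 : ∀ j ∈ I \ Q, μ * ν j * |R j| ^ 3 ≤ κ j ^ 2 * (2 * (Real.sqrt δ / η)) := by
      intro j hj
      have hjI : j ∈ I := (Finset.mem_sdiff.mp hj).1
      have hν2 : 0 < ν j ^ 2 := lt_of_lt_of_le (by positivity) (hν j hjI)
      have e1 : μ * ν j * |R j| ^ 3 = κ j ^ 2 * (μ * |κ j| / ν j ^ 2) := by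
        have hνj : ν j ≠ 0 := fun h => by rw [h] at hν2; norm_num at hν2
        rw [← sq_abs (κ j), habs j hjI]
        field_simp
      rw [e1]
      apply mul_le_mul_of_nonneg_left _ (sq_nonneg _)
      rw [div_le_iff₀ hν2]
      have h2 : |κ j| ≤ Real.sqrt (δ * Q0) / Q0 := by
        rw [le_div_iff₀ hQ0', mul_comm]
        exact hout j hj
      calc μ * |κ j| ≤ μ * (Real.sqrt (δ * Q0) / Q0) := mul_le_mul_of_nonneg_left h2 hμ0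
        _ = (μ * Real.sqrt (δ * Q0)) * (1 / Q0) := by ring
        _ ≤ (2 * Real.sqrt δ) * (1 / E) := by gcongr
        _ = 2 * (Real.sqrt δ / η) * (η / E) := by field_simp
        _ ≤ 2 * (Real.sqrt δ / η) * ν j ^ 2 := by
          have := hν j hjI
          gcongr
    have hsum2 : ∑ j ∈ I \ Q, κ j ^ 2 ≤ 1 :=
      le_trans (Finset.sum_le_sum_of_subset_of_nonneg Finset.sdiff_subset fun j _ _ => sq_nonneg _) hsum
    have h3 : ∑ j ∈ I \ Q, μ * ν j * |R j| ^ 3 ≤ 2 * (Real.sqrt δ / η) := by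
      calc ∑ j ∈ I \ Q, μ * ν j * |R j| ^ 3 ≤ ∑ j ∈ I \ Q, κ j ^ 2 * (2 * (Real.sqrt δ / η)) :=
            Finset.sum_le_sum hpt2
        _ = (∑ j ∈ I \ Q, κ j ^ 2) * (2 * (Real.sqrt δ / η)) := by rw [Finset.sum_mul]
        _ ≤ 1 * (2 * (Real.sqrt δ / η)) := by gcongr
        _ = _ := one_mul _
    have h4 := hsmall Q hQI hQc.le
    rw [← Finset.sum_sdiff hQI, hfin]
    linarith

end Pool.Agent.RU
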