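import Pool.Agent.Helper96.RU.Defs
import Pool.Agent.Helper88.SA.SD
import Pool.Agent.Helper88.SA.BS

/-!
# Block RU-C1 (MP_a64d16_an): from approximate representations to the basis (helper88)

Proof: Part C of `/team-store/h96_U_README.md`: perturbation `y i + ε r e_i` (invertible, in `4 B`),
`K' = 4 Y⁻¹ B`, saddle (Pool/Agent/Helper88/SA/SD.lean) with threshold `1/κ`, bound of
`d = tr (N S)` by `dim L + κ · 64 H`, basis (Pool/Agent/Helper88/SA/BS.lean).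
-/

namespace Pool.Agent.RU

open Matrix Module Pool.Agent.Cube Filter Topology

/-- The matrix with the columns `y i`. -/
def cmat {n : ℕ} (y : Fin n → Fin n → ℝ) : Matrix (Fin n) (Fin n) ℝ := Matrix.of fun k i => y i k

theorem cmat_mulVec {n : ℕ} (y : Fin n → Fin n → ℝ) (a : Fin n → ℝ) :
    cmat y *ᵥ a = ∑ i, a i • y i := by
  funext k
  simp [cmat, mulVec, dotProduct, Finset.sum_apply, mul_comm]

theorem c1_frob {n : ℕ} (M : Matrix (Fin n) (Fin n) ℝ) (a : Fin n → ℝ) :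
    ∑ i, (M *ᵥ a) i ^ 2 ≤ (∑ i, ∑ j, M i j ^ 2) * ∑ j, a j ^ 2 := by
  rw [Finset.sum_mul]
  refine Finset.sum_le_sum fun i _ => ?_
  exact Finset.sum_mul_sq_le_sq_mul_sq Finset.univ (fun j => M i j) a

/-- Perturbation. -/
theorem c1_perturb {n : ℕ} {B : Set (Fin n → ℝ)}
    (hconv : Convex ℝ B) (hsymm : ∀ z ∈ B, -z ∈ B) {r : ℝ} (hr : 0 < r)
    (hB : ∀ i : Fin n, Pi.single i r ∈ B) (y : Fin n → Fin n → ℝ)
    (hy : ∀ i, (1 / 3 : ℝ) • y i ∈ B) (L : Submodule ℝ (Fin n → ℝ)) {H : ℝ}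
    (happ : ∀ z ∈ B, ∃ a : Fin n → ℝ, ∑ i, a i ^ 2 ≤ H ∧ (∑ i, a i • y i - z) ∈ L) :
    ∃ y' : Fin n → Fin n → ℝ, (∀ i, (1 / 4 : ℝ) • y' i ∈ B) ∧ IsUnit (cmat y').det ∧
      ∀ z ∈ B, ∃ a : Fin n → ℝ, ∑ i, a i ^ 2 ≤ 4 * H ∧ (∑ i, a i • y' i - z) ∈ L := by
  -- a linear right inverse modulo `L`
  have h1 : ∀ i, ∃ a : Fin n → ℝ, (∑ j, a j • y j - Pi.single i r) ∈ L := fun i => by
    obtain ⟨a, -, ha⟩ := happ _ (hB i)
    exact ⟨a, ha⟩
  choose α hα using h1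
  set R0 : Matrix (Fin n) (Fin n) ℝ := r⁻¹ • cmat α with hR0
  set Y := cmat y with hY
  have hRe : ∀ i, (Y * R0 - 1) *ᵥ Pi.single i 1 ∈ L := by
    intro i
    have e1 : R0 *ᵥ Pi.single i 1 = r⁻¹ • α i := by
      rw [hR0, smul_mulVec, cmat_mulVec, Finset.sum_eq_single i]
      · rw [Pi.single_eq_same, one_smul]
      · intro j _ hj
        rw [Pi.single_eq_of_ne hj, zero_smul]
      · intro h; exact absurd (Finset.mem_univ i) h
    have e2 : (Y * R0 - 1) *ᵥ Pi.single i 1 =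
        r⁻¹ • (∑ j, α i j • y j - (Pi.single i r : Fin n → ℝ)) := by
      rw [sub_mulVec, ← mulVec_mulVec, e1, one_mulVec, mulVec_smul, hY, cmat_mulVec, smul_sub]
      congr 1
      funext k
      by_cases hk : k = i
      · subst hk
        rw [Pi.smul_apply, Pi.single_eq_same, Pi.single_eq_same, smul_eq_mul,
          inv_mul_cancel₀ hr.ne']
      · rw [Pi.smul_apply, Pi.single_eq_of_ne hk, Pi.single_eq_of_ne hk, smul_zero]
    rw [e2]
    exact Submodule.smul_mem _ _ (hα i)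
  have hR : ∀ z : Fin n → ℝ, (Y * R0 - 1) *ᵥ z ∈ L := by
    intro z
    have e : (Y * R0 - 1) *ᵥ z = ∑ i, z i • ((Y * R0 - 1) *ᵥ Pi.single i 1) := by
      have e3 : z = ∑ i, z i • (Pi.single i 1 : Fin n → ℝ) := by
        funext k
        rw [Finset.sum_apply, Finset.sum_eq_single k]
        · rw [Pi.smul_apply, Pi.single_eq_same, smul_eq_mul, mul_one]
        · intro j _ hj
          rw [Pi.smul_apply, Pi.single_eq_of_ne (Ne.symm hj), smul_zero]
        · intro h; exact absurd (Finset.mem_univ k) h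
      conv_lhs => rw [e3]
      rw [mulVec_sum]
      refine Finset.sum_congr rfl fun i _ => ?_
      rw [mulVec_smul]
    rw [e]
    exact Submodule.sum_mem _ fun i _ => Submodule.smul_mem _ _ (hRe i)
  -- small perturbations
  have hev1 : ∀ᶠ x : ℝ in 𝓝[>] 0, (Y + x • (1 : Matrix (Fin n) (Fin n) ℝ)).det ≠ 0 := by
    have hp : (-Y).charpoly ≠ 0 := (-Y).charpoly_monic.ne_zero
    have hfin : {x : ℝ | (-Y).charpoly.IsRoot x}.Finite := by
      have := Polynomial.finite_setOfPred_isRoot hp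
      exact this
    have h2 : ∀ᶠ x : ℝ in 𝓝[>] 0, ¬ (-Y).charpoly.IsRoot x := by
      have h3 : ({x : ℝ | (-Y).charpoly.IsRoot x} \ {0})ᶜ ∈ 𝓝 (0 : ℝ) :=
        (hfin.subset Set.sdiff_subset).isClosed.compl_mem_nhds (by simp)
      filter_upwards [mem_nhdsWithin_of_mem_nhds h3, self_mem_nhdsWithin] with x hx hx0
      intro hroot
      exact hx ⟨hroot, (ne_of_gt hx0 : x ≠ 0)⟩
    filter_upwards [h2] with x hx hdet
    apply hx
    rw [Polynomial.IsRoot.def, Matrix.eval_charpoly]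
    rw [← hdet]
    congr 1
    rw [sub_neg_eq_add, add_comm]
    congr 1
    ext i j
    simp [Matrix.scalar_apply, Matrix.one_apply, Matrix.diagonal_apply]
  have hcont : Continuous (fun x : ℝ => (1 + x • R0 : Matrix (Fin n) (Fin n) ℝ)) := by fun_prop
  have hdet0 : (1 + (0 : ℝ) • R0 : Matrix (Fin n) (Fin n) ℝ).det ≠ 0 := by
    rw [zero_smul, add_zero, det_one]
    exact one_ne_zero
  have hev2 : ∀ᶠ x : ℝ in 𝓝[>] 0, (1 + x • R0 : Matrix (Fin n) (Fin n) ℝ).det ≠ 0 :=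
    nhdsWithin_le_nhds ((hcont.matrix_det.continuousAt).eventually_ne hdet0)
  have hev3 : ∀ᶠ x : ℝ in 𝓝[>] 0,
      ∑ i, ∑ j, ((x • R0) * (1 + x • R0)⁻¹ : Matrix (Fin n) (Fin n) ℝ) i j ^ 2 < 1 := by
    have hinv : ContinuousAt (fun x : ℝ => (1 + x • R0 : Matrix (Fin n) (Fin n) ℝ)⁻¹) 0 := by
      have h3 : (fun x : ℝ => (1 + x • R0 : Matrix (Fin n) (Fin n) ℝ)⁻¹) =
          fun x : ℝ => ((1 + x • R0 : Matrix (Fin n) (Fin n) ℝ).det)⁻¹ •
            (1 + x • R0 : Matrix (Fin n) (Fin n) ℝ).adjugate := by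
        funext x
        rw [Matrix.inv_def, Ring.inverse_eq_inv']
      rw [h3]
      exact ContinuousAt.smul (hcont.matrix_det.continuousAt.inv₀ hdet0)
        hcont.matrix_adjugate.continuousAt
    have hx : ContinuousAt (fun x : ℝ => (x • R0 : Matrix (Fin n) (Fin n) ℝ)) 0 := by
      have : Continuous (fun x : ℝ => (x • R0 : Matrix (Fin n) (Fin n) ℝ)) := by fun_prop
      exact this.continuousAt
    have hmul : ContinuousAt (fun x : ℝ =>
        ((x • R0) * (1 + x • R0)⁻¹ : Matrix (Fin n) (Fin n) ℝ)) 0 := by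
      have h4 : Continuous (fun q : Matrix (Fin n) (Fin n) ℝ × Matrix (Fin n) (Fin n) ℝ =>
          q.1 * q.2) := by fun_prop
      exact h4.continuousAt.comp (hx.prodMk hinv)
    have hF : Continuous (fun M : Matrix (Fin n) (Fin n) ℝ => ∑ i, ∑ j, M i j ^ 2) := by
      refine continuous_finsetSum _ fun i _ => continuous_finsetSum _ fun j _ => ?_
      exact (continuous_id.matrix_elem i j).pow 2
    have hlim := (hF.continuousAt.comp hmul)
    have h5 : (fun M : Matrix (Fin n) (Fin n) ℝ => ∑ i, ∑ j, M i j ^ 2)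
        (((0 : ℝ) • R0) * (1 + (0 : ℝ) • R0)⁻¹) < 1 := by
      rw [zero_smul, zero_mul]
      simp
    exact nhdsWithin_le_nhds (hlim.eventually_lt continuousAt_const h5)
  have hev4 : ∀ᶠ x : ℝ in 𝓝[>] 0, x ∈ Set.Ioc 0 r := Ioc_mem_nhdsGT hr
  obtain ⟨x, hx1, hx2, hx3, hx4⟩ := (hev1.and (hev2.and (hev3.and hev4))).exists
  have hY' : cmat (fun i => y i + Pi.single i x) = Y + x • (1 : Matrix (Fin n) (Fin n) ℝ) := by
    ext k i
    simp only [cmat, hY, Matrix.of_apply, Matrix.add_apply, Matrix.smul_apply, Pi.add_apply,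
      smul_eq_mul]
    congr 1
    by_cases h : k = i
    · subst h; simp
    · rw [Pi.single_eq_of_ne h, Matrix.one_apply_ne h, mul_zero]
  refine ⟨fun i => y i + Pi.single i x, ?_, ?_, ?_⟩
  · intro i
    have h0 : (0 : Fin n → ℝ) ∈ B := by
      have h2 := hconv (hB i) (hsymm _ (hB i)) (by norm_num : (0 : ℝ) ≤ 1 / 2)
        (by norm_num : (0 : ℝ) ≤ 1 / 2) (by norm_num)
      simpa using h2
    have h2 : (Pi.single i x : Fin n → ℝ) ∈ B := by
      have h3 := hconv (hB i) h0 (div_nonneg hx4.1.le hr.le)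
        (by rw [sub_nonneg, div_le_one hr]; exact hx4.2 : 0 ≤ 1 - x / r) (by ring)
      rw [smul_zero, add_zero] at h3
      have h4 : (x / r) • (Pi.single i r : Fin n → ℝ) = Pi.single i x := by
        funext k
        by_cases hk : k = i
        · subst hk
          rw [Pi.smul_apply, Pi.single_eq_same, Pi.single_eq_same, smul_eq_mul,
            div_mul_cancel₀ _ hr.ne']
        · rw [Pi.smul_apply, Pi.single_eq_of_ne hk, Pi.single_eq_of_ne hk, smul_zero]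
      rwa [h4] at h3
    have h3 := hconv (hy i) h2 (by norm_num : (0 : ℝ) ≤ 3 / 4) (by norm_num : (0 : ℝ) ≤ 1 / 4)
      (by norm_num)
    have h4 : (1 / 4 : ℝ) • (y i + Pi.single i x) =
        (3 / 4 : ℝ) • (1 / 3 : ℝ) • y i + (1 / 4 : ℝ) • (Pi.single i x : Fin n → ℝ) := by
      rw [smul_add, smul_smul]
      norm_num
    rw [h4]
    exact h3
  · rw [hY']
    exact isUnit_iff_ne_zero.2 hx1
  · intro z hz
    obtain ⟨a, ha, hal⟩ := happ z hz
    set P : Matrix (Fin n) (Fin n) ℝ := 1 + x • R0 with hP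
    set Q : Matrix (Fin n) (Fin n) ℝ := (x • R0) * P⁻¹ with hQ
    refine ⟨a - Q *ᵥ a, ?_, ?_⟩
    · have h2 := c1_frob Q a
      have h3 : 0 ≤ ∑ j, a j ^ 2 := Finset.sum_nonneg fun j _ => sq_nonneg _
      have h4 : ∑ i, (a - Q *ᵥ a) i ^ 2 ≤ 2 * ∑ i, a i ^ 2 + 2 * ∑ i, (Q *ᵥ a) i ^ 2 := by
        rw [Finset.mul_sum, Finset.mul_sum, ← Finset.sum_add_distrib]
        refine Finset.sum_le_sum fun i _ => ?_
        rw [Pi.sub_apply]
        nlinarith [sq_nonneg (a i + (Q *ᵥ a) i)]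
      have h5 : (∑ i, ∑ j, Q i j ^ 2) * ∑ j, a j ^ 2 ≤ 1 * ∑ j, a j ^ 2 :=
        mul_le_mul_of_nonneg_right hx3.le h3
      linarith
    · rw [← cmat_mulVec, hY']
      have hPP : P * P⁻¹ = 1 := mul_nonsing_inv _ (isUnit_iff_ne_zero.2 hx2)
      have h2 : (Y + x • (1 : Matrix (Fin n) (Fin n) ℝ)) * Q =
          x • ((Y * R0 - 1) * P⁻¹) + x • (1 : Matrix (Fin n) (Fin n) ℝ) := by
        have h3 : (Y + x • (1 : Matrix (Fin n) (Fin n) ℝ)) * (x • R0) =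
            x • (Y * R0 - 1) + x • P := by
          rw [hP, add_mul, smul_mul_assoc, one_mul, Matrix.mul_smul]
          module
        rw [hQ, ← Matrix.mul_assoc, h3, add_mul, smul_mul_assoc, smul_mul_assoc, hPP]
      have h3 : (Y + x • (1 : Matrix (Fin n) (Fin n) ℝ)) *ᵥ (a - Q *ᵥ a) - z =
          (∑ i, a i • y i - z) - x • ((Y * R0 - 1) *ᵥ (P⁻¹ *ᵥ a)) := by
        rw [mulVec_sub, mulVec_mulVec, h2, add_mulVec, add_mulVec, smul_mulVec, smul_mulVec,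
          one_mulVec, ← mulVec_mulVec, hY, cmat_mulVec]
        module
      rw [h3]
      exact Submodule.sub_mem _ hal (Submodule.smul_mem _ _ (hR _))

/-- A subspace has an orthonormal basis after a linear map. -/
theorem c1_basis {n : ℕ} (R : Matrix (Fin n) (Fin n) ℝ) (V : Submodule ℝ (Fin n → ℝ)) :
    ∃ (k : ℕ) (w : Fin k → Fin n → ℝ), k ≤ finrank ℝ V ∧
      (∀ i j, w i ⬝ᵥ w j = if i = j then 1 else 0) ∧
      ∀ v ∈ V, ∃ c : Fin k → ℝ, R *ᵥ v = ∑ j, c j • w j := by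
  set V' : Submodule ℝ (EuclideanSpace ℝ (Fin n)) :=
    V.map ((WithLp.linearEquiv 2 ℝ (Fin n → ℝ)).symm.toLinearMap ∘ₗ R.mulVecLin) with hV'
  set b := stdOrthonormalBasis ℝ V' with hb
  refine ⟨finrank ℝ V', fun j => WithLp.ofLp (b j : EuclideanSpace ℝ (Fin n)),
    Submodule.finrank_map_le _ _, ?_, ?_⟩
  · intro i j
    have h1 := orthonormal_iff_ite.1 b.orthonormal i j
    rw [Submodule.coe_inner, EuclideanSpace.inner_eq_star_dotProduct] at h1
    rw [dotProduct_comm]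
    simpa using h1
  · intro v hv
    have hmem : ((WithLp.linearEquiv 2 ℝ (Fin n → ℝ)).symm.toLinearMap ∘ₗ R.mulVecLin) v ∈ V' :=
      Submodule.mem_map_of_mem hv
    have h1 := b.sum_repr ⟨_, hmem⟩
    refine ⟨fun j => b.repr ⟨_, hmem⟩ j, ?_⟩
    have h2 := congrArg (fun x : V' => WithLp.ofLp (x : EuclideanSpace ℝ (Fin n))) h1
    simp only [Submodule.coe_sum, Submodule.coe_smul, WithLp.ofLp_sum, WithLp.ofLp_smul] at h2
    rw [h2]
    rfl

theorem c1_pyth {n k : ℕ} {w : Fin k → Fin n → ℝ}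
    (hw : ∀ i j, w i ⬝ᵥ w j = if i = j then 1 else 0) (x : Fin n → ℝ) (c : Fin k → ℝ) :
    x ⬝ᵥ x ≤ ∑ j, (w j ⬝ᵥ x) ^ 2 + (x - ∑ j, c j • w j) ⬝ᵥ (x - ∑ j, c j • w j) := by
  have h1 : x ⬝ᵥ (∑ j, c j • w j) = ∑ j, c j * (w j ⬝ᵥ x) := by
    rw [dotProduct_sum]
    refine Finset.sum_congr rfl fun j _ => ?_
    rw [dotProduct_smul, smul_eq_mul, dotProduct_comm]
  have h2 : (∑ j, c j • w j) ⬝ᵥ (∑ j, c j • w j) = ∑ j, c j ^ 2 := by
    rw [dotProduct_sum]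
    refine Finset.sum_congr rfl fun j _ => ?_
    rw [dotProduct_smul, sum_dotProduct, smul_eq_mul, Finset.sum_eq_single j]
    · rw [smul_dotProduct, hw, if_pos rfl, smul_eq_mul]; ring
    · intro i _ hij
      rw [smul_dotProduct, hw, if_neg hij, smul_zero]
    · intro h; exact absurd (Finset.mem_univ j) h
  rw [sub_dotProduct, dotProduct_sub, dotProduct_sub, h2, dotProduct_comm (∑ j, c j • w j) x, h1]
  have h3 : 0 ≤ ∑ j, (w j ⬝ᵥ x - c j) ^ 2 := Finset.sum_nonneg fun j _ => sq_nonneg _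
  have h4 : ∑ j, (w j ⬝ᵥ x - c j) ^ 2 =
      ∑ j, (w j ⬝ᵥ x) ^ 2 - 2 * ∑ j, c j * (w j ⬝ᵥ x) + ∑ j, c j ^ 2 := by
    rw [Finset.mul_sum, ← Finset.sum_sub_distrib, ← Finset.sum_add_distrib]
    refine Finset.sum_congr rfl fun j _ => ?_
    ring
  linarith

theorem c1_gsum_quad {n m : ℕ} (p : Fin m → ℝ) (t : Fin m → Fin n → ℝ) (x : Fin n → ℝ) :
    x ⬝ᵥ (TT.gsum p t *ᵥ x) = ∑ b, p b * (t b ⬝ᵥ x) ^ 2 := by
  unfold TT.gsum
  rw [sum_mulVec, dotProduct_sum]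
  refine Finset.sum_congr rfl fun b _ => ?_
  rw [smul_mulVec, dotProduct_smul, vecMulVec_mulVec, smul_eq_mul]
  congr 1
  rw [op_smul_eq_smul, dotProduct_smul, smul_eq_mul, dotProduct_comm x (t b)]
  ring

theorem c1_gsum_psd {n m : ℕ} {p : Fin m → ℝ} (hp : ∀ b, 0 ≤ p b) (t : Fin m → Fin n → ℝ) :
    (TT.gsum p t).PosSemidef := by
  unfold TT.gsum
  refine posSemidef_sum _ fun b _ => ?_
  have h := (posSemidef_vecMulVec_self_star (t b)).smul (hp b)
  simpa using h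

/-- Bound of the trace of `N S`. -/
theorem c1_trace {n : ℕ} {m : ℕ} {p : Fin m → ℝ} {t : Fin m → Fin n → ℝ} {D : Fin n → ℝ}
    (hp : ∀ b, 0 ≤ p b) (hp1 : ∑ b, p b = 1) {δ : ℝ} (hδ : 0 < δ) (hD : ∀ i, δ ≤ D i)
    (V : Submodule ℝ (Fin n → ℝ)) {H : ℝ}
    (ht : ∀ b, ∃ a : Fin n → ℝ, ∑ i, a i ^ 2 ≤ H ∧ a - t b ∈ V) :
    (TT.gsum p t * (diagonal D + TT.gsum p t)⁻¹).trace ≤ finrank ℝ V + H / δ := by
  set N := TT.gsum p t with hN
  have hNp : N.PosSemidef := c1_gsum_psd hp t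
  set A := diagonal D + N with hA
  have hAp : A.PosDef := (PosDef.diagonal fun i => lt_of_lt_of_le hδ (hD i)).add_posSemidef hNp
  have hAu : IsUnit A.det := isUnit_iff_ne_zero.2 hAp.det_pos.ne'
  obtain ⟨R, hR1, hR2⟩ : ∃ R : Matrix (Fin n) (Fin n) ℝ, Rᴴ = R ∧ R * R = A⁻¹ := by
    open scoped MatrixOrder in
    have h0 : 0 ≤ A⁻¹ := nonneg_iff_posSemidef.2 hAp.inv.posSemidef
    open scoped MatrixOrder in
    exact ⟨CFC.sqrt A⁻¹, (nonneg_iff_posSemidef.1 (CFC.sqrt_nonneg A⁻¹)).isHermitian,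
      CFC.sqrt_mul_sqrt_self A⁻¹ h0⟩
  have hRt : Rᵀ = R := by
    rw [conjTranspose_eq_transpose_of_trivial] at hR1
    exact hR1
  have hRAR : R * A * R = 1 := by
    have h1 : (A * R) * R = 1 := by
      rw [Matrix.mul_assoc, hR2, mul_nonsing_inv _ hAu]
    rw [Matrix.mul_assoc]
    exact mul_eq_one_comm.1 h1
  have hRdot : ∀ u v : Fin n → ℝ, (R *ᵥ u) ⬝ᵥ v = u ⬝ᵥ (R *ᵥ v) := by
    intro u v
    rw [dotProduct_mulVec, ← mulVec_transpose, hRt]
  have hquad : ∀ x : Fin n → ℝ, x ⬝ᵥ (A *ᵥ x) = ∑ i, D i * x i ^ 2 + x ⬝ᵥ (N *ᵥ x) := by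
    intro x
    rw [hA, add_mulVec, dotProduct_add]
    congr 1
    simp only [dotProduct, mulVec_diagonal]
    exact Finset.sum_congr rfl fun i _ => by ring
  obtain ⟨k, w, hk, hw, hVw⟩ := c1_basis R V
  -- the parts of `V`
  have hF4 : ∀ j, ∑ b, p b * (w j ⬝ᵥ (R *ᵥ t b)) ^ 2 ≤ 1 := by
    intro j
    have e1 : ∑ b, p b * (w j ⬝ᵥ (R *ᵥ t b)) ^ 2 = (R *ᵥ w j) ⬝ᵥ (N *ᵥ (R *ᵥ w j)) := by
      rw [hN, c1_gsum_quad]
      refine Finset.sum_congr rfl fun b _ => ?_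
      rw [← hRdot, dotProduct_comm]
    have e2 := hquad (R *ᵥ w j)
    have e3 : (R *ᵥ w j) ⬝ᵥ (A *ᵥ (R *ᵥ w j)) = 1 := by
      rw [hRdot, mulVec_mulVec, mulVec_mulVec, hRAR, one_mulVec, hw, if_pos rfl]
    have e4 : 0 ≤ ∑ i, D i * (R *ᵥ w j) i ^ 2 := Finset.sum_nonneg fun i _ =>
      mul_nonneg (hδ.le.trans (hD i)) (sq_nonneg _)
    rw [e1]
    linarith
  have hF5 : ∀ a : Fin n → ℝ, (R *ᵥ a) ⬝ᵥ (R *ᵥ a) ≤ (∑ i, a i ^ 2) / δ := by
    intro a
    set x := A⁻¹ *ᵥ a with hx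
    have e1 : (R *ᵥ a) ⬝ᵥ (R *ᵥ a) = a ⬝ᵥ x := by
      rw [hRdot, mulVec_mulVec, hR2]
    have e2 : a = A *ᵥ x := by
      rw [hx, mulVec_mulVec, mul_nonsing_inv _ hAu, one_mulVec]
    have e3 : a ⬝ᵥ x = x ⬝ᵥ (A *ᵥ x) := by rw [← e2, dotProduct_comm]
    have e4 : δ * ∑ i, x i ^ 2 ≤ x ⬝ᵥ (A *ᵥ x) := by
      rw [hquad, Finset.mul_sum]
      have h1 : ∑ i, δ * x i ^ 2 ≤ ∑ i, D i * x i ^ 2 :=
        Finset.sum_le_sum fun i _ => mul_le_mul_of_nonneg_right (hD i) (sq_nonneg _)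
      have h2 : 0 ≤ x ⬝ᵥ (N *ᵥ x) := by
        rw [hN, c1_gsum_quad]
        exact Finset.sum_nonneg fun b _ => mul_nonneg (hp b) (sq_nonneg _)
      linarith
    have e5 : 2 * (a ⬝ᵥ x) ≤ (∑ i, a i ^ 2) / δ + δ * ∑ i, x i ^ 2 := by
      rw [Finset.sum_div, Finset.mul_sum, ← Finset.sum_add_distrib, dotProduct, Finset.mul_sum]
      refine Finset.sum_le_sum fun i _ => ?_
      have h1 : 0 ≤ (a i - δ * x i) ^ 2 / δ := by positivity
      have h2 : (a i - δ * x i) ^ 2 / δ = a i ^ 2 / δ + δ * x i ^ 2 - 2 * (a i * x i) := by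
        field_simp
        ring
      linarith
    rw [e1]
    linarith
  have hpt : ∀ b, (R *ᵥ t b) ⬝ᵥ (R *ᵥ t b) ≤ ∑ j, (w j ⬝ᵥ (R *ᵥ t b)) ^ 2 + H / δ := by
    intro b
    obtain ⟨a, ha, hav⟩ := ht b
    have hv : t b - a ∈ V := by
      have := V.neg_mem hav
      rwa [neg_sub] at this
    obtain ⟨c, hc⟩ := hVw _ hv
    have h1 := c1_pyth hw (R *ᵥ t b) c
    rw [← hc, mulVec_sub, sub_sub_cancel] at h1
    have h2 := hF5 a
    have h3 : (∑ i, a i ^ 2) / δ ≤ H / δ := div_le_div_of_nonneg_right ha hδ.le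
    linarith
  have htr : (N * A⁻¹).trace = ∑ b, p b * ((R *ᵥ t b) ⬝ᵥ (R *ᵥ t b)) := by
    rw [hN]
    unfold TT.gsum
    rw [Finset.sum_mul, trace_sum]
    refine Finset.sum_congr rfl fun b _ => ?_
    rw [smul_mul_assoc, trace_smul, smul_eq_mul]
    congr 1
    rw [trace_mul_comm, Matrix.mul_vecMulVec, trace_vecMulVec, hRdot, mulVec_mulVec, hR2,
      dotProduct_comm]
  rw [htr]
  calc ∑ b, p b * ((R *ᵥ t b) ⬝ᵥ (R *ᵥ t b))
      ≤ ∑ b, p b * (∑ j, (w j ⬝ᵥ (R *ᵥ t b)) ^ 2 + H / δ) :=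
        Finset.sum_le_sum fun b _ => mul_le_mul_of_nonneg_left (hpt b) (hp b)
    _ = ∑ j, ∑ b, p b * (w j ⬝ᵥ (R *ᵥ t b)) ^ 2 + H / δ := by
        simp only [mul_add, Finset.sum_add_distrib, Finset.mul_sum]
        rw [Finset.sum_comm, ← Finset.sum_mul, hp1, one_mul]
    _ ≤ ∑ j : Fin k, (1 : ℝ) + H / δ := by
        gcongr with j _
        exact hF4 j
    _ ≤ finrank ℝ V + H / δ := by
        rw [Finset.sum_const, Finset.card_univ, Fintype.card_fin, nsmul_eq_mul, mul_one]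
        gcongr

/-- Bound of the sum of the weights. -/
theorem c1_weights {n : ℕ} {m : ℕ} {p : Fin m → ℝ} {t : Fin m → Fin n → ℝ} {D : Fin n → ℝ}
    (hp : ∀ b, 0 ≤ p b) {δ : ℝ} (hδ : 0 < δ) (hD : ∀ i, δ ≤ D i)
    (h3 : ∀ i, δ < D i → 1 - D i * (diagonal D + TT.gsum p t)⁻¹ i i = D i) :
    ∑ i, D i ≤ n * δ + (TT.gsum p t * (diagonal D + TT.gsum p t)⁻¹).trace := by
  set N := TT.gsum p t with hN
  have hNp : N.PosSemidef := c1_gsum_psd hp t
  set A := diagonal D + N with hA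
  have hAp : A.PosDef := (PosDef.diagonal fun i => lt_of_lt_of_le hδ (hD i)).add_posSemidef hNp
  have hAu : IsUnit A.det := isUnit_iff_ne_zero.2 hAp.det_pos.ne'
  have hle : ∀ i, D i * A⁻¹ i i ≤ 1 := by
    intro i
    set x := A⁻¹ *ᵥ (Pi.single i 1) with hx
    have e0 : x i = A⁻¹ i i := by rw [hx, mulVec_single_one]; rfl
    have e2 : (Pi.single i 1 : Fin n → ℝ) = A *ᵥ x := by
      rw [hx, mulVec_mulVec, mul_nonsing_inv _ hAu, one_mulVec]
    have e3 : x ⬝ᵥ (A *ᵥ x) = x i := by rw [← e2, dotProduct_single_one]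
    have e4 : D i * x i ^ 2 ≤ x ⬝ᵥ (A *ᵥ x) := by
      have h2 : 0 ≤ x ⬝ᵥ (N *ᵥ x) := by
        rw [hN, c1_gsum_quad]
        exact Finset.sum_nonneg fun b _ => mul_nonneg (hp b) (sq_nonneg _)
      have h4 : x ⬝ᵥ (A *ᵥ x) = ∑ i, D i * x i ^ 2 + x ⬝ᵥ (N *ᵥ x) := by
        rw [hA, add_mulVec, dotProduct_add]
        congr 1
        simp only [dotProduct, mulVec_diagonal]
        exact Finset.sum_congr rfl fun i _ => by ring
      have h5 : D i * x i ^ 2 ≤ ∑ j, D j * x j ^ 2 :=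
        Finset.single_le_sum (f := fun j => D j * x j ^ 2)
          (fun j _ => mul_nonneg (hδ.le.trans (hD j)) (sq_nonneg _)) (Finset.mem_univ i)
      linarith
    rw [e3] at e4
    have hpos : 0 < x i := by rw [e0]; exact hAp.inv.diag_pos
    rw [← e0]
    by_contra hcon
    push Not at hcon
    nlinarith
  have h1 : ∀ i, D i ≤ δ + (1 - D i * A⁻¹ i i) := by
    intro i
    rcases (hD i).eq_or_lt with h | h
    · have := hle i
      linarith
    · have := h3 i h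
      linarith
  have htr : ∑ i, D i * A⁻¹ i i + (N * A⁻¹).trace = n := by
    have e1 : (A * A⁻¹).trace = (n : ℝ) := by
      rw [mul_nonsing_inv _ hAu, trace_one, Fintype.card_fin]
    rw [hA, add_mul, trace_add, ← hA] at e1
    rw [← e1]
    congr 1
    rw [Matrix.trace]
    refine Finset.sum_congr rfl fun i _ => ?_
    rw [diag_apply, diagonal_mul]
  calc ∑ i, D i ≤ ∑ i, (δ + (1 - D i * A⁻¹ i i)) := Finset.sum_le_sum fun i _ => h1 i
    _ = n * δ + (n - ∑ i, D i * A⁻¹ i i) := by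
        rw [Finset.sum_add_distrib, Finset.sum_sub_distrib]
        simp
    _ = n * δ + (N * A⁻¹).trace := by linarith

/-- Block RU-C1. -/
theorem basis_of_approx {n : ℕ} (hn : 0 < n) {B : Set (Fin n → ℝ)} (hc : IsCompact B)
    (hconv : Convex ℝ B) (hsymm : ∀ z ∈ B, -z ∈ B) {r : ℝ} (hr : 0 < r)
    (hB : ∀ i : Fin n, Pi.single i r ∈ B) (y : Fin n → Fin n → ℝ)
    (hy : ∀ i, (1 / 3 : ℝ) • y i ∈ B) (L : Submodule ℝ (Fin n → ℝ)) {d H κ : ℝ}
    (hL : (finrank ℝ L : ℝ) ≤ d) (hH : 0 ≤ H) (hκ : 1 ≤ κ)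
    (happ : ∀ z ∈ B, ∃ a : Fin n → ℝ, ∑ i, a i ^ 2 ≤ H ∧ (∑ i, a i • y i - z) ∈ L) :
    ∃ b : Fin n → Fin n → ℝ, (∀ i, b i ∈ B) ∧
      ∀ z ∈ B, ∃ c : Fin n → ℝ, z = ∑ i, c i • b i ∧
        ∑ i, |c i| ≤ 2 * Real.sqrt ((n / κ + (d + 64 * κ * H)) * (d + 64 * κ * H)) := by
  obtain ⟨y', hy', hdet, happ'⟩ := c1_perturb hconv hsymm hr hB y hy L happ
  set Y := cmat y' with hY
  set K : Set (Fin n → ℝ) := {x | (1 / 4 : ℝ) • (Y *ᵥ x) ∈ B} with hK
  have hYY : Y * Y⁻¹ = 1 := mul_nonsing_inv _ hdet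
  have hYY' : Y⁻¹ * Y = 1 := nonsing_inv_mul _ hdet
  have hKc : IsCompact K := by
    have h1 : K = (fun z => Y⁻¹ *ᵥ ((4 : ℝ) • z)) '' B := by
      ext x
      constructor
      · intro hx
        refine ⟨(1 / 4 : ℝ) • (Y *ᵥ x), hx, ?_⟩
        simp only
        rw [smul_smul, mulVec_smul, mulVec_mulVec, hYY', one_mulVec]
        norm_num
      · rintro ⟨z, hz, rfl⟩
        simp only [hK, Set.mem_ofPred_eq]
        rw [mulVec_mulVec, hYY, one_mulVec, smul_smul]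
        norm_num
        exact hz
    rw [h1]
    apply hc.image
    exact Continuous.matrix_mulVec continuous_const (continuous_id.const_smul (4 : ℝ))
  have hKconv : Convex ℝ K := by
    intro x hx x' hx' a b ha hb hab
    simp only [hK, Set.mem_ofPred_eq] at hx hx' ⊢
    have h1 := hconv hx hx' ha hb hab
    have h2 : (1 / 4 : ℝ) • (Y *ᵥ (a • x + b • x')) =
        a • (1 / 4 : ℝ) • (Y *ᵥ x) + b • (1 / 4 : ℝ) • (Y *ᵥ x') := by
      rw [mulVec_add, mulVec_smul, mulVec_smul]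
      module
    rwa [h2]
  have hKsymm : ∀ x ∈ K, -x ∈ K := by
    intro x hx
    simp only [hK, Set.mem_ofPred_eq] at hx ⊢
    have h1 := hsymm _ hx
    rwa [mulVec_neg, smul_neg]
  have hKs : ∀ i : Fin n, (Pi.single i 1 : Fin n → ℝ) ∈ K := by
    intro i
    simp only [hK, Set.mem_ofPred_eq]
    have h1 : Y *ᵥ (Pi.single i 1) = y' i := by
      rw [mulVec_single_one]
      rfl
    rw [h1]
    exact hy' i
  -- the exceptional space
  set V : Submodule ℝ (Fin n → ℝ) := L.comap Y.mulVecLin with hV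
  have hVL : (finrank ℝ V : ℝ) ≤ d := by
    refine le_trans ?_ hL
    have h1 : finrank ℝ V ≤ finrank ℝ L := by
      have hinj : Function.Injective Y.mulVecLin := by
        intro u v huv
        have h2 : Y *ᵥ u = Y *ᵥ v := huv
        have h3 := congrArg (fun q => Y⁻¹ *ᵥ q) h2
        simpa [mulVec_mulVec, hYY'] using h3
      have h2 : finrank ℝ (V.map Y.mulVecLin) = finrank ℝ V :=
        (Submodule.equivMapOfInjective Y.mulVecLin hinj V).finrank_eq.symm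
      rw [← h2]
      exact Submodule.finrank_mono (Submodule.map_comap_le _ _)
    exact_mod_cast h1
  have hapx : ∀ x ∈ K, ∃ a : Fin n → ℝ, ∑ i, a i ^ 2 ≤ 64 * H ∧ a - x ∈ V := by
    intro x hx
    obtain ⟨a, ha, hal⟩ := happ' _ hx
    refine ⟨(4 : ℝ) • a, ?_, ?_⟩
    · have h1 : ∑ i, ((4 : ℝ) • a) i ^ 2 = 16 * ∑ i, a i ^ 2 := by
        rw [Finset.mul_sum]
        refine Finset.sum_congr rfl fun i _ => ?_
        rw [Pi.smul_apply, smul_eq_mul]
        ring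
      rw [h1]
      linarith
    · rw [hV, Submodule.mem_comap]
      have h1 : Y.mulVecLin ((4 : ℝ) • a - x) = (4 : ℝ) • (∑ i, a i • y' i - (1 / 4 : ℝ) • (Y *ᵥ x)) := by
        rw [← cmat_mulVec, ← hY, mulVecLin_apply, mulVec_sub, mulVec_smul]
        module
      rw [h1]
      exact Submodule.smul_mem _ _ hal
  have hκ0 : 0 < κ := by linarith
  have hδ : 0 < 1 / κ := by positivity
  obtain ⟨m, p, t, D, hp, hp1, ht, hD, s1, s2, s3⟩ := TT.exists_saddle hKc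
    ⟨_, hKs ⟨0, hn⟩⟩ hδ (by rw [div_le_one hκ0]; exact hκ)
  set d0 := (TT.gsum p t * (diagonal D + TT.gsum p t)⁻¹).trace with hd0
  have htr : d0 ≤ d + 64 * κ * H := by
    have h1 := c1_trace hp hp1 hδ hD V (H := 64 * H) (fun b => hapx _ (ht b))
    rw [← hd0] at h1
    have h2 : 64 * H / (1 / κ) = 64 * κ * H := by
      field_simp
    linarith
  have hsum := c1_weights (t := t) hp hδ hD s3
  rw [← hd0] at hsum
  obtain ⟨v, hv, hvz⟩ := TT.basis_of_saddle hKconv hKsymm hKs p hp hp1 t ht D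
    (fun i => lt_of_lt_of_le hδ (hD i)) d0 s1 s2
  refine ⟨fun i => (1 / 4 : ℝ) • (Y *ᵥ v i), fun i => hv i, ?_⟩
  intro z hz
  have hx : Y⁻¹ *ᵥ ((4 : ℝ) • z) ∈ K := by
    simp only [hK, Set.mem_ofPred_eq]
    rw [mulVec_mulVec, hYY, one_mulVec, smul_smul]
    norm_num
    exact hz
  obtain ⟨c, hc1, hc2⟩ := hvz _ hx
  refine ⟨c, ?_, hc2.trans ?_⟩
  · have h1 : z = (1 / 4 : ℝ) • (Y *ᵥ (Y⁻¹ *ᵥ ((4 : ℝ) • z))) := by
      rw [mulVec_mulVec, hYY, one_mulVec, smul_smul]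
      norm_num
    rw [hc1, mulVec_sum, Finset.smul_sum] at h1
    rw [h1]
    refine Finset.sum_congr rfl fun i _ => ?_
    rw [mulVec_smul, smul_comm]
  · have hd0n : 0 ≤ ∑ i, D i := Finset.sum_nonneg fun i _ => hδ.le.trans (hD i)
    have hdp : 0 ≤ d + 64 * κ * H := by
      have : (0 : ℝ) ≤ finrank ℝ L := by positivity
      have : 0 ≤ 64 * κ * H := by positivity
      linarith
    have h1 : (∑ i, D i) * d0 ≤ (n / κ + (d + 64 * κ * H)) * (d + 64 * κ * H) := by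
      have h2 : (∑ i, D i) * d0 ≤ (∑ i, D i) * (d + 64 * κ * H) :=
        mul_le_mul_of_nonneg_left htr hd0n
      have h3 : ∑ i, D i ≤ n / κ + (d + 64 * κ * H) := by
        have : (n : ℝ) * (1 / κ) = n / κ := by ring
        linarith
      exact h2.trans (mul_le_mul_of_nonneg_right h3 hdp)
    have h2 := Real.sqrt_le_sqrt h1
    linarith

end Pool.Agent.RU
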