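import Pool.Agent.Helper96.RU.Defs

/-!
# Perturbation of approximate representations (part of RU-C1)
-/

namespace Pool.Agent.RU

open Matrix Module Pool.Agent.Cube

theorem mulVec_sq_le {n : ℕ} (R : Matrix (Fin n) (Fin n) ℝ) (u : Fin n → ℝ) :
    (R *ᵥ u) ⬝ᵥ (R *ᵥ u) ≤ (∑ i, ∑ j, R i j ^ 2) * (u ⬝ᵥ u) := by
  have h : ∀ i, (R *ᵥ u) i * (R *ᵥ u) i ≤ (∑ j, R i j ^ 2) * (u ⬝ᵥ u) := by
    intro i
    have h1 := Finset.sum_mul_sq_le_sq_mul_sq Finset.univ (fun j => R i j) u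
    have h2 : (R *ᵥ u) i = ∑ j, R i j * u j := rfl
    have h3 : u ⬝ᵥ u = ∑ j, u j ^ 2 := by
      unfold dotProduct
      exact Finset.sum_congr rfl fun j _ => (pow_two _).symm
    rw [h2, h3, ← pow_two]
    exact h1
  unfold dotProduct at h ⊢
  rw [Finset.sum_mul]
  exact Finset.sum_le_sum fun i _ => h i

/-- The representations modulo `L` are stable: a small multiple of the unit vectors can be added to
make the system invertible. -/
theorem perturb {n : ℕ} {r : ℝ} (hr : 0 < r) (y : Fin n → Fin n → ℝ)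
    (L : Submodule ℝ (Fin n → ℝ)) {B : Set (Fin n → ℝ)} (hB : ∀ i : Fin n, Pi.single i r ∈ B)
    {H : ℝ} (happ : ∀ z ∈ B, ∃ a : Fin n → ℝ, ∑ i, a i ^ 2 ≤ H ∧ (∑ i, a i • y i - z) ∈ L) :
    ∃ ε : ℝ, 0 < ε ∧ ε ≤ 1 ∧ (Matrix.of fun i => y i + ε • Pi.single i r).det ≠ 0 ∧
      ∀ z ∈ B, ∃ a : Fin n → ℝ, ∑ i, a i ^ 2 ≤ 4 * H ∧
        (∑ i, a i • (y i + ε • Pi.single i r) - z) ∈ L := by
  classical
  choose a0 ha0 ha0L using fun i : Fin n => happ (Pi.single i r) (hB i)
  let R : Matrix (Fin n) (Fin n) ℝ := Matrix.of fun j i => r⁻¹ * a0 i j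
  -- `Y (R u) - u ∈ L`
  have hR : ∀ u : Fin n → ℝ, (∑ j, (R *ᵥ u) j • y j - u) ∈ L := by
    intro u
    have h1 : ∑ j, (R *ᵥ u) j • y j - u =
        ∑ i, (u i * r⁻¹) • (∑ j, a0 i j • y j - Pi.single i r) := by
      have e1 : ∑ j, (R *ᵥ u) j • y j = ∑ i, (u i * r⁻¹) • ∑ j, a0 i j • y j := by
        have : ∀ j, (R *ᵥ u) j = ∑ i, (r⁻¹ * a0 i j) * u i := fun j => rfl
        simp only [this, Finset.sum_smul, Finset.smul_sum, smul_smul]
        rw [Finset.sum_comm]
        refine Finset.sum_congr rfl fun i _ => Finset.sum_congr rfl fun j _ => ?_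
        congr 1
        ring
      have e2 : u = ∑ i, (u i * r⁻¹) • (Pi.single i r : Fin n → ℝ) := by
        funext k
        simp only [Finset.sum_apply, Pi.smul_apply, Pi.single_apply, smul_eq_mul, mul_ite, mul_zero]
        rw [Finset.sum_ite_eq]
        simp [mul_assoc, hr.ne']
      conv_lhs => rw [e1]; rhs; rw [e2]
      rw [← Finset.sum_sub_distrib]
      exact Finset.sum_congr rfl fun i _ => (smul_sub _ _ _).symm
    rw [h1]
    exact L.sum_mem fun i _ => L.smul_mem _ (ha0L i)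
  set M2 : ℝ := ∑ i, ∑ j, R i j ^ 2 with hM2
  have hM0 : 0 ≤ M2 := Finset.sum_nonneg fun i _ => Finset.sum_nonneg fun j _ => sq_nonneg _
  -- the choice of `η = ε r`
  obtain ⟨η, hη0, hη1, hη2, hdet⟩ : ∃ η : ℝ, 0 < η ∧ η ≤ r ∧ η ^ 2 * M2 ≤ 1 / 4 ∧
      ((Matrix.of fun i => y i) + η • (1 : Matrix (Fin n) (Fin n) ℝ)).det ≠ 0 := by
    set η0 : ℝ := min r (1 / (2 * (M2 + 1))) with hη0
    have hη0pos : 0 < η0 := lt_min hr (by positivity)
    have hinf : (Set.Ioo (0 : ℝ) η0).Infinite := Set.Ioo_infinite hη0pos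
    have hfin : {x : ℝ | (-(Matrix.of fun i => y i)).charpoly.IsRoot x}.Finite :=
      Polynomial.finite_setOf_isRoot (Matrix.charpoly_monic _).ne_zero
    obtain ⟨η, hη, hη'⟩ := (hinf.diff hfin).nonempty
    refine ⟨η, hη.1, (hη.2.le.trans (min_le_left _ _)), ?_, ?_⟩
    · have h1 : η ≤ 1 / (2 * (M2 + 1)) := hη.2.le.trans (min_le_right _ _)
      have h2 : η ^ 2 ≤ (1 / (2 * (M2 + 1))) ^ 2 := pow_le_pow_left₀ hη.1.le h1 2
      calc η ^ 2 * M2 ≤ (1 / (2 * (M2 + 1))) ^ 2 * M2 := mul_le_mul_of_nonneg_right h2 hM0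
        _ ≤ 1 / 4 := by
          rw [div_pow, one_pow, div_mul_eq_mul_div, one_mul, div_le_div_iff₀ (by positivity)
            (by norm_num)]
          nlinarith
    · intro h
      apply hη'
      show (-(Matrix.of fun i => y i)).charpoly.eval η = 0
      rw [Matrix.eval_charpoly, sub_neg_eq_add, add_comm]
      rw [← h]
      congr 2
      ext i j
      simp [Matrix.scalar_apply, Matrix.diagonal_apply, Matrix.one_apply]
  -- the matrix `W = 1 + η R`
  set W : Matrix (Fin n) (Fin n) ℝ := 1 + η • R with hW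
  have hWu : ∀ u, W *ᵥ u = u + η • R *ᵥ u := by
    intro u
    rw [hW, add_mulVec, one_mulVec, smul_mulVec]
  have hRη : ∀ u : Fin n → ℝ, (η • R *ᵥ u) ⬝ᵥ (η • R *ᵥ u) ≤ 1 / 4 * (u ⬝ᵥ u) := by
    intro u
    rw [smul_dotProduct, dotProduct_smul, smul_eq_mul, smul_eq_mul, ← mul_assoc, ← pow_two]
    have h1 := mulVec_sq_le R u
    have h2 := dotProduct_self_nonneg' u
    calc η ^ 2 * ((R *ᵥ u) ⬝ᵥ (R *ᵥ u)) ≤ η ^ 2 * (M2 * (u ⬝ᵥ u)) :=
          mul_le_mul_of_nonneg_left h1 (sq_nonneg _)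
      _ = η ^ 2 * M2 * (u ⬝ᵥ u) := by ring
      _ ≤ 1 / 4 * (u ⬝ᵥ u) := mul_le_mul_of_nonneg_right hη2 h2
  have hWlow : ∀ u, u ⬝ᵥ u ≤ 4 * ((W *ᵥ u) ⬝ᵥ (W *ᵥ u)) := by
    intro u
    have h1 := hRη u
    set b := η • R *ᵥ u with hb
    have h2 : 0 ≤ (W *ᵥ u + b) ⬝ᵥ (W *ᵥ u + b) := dotProduct_self_nonneg' _
    have h3 : (W *ᵥ u - b) ⬝ᵥ (W *ᵥ u - b) = u ⬝ᵥ u := by
      rw [hWu, add_sub_cancel_right]
    simp only [sub_dotProduct, dotProduct_sub, add_dotProduct, dotProduct_add] at h2 h3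
    linarith
  have hWdet : W.det ≠ 0 := by
    intro h
    obtain ⟨v, hv, hv0⟩ := Matrix.exists_mulVec_eq_zero_iff.2 h
    have h1 := hWlow v
    rw [hv0, dotProduct_zero, mul_zero] at h1
    exact hv (dotProduct_self_eq_zero.1 (le_antisymm h1 (dotProduct_self_nonneg' v)))
  have hεr : η / r * r = η := div_mul_cancel₀ _ hr.ne'
  have hsingle : ∀ i, (η / r) • (Pi.single i r : Fin n → ℝ) = η • Pi.single i 1 := by
    intro i
    rw [← Pi.single_smul, ← Pi.single_smul, smul_eq_mul, smul_eq_mul, hεr, mul_one]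
  refine ⟨η / r, by positivity, (div_le_one hr).2 hη1, ?_, ?_⟩
  · intro h
    apply hdet
    rw [← h]
    congr 1
    ext i j
    simp only [hsingle, Matrix.add_apply, Matrix.of_apply, Matrix.smul_apply, Matrix.one_apply,
      Pi.add_apply, Pi.smul_apply, Pi.single_apply, smul_eq_mul]
    by_cases hij : i = j
    · simp [hij]
    · simp [hij, Ne.symm hij]
  · intro z hz
    obtain ⟨a, ha, haL⟩ := happ z hz
    set v := W⁻¹ *ᵥ a with hv
    have hWv : W *ᵥ v = a := by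
      rw [hv, mulVec_mulVec, Matrix.mul_nonsing_inv _ hWdet.isUnit, one_mulVec]
    set b := η • R *ᵥ v with hb
    have hva : v + b = a := by rw [hb, ← hWu, hWv]
    have haa : ∑ i, a i ^ 2 = a ⬝ᵥ a := by
      unfold dotProduct
      exact Finset.sum_congr rfl fun i _ => pow_two _
    have hbb : b ⬝ᵥ b ≤ a ⬝ᵥ a := by
      have h1 := hRη v
      have h2 := hWlow v
      rw [hWv] at h2
      linarith
    refine ⟨a - b, ?_, ?_⟩
    · have h1 : ∑ i, (a - b) i ^ 2 = (a - b) ⬝ᵥ (a - b) := by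
        unfold dotProduct
        exact Finset.sum_congr rfl fun i _ => pow_two _
      have h2 : 0 ≤ (a + b) ⬝ᵥ (a + b) := dotProduct_self_nonneg' _
      rw [h1]
      rw [haa] at ha
      simp only [sub_dotProduct, dotProduct_sub, add_dotProduct, dotProduct_add] at h2 ⊢
      linarith
    · have hs : ∀ u : Fin n → ℝ, ∑ i, u i • (y i + (η / r) • (Pi.single i r : Fin n → ℝ)) =
          ∑ i, u i • y i + η • u := by
        intro u
        simp only [smul_add, Finset.sum_add_distrib, hsingle]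
        congr 1
        funext k
        simp only [Finset.sum_apply, Pi.smul_apply, Pi.single_apply, smul_eq_mul, mul_ite, mul_zero,
          mul_one]
        rw [Finset.sum_ite_eq]
        simp [mul_comm]
      have hlin : ∑ i, (a - b) i • y i = ∑ i, a i • y i - ∑ i, b i • y i := by
        simp only [Pi.sub_apply, sub_smul, Finset.sum_sub_distrib]
      have hby : ∑ i, b i • y i = η • ∑ i, (R *ᵥ v) i • y i := by
        rw [hb, Finset.smul_sum]
        exact Finset.sum_congr rfl fun i _ => by rw [Pi.smul_apply, smul_eq_mul, mul_smul]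
      have key : ∑ i, (a - b) i • (y i + (η / r) • (Pi.single i r : Fin n → ℝ)) - z =
          (∑ i, a i • y i - z) - η • (∑ i, (R *ᵥ v) i • y i - v) := by
        rw [hs, hlin, hby]
        have h1 : a - b = v := by rw [← hva]; abel
        rw [h1, smul_sub]
        abel
      rw [key]
      exact L.sub_mem haL (L.smul_mem _ (hR v))

end Pool.Agent.RU
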