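import Pool.Agent.Helper96.RU.B7
import Pool.Agent.Helper88.TT.Defs

/-!
# The trace bound (part of RU-C1)
-/

namespace Pool.Agent.RU

open Matrix Module Pool.Agent.Cube Pool.Agent.TT

theorem gsum_posSemidef {n : ℕ} {κ : Type} [Fintype κ] {p : κ → ℝ} (hp : ∀ b, 0 ≤ p b)
    (t : κ → Fin n → ℝ) : (gsum p t).PosSemidef := by
  unfold gsum
  refine Matrix.posSemidef_sum _ fun b _ => ?_
  refine Matrix.PosSemidef.smul ?_ (hp b)
  have := Matrix.posSemidef_vecMulVec_self_star (R := ℝ) (t b)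
  simpa using this

/-- The trace of `N (D + N)⁻¹` is small if the points of `N` are close to small vectors modulo
a small subspace. -/
theorem trace_bound {n : ℕ} {ι : Type} [Fintype ι] {p : ι → ℝ} (hp : ∀ b, 0 ≤ p b)
    (hp1 : ∑ b, p b = 1) (t : ι → Fin n → ℝ) {D : Fin n → ℝ} {κ : ℝ} (hκ : 0 < κ)
    (hD : ∀ i, 1 / κ ≤ D i) (L : Submodule ℝ (Fin n → ℝ)) {H : ℝ}
    (happ : ∀ b, ∃ a : Fin n → ℝ, ∑ i, a i ^ 2 ≤ H ∧ a - t b ∈ L) :
    (gsum p t * (diagonal D + gsum p t)⁻¹).trace ≤ finrank ℝ L + κ * H := by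
  classical
  set N := gsum p t with hN
  have hNpsd : N.PosSemidef := gsum_posSemidef hp t
  have hD0 : ∀ i, 0 < D i := fun i => lt_of_lt_of_le (by positivity) (hD i)
  have hDpd : (diagonal D).PosDef := Matrix.PosDef.diagonal hD0
  set A := diagonal D + N with hA
  have hApd : A.PosDef := hDpd.add_posSemidef hNpsd
  obtain ⟨T, hT1, hT2⟩ : ∃ T : Matrix (Fin n) (Fin n) ℝ, Tᴴ = T ∧ T * T = A⁻¹ := by
    open scoped MatrixOrder in
    have h0 : 0 ≤ A⁻¹ := nonneg_iff_posSemidef.2 hApd.inv.posSemidef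
    refine ⟨CFC.sqrt A⁻¹, ?_, CFC.sqrt_mul_sqrt_self A⁻¹ h0⟩
    exact (nonneg_iff_posSemidef.1 (CFC.sqrt_nonneg A⁻¹)).isHermitian
  have hTt : Tᵀ = T := by rw [← conjTranspose_eq_transpose_of_trivial, hT1]
  have hAu : IsUnit A.det := hApd.det_pos.ne'.isUnit
  have hTu : IsUnit T.det := by
    have h1 : IsUnit (T * T).det := by
      rw [hT2]
      exact hApd.inv.det_pos.ne'.isUnit
    rw [det_mul] at h1
    exact isUnit_of_mul_isUnit_left h1
  have hTAT : T * A * T = 1 := by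
    have h1 : T * (T * A * T) = T := by
      calc T * (T * A * T) = T * T * A * T := by simp only [Matrix.mul_assoc]
        _ = T := by rw [hT2, Matrix.nonsing_inv_mul _ hAu, Matrix.one_mul]
    calc T * A * T = T⁻¹ * (T * (T * A * T)) := by
          rw [← Matrix.mul_assoc T⁻¹, Matrix.nonsing_inv_mul _ hTu, Matrix.one_mul]
      _ = 1 := by rw [h1, Matrix.nonsing_inv_mul _ hTu]
  obtain ⟨P, hP, hPfix, -, hPtr⟩ := exists_projB7 (L.map T.mulVecLin)
  have hPtr' : P.trace ≤ finrank ℝ L := by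
    rw [hPtr]
    exact_mod_cast Submodule.finrank_map_le _ _
  have hPs := hP.symm
  have hPi := hP.idem
  -- the quadratic form of `A⁻¹`
  have hquad : ∀ a : Fin n → ℝ, (T *ᵥ a) ⬝ᵥ (T *ᵥ a) ≤ κ * (a ⬝ᵥ a) := by
    intro a
    set v := A⁻¹ *ᵥ a with hv
    have hAv : A *ᵥ v = a := by rw [hv, mulVec_mulVec, Matrix.mul_nonsing_inv _ hAu, one_mulVec]
    have h1 : (T *ᵥ a) ⬝ᵥ (T *ᵥ a) = a ⬝ᵥ v := by
      rw [dotProduct_mulVec, ← mulVec_transpose, hTt, mulVec_mulVec, hT2, dotProduct_comm]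
    have h2 : v ⬝ᵥ v ≤ κ * (a ⬝ᵥ v) := by
      have h3 : a ⬝ᵥ v = v ⬝ᵥ (diagonal D *ᵥ v) + v ⬝ᵥ (N *ᵥ v) := by
        rw [← dotProduct_add, ← add_mulVec, ← hA, hAv, dotProduct_comm]
      have h4 : 0 ≤ v ⬝ᵥ (N *ᵥ v) := by
        have := hNpsd.dotProduct_mulVec_nonneg v
        simpa using this
      have h5 : v ⬝ᵥ v ≤ κ * (v ⬝ᵥ (diagonal D *ᵥ v)) := by
        unfold dotProduct
        rw [Finset.mul_sum]
        refine Finset.sum_le_sum fun i _ => ?_
        rw [mulVec_diagonal]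
        have h6 : 1 ≤ κ * D i := by
          have := mul_le_mul_of_nonneg_left (hD i) hκ.le
          rwa [mul_one_div_cancel hκ.ne'] at this
        nlinarith [mul_self_nonneg (v i)]
      rw [h3]
      nlinarith
    have h7 : 0 ≤ (κ • a - v) ⬝ᵥ (κ • a - v) := dotProduct_self_nonneg' _
    simp only [sub_dotProduct, dotProduct_sub, smul_dotProduct, dotProduct_smul, smul_eq_mul] at h7
    rw [dotProduct_comm v a] at h7
    rw [h1]
    have h8 : κ * (a ⬝ᵥ v) ≤ κ * (κ * (a ⬝ᵥ a)) := by linarith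
    exact le_of_mul_le_mul_left h8 hκ
  -- projections are contractions
  have hcontr : ∀ x : Fin n → ℝ, x ⬝ᵥ ((1 - P) *ᵥ x) = ((1 - P) *ᵥ x) ⬝ᵥ ((1 - P) *ᵥ x) := by
    intro x
    have h1 : (1 - P)ᵀ * (1 - P) = 1 - P := by
      rw [transpose_sub, transpose_one, hPs, Matrix.sub_mul, Matrix.mul_sub, Matrix.mul_sub,
        Matrix.one_mul, Matrix.one_mul, Matrix.mul_one, hPi]
      abel
    rw [dotProduct_mulVec ((1 - P) *ᵥ x), ← mulVec_transpose, mulVec_mulVec, h1, dotProduct_comm]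
  have hcontr2 : ∀ x : Fin n → ℝ, x ⬝ᵥ ((1 - P) *ᵥ x) ≤ x ⬝ᵥ x := by
    intro x
    have h1 : 0 ≤ (P *ᵥ x) ⬝ᵥ (P *ᵥ x) := dotProduct_self_nonneg' _
    have h2 : (P *ᵥ x) ⬝ᵥ (P *ᵥ x) = x ⬝ᵥ (P *ᵥ x) := by
      rw [dotProduct_mulVec (P *ᵥ x), ← mulVec_transpose, mulVec_mulVec, hPs, hPi, dotProduct_comm]
    rw [sub_mulVec, one_mulVec, dotProduct_sub]
    linarith
  set Q := T * N * T with hQ
  have htr : (N * A⁻¹).trace = Q.trace := by
    rw [hQ, trace_mul_comm (T * N) T, ← Matrix.mul_assoc, hT2, trace_mul_comm]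
  have hsplit : Q.trace = (P * Q).trace + ((1 - P) * Q).trace := by
    rw [← trace_add, ← Matrix.add_mul, add_sub_cancel, Matrix.one_mul]
  have hone : 1 - Q = T * diagonal D * T := by
    rw [← hTAT, hQ, hA, Matrix.mul_add, Matrix.add_mul]
    abel
  have hfirst : (P * Q).trace ≤ P.trace := by
    have h1 : 0 ≤ (P * (1 - Q)).trace := by
      have h2 : (P * (1 - Q)).trace = (P * T * diagonal D * (P * T)ᵀ).trace := by
        rw [hone, transpose_mul, hTt, hPs]
        calc (P * (T * diagonal D * T)).trace = (P * P * (T * diagonal D * T)).trace := by rw [hPi]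
          _ = (P * (T * diagonal D * T) * P).trace := by
            rw [Matrix.mul_assoc P P, trace_mul_comm]
          _ = _ := by simp only [Matrix.mul_assoc]
      rw [h2]
      have h3 : (P * T * diagonal D * (P * T)ᵀ).PosSemidef := by
        have := hDpd.posSemidef.mul_mul_conjTranspose_same (P * T)
        rwa [conjTranspose_eq_transpose_of_trivial] at this
      exact h3.trace_nonneg
    rw [Matrix.mul_sub, Matrix.mul_one, trace_sub] at h1
    linarith
  have hsecond : ((1 - P) * Q).trace ≤ κ * H := by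
    have h1 : Q = ∑ b, p b • vecMulVec (T *ᵥ t b) (T *ᵥ t b) := by
      rw [hQ, hN]
      unfold gsum
      rw [Finset.mul_sum, Finset.sum_mul]
      refine Finset.sum_congr rfl fun b _ => ?_
      rw [Matrix.mul_smul, Matrix.smul_mul, mul_vecMulVec, vecMulVec_mul]
      congr 2
      rw [← mulVec_transpose, hTt]
    rw [h1, Finset.mul_sum, trace_sum]
    have h2 : ∀ b, ((1 - P) * (p b • vecMulVec (T *ᵥ t b) (T *ᵥ t b))).trace ≤ p b * (κ * H) := by
      intro b
      rw [Matrix.mul_smul, trace_smul, smul_eq_mul, trace_mul_vecMulVec]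
      refine mul_le_mul_of_nonneg_left ?_ (hp b)
      obtain ⟨a, ha, haL⟩ := happ b
      have h3 : (1 - P) *ᵥ (T *ᵥ t b) = (1 - P) *ᵥ (T *ᵥ a) := by
        have h4 : P *ᵥ (T *ᵥ (a - t b)) = T *ᵥ (a - t b) :=
          hPfix _ (Submodule.mem_map_of_mem haL)
        have h5 : (1 - P) *ᵥ (T *ᵥ (a - t b)) = 0 := by
          rw [sub_mulVec, one_mulVec, h4, sub_self]
        rw [mulVec_sub, mulVec_sub] at h5
        exact (sub_eq_zero.1 h5).symm
      rw [hcontr, h3, ← hcontr]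
      have h6 : ∑ i, a i ^ 2 = a ⬝ᵥ a := by
        unfold dotProduct
        exact Finset.sum_congr rfl fun i _ => pow_two _
      rw [h6] at ha
      exact (hcontr2 _).trans ((hquad a).trans (mul_le_mul_of_nonneg_left ha hκ.le))
    calc ∑ b, ((1 - P) * (p b • vecMulVec (T *ᵥ t b) (T *ᵥ t b))).trace
        ≤ ∑ b, p b * (κ * H) := Finset.sum_le_sum fun b _ => h2 b
      _ = κ * H := by rw [← Finset.sum_mul, hp1, one_mul]
  rw [htr, hsplit]
  linarith

end Pool.Agent.RU
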