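import Pool.Agent.Helper71.Cube.Main
import Pool.Agent.Helper47.TT.Minors

/-!
# The maximal distance to the cube, sharp upper bound: definitions

Proof in words: `/team-store/h96_U_README.md` (MP_a64d16_an).
-/

namespace Pool.Agent.RU

open Matrix Module Pool.Agent.Cube

/-- Orthogonal projections, as matrices. -/
structure IsProj {m : ℕ} (P : Matrix (Fin m) (Fin m) ℝ) : Prop where
  symm : Pᵀ = P
  idem : P * P = P

/-! ## Mixed moments -/

/-- The mixed moments `E g ^ r h ^ s` of two standard Gaussian variables with covariance `X`, as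
polynomials in `X`: `gm (r+1) s = r gm (r-1) s + s X gm r (s-1)`. -/
noncomputable def gm : ℕ → ℕ → Polynomial ℝ
  | 0, s => if Even s then Polynomial.C (((s - 1).doubleFactorial : ℕ) : ℝ) else 0
  | 1, s => (s : Polynomial ℝ) * Polynomial.X * gm 0 (s - 1)
  | (r + 2), s => ((r + 1 : ℕ) : Polynomial ℝ) * gm r s +
      (s : Polynomial ℝ) * Polynomial.X * gm (r + 1) (s - 1)

/-- `d (d + 2) (d + 4) ⋯` with `m / 2` factors: the moment of order `m` of the norm of a standard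
Gaussian vector of dimension `d` (`m` even). -/
noncomputable def den (d m : ℕ) : ℝ := ∏ j ∈ Finset.range (m / 2), ((d : ℝ) + 2 * j)

/-- A finitely supported probability on the orthogonal matrices which has the moments of order at
most `N` of a Haar distributed matrix (moments of one column or of one row). -/
structure IsRot (d N : ℕ) {ι : Type} [Fintype ι] (ω : ι → ℝ)
    (Q : ι → Matrix (Fin d) (Fin d) ℝ) : Prop where
  nonneg : ∀ x, 0 ≤ ω x
  sum_one : ∑ x, ω x = 1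
  orth : ∀ x, (Q x)ᵀ * Q x = 1
  left : ∀ r s : ℕ, r + s ≤ N → ∀ a b e : Fin d → ℝ, a ⬝ᵥ a = 1 → b ⬝ᵥ b = 1 → e ⬝ᵥ e = 1 →
    ∑ x, ω x * ((a ⬝ᵥ Q x *ᵥ e) ^ r * (b ⬝ᵥ Q x *ᵥ e) ^ s) =
      (gm r s).eval (a ⬝ᵥ b) / den d (r + s)
  right : ∀ r s : ℕ, r + s ≤ N → ∀ a e e' : Fin d → ℝ, a ⬝ᵥ a = 1 → e ⬝ᵥ e = 1 → e' ⬝ᵥ e' = 1 →
    ∑ x, ω x * ((a ⬝ᵥ Q x *ᵥ e) ^ r * (a ⬝ᵥ Q x *ᵥ e') ^ s) =
      (gm r s).eval (e ⬝ᵥ e') / den d (r + s)

/-- The normalised power: `E phi(y) y = E y ^ 2` for a coordinate `y` of a random unit vector. -/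
noncomputable def phi (d p : ℕ) (y : ℝ) : ℝ :=
  den d (p + 1) / ((p.doubleFactorial : ℝ) * d) * y ^ p

/-- The nonlinear part of `phi`. -/
noncomputable def psi (d p : ℕ) (y : ℝ) : ℝ := phi d p y - y

/-! ## Designs with clusters -/

/-- A design with `m` clusters and `w` sinks. -/
structure Cfg (n : ℕ) where
  m : ℕ
  w : ℕ
  Y : Fin n → Fin n → ℝ
  Z : Fin m → Fin n → ℝ
  θ : Fin m → Fin n → ℝ
  s : Fin w → Fin n → ℝ

/-- The points of the design. -/
def Cfg.x {n : ℕ} (c : Cfg n) : Fin n → Fin n → ℝ := fun i => c.Y i + ∑ k, c.θ k i • c.Z k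

/-- The points and the sinks of the design. -/
def Cfg.col {n : ℕ} (c : Cfg n) : Fin n ⊕ Fin c.w → Fin n → ℝ := Sum.elim c.x c.s

/-- The design matrix: sinks have the weight `1 / E`. -/
noncomputable def Cfg.S {n : ℕ} (c : Cfg n) (E : ℝ) : Matrix (Fin n) (Fin n) ℝ :=
  dmat (wt n c.w (1 / E)) c.col

/-- The functional which is maximised. -/
noncomputable def Cfg.val {n : ℕ} (c : Cfg n) (E q : ℝ) : ℝ :=
  (c.S E).det * (1 / 2) ^ c.w * (1 / q) ^ c.m

/-- Admissible designs: at most `M0` clusters and `W0` sinks, everything in `B`; the clusters are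
vectors with coordinates at most `1 / t` and `l_1` norm at most `Q0 / t`, and the `l_1` norms of
the rows are at most one. -/
structure Cfg.Adm {n : ℕ} (c : Cfg n) (B : Set (Fin n → ℝ)) (t : ℝ) (Q0 M0 W0 : ℕ) : Prop where
  hm : c.m ≤ M0
  hw : c.w ≤ W0
  hY : ∀ i, c.Y i ∈ B
  hZ : ∀ k, c.Z k ∈ B
  hs : ∀ l, c.s l ∈ B
  hsup : ∀ k i, |c.θ k i| ≤ 1 / t
  hl1 : ∀ k, ∑ i, |c.θ k i| ≤ Q0 / t
  hrow : ∀ i, ∑ k, |c.θ k i| ≤ 1

/-- Maximal designs. -/
structure Cfg.IsMax {n : ℕ} (c : Cfg n) (B : Set (Fin n → ℝ)) (E t q : ℝ) (Q0 M0 W0 : ℕ) :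
    Prop where
  adm : c.Adm B t Q0 M0 W0
  pos : 0 < (c.S E).det
  max : ∀ c' : Cfg n, c'.Adm B t Q0 M0 W0 → c'.val E q ≤ c.val E q

end Pool.Agent.RU
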