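import Pool.Agent.Helper96.RU.G0

/-!
# Block RU-G (MP_a64d16_an): the polynomials `gm`

All by induction from the definition `gm (r+2) s = (r+1) gm r s + s X gm (r+1) (s-1)`:
nonnegative coefficients; the coefficient of `X^j` vanishes unless `j ≡ r ≡ s (mod 2)`;
`gm r s` at `1` is `(r+s-1)!!` (`r + s` even) and `gm 0 s = gm s 0`; symmetric `gm r s = gm s r`
(or avoid it); the coefficient of `X` in `gm p p` (`p` odd) is `(p!!)^2`, `gm p 1 = gm 1 p = p!! X`,
degree `≤ min r s`. `(2p-1)!! / (p!!)^2 ≤ 2^p`: `(2p-1)!! = (2p)!/(2^p p!)`, `(p!!)^2 ≥ p!`, and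
`C(2p,p) ≤ 4^p`.
For `even` part: `gm a b` has coefficient zero at `X`, so for `|R| ≤ 1`
`gm a b (R) - gm a b (0) = ∑_{j ≥ 2} c_j R^j ≤ R^2 ∑ c_j ≤ R^2 gm a b (1)`.
-/

namespace Pool.Agent.RU

open Matrix Module Polynomial

/-- Block RU-G5. -/
theorem doubleFactorial_le {p : ℕ} (hp : Odd p) :
    ((2 * p - 1).doubleFactorial : ℝ) ≤ 2 ^ p * (p.doubleFactorial : ℝ) ^ 2 := by
  have := H17.gG_le_pow p
  rwa [H17.gG_two_mul] at this

/-- Block RU-G1: the expansion of `gm p p` for odd `p`. -/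
theorem gm_odd_expand {p : ℕ} (hp : Odd p) :
    ∃ k : ℕ → ℝ, (∀ r, 0 ≤ k r) ∧ (∀ r, r < 3 → k r = 0) ∧
      ∑ r ∈ Finset.range (p + 1), k r ≤ 2 ^ p ∧
      ∀ R : ℝ, (gm p p).eval R =
        (p.doubleFactorial : ℝ) ^ 2 * (R + ∑ r ∈ Finset.range (p + 1), k r * R ^ r) := by
  have hpf : (0 : ℝ) < (p.doubleFactorial : ℝ) := by exact_mod_cast Nat.doubleFactorial_pos p
  have hev : ∀ i, Even i → (gm p p).coeff i = 0 := by
    intro i hi
    by_contra h
    have := (H17.gm_coeff_parity p p i h).1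
    obtain ⟨k, rfl⟩ := hp
    obtain ⟨m, rfl⟩ := hi
    omega
  have hp1 : 1 ≤ p := hp.pos
  have hsum : ∀ R : ℝ, (gm p p).eval R =
      ∑ r ∈ Finset.range (p + 1), (gm p p).coeff r * R ^ r := by
    intro R
    refine eval_eq_sum_range' ?_ R
    refine Nat.lt_succ_of_le ?_
    rw [natDegree_le_iff_coeff_eq_zero]
    intro N hN
    exact H17.gm_coeff_eq_zero p p N hN
  have hc1 : (gm p p).coeff 1 = (p.doubleFactorial : ℝ) ^ 2 := by
    rw [H17.gm_coeff_one, H17.df_eq hp, pow_two]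
  refine ⟨fun r => if r < 3 then 0 else (gm p p).coeff r / (p.doubleFactorial : ℝ) ^ 2, ?_, ?_,
    ?_, ?_⟩
  · intro r
    dsimp only
    split_ifs
    · exact le_rfl
    · exact div_nonneg (H17.gm_coeff_nonneg _ _ _) (by positivity)
  · intro r hr
    simp [hr]
  · calc ∑ r ∈ Finset.range (p + 1),
          (if r < 3 then (0 : ℝ) else (gm p p).coeff r / (p.doubleFactorial : ℝ) ^ 2)
        ≤ ∑ r ∈ Finset.range (p + 1), (gm p p).coeff r / (p.doubleFactorial : ℝ) ^ 2 := by
          refine Finset.sum_le_sum fun r _ => ?_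
          split_ifs
          · exact div_nonneg (H17.gm_coeff_nonneg _ _ _) (by positivity)
          · exact le_rfl
      _ = (gm p p).eval 1 / (p.doubleFactorial : ℝ) ^ 2 := by
          rw [hsum 1, Finset.sum_div]
          simp
      _ ≤ 2 ^ p := by
          rw [H17.gm_eval_one, ← two_mul, div_le_iff₀ (by positivity)]
          exact H17.gG_le_pow p
  · intro R
    have h1 : ∀ r ∈ Finset.range (p + 1), (gm p p).coeff r * R ^ r =
        (p.doubleFactorial : ℝ) ^ 2 * ((if r = 1 then R else 0) +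
          (if r < 3 then (0 : ℝ) else (gm p p).coeff r / (p.doubleFactorial : ℝ) ^ 2) * R ^ r) := by
      intro r _
      by_cases hr : r < 3
      · interval_cases r
        · simp [hev 0 (by decide)]
        · simp [hc1]
        · simp [hev 2 (by decide)]
      · rw [if_neg (by omega : ¬ r = 1), if_neg hr]
        field_simp
        ring
    rw [hsum R, Finset.sum_congr rfl h1, ← Finset.mul_sum, Finset.sum_add_distrib,
      Finset.sum_ite_eq' (Finset.range (p + 1)) 1 (fun _ => R),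
      if_pos (Finset.mem_range.mpr (by omega))]

/-- Block RU-G2: the linear moments. -/
theorem gm_one {p : ℕ} (hp : Odd p) (R : ℝ) :
    (gm p 1).eval R = (p.doubleFactorial : ℝ) * R ∧
      (gm 1 p).eval R = (p.doubleFactorial : ℝ) * R := by
  constructor
  · rw [H17.gm_right_one_eval, H17.df_eq hp]
  · rw [H17.gm_one]
    simp only [eval_mul, eval_natCast, eval_X, H17.gm_zero_eval]
    rw [← H17.df_eq hp]; ring

theorem gG_eq {a : ℕ} (ha : Even a) : H17.gG a = ((a - 1).doubleFactorial : ℝ) := by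
  rw [H17.gG, if_pos ha]

/-- Block RU-G3: the moments of even orders. -/
theorem gm_even {a b : ℕ} (ha : Even a) (hb : Even b) {R : ℝ} (hR : |R| ≤ 1) :
    (gm a b).eval R - ((a - 1).doubleFactorial : ℝ) * ((b - 1).doubleFactorial : ℝ) ≤
      R ^ 2 * ((a + b - 1).doubleFactorial : ℝ) := by
  have h := H17.gm_even_le (s := b) ha hR
  rw [gG_eq ha, gG_eq hb, gG_eq (ha.add hb)] at h
  linarith

/-- Block RU-G4: the pure moments. -/
theorem gm_zero {a : ℕ} (ha : Even a) (R : ℝ) :
    (gm a 0).eval R = ((a - 1).doubleFactorial : ℝ) := by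
  rw [H17.gm_succ_zero_eval, gG_eq ha]

end Pool.Agent.RU
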