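import Pool.Agent.Helper96.RU.Defs

/-!
# Facts on the Gaussian mixed moments
-/

namespace Pool.Agent.RU.H17

open Matrix Module Polynomial

theorem gm_zero (s : ℕ) :
    gm 0 s = if Even s then C (((s - 1).doubleFactorial : ℕ) : ℝ) else 0 := by
  rw [gm]

theorem gm_one (s : ℕ) : gm 1 s = (s : ℝ[X]) * X * gm 0 (s - 1) := by
  conv_lhs => rw [gm]

theorem gm_add_two (r s : ℕ) : gm (r + 2) s =
    ((r + 1 : ℕ) : ℝ[X]) * gm r s + (s : ℝ[X]) * X * gm (r + 1) (s - 1) := by
  rw [gm]

/-- All coefficients are nonnegative. -/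
theorem gm_coeff_nonneg (r s i : ℕ) : 0 ≤ (gm r s).coeff i := by
  induction r using Nat.twoStepInduction generalizing s i with
  | zero =>
    rw [gm_zero]
    split_ifs
    · rw [coeff_C]; split_ifs <;> positivity
    · simp
  | one =>
    rw [gm_one, mul_assoc, ← C_eq_natCast, coeff_C_mul]
    refine mul_nonneg (by positivity) ?_
    cases i with
    | zero => simp
    | succ i =>
      rw [coeff_X_mul, gm_zero]
      split_ifs
      · rw [coeff_C]; split_ifs <;> positivity
      · simp
  | more r ih1 ih2 =>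
    rw [gm_add_two, coeff_add, mul_assoc, ← C_eq_natCast, ← C_eq_natCast, coeff_C_mul, coeff_C_mul]
    refine add_nonneg (mul_nonneg (by positivity) (ih1 s i)) (mul_nonneg (by positivity) ?_)
    cases i with
    | zero => simp
    | succ i => rw [coeff_X_mul]; exact ih2 (s - 1) i

/-- Parity: a nonzero coefficient of `X ^ i` forces `i ≡ r ≡ s mod 2`. -/
theorem gm_coeff_parity (r s i : ℕ) (h : (gm r s).coeff i ≠ 0) :
    i % 2 = r % 2 ∧ i % 2 = s % 2 := by
  induction r using Nat.twoStepInduction generalizing s i with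
  | zero =>
    rw [gm_zero] at h
    split_ifs at h with hs
    · rw [coeff_C] at h
      split_ifs at h with hi
      · obtain ⟨k, rfl⟩ := hs
        omega
      · exact absurd rfl h
    · simp at h
  | one =>
    rw [gm_one, mul_assoc, ← C_eq_natCast, coeff_C_mul] at h
    cases i with
    | zero => simp at h
    | succ i =>
      rw [coeff_X_mul, gm_zero] at h
      split_ifs at h with hs
      · rw [coeff_C] at h
        split_ifs at h with hi
        · rcases Nat.eq_zero_or_pos s with h0 | h0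
          · subst h0; simp at h
          · obtain ⟨k, hk⟩ := hs
            omega
        · simp at h
      · simp at h
  | more r ih1 ih2 =>
    rw [gm_add_two, coeff_add, mul_assoc, ← C_eq_natCast, ← C_eq_natCast, coeff_C_mul,
      coeff_C_mul] at h
    by_cases h1 : (gm r s).coeff i = 0
    · rw [h1, mul_zero, zero_add] at h
      cases i with
      | zero => simp at h
      | succ i =>
        rw [coeff_X_mul] at h
        have h2 := ih2 (s - 1) i (right_ne_zero_of_mul h)
        have h3 : (s : ℝ) ≠ 0 := left_ne_zero_of_mul h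
        have h4 : s ≠ 0 := by exact_mod_cast h3
        omega
    · have := ih1 s i h1
      omega

/-- The degree. -/
theorem gm_coeff_eq_zero (r s i : ℕ) (h : r < i) : (gm r s).coeff i = 0 := by
  induction r using Nat.twoStepInduction generalizing s i with
  | zero =>
    rw [gm_zero]
    split_ifs
    · rw [coeff_C, if_neg (by omega)]
    · simp
  | one =>
    rw [gm_one, mul_assoc, ← C_eq_natCast, coeff_C_mul]
    cases i with
    | zero => omega
    | succ i =>
      rw [coeff_X_mul, gm_zero]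
      split_ifs
      · rw [coeff_C, if_neg (by omega), mul_zero]
      · simp
  | more r ih1 ih2 =>
    rw [gm_add_two, coeff_add, mul_assoc, ← C_eq_natCast, ← C_eq_natCast, coeff_C_mul,
      coeff_C_mul, ih1 s i (by omega), mul_zero, zero_add]
    cases i with
    | zero => omega
    | succ i => rw [coeff_X_mul, ih2 (s - 1) i (by omega), mul_zero]

/-- The moments of a standard Gaussian variable. -/
noncomputable def gG (m : ℕ) : ℝ := if Even m then (((m - 1).doubleFactorial : ℕ) : ℝ) else 0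

theorem gG_zero : gG 0 = 1 := by simp [gG]

theorem gG_one : gG 1 = 0 := by simp [gG]

theorem gG_nonneg (m : ℕ) : 0 ≤ gG m := by unfold gG; split_ifs <;> positivity

theorem gG_add_two (m : ℕ) : gG (m + 2) = (m + 1) * gG m := by
  unfold gG
  by_cases h : Even m
  · rw [if_pos h, if_pos (by simpa [Nat.even_add] using h)]
    rcases m with _ | m
    · simp
    · have h1 : m + 1 + 2 - 1 = m + 2 := by omega
      have h2 : m + 1 - 1 = m := by omega
      rw [h1, h2, Nat.doubleFactorial_add_two]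
      push_cast
      ring
  · rw [if_neg h, if_neg (by simpa [Nat.even_add] using h), mul_zero]

theorem gG_succ_pos {r : ℕ} (h : r ≠ 0) : gG (r + 1) = r * gG (r - 1) := by
  obtain ⟨k, rfl⟩ := Nat.exists_eq_succ_of_ne_zero h
  rw [Nat.succ_eq_add_one, gG_add_two]
  simp

theorem gm_zero_eval (s : ℕ) (x : ℝ) : (gm 0 s).eval x = gG s := by
  rw [gm_zero, gG]
  split_ifs <;> simp

theorem gm_eval_zero (r s : ℕ) : (gm r s).eval 0 = gG r * gG s := by
  induction r using Nat.twoStepInduction generalizing s with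
  | zero => rw [gm_zero_eval, gG_zero, one_mul]
  | one => rw [gm_one, gG_one]; simp
  | more r ih1 ih2 =>
    rw [gm_add_two, gG_add_two]
    simp [ih1]
    ring

theorem gm_eval_one (r s : ℕ) : (gm r s).eval 1 = gG (r + s) := by
  induction r using Nat.twoStepInduction generalizing s with
  | zero => rw [gm_zero_eval, zero_add]
  | one =>
    rw [gm_one]
    rcases Nat.eq_zero_or_pos s with rfl | h
    · simp [gG_one]
    · obtain ⟨k, rfl⟩ := Nat.exists_eq_add_of_lt h
      simp only [zero_add, add_tsub_cancel_right, eval_mul, eval_natCast, eval_X, mul_one,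
        gm_zero_eval]
      have : 1 + (k + 1) = k + 2 := by omega
      rw [this, gG_add_two]
      push_cast; ring
  | more r ih1 ih2 =>
    rw [gm_add_two]
    simp only [eval_add, eval_mul, eval_natCast, eval_X, mul_one, ih1]
    rcases Nat.eq_zero_or_pos s with rfl | h
    · have h1 : r + 2 + 0 = r + 0 + 2 := by omega
      rw [h1, gG_add_two]
      simp
    · rw [ih2]
      have h1 : r + 1 + (s - 1) = r + s := by omega
      have h2 : r + 2 + s = r + s + 2 := by omega
      rw [h1, h2, gG_add_two]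
      push_cast; ring

theorem gm_coeff_zero (r s : ℕ) : (gm r s).coeff 0 = gG r * gG s := by
  rw [coeff_zero_eq_eval_zero, gm_eval_zero]

theorem gm_coeff_one (r s : ℕ) :
    (gm r s).coeff 1 = (r * gG (r - 1)) * (s * gG (s - 1)) := by
  induction r using Nat.twoStepInduction generalizing s with
  | zero =>
    rw [gm_zero]
    split_ifs
    · rw [coeff_C]; simp
    · simp
  | one =>
    rw [gm_one, mul_assoc, ← C_eq_natCast, coeff_C_mul, coeff_X_mul, gm_coeff_zero]
    simp [gG_zero]
  | more r ih1 ih2 =>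
    rw [gm_add_two, coeff_add, mul_assoc, ← C_eq_natCast, ← C_eq_natCast, coeff_C_mul,
      coeff_C_mul, coeff_X_mul, ih1, gm_coeff_zero]
    have h1 : r + 2 - 1 = r + 1 := by omega
    rw [h1]
    rcases Nat.eq_zero_or_pos r with rfl | h
    · simp [gG_one]
    · rw [gG_succ_pos (by omega : r ≠ 0)]
      push_cast; ring

theorem gm_succ_zero_eval (r : ℕ) (x : ℝ) : (gm r 0).eval x = gG r := by
  induction r using Nat.twoStepInduction with
  | zero => rw [gm_zero_eval]
  | one => rw [gm_one, gG_one]; simp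
  | more r ih1 ih2 => rw [gm_add_two, gG_add_two]; simp [ih1]

theorem gm_right_one_eval (r : ℕ) (x : ℝ) : (gm r 1).eval x = (r * gG (r - 1)) * x := by
  induction r using Nat.twoStepInduction with
  | zero => rw [gm_zero_eval, gG_one]; simp
  | one => rw [gm_one]; simp [gm_zero_eval, gG_zero]
  | more r ih1 ih2 =>
    rw [gm_add_two]
    simp only [eval_add, eval_mul, eval_natCast, eval_X, ih1, Nat.sub_self, gm_succ_zero_eval]
    have h1 : r + 2 - 1 = r + 1 := by omega
    rw [h1]
    rcases Nat.eq_zero_or_pos r with rfl | h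
    · simp [gG_one]
    · rw [gG_succ_pos (by omega : r ≠ 0)]
      push_cast; ring

/-- A polynomial with nonnegative coefficients and no odd terms. -/
theorem eval_le_even (f : ℝ[X]) (h0 : ∀ i, 0 ≤ f.coeff i) (h1 : ∀ i, f.coeff i ≠ 0 → i % 2 = 0)
    {x : ℝ} (hx : |x| ≤ 1) : f.eval x ≤ f.coeff 0 + x ^ 2 * (f.eval 1 - f.coeff 0) := by
  rw [eval_eq_sum_range, eval_eq_sum_range, Finset.sum_range_succ', Finset.sum_range_succ']
  simp only [pow_zero, mul_one, one_pow]
  have hx2 : x ^ 2 ≤ 1 := by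
    rw [← sq_abs]; exact pow_le_one₀ (abs_nonneg _) hx
  have key : ∑ i ∈ Finset.range f.natDegree, f.coeff (i + 1) * x ^ (i + 1) ≤
      x ^ 2 * ∑ i ∈ Finset.range f.natDegree, f.coeff (i + 1) := by
    rw [Finset.mul_sum]
    refine Finset.sum_le_sum fun i _ => ?_
    by_cases hi : f.coeff (i + 1) = 0
    · rw [hi]; simp
    · have h2 := h1 _ hi
      obtain ⟨k, hk⟩ : ∃ k, i + 1 = 2 * (k + 1) := ⟨(i + 1) / 2 - 1, by omega⟩
      rw [mul_comm (x ^ 2)]
      refine mul_le_mul_of_nonneg_left ?_ (h0 _)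
      rw [hk, pow_mul, pow_succ]
      exact mul_le_of_le_one_left (by positivity) (pow_le_one₀ (by positivity) hx2)
  linarith

/-- A polynomial with nonnegative coefficients and no even terms. -/
theorem eval_le_odd (f : ℝ[X]) (h0 : ∀ i, 0 ≤ f.coeff i) (h1 : ∀ i, f.coeff i ≠ 0 → i % 2 = 1)
    {x : ℝ} (hx : |x| ≤ 1) :
    |f.eval x - f.coeff 1 * x| ≤ |x| ^ 3 * (f.eval 1 - f.coeff 1) := by
  have hc0 : f.coeff 0 = 0 := by
    by_contra h
    have := h1 0 h
    omega
  have e1 : ∀ y : ℝ, f.eval y = ∑ i ∈ Finset.range (f.natDegree + 2), f.coeff i * y ^ i := by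
    intro y
    rw [eval_eq_sum_range' (by omega : f.natDegree < f.natDegree + 2)]
  rw [e1, e1, Finset.sum_range_succ', Finset.sum_range_succ', Finset.sum_range_succ',
    Finset.sum_range_succ']
  simp only [pow_zero, mul_one, one_pow, zero_add, pow_one, hc0, add_zero]
  rw [add_sub_cancel_right, add_sub_cancel_right, Finset.mul_sum]
  refine (Finset.abs_sum_le_sum_abs _ _).trans (Finset.sum_le_sum fun i _ => ?_)
  rw [abs_mul, abs_of_nonneg (h0 _), abs_pow]
  by_cases hi : f.coeff (i + 1 + 1) = 0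
  · rw [hi]; simp
  · have h2 := h1 _ hi
    obtain ⟨k, hk⟩ : ∃ k, i + 1 + 1 = 3 + k := ⟨i + 1 + 1 - 3, by omega⟩
    rw [mul_comm (|x| ^ 3)]
    refine mul_le_mul_of_nonneg_left ?_ (h0 _)
    rw [hk, pow_add]
    exact mul_le_of_le_one_right (by positivity) (pow_le_one₀ (abs_nonneg _) hx)

theorem gm_even_le {r s : ℕ} (hr : Even r) {x : ℝ} (hx : |x| ≤ 1) :
    (gm r s).eval x ≤ gG r * gG s + x ^ 2 * gG (r + s) := by
  have h := eval_le_even (gm r s) (gm_coeff_nonneg r s) (fun i hi => by
    have := (gm_coeff_parity r s i hi).1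
    obtain ⟨k, rfl⟩ := hr
    omega) hx
  rw [gm_coeff_zero, gm_eval_one] at h
  have h1 : 0 ≤ x ^ 2 * (gG r * gG s) :=
    mul_nonneg (sq_nonneg _) (mul_nonneg (gG_nonneg _) (gG_nonneg _))
  nlinarith

theorem gm_odd_le {p : ℕ} (hp : Odd p) {x : ℝ} (hx : |x| ≤ 1) :
    |(gm p p).eval x - (p * gG (p - 1)) ^ 2 * x| ≤ |x| ^ 3 * gG (2 * p) := by
  have h := eval_le_odd (gm p p) (gm_coeff_nonneg p p) (fun i hi => by
    have := (gm_coeff_parity p p i hi).1
    obtain ⟨k, rfl⟩ := hp
    omega) hx
  rw [gm_coeff_one, gm_eval_one, ← pow_two, ← two_mul] at h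
  refine h.trans ?_
  refine mul_le_mul_of_nonneg_left ?_ (by positivity)
  nlinarith [sq_nonneg ((p : ℝ) * gG (p - 1))]

/-- `p ‼` for odd `p`. -/
theorem df_eq {p : ℕ} (hp : Odd p) : (p : ℝ) * gG (p - 1) = (p.doubleFactorial : ℝ) := by
  obtain ⟨k, rfl⟩ := hp
  simp only [add_tsub_cancel_right, gG, even_two_mul, if_true]
  rcases k with _ | k
  · simp
  · have h1 : 2 * (k + 1) + 1 = (2 * k + 1) + 2 := by ring
    have h2 : 2 * (k + 1) - 1 = 2 * k + 1 := by omega
    rw [h2, h1, Nat.doubleFactorial_add_two]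
    push_cast; ring

theorem gG_two_mul (p : ℕ) : gG (2 * p) = (((2 * p - 1).doubleFactorial : ℕ) : ℝ) := by
  simp [gG]

/-- `(2 p - 1)‼ ≤ 2 ^ p (p ‼) ^ 2`. -/
theorem gG_le_pow (p : ℕ) : gG (2 * p) ≤ 2 ^ p * (p.doubleFactorial : ℝ) ^ 2 := by
  have h : ∀ p : ℕ, gG (2 * p) ≤ 2 ^ p * (p.doubleFactorial : ℝ) ^ 2 ∧
      gG (2 * (p + 1)) ≤ 2 ^ (p + 1) * ((p + 1).doubleFactorial : ℝ) ^ 2 := by
    intro p
    induction p with
    | zero => simp [gG]
    | succ p ih =>
      refine ⟨ih.2, ?_⟩
      have h1 : 2 * (p + 1 + 1) = 2 * p + 2 + 2 := by ring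
      rw [h1, gG_add_two, gG_add_two, Nat.doubleFactorial_add_two]
      push_cast
      have h2 := ih.1
      have h3 : (0 : ℝ) ≤ gG (2 * p) := gG_nonneg _
      calc (2 * (p : ℝ) + 2 + 1) * ((2 * (p : ℝ) + 1) * gG (2 * p))
          ≤ (4 * ((p : ℝ) + 2) ^ 2) * (2 ^ p * (p.doubleFactorial : ℝ) ^ 2) := by
            rw [← mul_assoc]
            refine mul_le_mul ?_ h2 h3 (by positivity)
            nlinarith
        _ = 2 ^ (p + 1 + 1) * (((p : ℝ) + 2) * (p.doubleFactorial : ℝ)) ^ 2 := by ring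
  exact (h p).1

/-! ## The denominators -/

theorem den_zero (d : ℕ) : den d 0 = 1 := by simp [den]

theorem den_two (d : ℕ) : den d 2 = d := by simp [den]

theorem den_add_two (d m : ℕ) : den d (m + 2) = den d m * (d + 2 * (m / 2 : ℕ)) := by
  unfold den
  rw [show (m + 2) / 2 = m / 2 + 1 by omega, Finset.prod_range_succ]

theorem den_pos {d : ℕ} (hd : 0 < d) (m : ℕ) : 0 < den d m := by
  unfold den
  refine Finset.prod_pos fun j _ => ?_
  have : (0 : ℝ) < d := by exact_mod_cast hd
  positivity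

/-- `den (p + 1) ^ 2 ≤ d den (2 p)` for odd `p`. -/
theorem den_sq_le {d p : ℕ} (hd : 0 < d) (hp : Odd p) :
    den d (p + 1) ^ 2 ≤ d * den d (2 * p) := by
  obtain ⟨k, rfl⟩ := hp
  unfold den
  have h1 : (2 * k + 1 + 1) / 2 = k + 1 := by omega
  have h2 : 2 * (2 * k + 1) / 2 = (k + 1) + k := by omega
  have h5 := Finset.prod_range_add (fun j : ℕ => (d : ℝ) + 2 * (j : ℝ)) (k + 1) k
  rw [h1, h2, h5, pow_two]
  have h3 : ∏ j ∈ Finset.range (k + 1), ((d : ℝ) + 2 * j) ≤
      d * ∏ x ∈ Finset.range k, ((d : ℝ) + 2 * ((k + 1 + x : ℕ) : ℝ)) := by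
    rw [Finset.prod_range_succ', mul_comm]
    simp only [CharP.cast_eq_zero, mul_zero, add_zero]
    refine mul_le_mul_of_nonneg_left ?_ (by positivity)
    refine Finset.prod_le_prod (fun i _ => by positivity) fun i _ => ?_
    push_cast
    have : (0 : ℝ) ≤ k := by positivity
    linarith
  have h4 : 0 ≤ ∏ j ∈ Finset.range (k + 1), ((d : ℝ) + 2 * j) :=
    Finset.prod_nonneg fun i _ => by positivity
  calc _ ≤ (∏ j ∈ Finset.range (k + 1), ((d : ℝ) + 2 * j)) *
      (d * ∏ x ∈ Finset.range k, ((d : ℝ) + 2 * ((k + 1 + x : ℕ) : ℝ))) :=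
        mul_le_mul_of_nonneg_left h3 h4
    _ = _ := by ring

/-- Submultiplicativity of the reciprocals. -/
theorem den_mul_le {d : ℕ} (hd : 0 < d) (a b : ℕ) :
    den d (2 * a) * den d (2 * b) ≤ den d (2 * (a + b)) := by
  unfold den
  simp only [Nat.mul_div_cancel_left _ (by norm_num : 0 < 2)]
  rw [Finset.prod_range_add]
  refine mul_le_mul_of_nonneg_left ?_ (Finset.prod_nonneg fun i _ => by positivity)
  refine Finset.prod_le_prod (fun i _ => by positivity) fun i _ => ?_
  push_cast
  have : (0 : ℝ) ≤ a := by positivity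
  linarith

end Pool.Agent.RU.H17
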