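import Pool.Agent.Helper96.RU.NDefs

/-!
# Block RU-N1 (MP_a64d16_an): the parameters satisfy the hypotheses, for large `n`

`L = log n → ∞`, `L/200 - 1 ≤ p ≤ L/200 + 1`, so `2^p ≤ 2 n^(log 2/200) ≤ 2 n^(1/200)`;
`E^3 = 4608 n/p` (so `E → ∞`, `E ≥ (n/L)^(1/3)`, `E ≤ (4608 n)^(1/3)`), `t = n^(1/17) → ∞`,
`t^2 = n^(2/17) ≤ E`, `δ E ≥ n^(-1/18) (n/L)^(1/3) → ∞`, so `60 n/(δ E) + 1 ≤ n`,
`h^2 (e n/(f+1)) ≤ 2^p L e n / (e 2^p L n/E) = E`.
-/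

namespace Pool.Agent.RU

open Filter

/-- Block RU-N1. -/
theorem params_ok : ∀ᶠ n : ℕ in atTop, 1 ≤ Real.log n ∧ 1 ≤ eN n ∧ 2 ≤ tN n ∧ 0 < dN n ∧ dN n ≤ 1 ∧
    tN n ^ 2 ≤ qN n ∧ mN n ≤ n ∧ 60 * (n : ℝ) / (dN n * eN n) ≤ mN n ∧ 0 < qN n ∧
    eN n ≤ qN n ∧ (qN n : ℝ) ≤ 2 * eN n ∧ Odd (pN n) ∧ 4608 * (n : ℝ) ≤ pN n * eN n ^ 3 ∧
    0 < hN n ∧ hN n ^ 2 * (Real.exp 1 * n / (fN n + 1)) ≤ eN n ∧ 1 ≤ kN n := by
  have hlog : Tendsto (fun n : ℕ => Real.log n) atTop atTop :=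
    Real.tendsto_log_atTop.comp tendsto_natCast_atTop_atTop
  have hpow : ∀ r : ℝ, 0 < r → Tendsto (fun n : ℕ => (n : ℝ) ^ r) atTop atTop := fun r hr =>
    (tendsto_rpow_atTop hr).comp tendsto_natCast_atTop_atTop
  filter_upwards [hlog.eventually_ge_atTop 400, eventually_ge_atTop 1,
    (hpow (1 / 8) (by norm_num)).eventually_ge_atTop 8,
    (hpow (7 / 36) (by norm_num)).eventually_ge_atTop 60,
    (hpow (1 / 17) (by norm_num)).eventually_ge_atTop 2] with n hL hn h8 h60 h2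
  have hn1 : (1 : ℝ) ≤ n := by exact_mod_cast hn
  have hn0 : (0 : ℝ) < n := by linarith
  have hL0 : 0 < Real.log n := by linarith
  have hpc : (pN n : ℝ) = 2 * (⌊Real.log n / 400⌋₊ : ℝ) + 1 := by
    unfold pN; push_cast; ring
  have hfl : (⌊Real.log n / 400⌋₊ : ℝ) ≤ Real.log n / 400 := Nat.floor_le (by linarith)
  have hfl0 : (0 : ℝ) ≤ (⌊Real.log n / 400⌋₊ : ℝ) := Nat.cast_nonneg _
  have hp0 : (1 : ℝ) ≤ pN n := by rw [hpc]; linarith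
  have hpL : (pN n : ℝ) ≤ Real.log n := by rw [hpc]; linarith
  have hE0 : 0 < eN n := by
    unfold eN
    exact Real.rpow_pos_of_pos (by positivity) _
  have hE3 : eN n ^ 3 = 4608 * n / pN n := by
    unfold eN
    rw [← Real.rpow_natCast, ← Real.rpow_mul (by positivity)]
    norm_num
  -- the logarithm is small
  have hlog4 : Real.log n ≤ (n : ℝ) ^ (1 / 4 : ℝ) := by
    have h1 := Real.log_le_rpow_div hn0.le (ε := 1 / 8) (by norm_num)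
    have h3 : (n : ℝ) ^ (1 / 4 : ℝ) = (n : ℝ) ^ (1 / 8 : ℝ) * (n : ℝ) ^ (1 / 8 : ℝ) := by
      rw [← Real.rpow_add hn0]; norm_num
    rw [h3]
    calc Real.log n ≤ (n : ℝ) ^ (1 / 8 : ℝ) / (1 / 8) := h1
      _ = 8 * (n : ℝ) ^ (1 / 8 : ℝ) := by ring
      _ ≤ (n : ℝ) ^ (1 / 8 : ℝ) * (n : ℝ) ^ (1 / 8 : ℝ) :=
        mul_le_mul_of_nonneg_right h8 (by positivity)
  have hElow : (n : ℝ) ^ (1 / 4 : ℝ) ≤ eN n := by
    have hc0 : 0 < (n : ℝ) ^ (1 / 4 : ℝ) := Real.rpow_pos_of_pos hn0 _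
    have hc4 : ((n : ℝ) ^ (1 / 4 : ℝ)) ^ 4 = n := by
      rw [← Real.rpow_natCast, ← Real.rpow_mul hn0.le]; norm_num
    refine le_of_pow_le_pow_left₀ (n := 3) (by norm_num) hE0.le ?_
    rw [hE3, le_div_iff₀ (by linarith)]
    calc ((n : ℝ) ^ (1 / 4 : ℝ)) ^ 3 * pN n ≤ ((n : ℝ) ^ (1 / 4 : ℝ)) ^ 3 *
          (n : ℝ) ^ (1 / 4 : ℝ) := mul_le_mul_of_nonneg_left (hpL.trans hlog4) (by positivity)
      _ = ((n : ℝ) ^ (1 / 4 : ℝ)) ^ 4 := by ring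
      _ = n := hc4
      _ ≤ 4608 * n := by linarith
  have hE1 : 1 ≤ eN n := by
    refine le_trans ?_ hElow
    exact Real.one_le_rpow hn1 (by norm_num)
  have hd0 : 0 < dN n := by
    unfold dN
    exact Real.rpow_pos_of_pos hn0 _
  have hd1 : dN n ≤ 1 := by
    unfold dN
    exact Real.rpow_le_one_of_one_le_of_nonpos hn1 (by norm_num)
  have hdE : 60 ≤ dN n * eN n := by
    calc (60 : ℝ) ≤ (n : ℝ) ^ (7 / 36 : ℝ) := h60
      _ = dN n * (n : ℝ) ^ (1 / 4 : ℝ) := by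
        unfold dN
        rw [← Real.rpow_add hn0]; norm_num
      _ ≤ dN n * eN n := mul_le_mul_of_nonneg_left hElow hd0.le
  have hdE0 : 0 < dN n * eN n := by positivity
  have hEq : eN n ≤ qN n := Nat.le_ceil _
  refine ⟨by linarith, hE1, h2, hd0, hd1, ?_, ?_, Nat.le_ceil _, ?_, hEq, ?_, ?_, ?_, ?_, ?_, ?_⟩
  · refine le_trans ?_ hEq
    refine le_trans ?_ hElow
    unfold tN
    rw [← Real.rpow_natCast, ← Real.rpow_mul hn0.le]
    exact Real.rpow_le_rpow_of_exponent_le hn1 (by norm_num)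
  · unfold mN
    rw [Nat.ceil_le, div_le_iff₀ hdE0]
    calc 60 * (n : ℝ) = n * 60 := by ring
      _ ≤ n * (dN n * eN n) := mul_le_mul_of_nonneg_left hdE hn0.le
  · exact_mod_cast (lt_of_lt_of_le hE0 hEq)
  · have h1 : (qN n : ℝ) < eN n + 1 := Nat.ceil_lt_add_one hE0.le
    linarith
  · exact ⟨_, rfl⟩
  · rw [hE3]
    apply le_of_eq
    field_simp
  · unfold hN
    exact Real.sqrt_pos.2 (by positivity)
  · have hh : hN n ^ 2 = 2 ^ pN n * Real.log n := by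
      rw [hN, Real.sq_sqrt (by positivity)]
    have hf : Real.exp 1 * 2 ^ pN n * Real.log n * n / eN n ≤ (fN n : ℝ) + 1 :=
      (Nat.le_ceil _).trans (by unfold fN; linarith)
    have hf0 : 0 < (fN n : ℝ) + 1 := by positivity
    rw [hh, ← mul_div_assoc, div_le_iff₀ hf0]
    rw [div_le_iff₀ hE0] at hf
    calc 2 ^ pN n * Real.log n * (Real.exp 1 * n) = Real.exp 1 * 2 ^ pN n * Real.log n * n := by
          ring
      _ ≤ ((fN n : ℝ) + 1) * eN n := hf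
      _ = eN n * ((fN n : ℝ) + 1) := mul_comm _ _
  · unfold kN
    apply Real.one_le_rpow _ (by norm_num)
    have h1 : 1 ≤ Real.sqrt (Real.log n) := by
      rw [Real.one_le_sqrt]; linarith
    calc (1 : ℝ) = 1 * 1 := by ring
      _ ≤ n * Real.sqrt (Real.log n) := mul_le_mul hn1 h1 (by norm_num) hn0.le

end Pool.Agent.RU
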