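import Pool.Agent.Helper96.RU.NDefs

/-!
# Block RU-N2 (MP_a64d16_an): the small terms, for large `n`

`p ≤ L/200 + 1`, `2^p ≤ 2 n^(1/200)`, `E ≥ (n/L)^(1/3)` (`L = log n`, `E^3 = 4608 n/p`), `RR n =
n^(2/3) L^(-1/6)`.
(a) `150 p ≤ L` is `o(RR)`. (b) `2^p n/E^2 ≤ 2 n^(1/200) n (L/n)^(2/3) = n^(1/3+1/200) polylog`.
(c) `M0 ≤ 60 n/(δE) + 1 ≤ 61 n/(δE)`, `Q0 ≤ E + 1 ≤ 2E`: `M0 Q0/(t E) ≤ 122 n/(δ t E) =
122 n^(1 + 1/18 - 1/17)/E ≤ n^(2/3 - 1/306) polylog`.
(d) `f ≤ 2 e 2^p L n/E`, `√δ = n^(-1/36)`: `2^p (f + 4n/E) √δ L ≤ n^(2/200) n^(2/3) n^(-1/36) polylog`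
and `1/100 < 1/36`.
In the proofs all constants and logarithms are at most `e^u`, `u = L/10000`.
-/

namespace Pool.Agent.RU

open Filter

section n2aux

private structure N2F (n : ℕ) (u : ℝ) : Prop where
  u1 : 1 ≤ u
  L : Real.log n = 10000 * u
  nn : (n : ℝ) = Real.exp (10000 * u)
  c : (10 : ℝ) ^ 9 ≤ Real.exp u
  l : Real.log n ≤ Real.exp u
  p1 : (1 : ℝ) ≤ pN n
  p2 : (pN n : ℝ) ≤ Real.log n
  tp : (2 : ℝ) ^ pN n ≤ 3 * Real.exp (50 * u)
  e1 : Real.exp (10000 / 3 * u - u) ≤ eN n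
  e2 : eN n ≤ Real.exp (10000 / 3 * u + u)
  r : Real.exp (20000 / 3 * u - u) ≤ RR n
  d : dN n = Real.exp (-(10000 / 18 * u))
  sd : Real.sqrt (dN n) = Real.exp (-(10000 / 36 * u))
  t : tN n = Real.exp (10000 / 17 * u)

private theorem ev : ∀ᶠ n : ℕ in atTop, ∃ u : ℝ, N2F n u := by
  have h1 : ∀ᶠ n : ℕ in atTop, (1000000 : ℝ) ≤ Real.log n :=
    (Real.tendsto_log_atTop.comp tendsto_natCast_atTop_atTop).eventually_ge_atTop _
  have h2 : ∀ᶠ n : ℕ in atTop, Real.log n ≤ Real.exp (Real.log n / 10000) := by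
    have h3 : ∀ᶠ x : ℝ in atTop, x ≤ Real.exp (x / 10000) := by
      have h4 : Tendsto (fun x : ℝ => x / 10000) atTop atTop :=
        tendsto_id.atTop_div_const (by norm_num)
      have h5 := (Real.tendsto_exp_div_pow_atTop 1).eventually_ge_atTop 10000
      have h6 := h4.eventually h5
      filter_upwards [h6, eventually_gt_atTop (0:ℝ)] with x hx hx0
      rw [pow_one, le_div_iff₀ (by positivity)] at hx
      linarith
    exact (Real.tendsto_log_atTop.comp tendsto_natCast_atTop_atTop).eventually h3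
  filter_upwards [h1, h2, eventually_ge_atTop 1] with n hL hLe hn
  obtain ⟨L, hLd⟩ : ∃ L, L = Real.log n := ⟨_, rfl⟩
  rw [← hLd] at hL hLe
  have hn0 : (0 : ℝ) < n := by exact_mod_cast hn
  have hnL : (n : ℝ) = Real.exp L := by rw [hLd, Real.exp_log hn0]
  have hL0 : 0 < L := by linarith
  have hu : (100 : ℝ) ≤ L / 10000 := by linarith
  have hp2 : (pN n : ℝ) ≤ L / 200 + 1 := by
    have h3 : ((⌊Real.log n / 400⌋₊ : ℕ) : ℝ) ≤ Real.log n / 400 :=
      Nat.floor_le (by rw [← hLd]; positivity)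
    rw [pN]
    push_cast
    rw [← hLd] at h3 ⊢
    linarith
  have hp1 : (1 : ℝ) ≤ pN n := by
    rw [pN]
    push_cast
    have := Nat.cast_nonneg (α := ℝ) (⌊Real.log n / 400⌋₊)
    linarith
  have hp0 : (0 : ℝ) < pN n := by linarith
  have hpL : (pN n : ℝ) ≤ L := by linarith
  have hexp1 : Real.exp 1 ≤ 3 := by
    have := Real.exp_one_lt_d9
    linarith
  have htp : (2 : ℝ) ^ pN n ≤ 3 * Real.exp (L / 200) := by
    have h3 : (2 : ℝ) ≤ Real.exp 1 := by
      have := Real.add_one_le_exp (1:ℝ)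
      linarith
    calc (2 : ℝ) ^ pN n ≤ (Real.exp 1) ^ pN n := pow_le_pow_left₀ (by norm_num) h3 _
      _ = Real.exp (pN n) := by rw [← Real.exp_nat_mul, mul_one]
      _ ≤ Real.exp (L / 200 + 1) := Real.exp_le_exp.2 hp2
      _ = Real.exp (L / 200) * Real.exp 1 := Real.exp_add _ _
      _ ≤ Real.exp (L / 200) * 3 := mul_le_mul_of_nonneg_left hexp1 (Real.exp_pos _).le
      _ = _ := mul_comm _ _
  have hc : (10 : ℝ) ^ 9 ≤ Real.exp (L / 10000) := by
    have h3 : (2 : ℝ) ≤ Real.exp 1 := by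
      have := Real.add_one_le_exp (1:ℝ)
      linarith
    calc (10 : ℝ) ^ 9 ≤ 2 ^ 100 := by norm_num
      _ ≤ (Real.exp 1) ^ 100 := pow_le_pow_left₀ (by norm_num) h3 _
      _ = Real.exp 100 := by rw [← Real.exp_nat_mul]; norm_num
      _ ≤ _ := Real.exp_le_exp.2 hu
  have hbase : 0 < 4608 * (n : ℝ) / pN n := by positivity
  have he1 : Real.exp (L / 3 - L / 10000) ≤ eN n := by
    rw [eN, Real.rpow_def_of_pos hbase]
    apply Real.exp_le_exp.2
    have h3 : L - 3 * (L / 10000) ≤ Real.log (4608 * n / pN n) := by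
      rw [Real.le_log_iff_exp_le hbase, le_div_iff₀ hp0]
      have h4 : Real.exp (L - 3 * (L / 10000)) * pN n ≤
          Real.exp (L - 3 * (L / 10000)) * Real.exp (L / 10000) :=
        mul_le_mul_of_nonneg_left (hpL.trans hLe) (Real.exp_pos _).le
      rw [← Real.exp_add] at h4
      have h5 : Real.exp (L - 3 * (L / 10000) + L / 10000) ≤ Real.exp L :=
        Real.exp_le_exp.2 (by linarith)
      rw [← hnL] at h5
      linarith
    linarith
  have he2 : eN n ≤ Real.exp (L / 3 + L / 10000) := by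
    rw [eN, Real.rpow_def_of_pos hbase]
    apply Real.exp_le_exp.2
    have h3 : Real.log (4608 * n / pN n) ≤ L + 3 * (L / 10000) := by
      rw [Real.log_le_iff_le_exp hbase]
      have h4 : 4608 * (n : ℝ) / pN n ≤ 4608 * n := div_le_self (by positivity) hp1
      have h5 : (4608 : ℝ) ≤ Real.exp (3 * (L / 10000)) := by
        have : Real.exp (L / 10000) ≤ Real.exp (3 * (L / 10000)) :=
          Real.exp_le_exp.2 (by linarith)
        linarith
      rw [Real.exp_add, ← hnL]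
      have h6 : (n : ℝ) * 4608 ≤ n * Real.exp (3 * (L / 10000)) :=
        mul_le_mul_of_nonneg_left h5 hn0.le
      linarith
    linarith
  have hr : Real.exp (2 / 3 * L - L / 10000) ≤ RR n := by
    rw [RR, ← hLd, hnL, ← Real.exp_mul, le_div_iff₀ (by positivity)]
    have h3 : L ^ (1 / 6 : ℝ) ≤ Real.exp (L / 10000) := by
      have h4 : L ^ (1 / 6 : ℝ) ≤ L ^ (1 : ℝ) :=
        Real.rpow_le_rpow_of_exponent_le (by linarith) (by norm_num)
      rw [Real.rpow_one] at h4
      exact h4.trans hLe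
    calc Real.exp (2 / 3 * L - L / 10000) * L ^ (1 / 6 : ℝ)
        ≤ Real.exp (2 / 3 * L - L / 10000) * Real.exp (L / 10000) :=
          mul_le_mul_of_nonneg_left h3 (Real.exp_pos _).le
      _ = Real.exp (L * (2 / 3)) := by rw [← Real.exp_add]; congr 1; ring
  have hd : dN n = Real.exp (-(L / 18)) := by
    rw [dN, hnL, ← Real.exp_mul]; congr 1; ring
  refine ⟨L / 10000, ⟨by linarith, by rw [← hLd]; ring, by rw [hnL]; congr 1; ring, hc,
    by rw [← hLd]; exact hLe, hp1, by rw [← hLd]; exact hpL, ?_, ?_, ?_, ?_, ?_, ?_, ?_⟩⟩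
  · have : 50 * (L / 10000) = L / 200 := by ring
    rw [this]; exact htp
  · have : 10000 / 3 * (L / 10000) - L / 10000 = L / 3 - L / 10000 := by ring
    rw [this]; exact he1
  · have : 10000 / 3 * (L / 10000) + L / 10000 = L / 3 + L / 10000 := by ring
    rw [this]; exact he2
  · have : 20000 / 3 * (L / 10000) - L / 10000 = 2 / 3 * L - L / 10000 := by ring
    rw [this]; exact hr
  · rw [hd]; congr 1; ring
  · rw [hd, Real.sqrt_eq_rpow, ← Real.exp_mul]; congr 1; ring
  · rw [tN, hnL, ← Real.exp_mul]; congr 1; ring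

end n2aux

/-- Block RU-N2a, b. -/
theorem small_ab : ∀ᶠ n : ℕ in atTop,
    150 * (pN n : ℝ) ≤ RR n ∧ 10240 * 2 ^ pN n * (n : ℝ) / eN n ^ 2 ≤ RR n := by
  filter_upwards [ev] with n hn
  obtain ⟨u, h⟩ := hn
  have hu := h.u1
  refine ⟨?_, ?_⟩
  · have h1 : 150 * (pN n : ℝ) ≤ Real.exp u * Real.exp u :=
      mul_le_mul (by have := h.c; linarith) (h.p2.trans h.l) (by have := h.p1; linarith)
        (Real.exp_pos _).le
    rw [← Real.exp_add] at h1
    refine h1.trans (le_trans (Real.exp_le_exp.2 ?_) h.r)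
    linarith
  · refine le_trans ?_ h.r
    have hE0 : 0 < eN n := lt_of_lt_of_le (Real.exp_pos _) h.e1
    rw [div_le_iff₀ (by positivity)]
    have h1 : 10240 * 2 ^ pN n * (n : ℝ) ≤ Real.exp u * Real.exp (50 * u) * Real.exp (10000 * u) := by
      rw [← h.nn]
      have h2 : 10240 * (2:ℝ) ^ pN n ≤ Real.exp u * Real.exp (50 * u) := by
        calc 10240 * (2:ℝ) ^ pN n ≤ 10240 * (3 * Real.exp (50 * u)) :=
              mul_le_mul_of_nonneg_left h.tp (by norm_num)
          _ = 30720 * Real.exp (50 * u) := by ring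
          _ ≤ Real.exp u * Real.exp (50 * u) :=
              mul_le_mul_of_nonneg_right (by have := h.c; linarith) (Real.exp_pos _).le
      exact mul_le_mul_of_nonneg_right h2 (Nat.cast_nonneg _)
    have h3 : Real.exp (20000 / 3 * u - u) * Real.exp (10000 / 3 * u - u) ^ 2 ≤
        Real.exp (20000 / 3 * u - u) * eN n ^ 2 :=
      mul_le_mul_of_nonneg_left (pow_le_pow_left₀ (Real.exp_pos _).le h.e1 2) (Real.exp_pos _).le
    refine h1.trans (le_trans ?_ h3)
    rw [sq, ← Real.exp_add, ← Real.exp_add, ← Real.exp_add, ← Real.exp_add]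
    apply Real.exp_le_exp.2
    linarith

/-- Block RU-N2c. -/
theorem small_c : ∀ᶠ n : ℕ in atTop,
    1296 * (2 * (2 * mN n * qN n / tN n) / eN n) ≤ RR n := by
  filter_upwards [ev] with n hn
  obtain ⟨u, h⟩ := hn
  have hu := h.u1
  have hE0 : 0 < eN n := lt_of_lt_of_le (Real.exp_pos _) h.e1
  have hE1 : 1 ≤ eN n := le_trans (Real.one_le_exp (by linarith)) h.e1
  have hd0 : 0 < dN n := by rw [h.d]; exact Real.exp_pos _
  have ht0 : 0 < tN n := by rw [h.t]; exact Real.exp_pos _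
  have hn0 : (0:ℝ) < n := by rw [h.nn]; exact Real.exp_pos _
  have hdE : dN n * eN n ≤ n := by
    rw [h.d, h.nn]
    calc Real.exp (-(10000 / 18 * u)) * eN n ≤
        Real.exp (-(10000 / 18 * u)) * Real.exp (10000 / 3 * u + u) :=
          mul_le_mul_of_nonneg_left h.e2 (Real.exp_pos _).le
      _ = Real.exp (-(10000 / 18 * u) + (10000 / 3 * u + u)) := (Real.exp_add _ _).symm
      _ ≤ _ := Real.exp_le_exp.2 (by linarith)
  have hone : 1 ≤ n / (dN n * eN n) := by
    rw [le_div_iff₀ (by positivity)]; linarith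
  have hm : (mN n : ℝ) ≤ 61 * (n / (dN n * eN n)) := by
    have h1 : (mN n : ℝ) ≤ 60 * n / (dN n * eN n) + 1 := by
      rw [mN]; exact (Nat.ceil_lt_add_one (by positivity)).le
    have h2 : 60 * (n:ℝ) / (dN n * eN n) = 60 * (n / (dN n * eN n)) := by ring
    rw [h2] at h1
    linarith
  have hq : (qN n : ℝ) ≤ 2 * eN n := by
    have h1 : (qN n : ℝ) ≤ eN n + 1 := by
      rw [qN]; exact (Nat.ceil_lt_add_one hE0.le).le
    linarith
  have hmq : (mN n : ℝ) * qN n ≤ 61 * (n / (dN n * eN n)) * (2 * eN n) :=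
    mul_le_mul hm hq (Nat.cast_nonneg _) (by positivity)
  have h5 : 1296 * (2 * (2 * mN n * qN n / tN n) / eN n) =
      5184 * (mN n * qN n) / (tN n * eN n) := by
    field_simp
    ring
  rw [h5]
  have h6 : 5184 * (mN n * qN n) / (tN n * eN n) ≤
      5184 * (61 * (n / (dN n * eN n)) * (2 * eN n)) / (tN n * eN n) := by
    refine div_le_div_of_nonneg_right ?_ (by positivity)
    linarith
  have h7 : 5184 * (61 * (n / (dN n * eN n)) * (2 * eN n)) / (tN n * eN n) =
      632448 * n / (dN n * tN n * eN n) := by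
    field_simp
    ring
  rw [h7] at h6
  refine h6.trans (le_trans ?_ h.r)
  rw [div_le_iff₀ (by positivity), h.d, h.t]
  have h8 : Real.exp (20000 / 3 * u - u) * (Real.exp (-(10000 / 18 * u)) *
      Real.exp (10000 / 17 * u) * Real.exp (10000 / 3 * u - u)) ≤
      Real.exp (20000 / 3 * u - u) * (Real.exp (-(10000 / 18 * u)) *
      Real.exp (10000 / 17 * u) * eN n) := by
    have := h.e1
    gcongr
  refine le_trans ?_ h8
  calc 632448 * (n:ℝ) ≤ Real.exp u * Real.exp (10000 * u) := by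
        rw [← h.nn]
        exact mul_le_mul_of_nonneg_right (by have := h.c; linarith) hn0.le
    _ ≤ _ := by
      rw [← Real.exp_add, ← Real.exp_add, ← Real.exp_add, ← Real.exp_add]
      apply Real.exp_le_exp.2
      linarith

/-- Block RU-N2d. -/
theorem small_d : ∀ᶠ n : ℕ in atTop,
    1296 * (256 * 2 ^ pN n * (fN n + 4 * n / eN n) * (4 * Real.sqrt (dN n) / (1 / Real.log n)))
      ≤ RR n := by
  filter_upwards [ev] with n hn
  obtain ⟨u, h⟩ := hn
  have hu := h.u1
  have hE0 : 0 < eN n := lt_of_lt_of_le (Real.exp_pos _) h.e1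
  have hn0 : (0:ℝ) < n := by rw [h.nn]; exact Real.exp_pos _
  have hL1 : 1 ≤ Real.log n := by rw [h.L]; linarith
  have hL0 : 0 < Real.log n := by linarith
  have h2p : (1:ℝ) ≤ 2 ^ pN n := one_le_pow₀ (by norm_num)
  obtain ⟨B, hB⟩ : ∃ B : ℝ, B = 2 ^ pN n * Real.log n * (n / eN n) := ⟨_, rfl⟩
  have hnE : 1 ≤ n / eN n := by
    rw [le_div_iff₀ hE0, one_mul, h.nn]
    exact h.e2.trans (Real.exp_le_exp.2 (by linarith))
  have hpl : 1 ≤ 2 ^ pN n * Real.log n := by
    calc (1:ℝ) = 1 * 1 := by norm_num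
      _ ≤ 2 ^ pN n * Real.log n := mul_le_mul h2p hL1 (by norm_num) (by positivity)
  have hnB : n / eN n ≤ B := by
    rw [hB]
    calc n / eN n = 1 * (n / eN n) := (one_mul _).symm
      _ ≤ _ := mul_le_mul_of_nonneg_right hpl (by positivity)
  have hexp1 : Real.exp 1 ≤ 3 := by
    have := Real.exp_one_lt_d9
    linarith
  have hf : (fN n : ℝ) ≤ 4 * B := by
    have h1 : (fN n : ℝ) ≤ Real.exp 1 * 2 ^ pN n * Real.log n * n / eN n + 1 := by
      rw [fN]; exact (Nat.ceil_lt_add_one (by positivity)).le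
    have h2 : Real.exp 1 * 2 ^ pN n * Real.log n * n / eN n = Real.exp 1 * B := by
      rw [hB]; ring
    rw [h2] at h1
    have h3 : Real.exp 1 * B ≤ 3 * B := mul_le_mul_of_nonneg_right hexp1 (by linarith)
    linarith
  have hsum : (fN n : ℝ) + 4 * n / eN n ≤ 8 * B := by
    have : 4 * (n:ℝ) / eN n = 4 * (n / eN n) := by ring
    rw [this]
    linarith
  have hs0 : 0 < Real.sqrt (dN n) := by rw [h.sd]; exact Real.exp_pos _
  have h5 : 1296 * (256 * 2 ^ pN n * (fN n + 4 * n / eN n) *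
      (4 * Real.sqrt (dN n) / (1 / Real.log n))) =
      1327104 * 2 ^ pN n * (fN n + 4 * n / eN n) * Real.sqrt (dN n) * Real.log n := by
    field_simp
    ring
  rw [h5]
  have h6 : 1327104 * 2 ^ pN n * (fN n + 4 * n / eN n) * Real.sqrt (dN n) * Real.log n ≤
      1327104 * 2 ^ pN n * (8 * B) * Real.sqrt (dN n) * Real.log n := by
    gcongr
  refine h6.trans (le_trans ?_ h.r)
  have h7 : 1327104 * 2 ^ pN n * (8 * B) * Real.sqrt (dN n) * Real.log n =
      10616832 * (2 ^ pN n) ^ 2 * Real.log n ^ 2 * (n * Real.sqrt (dN n)) / eN n := by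
    rw [hB]; ring
  rw [h7, div_le_iff₀ hE0]
  have h8 : Real.exp (20000 / 3 * u - u) * Real.exp (10000 / 3 * u - u) ≤
      Real.exp (20000 / 3 * u - u) * eN n :=
    mul_le_mul_of_nonneg_left h.e1 (Real.exp_pos _).le
  refine le_trans ?_ h8
  have h9 : (2 ^ pN n : ℝ) ^ 2 ≤ (3 * Real.exp (50 * u)) ^ 2 :=
    pow_le_pow_left₀ (by positivity) h.tp 2
  have h10 : Real.log n ^ 2 ≤ (Real.exp u) ^ 2 := pow_le_pow_left₀ hL0.le h.l 2
  calc 10616832 * (2 ^ pN n) ^ 2 * Real.log n ^ 2 * (n * Real.sqrt (dN n))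
      ≤ 10616832 * (3 * Real.exp (50 * u)) ^ 2 * (Real.exp u) ^ 2 *
        (Real.exp (10000 * u) * Real.exp (-(10000 / 36 * u))) := by
        rw [← h.nn, ← h.sd]
        gcongr
    _ = 95551488 * (Real.exp (50 * u) ^ 2 * Real.exp u ^ 2 *
        (Real.exp (10000 * u) * Real.exp (-(10000 / 36 * u)))) := by ring
    _ ≤ Real.exp u * (Real.exp (50 * u) ^ 2 * Real.exp u ^ 2 *
        (Real.exp (10000 * u) * Real.exp (-(10000 / 36 * u)))) := by
        refine mul_le_mul_of_nonneg_right ?_ (by positivity)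
        have := h.c
        linarith
    _ ≤ _ := by
      rw [sq, sq, ← Real.exp_add, ← Real.exp_add, ← Real.exp_add, ← Real.exp_add, ← Real.exp_add,
        ← Real.exp_add, ← Real.exp_add]
      apply Real.exp_le_exp.2
      linarith

end Pool.Agent.RU
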