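import Pool.Agent.Helper96.RU.NDefs

/-!
# Block RU-N3 (MP_a64d16_an): the main terms, for large `n`

`L = log n`, `E = (4608 n/p)^(1/3)`, `L/400 ≤ p ≤ L` for `L ≥ 400`.
`n/E = n^(2/3) (p/4608)^(1/3) ≤ n^(2/3) L^(1/3)`, so `n/(E L) ≤ n^(2/3) L^(-2/3) ≤ RR n`.
`2^p/h^2 = 1/L`. `κ E = (n √L · 4608 n/p)^(1/3) ≤ n^(2/3) (4608 · 400 · L^(-1/2))^(1/3) ≤ 200 RR n`.
`n/κ = n^(2/3) L^(-1/6) = RR n`.
-/

namespace Pool.Agent.RU

open Filter

private lemma pN_bounds52 {n : ℕ} (hL : 400 ≤ Real.log n) :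
    Real.log n / 400 ≤ (pN n : ℝ) ∧ (pN n : ℝ) ≤ Real.log n := by
  have h1 : (pN n : ℝ) = 2 * (⌊Real.log n / 400⌋₊ : ℝ) + 1 := by
    unfold pN; push_cast; ring
  have h2 : (⌊Real.log n / 400⌋₊ : ℝ) ≤ Real.log n / 400 := Nat.floor_le (by linarith)
  have h3 : Real.log n / 400 < (⌊Real.log n / 400⌋₊ : ℝ) + 1 := Nat.lt_floor_add_one _
  rw [h1]
  constructor <;> linarith

/-- Block RU-N3. -/
theorem main_terms : ∀ᶠ n : ℕ in atTop,
    1296 * ((n : ℝ) * (1 / Real.log n) / eN n) ≤ 1296 * RR n ∧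
    256 * 2 ^ pN n * (4 * (n : ℝ) / eN n) / hN n ^ 2 ≤ 1024 * RR n ∧
    kN n * eN n ≤ 200 * RR n ∧ (n : ℝ) / kN n ≤ RR n := by
  have hlog : Tendsto (fun n : ℕ => Real.log n) atTop atTop :=
    Real.tendsto_log_atTop.comp tendsto_natCast_atTop_atTop
  filter_upwards [hlog.eventually_ge_atTop 400, eventually_ge_atTop 1] with n hL hn
  obtain ⟨hp1, hp2⟩ := pN_bounds52 hL
  have hn0 : (0 : ℝ) < n := by exact_mod_cast hn
  have hL0 : 0 < Real.log n := by linarith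
  have hp0 : (0 : ℝ) < pN n := by linarith [div_pos hL0 (by norm_num : (0:ℝ) < 400)]
  set a : ℝ := (n : ℝ) ^ (1 / 3 : ℝ) with ha
  set b : ℝ := (Real.log n) ^ (1 / 6 : ℝ) with hb
  have ha0 : 0 < a := Real.rpow_pos_of_pos hn0 _
  have hb0 : 0 < b := Real.rpow_pos_of_pos hL0 _
  have hb1 : 1 ≤ b := Real.one_le_rpow (by linarith) (by norm_num)
  have ha3 : a ^ 3 = n := by
    rw [ha, ← Real.rpow_natCast, ← Real.rpow_mul hn0.le]; norm_num
  have hb6 : b ^ 6 = Real.log n := by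
    rw [hb, ← Real.rpow_natCast, ← Real.rpow_mul hL0.le]; norm_num
  have ha2 : (n : ℝ) ^ (2 / 3 : ℝ) = a ^ 2 := by
    rw [ha, ← Real.rpow_natCast, ← Real.rpow_mul hn0.le]; norm_num
  have hs : Real.sqrt (Real.log n) = b ^ 3 := by
    rw [← hb6, show b ^ 6 = (b ^ 3) ^ 2 by ring, Real.sqrt_sq (by positivity)]
  have hR : RR n = a ^ 2 / b := by rw [RR, ha2]
  have hk : kN n = a * b := by
    rw [kN, hs, ← ha3, ← mul_pow, ← Real.rpow_natCast, ← Real.rpow_mul (by positivity)]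
    norm_num
  set E : ℝ := eN n with hE
  have hE0 : 0 < E := Real.rpow_pos_of_pos (by positivity) _
  have hE3 : E ^ 3 * pN n = 4608 * a ^ 3 := by
    rw [hE, eN, ← Real.rpow_natCast, ← Real.rpow_mul (by positivity), ha3]
    norm_num
    field_simp
  have hElow : a / b ^ 2 ≤ E := by
    by_contra hcon
    push Not at hcon
    have h1 : E ^ 3 < (a / b ^ 2) ^ 3 := pow_lt_pow_left₀ hcon hE0.le (by norm_num)
    have h2 : E ^ 3 * pN n < (a / b ^ 2) ^ 3 * pN n := mul_lt_mul_of_pos_right h1 hp0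
    have h3 : (a / b ^ 2) ^ 3 * pN n ≤ (a / b ^ 2) ^ 3 * b ^ 6 :=
      mul_le_mul_of_nonneg_left (by rw [hb6]; exact hp2) (by positivity)
    have h4 : (a / b ^ 2) ^ 3 * b ^ 6 = a ^ 3 := by field_simp
    have h5 : 0 < a ^ 3 := by positivity
    linarith
  have hEup : E ≤ 200 * a / b ^ 2 := by
    by_contra hcon
    push Not at hcon
    have h1 : (200 * a / b ^ 2) ^ 3 < E ^ 3 := pow_lt_pow_left₀ hcon (by positivity) (by norm_num)
    have h2 : (200 * a / b ^ 2) ^ 3 * pN n < E ^ 3 * pN n := mul_lt_mul_of_pos_right h1 hp0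
    have h3 : (200 * a / b ^ 2) ^ 3 * (b ^ 6 / 400) ≤ (200 * a / b ^ 2) ^ 3 * pN n :=
      mul_le_mul_of_nonneg_left (by rw [hb6]; exact hp1) (by positivity)
    have h4 : (200 * a / b ^ 2) ^ 3 * (b ^ 6 / 400) = 20000 * a ^ 3 := by field_simp; norm_num
    have h5 : 0 < a ^ 3 := by positivity
    linarith
  have hfirst : (n : ℝ) * (1 / Real.log n) / E ≤ RR n := by
    rw [hR, ← hb6, ← ha3, div_le_div_iff₀ hE0 hb0]
    have h1 : a ^ 3 * (1 / b ^ 6) * b ≤ a ^ 2 * (a / b ^ 2) := by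
      rw [show a ^ 3 * (1 / b ^ 6) * b = a ^ 3 / b ^ 5 by field_simp,
        show a ^ 2 * (a / b ^ 2) = a ^ 3 / b ^ 2 by field_simp]
      exact div_le_div_of_nonneg_left (by positivity) (by positivity)
        (pow_le_pow_right₀ hb1 (by norm_num))
    exact h1.trans (mul_le_mul_of_nonneg_left hElow (by positivity))
  refine ⟨mul_le_mul_of_nonneg_left hfirst (by norm_num), ?_, ?_, ?_⟩
  · have hh : hN n ^ 2 = 2 ^ pN n * Real.log n := by
      rw [hN, Real.sq_sqrt (by positivity)]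
    rw [hh]
    have h1 : 256 * 2 ^ pN n * (4 * (n : ℝ) / E) / (2 ^ pN n * Real.log n) =
        1024 * ((n : ℝ) * (1 / Real.log n) / E) := by
      field_simp
      norm_num
    rw [h1]
    exact mul_le_mul_of_nonneg_left hfirst (by norm_num)
  · rw [hk, hR]
    calc a * b * E ≤ a * b * (200 * a / b ^ 2) :=
          mul_le_mul_of_nonneg_left hEup (by positivity)
      _ = 200 * (a ^ 2 / b) := by field_simp
  · rw [hk, hR, ← ha3]
    apply le_of_eq
    field_simp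

end Pool.Agent.RU
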