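import Mathlib

/-!
# Parameters of the sharp upper bound (MP_a64d16_an)
-/

namespace Pool.Agent.RU

/-- The exponent of the power signals, an odd number close to `log n / 200`. -/
noncomputable def pN (n : ℕ) : ℕ := 2 * ⌊Real.log n / 400⌋₊ + 1

/-- The energy level. -/
noncomputable def eN (n : ℕ) : ℝ := (4608 * n / pN n) ^ (1 / 3 : ℝ)

noncomputable def dN (n : ℕ) : ℝ := (n : ℝ) ^ (-(1 / 18) : ℝ)

noncomputable def tN (n : ℕ) : ℝ := (n : ℝ) ^ (1 / 17 : ℝ)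

noncomputable def qN (n : ℕ) : ℕ := ⌈eN n⌉₊

noncomputable def mN (n : ℕ) : ℕ := ⌈60 * n / (dN n * eN n)⌉₊

noncomputable def fN (n : ℕ) : ℕ := ⌈Real.exp 1 * 2 ^ pN n * Real.log n * n / eN n⌉₊

noncomputable def hN (n : ℕ) : ℝ := Real.sqrt (2 ^ pN n * Real.log n)

noncomputable def kN (n : ℕ) : ℝ := (n * Real.sqrt (Real.log n)) ^ (1 / 3 : ℝ)

/-- The order of `R_∞^n`. -/
noncomputable def RR (n : ℕ) : ℝ := (n : ℝ) ^ (2 / 3 : ℝ) / (Real.log n) ^ (1 / 6 : ℝ)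

end Pool.Agent.RU
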