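import Pool.Agent.Helper96.RU.G

/-!
# Block RU-P1 (MP_a64d16_an): the covariance of the noise

Proof. `psi y = c_p y^p - y`, `c_p = den d (p+1) / (p!! d)`. By `IsRot.left` and RU-G1, G2
(`gm 1 1 = X`, `den d 2 = d`): the sum is
`c_p^2 gm_pp(R) / den d (2p) - 2 c_p p!! R / den d (p+1) + R / d
 = (1/d) (c0 gm_pp(R)/(p!!)^2 - R)`, `c0 = den d (p+1)^2 / (d den d (2p)) ≤ 1`
(`den d (2p) = ∏_{j<p} (d+2j)`, `den d (p+1)^2 / d = d ∏_{1≤j≤(p-1)/2} (d+2j)^2`, compare the factors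
`j` and `j + (p-1)/2`). With `gm_pp(R) = (p!!)^2 (R + ∑ k_r R^r)` it equals
`(1/d) (-(1 - c0) R + ∑ (c0 k_r) R^r)`.
-/

namespace Pool.Agent.RU

open Matrix Module

/-- The covariance of two noise variables. -/
theorem cov_psi {d N p : ℕ} {ι : Type} [Fintype ι] {ω : ι → ℝ}
    {Q : ι → Matrix (Fin d) (Fin d) ℝ} (h : IsRot d N ω Q) (hd : 0 < d) (hp : Odd p)
    (hN : 2 * p ≤ N) (a b e : Fin d → ℝ) (ha : a ⬝ᵥ a = 1) (hb : b ⬝ᵥ b = 1) (he : e ⬝ᵥ e = 1) :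
    ∑ x, ω x * (psi d p (a ⬝ᵥ Q x *ᵥ e) * psi d p (b ⬝ᵥ Q x *ᵥ e)) =
      (den d (p + 1) / ((p.doubleFactorial : ℝ) * d)) ^ 2 *
        ((gm p p).eval (a ⬝ᵥ b) / den d (2 * p)) - (a ⬝ᵥ b) / d := by
  have hd' : (0 : ℝ) < d := by exact_mod_cast hd
  have hp1 : 1 ≤ p := hp.pos
  set R := a ⬝ᵥ b with hR
  set c := den d (p + 1) / ((p.doubleFactorial : ℝ) * d) with hc
  have h1 := h.left p p (by omega) a b e ha hb he
  have h2 := h.left p 1 (by omega) a b e ha hb he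
  have h3 := h.left 1 p (by omega) a b e ha hb he
  have h4 := h.left 1 1 (by omega) a b e ha hb he
  rw [← hR] at h1 h2 h3 h4
  rw [(gm_one hp R).1] at h2
  rw [(gm_one hp R).2, show 1 + p = p + 1 by ring] at h3
  rw [(gm_one odd_one R).1, show 1 + 1 = 2 by rfl, H17.den_two,
    show Nat.doubleFactorial 1 = 1 by rfl, Nat.cast_one, one_mul] at h4
  rw [← two_mul] at h1
  have hpf : (0 : ℝ) < (p.doubleFactorial : ℝ) := by exact_mod_cast Nat.doubleFactorial_pos p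
  have hcd : c * ((p.doubleFactorial : ℝ) * R / den d (p + 1)) = R / d := by
    rw [hc]
    have := H17.den_pos hd (p + 1)
    field_simp
  have key : ∀ x, ω x * (psi d p (a ⬝ᵥ Q x *ᵥ e) * psi d p (b ⬝ᵥ Q x *ᵥ e)) =
      c ^ 2 * (ω x * ((a ⬝ᵥ Q x *ᵥ e) ^ p * (b ⬝ᵥ Q x *ᵥ e) ^ p)) -
      c * (ω x * ((a ⬝ᵥ Q x *ᵥ e) ^ p * (b ⬝ᵥ Q x *ᵥ e) ^ 1)) -
      c * (ω x * ((a ⬝ᵥ Q x *ᵥ e) ^ 1 * (b ⬝ᵥ Q x *ᵥ e) ^ p)) +
      ω x * ((a ⬝ᵥ Q x *ᵥ e) ^ 1 * (b ⬝ᵥ Q x *ᵥ e) ^ 1) := by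
    intro x
    unfold psi phi
    rw [← hc]
    ring
  simp_rw [key]
  rw [Finset.sum_add_distrib, Finset.sum_sub_distrib, Finset.sum_sub_distrib, ← Finset.mul_sum,
    ← Finset.mul_sum, ← Finset.mul_sum, h1, h2, h3, h4, hcd]
  ring

/-- Block RU-P1. -/
theorem noise_kernel {d N p : ℕ} (hd : 0 < d) (hp : Odd p) (hN : 2 * p ≤ N) {ι : Type} [Fintype ι]
    {ω : ι → ℝ} {Q : ι → Matrix (Fin d) (Fin d) ℝ} (h : IsRot d N ω Q) :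
    ∃ (c : ℝ) (k : ℕ → ℝ), 0 ≤ c ∧ (∀ r, 0 ≤ k r) ∧ (∀ r, r < 3 → k r = 0) ∧
      ∑ r ∈ Finset.range (p + 1), k r ≤ 2 ^ p ∧
      ∀ a b e : Fin d → ℝ, a ⬝ᵥ a = 1 → b ⬝ᵥ b = 1 → e ⬝ᵥ e = 1 →
        ∑ x, ω x * (psi d p (a ⬝ᵥ Q x *ᵥ e) * psi d p (b ⬝ᵥ Q x *ᵥ e)) =
          (1 / d) * (-(c * (a ⬝ᵥ b)) + ∑ r ∈ Finset.range (p + 1), k r * (a ⬝ᵥ b) ^ r) := by
  have hd' : (0 : ℝ) < d := by exact_mod_cast hd
  have hpf : (0 : ℝ) < (p.doubleFactorial : ℝ) := by exact_mod_cast Nat.doubleFactorial_pos p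
  have hD2 := H17.den_pos hd (2 * p)
  obtain ⟨k, hk0, hk3, hks, hke⟩ := gm_odd_expand hp
  set κ := den d (p + 1) ^ 2 / (d * den d (2 * p)) with hκ
  have hκ1 : κ ≤ 1 := by
    rw [hκ, div_le_one (by positivity)]
    exact H17.den_sq_le hd hp
  have hκ0 : 0 ≤ κ := by rw [hκ]; positivity
  refine ⟨1 - κ, fun r => κ * k r, by linarith, fun r => mul_nonneg hκ0 (hk0 r), ?_, ?_, ?_⟩
  · intro r hr
    simp [hk3 r hr]
  · rw [← Finset.mul_sum]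
    have h0 : 0 ≤ ∑ r ∈ Finset.range (p + 1), k r := Finset.sum_nonneg fun r _ => hk0 r
    nlinarith
  · intro a b e ha hb he
    rw [cov_psi h hd hp hN a b e ha hb he, hke]
    simp_rw [mul_assoc]
    rw [← Finset.mul_sum, hκ]
    field_simp
    ring

end Pool.Agent.RU
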