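import Pool.Agent.Helper96.RU.G

/-!
# Block RU-P2 (MP_a64d16_an): mean and covariance of the budget

`bud y = (1/2) c_p (√(d/p) y^(p+1) + √(p/d) y^(p-1))`, `c_p = den d (p+1)/(p!! d)`, is at least
`|phi y| = c_p |y|^p`, because `|y| ≤ (1/2)(√(d/p) y^2 + √(p/d))` (p odd, `|y|^p = y^(p-1) |y|`).
Mean: `∑ ω y^(p+1) = p!! / den d (p+1)`, `∑ ω y^(p-1) = (p-2)!! / den d (p-1)`,
`den d (p+1) = den d (p-1) (d+p-1)`, `p!! = p (p-2)!!`: mean `= (1/2)(1/√(dp)) (1 + (d+p-1)/d) ≤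
1.01/√(dp)` if `50 p ≤ d`.
Covariance (`y = a·Qe`, `y' = a·Qe'`, `R = e·e'`): expand the product in the four terms
`a', b' ∈ {p+1, p-1}`; each moment is `gm a' b' (R) / den d (a'+b')` and
`den d (a'+b') ≥ den d a' den d b'`, RU-G3, G4 (`gm a' b' ≥ 0`): cov `≤ ∑ coef R^2 (a'+b'-1)!! /
(den d a' den d b')`
`= (1/d) R^2 (2p-1)!!/(p!!)^2 ((2p+1)/(4p) + (1/2)((d+p-1)/d) + (1/4) ((d+p-1)/d)^2 p/(2p-1))`
`≤ (1.6/d) 2^p R^2` (RU-G5, `50 p ≤ d`, `p ≥ 1`).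
-/

namespace Pool.Agent.RU

open Matrix Module

/-- The even majorant of `|phi|`. -/
noncomputable def bud (d p : ℕ) (y : ℝ) : ℝ :=
  1 / 2 * (den d (p + 1) / ((p.doubleFactorial : ℝ) * d)) *
    (Real.sqrt (d / p) * y ^ (p + 1) + Real.sqrt (p / d) * y ^ (p - 1))

private lemma den_pos' {d : ℕ} (hd : 0 < d) (m : ℕ) : 0 < den d m := by
  unfold den
  refine Finset.prod_pos fun j _ => ?_
  have : (0 : ℝ) < d := by exact_mod_cast hd
  positivity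

private lemma den_succ' (d k : ℕ) : den d (2 * k + 2) = den d (2 * k) * (d + 2 * k) := by
  unfold den
  rw [show (2 * k + 2) / 2 = k + 1 by omega, show (2 * k) / 2 = k by omega,
    Finset.prod_range_succ]

private lemma den_mul_le' {d : ℕ} (a b : ℕ) :
    den d (2 * a) * den d (2 * b) ≤ den d (2 * a + 2 * b) := by
  unfold den
  rw [show (2 * a) / 2 = a by omega, show (2 * b) / 2 = b by omega,
    show (2 * a + 2 * b) / 2 = a + b by omega, Finset.prod_range_add]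
  refine mul_le_mul_of_nonneg_left ?_ (Finset.prod_nonneg fun i _ => by positivity)
  refine Finset.prod_le_prod (fun i _ => by positivity) fun i _ => ?_
  push_cast
  have : (0 : ℝ) ≤ a := by positivity
  linarith

private lemma df' (k : ℕ) : ((2 * k + 1).doubleFactorial : ℝ) =
    (2 * k + 1) * ((2 * k - 1).doubleFactorial : ℝ) := by
  rcases k with _ | k
  · simp
  · have h1 : 2 * (k + 1) + 1 = (2 * k + 1) + 2 := by ring
    have h2 : 2 * (k + 1) - 1 = 2 * k + 1 := by omega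
    rw [h2, h1, Nat.doubleFactorial_add_two]
    push_cast; ring

/-- Block RU-P2a. -/
theorem abs_phi_le {d p : ℕ} (hd : 0 < d) (hp : Odd p) (y : ℝ) : |phi d p y| ≤ bud d p y := by
  obtain ⟨k, rfl⟩ := hp
  have hd' : (0 : ℝ) < d := by exact_mod_cast hd
  have hp' : (0 : ℝ) < ((2 * k + 1 : ℕ) : ℝ) := by positivity
  have hc : 0 < den d (2 * k + 1 + 1) / (((2 * k + 1).doubleFactorial : ℝ) * d) := by
    have h1 := den_pos' hd (2 * k + 1 + 1)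
    have h2 : (0 : ℝ) < ((2 * k + 1).doubleFactorial : ℝ) := by
      exact_mod_cast Nat.doubleFactorial_pos _
    positivity
  unfold phi bud
  rw [abs_mul, abs_of_pos hc]
  set c := den d (2 * k + 1 + 1) / (((2 * k + 1).doubleFactorial : ℝ) * d) with hcdef
  have ht : Real.sqrt (((2 * k + 1 : ℕ) : ℝ) / d) = (Real.sqrt (d / ((2 * k + 1 : ℕ) : ℝ)))⁻¹ := by
    rw [← Real.sqrt_inv, inv_div]
  rw [ht]
  set t := Real.sqrt (d / ((2 * k + 1 : ℕ) : ℝ)) with htdef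
  have ht0 : 0 < t := Real.sqrt_pos.mpr (by positivity)
  have h2 : 2 * |y| ≤ t * y ^ 2 + t⁻¹ := by
    have h3 : 0 ≤ t⁻¹ * (t * |y| - 1) ^ 2 := by positivity
    have h4 : t⁻¹ * (t * |y| - 1) ^ 2 = t * |y| ^ 2 - 2 * |y| + t⁻¹ := by
      field_simp
      ring
    rw [h4, sq_abs] at h3
    linarith
  have h5 : |y ^ (2 * k + 1)| = |y| * y ^ (2 * k) := by
    rw [pow_succ, abs_mul, pow_mul, abs_of_nonneg (by positivity : 0 ≤ (y ^ 2) ^ k), mul_comm]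
  have h6 : 0 ≤ y ^ (2 * k) := by rw [pow_mul]; positivity
  have h7 : 2 * k + 1 - 1 = 2 * k := by omega
  rw [h5, h7]
  have h8 : t * y ^ (2 * k + 1 + 1) + t⁻¹ * y ^ (2 * k) = (t * y ^ 2 + t⁻¹) * y ^ (2 * k) := by ring
  rw [h8]
  have h9 := mul_le_mul_of_nonneg_right h2 h6
  nlinarith [mul_le_mul_of_nonneg_left h9 hc.le]

/-- The pure moments of a rotation. -/
private lemma pure_moment {d N : ℕ} {ι : Type} [Fintype ι] {ω : ι → ℝ}
    {Q : ι → Matrix (Fin d) (Fin d) ℝ} (h : IsRot d N ω Q)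
    {a e : Fin d → ℝ} (ha : a ⬝ᵥ a = 1) (he : e ⬝ᵥ e = 1) {m : ℕ} (hm : 2 * m ≤ N) :
    ∑ x, ω x * (a ⬝ᵥ Q x *ᵥ e) ^ (2 * m) =
      ((2 * m - 1).doubleFactorial : ℝ) / den d (2 * m) := by
  have h1 := h.left (2 * m) 0 (by omega) a a e ha ha he
  simp only [pow_zero, mul_one, add_zero] at h1
  rw [h1, gm_zero (even_two_mul m)]

private lemma sqrt_eqs {d p : ℕ} (hd : 0 < d) (hp : 0 < p) :
    Real.sqrt (d / p) = Real.sqrt (d * p) / p ∧ Real.sqrt (p / d) = Real.sqrt (d * p) / d := by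
  have hd' : (0 : ℝ) < d := by exact_mod_cast hd
  have hp' : (0 : ℝ) < p := by exact_mod_cast hp
  constructor
  · rw [show (d : ℝ) / p = (d * p) / p ^ 2 by field_simp, Real.sqrt_div (by positivity),
      Real.sqrt_sq hp'.le]
  · rw [show (p : ℝ) / d = (d * p) / d ^ 2 by field_simp, Real.sqrt_div (by positivity),
      Real.sqrt_sq hd'.le]

private lemma mean_eq {d N k : ℕ} (hd : 0 < d) (hN : 2 * (2 * k + 1) + 2 ≤ N) {ι : Type}
    [Fintype ι] {ω : ι → ℝ} {Q : ι → Matrix (Fin d) (Fin d) ℝ} (h : IsRot d N ω Q)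
    {a e : Fin d → ℝ} (ha : a ⬝ᵥ a = 1) (he : e ⬝ᵥ e = 1) :
    ∑ x, ω x * bud d (2 * k + 1) (a ⬝ᵥ Q x *ᵥ e) =
      1 / 2 * (den d (2 * k + 2) / (((2 * k + 1).doubleFactorial : ℝ) * d)) *
        (Real.sqrt (d * (2 * k + 1 : ℕ)) / (2 * k + 1 : ℕ) *
          (((2 * k + 1).doubleFactorial : ℝ) / den d (2 * k + 2)) +
        Real.sqrt (d * (2 * k + 1 : ℕ)) / d *
          (((2 * k - 1).doubleFactorial : ℝ) / den d (2 * k))) := by
  have h1 := pure_moment h ha he (m := k + 1) (by omega)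
  have h2 := pure_moment h ha he (m := k) (by omega)
  have e1 : 2 * (k + 1) = 2 * k + 2 := by ring
  have e2 : 2 * k + 2 - 1 = 2 * k + 1 := by omega
  rw [e1, e2] at h1
  rw [← h1, ← h2]
  obtain ⟨s1, s2⟩ := sqrt_eqs hd (show 0 < 2 * k + 1 by omega)
  unfold bud
  rw [s1, s2]
  simp only [show 2 * k + 1 + 1 = 2 * k + 2 by ring, show 2 * k + 1 - 1 = 2 * k by omega]
  rw [mul_add, Finset.mul_sum, Finset.mul_sum, Finset.mul_sum, Finset.mul_sum, ← Finset.sum_add_distrib]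
  refine Finset.sum_congr rfl fun x _ => ?_
  ring

/-- Block RU-P2b: the mean. -/
theorem bud_mean {d N p : ℕ} (hp : Odd p) (hpd : 50 * p ≤ d) (hN : 2 * p + 2 ≤ N) {ι : Type}
    [Fintype ι] {ω : ι → ℝ} {Q : ι → Matrix (Fin d) (Fin d) ℝ} (h : IsRot d N ω Q)
    {a e : Fin d → ℝ} (ha : a ⬝ᵥ a = 1) (he : e ⬝ᵥ e = 1) :
    ∑ x, ω x * bud d p (a ⬝ᵥ Q x *ᵥ e) ≤ 1.01 / Real.sqrt (d * p) := by
  obtain ⟨k, rfl⟩ := hp
  have hd : 0 < d := by omega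
  have hd' : (0 : ℝ) < d := by exact_mod_cast hd
  rw [mean_eq hd hN h ha he]
  set T := Real.sqrt (d * (2 * k + 1 : ℕ)) with hT
  have hTT : T * T = d * (2 * k + 1) := by
    rw [hT, Real.mul_self_sqrt (by positivity)]; push_cast; ring
  have hT0 : 0 < T := Real.sqrt_pos.mpr (by positivity)
  have hB := den_pos' hd (2 * k)
  rw [den_succ', df']
  set B := den d (2 * k)
  have hF : (0 : ℝ) < ((2 * k - 1).doubleFactorial : ℝ) := by exact_mod_cast Nat.doubleFactorial_pos _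
  set F := ((2 * k - 1).doubleFactorial : ℝ)
  have hk : (0 : ℝ) ≤ k := by positivity
  have hpd' : 50 * (2 * (k : ℝ) + 1) ≤ d := by exact_mod_cast hpd
  have e1 : 1 / 2 * (B * ((d : ℝ) + 2 * k) / ((2 * (k : ℝ) + 1) * F * d)) *
        (T / (2 * k + 1 : ℕ) * ((2 * (k : ℝ) + 1) * F / (B * (d + 2 * k))) + T / d * (F / B)) =
        (1 + k / d) * (T / ((2 * k + 1) * d)) := by
    push_cast
    field_simp
    ring
  rw [e1]
  have e2 : T / ((2 * (k : ℝ) + 1) * d) = 1 / T := by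
    rw [div_eq_div_iff (by positivity) hT0.ne', hTT]; ring
  rw [e2, mul_one_div]
  refine div_le_div_of_nonneg_right ?_ hT0.le
  have : (k : ℝ) / d ≤ 0.01 := by
    rw [div_le_iff₀ hd']; nlinarith
  linarith

private lemma mixed_le {d N : ℕ} (hd : 0 < d) {ι : Type} [Fintype ι] {ω : ι → ℝ}
    {Q : ι → Matrix (Fin d) (Fin d) ℝ} (h : IsRot d N ω Q)
    {a e e' : Fin d → ℝ} (ha : a ⬝ᵥ a = 1) (he : e ⬝ᵥ e = 1) (he' : e' ⬝ᵥ e' = 1) {r s : ℕ}
    (hrs : 2 * r + 2 * s ≤ N) (hR : |e ⬝ᵥ e'| ≤ 1) :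
    ∑ x, ω x * ((a ⬝ᵥ Q x *ᵥ e) ^ (2 * r) * (a ⬝ᵥ Q x *ᵥ e') ^ (2 * s)) ≤
      ((2 * r - 1).doubleFactorial : ℝ) / den d (2 * r) *
        (((2 * s - 1).doubleFactorial : ℝ) / den d (2 * s)) +
      (e ⬝ᵥ e') ^ 2 * (((2 * r + 2 * s - 1).doubleFactorial : ℝ) /
        (den d (2 * r) * den d (2 * s))) := by
  have h1 := h.right (2 * r) (2 * s) hrs a e e' ha he he'
  have h0 : 0 ≤ ∑ x, ω x * ((a ⬝ᵥ Q x *ᵥ e) ^ (2 * r) * (a ⬝ᵥ Q x *ᵥ e') ^ (2 * s)) := by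
    refine Finset.sum_nonneg fun x _ => mul_nonneg (h.nonneg x) (mul_nonneg ?_ ?_)
    · rw [pow_mul]; positivity
    · rw [pow_mul]; positivity
  rw [h1] at h0 ⊢
  have hden := den_pos' hd (2 * r + 2 * s)
  have hr := den_pos' hd (2 * r)
  have hs := den_pos' hd (2 * s)
  have hg : 0 ≤ (gm (2 * r) (2 * s)).eval (e ⬝ᵥ e') := by
    rw [div_nonneg_iff] at h0
    rcases h0 with h0 | h0
    · exact h0.1
    · exact absurd hden (not_lt.mpr h0.2)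
  have h2 := gm_even (even_two_mul r) (even_two_mul s) hR
  calc (gm (2 * r) (2 * s)).eval (e ⬝ᵥ e') / den d (2 * r + 2 * s)
      ≤ (gm (2 * r) (2 * s)).eval (e ⬝ᵥ e') / (den d (2 * r) * den d (2 * s)) :=
        div_le_div_of_nonneg_left hg (by positivity) (den_mul_le' r s)
    _ ≤ (((2 * r - 1).doubleFactorial : ℝ) * ((2 * s - 1).doubleFactorial : ℝ) +
          (e ⬝ᵥ e') ^ 2 * ((2 * r + 2 * s - 1).doubleFactorial : ℝ)) /
          (den d (2 * r) * den d (2 * s)) := by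
        refine div_le_div_of_nonneg_right ?_ (by positivity)
        linarith
    _ = _ := by
        field_simp

private lemma abs_dot_le {d : ℕ} {e e' : Fin d → ℝ} (he : e ⬝ᵥ e = 1) (he' : e' ⬝ᵥ e' = 1) :
    |e ⬝ᵥ e'| ≤ 1 := by
  have h1 : (e ⬝ᵥ e') ^ 2 ≤ (e ⬝ᵥ e) * (e' ⬝ᵥ e') := by
    simp only [dotProduct]
    have := Finset.sum_mul_sq_le_sq_mul_sq Finset.univ e e'
    simpa [pow_two] using this
  rw [he, he', mul_one] at h1
  exact (sq_le_one_iff_abs_le_one _).mp h1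

/-- The scalar bound in RU-P2c. -/
private lemma cov_scalar {d k B F G T K R2 : ℝ} (hd : 0 < d) (hk : 0 ≤ k) (hB : 0 < B) (hF : 0 < F)
    (hG : 0 < G) (hR : 0 ≤ R2) (hT2 : T ^ 2 = d * (2 * k + 1)) (hpd : 50 * (2 * k + 1) ≤ d)
    (h5 : (4 * k + 1) * G ≤ K * ((2 * k + 1) * F) ^ 2) :
    (1 / 2 * (B * (d + 2 * k) / ((2 * k + 1) * F * d))) * (1 / 2 * (B * (d + 2 * k) / ((2 * k + 1) * F * d))) *
        (T / (2 * k + 1) * (T / (2 * k + 1))) * (R2 * ((4 * k + 3) * ((4 * k + 1) * G) /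
        (B * (d + 2 * k) * (B * (d + 2 * k))))) +
      (1 / 2 * (B * (d + 2 * k) / ((2 * k + 1) * F * d))) * (1 / 2 * (B * (d + 2 * k) / ((2 * k + 1) * F * d))) *
        (T / (2 * k + 1) * (T / d)) * (R2 * ((4 * k + 1) * G / (B * (d + 2 * k) * B))) +
      (1 / 2 * (B * (d + 2 * k) / ((2 * k + 1) * F * d))) * (1 / 2 * (B * (d + 2 * k) / ((2 * k + 1) * F * d))) *
        (T / (2 * k + 1) * (T / d)) * (R2 * ((4 * k + 1) * G / (B * (B * (d + 2 * k))))) +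
      (1 / 2 * (B * (d + 2 * k) / ((2 * k + 1) * F * d))) * (1 / 2 * (B * (d + 2 * k) / ((2 * k + 1) * F * d))) *
        (T / d * (T / d)) * (R2 * (G / (B * B))) ≤ 1.6 * K / d * R2 := by
  have hp : 0 < 2 * k + 1 := by linarith
  have hq : 0 < 4 * k + 1 := by linarith
  have hdk : 0 < d + 2 * k := by linarith
  have t1 : (1 / 2 * (B * (d + 2 * k) / ((2 * k + 1) * F * d))) * (1 / 2 * (B * (d + 2 * k) / ((2 * k + 1) * F * d))) *
        (T / (2 * k + 1) * (T / (2 * k + 1))) * (R2 * ((4 * k + 3) * ((4 * k + 1) * G) /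
        (B * (d + 2 * k) * (B * (d + 2 * k))))) =
        R2 / d * ((4 * k + 1) * G / ((2 * k + 1) * F) ^ 2) * (1 / 4 * ((4 * k + 3) / (2 * k + 1))) := by
    have : (T / (2 * k + 1) * (T / (2 * k + 1))) = d / (2 * k + 1) := by
      rw [div_mul_div_comm, ← pow_two, hT2]; field_simp
    rw [this]; field_simp
    ring
  have t2 : (1 / 2 * (B * (d + 2 * k) / ((2 * k + 1) * F * d))) * (1 / 2 * (B * (d + 2 * k) / ((2 * k + 1) * F * d))) *
        (T / (2 * k + 1) * (T / d)) * (R2 * ((4 * k + 1) * G / (B * (d + 2 * k) * B))) =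
        R2 / d * ((4 * k + 1) * G / ((2 * k + 1) * F) ^ 2) * (1 / 4 * ((d + 2 * k) / d)) := by
    have : (T / (2 * k + 1) * (T / d)) = 1 := by
      rw [div_mul_div_comm, ← pow_two, hT2]; field_simp
    rw [this]; field_simp
    ring
  have t3 : (1 / 2 * (B * (d + 2 * k) / ((2 * k + 1) * F * d))) * (1 / 2 * (B * (d + 2 * k) / ((2 * k + 1) * F * d))) *
        (T / (2 * k + 1) * (T / d)) * (R2 * ((4 * k + 1) * G / (B * (B * (d + 2 * k))))) =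
        R2 / d * ((4 * k + 1) * G / ((2 * k + 1) * F) ^ 2) * (1 / 4 * ((d + 2 * k) / d)) := by
    rw [← t2]; congr 3; ring
  have t4 : (1 / 2 * (B * (d + 2 * k) / ((2 * k + 1) * F * d))) * (1 / 2 * (B * (d + 2 * k) / ((2 * k + 1) * F * d))) *
        (T / d * (T / d)) * (R2 * (G / (B * B))) =
        R2 / d * ((4 * k + 1) * G / ((2 * k + 1) * F) ^ 2) *
          (1 / 4 * (((d + 2 * k) / d) ^ 2 * ((2 * k + 1) / (4 * k + 1)))) := by
    have : (T / d * (T / d)) = (2 * k + 1) / d := by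
      rw [div_mul_div_comm, ← pow_two, hT2]; field_simp
    rw [this]; field_simp
    ring
  rw [t1, t2, t3, t4]
  have q1 : (4 * k + 1) * G / ((2 * k + 1) * F) ^ 2 ≤ K := by
    rw [div_le_iff₀ (by positivity)]
    exact h5
  have q2 : (4 * k + 3) / (2 * k + 1) ≤ 3 := by
    rw [div_le_iff₀ (by positivity)]; linarith
  have q3 : (d + 2 * k) / d ≤ 1.02 := by
    rw [div_le_iff₀ hd]; linarith
  have q3' : 0 ≤ (d + 2 * k) / d := by positivity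
  have q4 : (2 * k + 1) / (4 * k + 1) ≤ 1 := by
    rw [div_le_one (by positivity)]; linarith
  have q4' : 0 ≤ (2 * k + 1) / (4 * k + 1) := by positivity
  have q5 : ((d + 2 * k) / d) ^ 2 ≤ 1.02 ^ 2 := pow_le_pow_left₀ q3' q3 2
  have q6 : ((d + 2 * k) / d) ^ 2 * ((2 * k + 1) / (4 * k + 1)) ≤ 1.02 ^ 2 * 1 :=
    mul_le_mul q5 q4 q4' (by norm_num)
  have q7 : 1 / 4 * ((4 * k + 3) / (2 * k + 1)) + 1 / 4 * ((d + 2 * k) / d) +
      1 / 4 * ((d + 2 * k) / d) +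
      1 / 4 * (((d + 2 * k) / d) ^ 2 * ((2 * k + 1) / (4 * k + 1))) ≤ 1.6 := by
    norm_num at q3 q6 ⊢
    linarith
  have q70 : 0 ≤ 1 / 4 * ((4 * k + 3) / (2 * k + 1)) + 1 / 4 * ((d + 2 * k) / d) +
      1 / 4 * ((d + 2 * k) / d) +
      1 / 4 * (((d + 2 * k) / d) ^ 2 * ((2 * k + 1) / (4 * k + 1))) := by positivity
  have q8 : 0 ≤ R2 / d := by positivity
  have q9 : 0 ≤ (4 * k + 1) * G / ((2 * k + 1) * F) ^ 2 := by positivity
  have hK : 0 ≤ K := q9.trans q1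
  rw [← mul_add, ← mul_add, ← mul_add]
  calc _ ≤ R2 / d * K * 1.6 := by
        refine mul_le_mul (mul_le_mul_of_nonneg_left q1 q8) q7 q70 (by positivity)
    _ = _ := by ring

/-- Block RU-P2c: the covariance. -/
theorem bud_cov {d N p : ℕ} (hp : Odd p) (hpd : 50 * p ≤ d) (hN : 2 * p + 2 ≤ N) {ι : Type}
    [Fintype ι] {ω : ι → ℝ} {Q : ι → Matrix (Fin d) (Fin d) ℝ} (h : IsRot d N ω Q)
    {a e e' : Fin d → ℝ} (ha : a ⬝ᵥ a = 1) (he : e ⬝ᵥ e = 1) (he' : e' ⬝ᵥ e' = 1) :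
    ∑ x, ω x * (bud d p (a ⬝ᵥ Q x *ᵥ e) * bud d p (a ⬝ᵥ Q x *ᵥ e')) -
      (∑ x, ω x * bud d p (a ⬝ᵥ Q x *ᵥ e)) * (∑ x, ω x * bud d p (a ⬝ᵥ Q x *ᵥ e')) ≤
      1.6 * 2 ^ p / d * (e ⬝ᵥ e') ^ 2 := by
  have h5 := doubleFactorial_le hp
  obtain ⟨k, rfl⟩ := hp
  have hd : 0 < d := by omega
  have hd' : (0 : ℝ) < d := by exact_mod_cast hd
  have hR := abs_dot_le he he'
  have m1 := mixed_le hd h ha he he' (r := k + 1) (s := k + 1) (by omega) hR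
  have m2 := mixed_le hd h ha he he' (r := k + 1) (s := k) (by omega) hR
  have m3 := mixed_le hd h ha he he' (r := k) (s := k + 1) (by omega) hR
  have m4 := mixed_le hd h ha he he' (r := k) (s := k) (by omega) hR
  rw [mean_eq hd hN h ha he, mean_eq hd hN h ha he']
  set R2 := (e ⬝ᵥ e') ^ 2 with hR2
  have hR20 : 0 ≤ R2 := sq_nonneg _
  obtain ⟨s1, s2⟩ := sqrt_eqs hd (show 0 < 2 * k + 1 by omega)
  set T := Real.sqrt (d * (2 * k + 1 : ℕ)) with hT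
  have hTT : T * T = d * (2 * k + 1) := by
    rw [hT, Real.mul_self_sqrt (by positivity)]; push_cast; ring
  have hT0 : 0 < T := Real.sqrt_pos.mpr (by positivity)
  have hB := den_pos' hd (2 * k)
  have hF : (0 : ℝ) < ((2 * k - 1).doubleFactorial : ℝ) := by
    exact_mod_cast Nat.doubleFactorial_pos _
  have hG : (0 : ℝ) < ((4 * k - 1).doubleFactorial : ℝ) := by
    exact_mod_cast Nat.doubleFactorial_pos _
  have hk : (0 : ℝ) ≤ k := by positivity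
  have hpd' : 50 * (2 * (k : ℝ) + 1) ≤ d := by exact_mod_cast hpd
  -- double factorials
  have f1 : 2 * (k + 1) - 1 = 2 * k + 1 := by omega
  have f2 : 2 * (k + 1) + 2 * (k + 1) - 1 = 2 * (2 * k + 1) + 1 := by omega
  have f3 : 2 * (k + 1) + 2 * k - 1 = 2 * (2 * k) + 1 := by omega
  have f3' : 2 * k + 2 * (k + 1) - 1 = 2 * (2 * k) + 1 := by omega
  have f4 : 2 * k + 2 * k - 1 = 4 * k - 1 := by omega
  have f5 : 2 * (2 * k + 1) - 1 = 2 * (2 * k) + 1 := by omega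
  have f6 : 2 * (2 * k) - 1 = 4 * k - 1 := by omega
  have g1 : ((2 * (2 * k) + 1).doubleFactorial : ℝ) =
      (4 * k + 1) * ((4 * k - 1).doubleFactorial : ℝ) := by
    rw [df', f6]; push_cast; ring
  have g2 : ((2 * (2 * k + 1) + 1).doubleFactorial : ℝ) =
      (4 * k + 3) * ((4 * k + 1) * ((4 * k - 1).doubleFactorial : ℝ)) := by
    rw [df', f5, g1]; push_cast; ring
  have e0 : 2 * (k + 1) = 2 * k + 2 := by ring
  rw [f1, f2, g2, df', e0, den_succ'] at m1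
  rw [f1, f3, g1, df', e0, den_succ'] at m2
  rw [f1, f3', g1, df', e0, den_succ'] at m3
  rw [f4] at m4
  rw [f5, g1, df'] at h5
  rw [den_succ', df']
  set B := den d (2 * k)
  set F := ((2 * k - 1).doubleFactorial : ℝ)
  set G := ((4 * k - 1).doubleFactorial : ℝ)
  set c := 1 / 2 * (B * ((d : ℝ) + 2 * k) / ((2 * (k : ℝ) + 1) * F * d)) with hc
  have hc0 : 0 < c := by positivity
  set α := T / ((2 * k + 1 : ℕ) : ℝ) with hα
  set β := T / (d : ℝ) with hβ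
  have hα0 : 0 < α := by positivity
  have hβ0 : 0 < β := by positivity
  have expand : ∑ x, ω x * (bud d (2 * k + 1) (a ⬝ᵥ Q x *ᵥ e) * bud d (2 * k + 1) (a ⬝ᵥ Q x *ᵥ e')) =
      c * c * (α * α * ∑ x, ω x * ((a ⬝ᵥ Q x *ᵥ e) ^ (2 * k + 2) * (a ⬝ᵥ Q x *ᵥ e') ^ (2 * k + 2)) +
        α * β * ∑ x, ω x * ((a ⬝ᵥ Q x *ᵥ e) ^ (2 * k + 2) * (a ⬝ᵥ Q x *ᵥ e') ^ (2 * k)) +
        α * β * ∑ x, ω x * ((a ⬝ᵥ Q x *ᵥ e) ^ (2 * k) * (a ⬝ᵥ Q x *ᵥ e') ^ (2 * k + 2)) +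
        β * β * ∑ x, ω x * ((a ⬝ᵥ Q x *ᵥ e) ^ (2 * k) * (a ⬝ᵥ Q x *ᵥ e') ^ (2 * k))) := by
    simp only [Finset.mul_sum, ← Finset.sum_add_distrib]
    refine Finset.sum_congr rfl fun x _ => ?_
    unfold bud
    rw [s1, s2]
    simp only [show 2 * k + 1 + 1 = 2 * k + 2 by ring, show 2 * k + 1 - 1 = 2 * k by omega]
    rw [den_succ', df', hc, hα, hβ]
    ring
  rw [expand]
  have b1 := mul_le_mul_of_nonneg_left m1 (mul_nonneg (mul_nonneg hc0.le hc0.le) (mul_nonneg hα0.le hα0.le))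
  have b2 := mul_le_mul_of_nonneg_left m2 (mul_nonneg (mul_nonneg hc0.le hc0.le) (mul_nonneg hα0.le hβ0.le))
  have b3 := mul_le_mul_of_nonneg_left m3 (mul_nonneg (mul_nonneg hc0.le hc0.le) (mul_nonneg hα0.le hβ0.le))
  have b4 := mul_le_mul_of_nonneg_left m4 (mul_nonneg (mul_nonneg hc0.le hc0.le) (mul_nonneg hβ0.le hβ0.le))
  -- the final scalar bound
  have key := cov_scalar (d := (d : ℝ)) (k := (k : ℝ)) (B := B) (F := F) (G := G) (T := T)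
    (K := 2 ^ (2 * k + 1)) (R2 := R2) hd' hk hB hF hG hR20 (by rw [pow_two, hTT]) hpd' h5
  have hα' : α = T / (2 * (k : ℝ) + 1) := by rw [hα]; push_cast; rfl
  rw [← hc, ← hα', ← hβ] at key
  have mean_prod : (c * (α * ((2 * (k : ℝ) + 1) * F / (B * (d + 2 * k))) + β * (F / B))) *
      (c * (α * ((2 * (k : ℝ) + 1) * F / (B * (d + 2 * k))) + β * (F / B))) =
      c * c * (α * α) * ((2 * (k : ℝ) + 1) * F / (B * (d + 2 * k)) * ((2 * (k : ℝ) + 1) * F / (B * (d + 2 * k)))) +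
      c * c * (α * β) * ((2 * (k : ℝ) + 1) * F / (B * (d + 2 * k)) * (F / B)) +
      c * c * (α * β) * (F / B * ((2 * (k : ℝ) + 1) * F / (B * (d + 2 * k)))) +
      c * c * (β * β) * (F / B * (F / B)) := by ring
  rw [mean_prod]
  have b1' := b1
  have b2' := b2
  have b3' := b3
  have b4' := b4
  rw [mul_add] at b1' b2' b3' b4'
  have fin : c * c * (α * α * ∑ x, ω x * ((a ⬝ᵥ Q x *ᵥ e) ^ (2 * k + 2) * (a ⬝ᵥ Q x *ᵥ e') ^ (2 * k + 2)) +
        α * β * ∑ x, ω x * ((a ⬝ᵥ Q x *ᵥ e) ^ (2 * k + 2) * (a ⬝ᵥ Q x *ᵥ e') ^ (2 * k)) +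
        α * β * ∑ x, ω x * ((a ⬝ᵥ Q x *ᵥ e) ^ (2 * k) * (a ⬝ᵥ Q x *ᵥ e') ^ (2 * k + 2)) +
        β * β * ∑ x, ω x * ((a ⬝ᵥ Q x *ᵥ e) ^ (2 * k) * (a ⬝ᵥ Q x *ᵥ e') ^ (2 * k))) =
      c * c * (α * α) * ∑ x, ω x * ((a ⬝ᵥ Q x *ᵥ e) ^ (2 * k + 2) * (a ⬝ᵥ Q x *ᵥ e') ^ (2 * k + 2)) +
      c * c * (α * β) * ∑ x, ω x * ((a ⬝ᵥ Q x *ᵥ e) ^ (2 * k + 2) * (a ⬝ᵥ Q x *ᵥ e') ^ (2 * k)) +
      c * c * (α * β) * ∑ x, ω x * ((a ⬝ᵥ Q x *ᵥ e) ^ (2 * k) * (a ⬝ᵥ Q x *ᵥ e') ^ (2 * k + 2)) +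
      c * c * (β * β) * ∑ x, ω x * ((a ⬝ᵥ Q x *ᵥ e) ^ (2 * k) * (a ⬝ᵥ Q x *ᵥ e') ^ (2 * k)) := by ring
  rw [fin]
  linarith

end Pool.Agent.RU
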