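import Pool.Agent.Helper96.RU.A10
import Pool.Agent.Helper96.RU.B10
import Pool.Agent.Helper96.RU.C1
import Pool.Agent.Helper96.RU.N1
import Pool.Agent.Helper96.RU.N2
import Pool.Agent.Helper96.RU.N3

/-!
# The sharp upper bound: assembly (MP_a64d16_an)
-/

namespace Pool.Agent.RU

open Matrix Module Pool.Agent.Cube Filter

/-- Parts A and B together: a system of `n` vectors of `3 B` which represents all vectors of `B`
modulo a small subspace, with small coefficients. -/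
theorem exists_near {n : ℕ} (hn : 0 < n) {B : Set (Fin n → ℝ)} (hc : IsCompact B)
    (hconv : Convex ℝ B) (hsymm : ∀ z ∈ B, -z ∈ B) {r : ℝ} (hr : 0 < r)
    (hB : ∀ i : Fin n, Pi.single i r ∈ B) {E t δ η h : ℝ} {Q0 M0 f p : ℕ} (hE : 0 < E)
    (ht : 2 ≤ t) (hδ : 0 < δ) (hδ1 : δ ≤ 1) (hQ : t ^ 2 ≤ Q0) (hM0 : M0 ≤ n)
    (h60 : 60 * n / (δ * E) ≤ M0) (hQ0 : 0 < Q0) (hQ1 : E ≤ Q0) (hQ2 : (Q0 : ℝ) ≤ 2 * E)
    (hp : Odd p) (hpE : 4608 * (n : ℝ) ≤ p * E ^ 3) (hη : 0 < η) (hη1 : η ≤ 1) (hh : 0 < h)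
    (hgf : h ^ 2 * (Real.exp 1 * n / (f + 1)) ≤ E) :
    ∃ (y : Fin n → Fin n → ℝ) (L : Submodule ℝ (Fin n → ℝ)), (∀ i, (1 / 3 : ℝ) • y i ∈ B) ∧
      (finrank ℝ L : ℝ) ≤ 150 * p + 10240 * 2 ^ p * n / E ^ 2 +
        1296 * (2 * (2 * M0 * Q0 / t) / E + n * η / E) +
        1296 * (256 * 2 ^ p * (f + 4 * n / E) * (4 * Real.sqrt δ / η)) +
        256 * 2 ^ p * (4 * n / E) / h ^ 2 ∧
      ∀ z ∈ B, ∃ a : Fin n → ℝ, ∑ i, a i ^ 2 ≤ 324 * E ∧ (∑ i, a i • y i - z) ∈ L := by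
  obtain ⟨w, x, s, C, D, Sat, F, hT⟩ := exists_tamed hn hc hconv hsymm hr hB f hE ht hδ hδ1 hQ hM0
    h60
  obtain ⟨ρ, U, hρ, hU, hUt, hsol⟩ := signals hT.psd hT.frame hT.diag hE hT.row hT.hw Sat hT.light
    hδ.le hQ0 hQ1 hQ2 hT.projF hT.trF hp hpE hη hη1 hh hgf
  have hn0 : (0 : ℝ) < n := by exact_mod_cast hn
  have h0 : (0 : Fin n → ℝ) ∈ B := by
    have h1 := hB ⟨0, hn⟩
    have h2 := hconv h1 (hsymm _ h1) (by norm_num : (0 : ℝ) ≤ 1 / 2)
      (by norm_num : (0 : ℝ) ≤ 1 / 2) (by norm_num)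
    simpa using h2
  let Sm : (Fin w → ℝ) →ₗ[ℝ] (Fin n → ℝ) := Fintype.linearCombination ℝ s
  have hSm : ∀ u, Sm u = ∑ l, u l • s l := fun u => by
    simp [Sm, Fintype.linearCombination_apply]
  refine ⟨fun i => x i + ∑ l, ρ i l • s l, (LinearMap.range U.mulVecLin).map Sm, ?_, ?_, ?_⟩
  · intro i
    have h1 : ∑ l, ρ i l • s l ∈ B := abs_comb_mem hconv hsymm h0 hT.hs (hρ i)
    have h2 := hconv (hT.hx i) h1 (by norm_num : (0 : ℝ) ≤ 2 / 3)
      (by norm_num : (0 : ℝ) ≤ 1 / 3) (by norm_num)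
    rw [smul_smul] at h2
    rw [smul_add]
    norm_num at h2 ⊢
    exact h2
  · have h1 : (finrank ℝ ((LinearMap.range U.mulVecLin).map Sm) : ℝ) ≤ U.trace := by
      rw [← finrank_range_eq hU]
      exact_mod_cast Submodule.finrank_map_le Sm _
    refine h1.trans (hUt.trans ?_)
    have hw := hT.hw
    have hsat := hT.sat
    gcongr
  · intro z hz
    obtain ⟨α, β, hz1, hz2, hz3, hz4⟩ := hT.rep z hz
    obtain ⟨v, hv1, hv2⟩ := hsol α β hz2 hz3 hz4
    refine ⟨α + C *ᵥ v, ?_, ?_⟩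
    · -- the norm
      have hCv : (C *ᵥ v) ⬝ᵥ (C *ᵥ v) ≤ v ⬝ᵥ v := by
        have h1 : (C *ᵥ v) ⬝ᵥ (C *ᵥ v) + (D *ᵥ v) ⬝ᵥ (D *ᵥ v) = v ⬝ᵥ v := by
          have hDt : Dᵀ = D := by
            have := hT.psd.isHermitian
            rw [IsHermitian, conjTranspose_eq_transpose_of_trivial] at this
            exact this
          have e1 : (C *ᵥ v) ⬝ᵥ (C *ᵥ v) = v ⬝ᵥ (Cᵀ * C) *ᵥ v := by
            rw [← mulVec_mulVec, dotProduct_mulVec v, vecMul_transpose]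
          have e2 : (D *ᵥ v) ⬝ᵥ (D *ᵥ v) = v ⬝ᵥ (D * D) *ᵥ v := by
            rw [← mulVec_mulVec, dotProduct_mulVec v, ← mulVec_transpose, hDt]
          rw [e1, e2, ← dotProduct_add, ← add_mulVec, hT.frame, one_mulVec]
        have h2 : 0 ≤ (D *ᵥ v) ⬝ᵥ (D *ᵥ v) := dotProduct_self_nonneg' _
        linarith
      have hββ : 0 ≤ β ⬝ᵥ β := dotProduct_self_nonneg' _
      have hαα : α ⬝ᵥ α ≤ E := by linarith
      have hCC : (C *ᵥ v) ⬝ᵥ (C *ᵥ v) ≤ 289 * E := hCv.trans hv1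
      have hsum : ∑ i, (α + C *ᵥ v) i ^ 2 = (α + C *ᵥ v) ⬝ᵥ (α + C *ᵥ v) := by
        unfold dotProduct
        exact Finset.sum_congr rfl fun i _ => pow_two _
      -- `|α + u|² ≤ (1 + 17) |α|² + (1 + 1/17) |u|²`
      have h3 : 0 ≤ ((17 : ℝ) • α - C *ᵥ v) ⬝ᵥ ((17 : ℝ) • α - C *ᵥ v) :=
        dotProduct_self_nonneg' _
      rw [hsum]
      simp only [sub_dotProduct, dotProduct_sub, add_dotProduct, dotProduct_add, smul_dotProduct,
        dotProduct_smul, smul_eq_mul] at h3 ⊢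
      rw [dotProduct_comm (C *ᵥ v) α] at h3 ⊢
      linarith
    · -- the representation
      set r' : Fin w → ℝ := (Real.sqrt E • ρᵀ) *ᵥ (α + C *ᵥ v) - β - D *ᵥ v with hr'
      have hrU : U *ᵥ r' = r' := by
        rw [sub_mulVec, one_mulVec, sub_eq_zero] at hv2
        exact hv2.symm
      have hsqE : Real.sqrt (1 / E) * Real.sqrt E = 1 := by
        rw [← Real.sqrt_mul (by positivity), one_div, inv_mul_cancel₀ hE.ne', Real.sqrt_one]
      have key : ∑ i, (α + C *ᵥ v) i • (x i + ∑ l, ρ i l • s l) - z =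
          Sm (Real.sqrt (1 / E) • r') := by
        have hker := hT.ker v
        have e1 : ∀ a : Fin n → ℝ, ∑ i, a i • (x i + ∑ l, ρ i l • s l) =
            ∑ i, a i • x i + ∑ l, (ρᵀ *ᵥ a) l • s l := by
          intro a
          simp only [smul_add, Finset.sum_add_distrib, Finset.smul_sum, smul_smul]
          congr 1
          rw [Finset.sum_comm]
          refine Finset.sum_congr rfl fun l _ => ?_
          rw [← Finset.sum_smul]
          congr 1
          simp only [mulVec, dotProduct, transpose_apply]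
          exact Finset.sum_congr rfl fun i _ => mul_comm _ _
        have e2 : ∑ i, (α + C *ᵥ v) i • x i = ∑ i, α i • x i + ∑ i, (C *ᵥ v) i • x i := by
          simp only [Pi.add_apply, add_smul, Finset.sum_add_distrib]
        have e3 : ∑ l, (Real.sqrt (1 / E) • r') l • s l =
            ∑ l, (ρᵀ *ᵥ (α + C *ᵥ v)) l • s l - ∑ l, (Real.sqrt (1 / E) * β l) • s l -
              ∑ l, (Real.sqrt (1 / E) * (D *ᵥ v) l) • s l := by
          rw [← Finset.sum_sub_distrib, ← Finset.sum_sub_distrib]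
          refine Finset.sum_congr rfl fun l _ => ?_
          rw [← sub_smul, ← sub_smul]
          congr 1
          rw [hr']
          simp only [Pi.smul_apply, Pi.sub_apply, smul_mulVec, smul_eq_mul]
          rw [mul_sub, mul_sub, ← mul_assoc, hsqE, one_mul]
        rw [hSm, e1, e2, e3, eq_neg_of_add_eq_zero_left hker]
        rw [sub_eq_iff_eq_add]
        conv_rhs => rw [hz1]
        abel
      show ∑ i, (α + C *ᵥ v) i • (x i + ∑ l, ρ i l • s l) - z ∈ _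
      rw [key]
      refine Submodule.mem_map_of_mem ?_
      refine ⟨Real.sqrt (1 / E) • r', ?_⟩
      rw [mulVecLin_apply, mulVec_smul, hrU]

/-- The sharp bound: every symmetric convex body of large dimension `n` contains `n` vectors such
that every vector of the body is a combination of them with coefficients of sum at most
`C n ^ (2/3) / (log n) ^ (1/6)`. -/
theorem cube_basis_sharp : ∃ C : ℝ, 0 < C ∧ ∃ n0 : ℕ, ∀ n : ℕ, n0 ≤ n →
    ∀ (B : Set (Fin n → ℝ)), IsCompact B → Convex ℝ B → (∀ z ∈ B, -z ∈ B) →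
    ∀ r : ℝ, 0 < r → (∀ i : Fin n, Pi.single i r ∈ B) →
    ∃ b : Fin n → Fin n → ℝ, (∀ i, b i ∈ B) ∧
      ∀ z ∈ B, ∃ c : Fin n → ℝ, z = ∑ i, c i • b i ∧ ∑ i, |c i| ≤ C * RR n := by
  -- the constant
  obtain ⟨n0, hn0⟩ := eventually_atTop.1 (params_ok.and (small_ab.and (small_c.and
    (small_d.and (main_terms.and (eventually_ge_atTop 1))))))
  refine ⟨2 * (2324 + 64 * 200 * 324 + 1), by norm_num, n0, fun n hn B hc hconv hsymm r hr hB => ?_⟩
  obtain ⟨⟨hL, hE1, ht, hδ, hδ1, hQ, hM0, h60, hQ0, hQ1, hQ2, hp, hpE, hh, hgf, hκ⟩,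
    ⟨ha, hb⟩, hcc, hd, ⟨hm1, hm2, hm3, hm4⟩, hn1⟩ := hn0 n hn
  have hE : 0 < eN n := by linarith
  have hL0 : 0 < Real.log n := by linarith
  have hR : 0 ≤ RR n := by
    have : 0 ≤ 150 * (pN n : ℝ) := by positivity
    linarith
  obtain ⟨y, L, hy, hLd, happ⟩ := exists_near hn1 hc hconv hsymm hr hB (f := fN n) hE ht hδ hδ1 hQ
    hM0 h60 hQ0 hQ1 hQ2 hp hpE (η := 1 / Real.log n) (by positivity)
    (by rw [div_le_one hL0]; exact hL) hh hgf
  have hLd' : (finrank ℝ L : ℝ) ≤ 2324 * RR n := by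
    refine hLd.trans ?_
    have h1 : 1296 * (2 * (2 * ↑(mN n) * ↑(qN n) / tN n) / eN n + ↑n * (1 / Real.log ↑n) / eN n) =
      1296 * (2 * (2 * ↑(mN n) * ↑(qN n) / tN n) / eN n) +
      1296 * (↑n * (1 / Real.log ↑n) / eN n) := by ring
    rw [h1]
    linarith
  obtain ⟨b, hb1, hb2⟩ := basis_of_approx hn1 hc hconv hsymm hr hB y hy L hLd'
    (by positivity : 0 ≤ 324 * eN n) hκ happ
  refine ⟨b, hb1, fun z hz => ?_⟩
  obtain ⟨c, hc1, hc2⟩ := hb2 z hz
  refine ⟨c, hc1, hc2.trans ?_⟩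
  set d' : ℝ := 2324 * RR n + 64 * kN n * (324 * eN n) with hd'
  have h1 : d' ≤ (2324 + 64 * 200 * 324) * RR n := by
    rw [hd']
    nlinarith
  have h0 : 0 ≤ d' := by
    rw [hd']
    have : 0 ≤ kN n * eN n := by positivity
    nlinarith
  have h2 : (n / kN n + d') * d' ≤ ((2324 + 64 * 200 * 324 + 1) * RR n) ^ 2 := by
    rw [pow_two]
    refine mul_le_mul ?_ ?_ h0 (by positivity)
    · linarith
    · linarith
  have h3 := Real.sqrt_le_sqrt h2
  rw [Real.sqrt_sq (by positivity)] at h3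
  linarith

end Pool.Agent.RU
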